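import Pool.Graph.R_pool_sql_team_seeded_35f281b4.K7.H32.SB.Full

/-!
# Special braids of given exponent sum

Helper file for `MP_c15459_al`.
-/

set_option autoImplicit false

namespace Pool.Agent.H22.SBE

open Pool.Agent.K7.H32.SB

/-- The exponent sum (the abelianisation) of a braid, as an integer. -/
def expSum (g : Binf) : ℤ := Multiplicative.toAdd (ex g)

/-- The set of special braids in `B_n` with exponent sum `e`. -/
def SpecialOf (n : ℕ) (e : ℤ) : Set Binf := {g | Special g ∧ g ∈ B n ∧ expSum g = e}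

theorem expSum_mul (g h : Binf) : expSum (g * h) = expSum g + expSum h := by
  simp [expSum]

theorem expSum_one : expSum 1 = 0 := by simp [expSum]

theorem expSum_s (i : ℕ) : expSum (s i) = 1 := by simp [expSum]

theorem expSum_inv (g : Binf) : expSum g⁻¹ = - expSum g := by simp [expSum]

theorem expSum_sh (g : Binf) : expSum (sh g) = expSum g := by simp [expSum, ex_sh]

theorem expSum_op (a b : Binf) : expSum (op a b) = expSum b + 1 := by
  rw [op, expSum_mul, expSum_mul, expSum_mul, expSum_inv, expSum_sh, expSum_sh, expSum_s]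
  ring

theorem expSum_comb (l : List Binf) : expSum (comb l) = l.length := by
  rw [expSum, ex_comb]; rfl

theorem expSum_tau (k : ℕ) : expSum (tau k) = k := by
  rw [expSum, ex_tau]; rfl

theorem B_one {g : Binf} (h : g ∈ B 1) : g = 1 := by
  unfold B at h
  induction h using Subgroup.closure_induction with
  | mem x hx => obtain ⟨i, hi, -⟩ := hx; omega
  | one => rfl
  | mul x y _ _ hx hy => rw [hx, hy, one_mul]
  | inv x _ hx => rw [hx, inv_one]

theorem sh_injective : Function.Injective sh := by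
  intro g h hgh
  have h1 : sh (g * h⁻¹) = 1 := by rw [map_mul, map_inv, hgh, mul_inv_cancel]
  have h2 : g * h⁻¹ ∈ B (1 - 1) := unsh_mem le_rfl (by rw [h1]; exact one_mem _)
  have h3 := B_one (B_mono (by omega) h2)
  exact mul_inv_eq_one.1 h3

theorem exists_min (g : Binf) : ∃ a, g ∈ B a ∧ ∀ b < a, g ∉ B b := by
  classical
  have hex : ∃ a, g ∈ B a := exists_mem _
  exact ⟨Nat.find hex, Nat.find_spec hex, fun b hb => Nat.find_min hex hb⟩

/-- the centraliser-type property of `τ_k` -/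
theorem mem_of_comm {k : ℕ} (hk : 1 ≤ k) {w : Binf} (h : w * tau k = tau k * sh w) :
    w ∈ B k := by
  obtain ⟨a, ha, hmin⟩ := exists_min w
  by_cases hka : a ≤ k
  · exact B_mono hka ha
  · exfalso
    have h1 : sh w = (tau k)⁻¹ * (w * tau k) := by rw [h]; group
    have ht : tau k ∈ B a := B_mono (by omega) (tau_mem k)
    have h2 : sh w ∈ B a := by
      rw [h1]; exact mul_mem (inv_mem ht) (mul_mem ha ht)
    exact hmin (a - 1) (by omega) (unsh_mem (by omega) h2)

/-- two right combs of length `k` agree only if their products agree modulo `B_k` -/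
theorem mem_of_conj_eq {k : ℕ} (hk : 1 ≤ k) {x y : Binf}
    (h : x * tau k * (sh x)⁻¹ = y * tau k * (sh y)⁻¹) : x⁻¹ * y ∈ B k := by
  apply mem_of_comm hk
  rw [map_mul, map_inv]
  have h2 : y * tau k = x * tau k * (sh x)⁻¹ * sh y := by rw [h]; group
  calc x⁻¹ * y * tau k = x⁻¹ * (y * tau k) := by group
    _ = x⁻¹ * (x * tau k * (sh x)⁻¹ * sh y) := by rw [h2]
    _ = _ := by group

theorem op_one_eq (x : Binf) : op x 1 = x * tau 1 * (sh x)⁻¹ := by
  rw [op, map_one, mul_one]; simp [tau]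

theorem op_one_injective : Function.Injective (fun x : Binf => op x 1) := by
  intro x y h
  have h1 : x * tau 1 * (sh x)⁻¹ = y * tau 1 * (sh y)⁻¹ := by
    rw [← op_one_eq, ← op_one_eq]; exact h
  have h2 := B_one (mem_of_conj_eq le_rfl h1)
  exact inv_mul_eq_one.1 h2

theorem one_op_eq (x : Binf) : op 1 x = sh x * s 0 := by simp [op]

theorem one_op_injective : Function.Injective (fun x : Binf => op 1 x) := by
  intro x y h
  have h1 : sh x * s 0 = sh y * s 0 := by rw [← one_op_eq, ← one_op_eq]; exact h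
  exact sh_injective (mul_right_cancel h1)

/-- the dichotomy for right combs in `B_n` -/
theorem dichotomyN (n : ℕ) (l : List Binf) (h : comb l ∈ B n) :
    comb l = tau l.length ∨ (pr l ∈ B (n - 1) ∧ l.length + 2 ≤ n) := by
  by_cases hk : pr l ∈ B l.length
  · left
    rw [comb_eq, mul_tau hk, mul_inv_cancel_right]
  · right
    obtain ⟨a, ha, hmin⟩ := exists_min (pr l)
    have hka : l.length < a := by
      by_contra hc
      exact hk (B_mono (by omega) ha)
    have ha3 : a < n := by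
      by_contra hc
      have h1 : sh (pr l) = (comb l)⁻¹ * (pr l * tau l.length) := by
        rw [comb_eq]; group
      have h2 : sh (pr l) ∈ B a := by
        rw [h1]
        exact mul_mem (inv_mem (B_mono (by omega) h))
          (mul_mem ha (B_mono (by omega) (tau_mem l.length)))
      exact hmin (a - 1) (by omega) (unsh_mem (by omega) h2)
    exact ⟨B_mono (by omega) ha, by omega⟩

theorem tau_special (k : ℕ) : Special (tau k) := by
  induction k with
  | zero => exact Special.one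
  | succ k ih =>
    rw [← sh_tau, ← one_op_eq]
    exact Special.op Special.one ih

theorem length_lt {n : ℕ} (hn : 1 ≤ n) {l : List Binf} (h : comb l ∈ B n) : l.length < n := by
  rcases dichotomyN n l h with h1 | ⟨-, h1⟩
  · exact T_not_InG hn (by rw [← h1]; exact InG_Phi h)
  · omega

/-- the exponent sum of a special braid in `B_n` lies between `0` and `n - 1` -/
theorem range_expSum {n : ℕ} (hn : 1 ≤ n) {e : ℤ} (h : (SpecialOf n e).Nonempty) :
    0 ≤ e ∧ e < n := by
  obtain ⟨g, h1, h2, h3⟩ := h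
  obtain ⟨l, -, rfl⟩ := special_comb h1
  rw [expSum_comb] at h3
  have := length_lt hn h2
  omega

theorem set_zero (n : ℕ) : SpecialOf n 0 = {1} := by
  ext g
  constructor
  · rintro ⟨h1, -, h3⟩
    obtain ⟨l, -, rfl⟩ := special_comb h1
    rw [expSum_comb] at h3
    have : l = [] := List.length_eq_zero_iff.1 (by omega)
    rw [this]; rfl
  · rintro rfl
    exact ⟨Special.one, one_mem _, expSum_one⟩

theorem set_top (k : ℕ) : SpecialOf (k + 1) k = {tau k} := by
  ext g
  constructor
  · rintro ⟨h1, h2, h3⟩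
    obtain ⟨l, -, rfl⟩ := special_comb h1
    rw [expSum_comb] at h3
    have hl : l.length = k := by omega
    rcases dichotomyN (k + 1) l h2 with h4 | ⟨-, h4⟩
    · rw [h4, hl]; rfl
    · omega
  · rintro rfl
    exact ⟨tau_special k, tau_mem k, expSum_tau k⟩

/-- the special braids in `B_{n+1}` of exponent sum one -/
theorem set_one {n : ℕ} (hn : 1 ≤ n) :
    SpecialOf (n + 1) 1 = (fun x => op x 1) '' SpecialIn n := by
  ext g
  constructor
  · rintro ⟨h1, h2, h3⟩
    obtain ⟨l, hl, rfl⟩ := special_comb h1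
    rw [expSum_comb] at h3
    obtain ⟨x, rfl⟩ := List.length_eq_one_iff.1 (show l.length = 1 by omega)
    have hx : Special x := hl x (by simp)
    rcases dichotomyN (n + 1) [x] h2 with h4 | ⟨h4, -⟩
    · refine ⟨1, ⟨Special.one, one_mem _⟩, ?_⟩
      rw [h4]
      simp [tau, op]
    · have hp : pr [x] = x := by simp [pr]
      rw [hp] at h4
      exact ⟨x, ⟨hx, h4⟩, rfl⟩
  · rintro ⟨x, ⟨h1, h2⟩, rfl⟩
    refine ⟨Special.op h1 Special.one, ?_, ?_⟩
    · change op x 1 ∈ _
      rw [op]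
      exact mul_mem (mul_mem (mul_mem (B_mono (by omega) h2) (by rw [map_one]; exact one_mem _))
        (s_mem (by omega))) (inv_mem (sh_mem h2))
    · change expSum (op x 1) = _
      rw [expSum_op, expSum_one]; norm_num

theorem ncard_one {n : ℕ} (hn : 1 ≤ n) : (SpecialOf (n + 1) 1).ncard = (SpecialIn n).ncard := by
  rw [set_one hn, Set.ncard_image_of_injective _ op_one_injective]

theorem mono_of {m n : ℕ} (h : m ≤ n) (e : ℤ) : SpecialOf m e ⊆ SpecialOf n e :=
  fun _ hg => ⟨hg.1, B_mono h hg.2.1, hg.2.2⟩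

theorem up {n : ℕ} (hn : 1 ≤ n) {e : ℤ} (h : (SpecialOf n e).Infinite) :
    (SpecialOf (n + 1) (e + 1)).Infinite := by
  refine (h.image one_op_injective.injOn).mono ?_
  rintro _ ⟨x, ⟨h1, h2, h3⟩, rfl⟩
  refine ⟨Special.op Special.one h1, ?_, ?_⟩
  · change op 1 x ∈ _
    rw [one_op_eq]
    exact mul_mem (sh_mem h2) (s_mem (by omega))
  · change expSum (op 1 x) = _
    rw [expSum_op, h3]

/-! ### The two infinite families in `B_5` -/

theorem inf53 : (SpecialOf 5 3).Infinite := by
  refine (Set.infinite_range_of_injective y_injective).mono ?_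
  rintro z ⟨k, rfl⟩
  refine ⟨y_special k, y_mem k, ?_⟩
  rw [y, expSum_op, expSum_op, expSum_op, expSum_one]
  norm_num

/-- the product of the comb `z_k` -/
def gz (k : ℕ) : Binf := rho k * s 2 * s 1

/-- `z_k = a_{k+3} ∧ ((1 ∧ (1 ∧ a_k)) ∧ 1)` -/
def z (k : ℕ) : Binf := op (a (k + 3)) (op (op 1 (op 1 (a k))) 1)

theorem gz_mem (k : ℕ) : gz k ∈ B 4 :=
  mul_mem (mul_mem (rho_mem k) (s_mem (by omega))) (s_mem (by omega))

theorem z_eq (k : ℕ) : z k = gz k * tau 2 * (sh (gz k))⁻¹ := by
  have h := comb_eq [a (k + 3), op 1 (op 1 (a k))]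
  have h1 : pr [a (k + 3), op 1 (op 1 (a k))] = gz k := by
    rw [pr, pr, pr, gz, rho, one_op_eq, one_op_eq]
    simp only [map_mul, map_one, mul_one, sh_s]
    group
  have h2 : comb [a (k + 3), op 1 (op 1 (a k))] = z k := rfl
  rw [h1, h2] at h
  exact h

theorem z_special (k : ℕ) : Special (z k) :=
  Special.op (a_special _) (Special.op (Special.op Special.one
    (Special.op Special.one (a_special _))) Special.one)

theorem z_mem (k : ℕ) : z k ∈ B 5 := by
  rw [z_eq]
  exact mul_mem (mul_mem (B_mono (by omega) (gz_mem k)) (B_mono (by omega) (tau_mem 2)))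
    (inv_mem (sh_mem (gz_mem k)))

/-- the vector `(0, 0, 1, 0, 0, …)` -/
def v3 : V := cons 0 (cons 0 (cons 1 (fun _ => 0)))

theorem Phi_gz (k : ℕ) : Phi (gz k) v3 3 = ((k : ℤ) + 1) * (k + 2) := by
  have e0 : v3 0 = 0 := rfl
  have e1 : v3 1 = 0 := rfl
  have e2 : v3 2 = 1 := rfl
  have e3 : v3 3 = 0 := rfl
  rw [gz, rho_eq]
  simp only [map_mul, map_inv, map_pow, Phi_s, Equiv.Perm.mul_apply, S_pow, S_inv_pow, S_apply,
    fw]
  norm_num [e0, e1, e2, e3]

theorem Phi_fix {g : Binf} (h : g ∈ B 2) : Phi g v3 = v3 := by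
  unfold B at h
  induction h using Subgroup.closure_induction with
  | mem x hx =>
    obtain ⟨i, hi, rfl⟩ := hx
    obtain rfl : i = 0 := by omega
    rw [Phi_s, S_apply]
    funext j
    simp only [fw]
    split_ifs with h1 h2
    · subst h1; simp [v3]
    · subst h2; simp [v3]
    · rfl
  | one => rw [map_one]; rfl
  | mul x y _ _ hx hy => rw [map_mul, Equiv.Perm.mul_apply, hy, hx]
  | inv x _ hx => rw [map_inv, Equiv.Perm.inv_eq_iff_eq, hx]

theorem z_injective : Function.Injective z := by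
  intro k l h
  rw [z_eq, z_eq] at h
  have h1 := Phi_fix (mem_of_conj_eq (by norm_num) h)
  have h2 : Phi (gz l) v3 = Phi (gz k) v3 := by
    rw [map_mul, map_inv, Equiv.Perm.mul_apply, Equiv.Perm.inv_eq_iff_eq] at h1
    exact h1
  have h3 := Phi_gz k
  rw [← h2, Phi_gz l] at h3
  have h4 : ((l : ℤ) - k) * (l + k + 3) = 0 := by linear_combination h3
  rcases mul_eq_zero.1 h4 with h5 | h5 <;> omega

theorem inf52 : (SpecialOf 5 2).Infinite := by
  refine (Set.infinite_range_of_injective z_injective).mono ?_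
  rintro w ⟨k, rfl⟩
  refine ⟨z_special k, z_mem k, ?_⟩
  rw [z, expSum_op, expSum_op, expSum_one]
  norm_num

theorem inf61 : (SpecialOf 6 1).Infinite := by
  rw [set_one (by norm_num : 1 ≤ 5)]
  exact (count5 5 le_rfl).image op_one_injective.injOn

theorem infShift (m : ℕ) : (SpecialOf (5 + m) (3 + m)).Infinite := by
  induction m with
  | zero => exact inf53
  | succ m ih =>
    have := up (by omega) ih
    have e : ((3 : ℤ) + m + 1) = 3 + (m + 1 : ℕ) := by push_cast; ring
    rw [e] at this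
    exact this

/-- infinitely many special braids for all interior exponent sums -/
theorem infAll {n : ℕ} (hn : 5 ≤ n) {e : ℤ} (h1 : 1 ≤ e) (h2 : e + 2 ≤ n)
    (h3 : n = 5 → e ≠ 1) : (SpecialOf n e).Infinite := by
  by_cases he1 : e = 1
  · subst he1
    have hn6 : 6 ≤ n := by
      rcases Nat.lt_or_ge n 6 with h | h
      · exact absurd rfl (h3 (by omega))
      · exact h
    exact inf61.mono (mono_of hn6 1)
  by_cases he2 : e = 2
  · subst he2
    exact inf52.mono (mono_of hn 2)
  obtain ⟨m, rfl⟩ : ∃ m : ℕ, e = 3 + m := ⟨(e - 3).toNat, by omega⟩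
  exact (infShift m).mono (mono_of (by omega) _)

/-! ### Four strands, exponent sum two -/

theorem expSum_ten (i : Fin 10) : expSum (ten i) =
    (![0, 1, 2, 1, 3, 1, 2, 1, 2, 2] : Fin 10 → ℤ) i := by
  fin_cases i <;>
    simp [ten, expSum_op, expSum_mul, expSum_inv, expSum_s, expSum_one]

theorem ncard42 : (SpecialOf 4 2).ncard = 4 := by
  have h : SpecialOf 4 2 = ten '' {2, 6, 8, 9} := by
    ext g
    constructor
    · rintro ⟨h1, h2, h3⟩
      have h4 : g ∈ SpecialIn 4 := ⟨h1, h2⟩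
      rw [set4] at h4
      obtain ⟨i, rfl⟩ := h4
      refine ⟨i, ?_, rfl⟩
      rw [expSum_ten] at h3
      revert h3
      fin_cases i <;> simp
    · rintro ⟨i, hi, rfl⟩
      refine ⟨ten_special i, ten_mem i, ?_⟩
      rw [expSum_ten]
      rcases hi with rfl | rfl | rfl | rfl <;> rfl
  rw [h, Set.ncard_image_of_injective _ ten_injective]
  have h2 : ({2, 6, 8, 9} : Set (Fin 10)) = (({2, 6, 8, 9} : Finset (Fin 10)) : Set (Fin 10)) := by
    simp
  rw [h2, Set.ncard_coe_finset]
  decide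

/-! ### Braids that really need `n` strands -/

/-- the special braids of exponent sum `e` that belong to `B_n` but not to `B_{n-1}` -/
def NewOf (n : ℕ) (e : ℤ) : Set Binf := {g | g ∈ SpecialOf n e ∧ g ∉ B (n - 1)}

theorem new_up {n : ℕ} (hn : 1 ≤ n) {e : ℤ} (h : (NewOf n e).Infinite) :
    (NewOf (n + 1) (e + 1)).Infinite := by
  refine (h.image one_op_injective.injOn).mono ?_
  rintro _ ⟨x, ⟨⟨h1, h2, h3⟩, h4⟩, rfl⟩
  change op 1 x ∈ _
  refine ⟨⟨Special.op Special.one h1, ?_, ?_⟩, ?_⟩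
  · rw [one_op_eq]
    exact mul_mem (sh_mem h2) (s_mem (by omega))
  · rw [expSum_op, h3]
  · intro h5
    by_cases hn2 : 2 ≤ n
    · rw [one_op_eq] at h5
      have h6 : sh x ∈ B n := by
        have := mul_mem h5 (inv_mem (s_mem (i := 0) (n := n + 1 - 1) (by omega)))
        rwa [mul_inv_cancel_right] at this
      exact h4 (unsh_mem (by omega) h6)
    · obtain rfl : n = 1 := by omega
      have h6 : x = 1 := B_one h2
      exact h4 (by rw [h6]; exact one_mem _)

theorem new_of_fin {n : ℕ} {e : ℤ} (h : (SpecialOf n e).Infinite)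
    (h' : (SpecialOf (n - 1) e).Finite) : (NewOf n e).Infinite := by
  refine (h.sdiff h').mono ?_
  rintro g ⟨h1, h2⟩
  exact ⟨h1, fun h3 => h2 ⟨h1.1, h3, h1.2.2⟩⟩

theorem fin4 (e : ℤ) : (SpecialOf 4 e).Finite := by
  refine (Set.finite_range ten).subset ?_
  rintro g ⟨h1, h2, -⟩
  exact sub4 ⟨h1, h2⟩

theorem new52 : (NewOf 5 2).Infinite := new_of_fin inf52 (fin4 2)

theorem new53 : (NewOf 5 3).Infinite := new_of_fin inf53 (fin4 3)

/-- the map `x ↦ x ∧ 1` -/
theorem new_one {n : ℕ} (hn : 6 ≤ n) {e : ℤ} (h : (NewOf (n - 1) e).Infinite) :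
    (NewOf n 1).Infinite := by
  obtain ⟨m, rfl⟩ : ∃ m, n = m + 1 := ⟨n - 1, by omega⟩
  rw [show m + 1 - 1 = m from rfl] at h
  refine (h.image op_one_injective.injOn).mono ?_
  rintro _ ⟨x, ⟨⟨h1, h2, h3⟩, h4⟩, rfl⟩
  refine ⟨?_, ?_⟩
  · rw [set_one (by omega)]
    exact ⟨x, ⟨h1, h2⟩, rfl⟩
  · intro h5
    change op x 1 ∈ B m at h5
    rw [op_one_eq] at h5
    apply h4
    apply unsh_mem (by omega)
    have h6 : sh x = (x * tau 1 * (sh x)⁻¹)⁻¹ * (x * tau 1) := by group
    rw [h6]
    exact mul_mem (inv_mem h5) (mul_mem h2 (B_mono (by omega) (tau_mem 1)))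

/-- the vector `Φ(y_k) (0,0,1,0,…)` has fifth coordinate `-(k+2)(k+4)` -/
theorem Phi_y3 (k : ℕ) : Phi (y k) v3 4 = - (((k : ℤ) + 2) * (k + 4)) := by
  have e0 : v3 0 = 0 := rfl
  have e1 : v3 1 = 0 := rfl
  have e2 : v3 2 = 1 := rfl
  have e3 : v3 3 = 0 := rfl
  have e4 : v3 4 = 0 := rfl
  rw [y_eq, rho_eq]
  simp only [map_mul, map_inv, map_pow, Phi_s, sh_s, mul_inv_rev, inv_inv,
    Equiv.Perm.mul_apply, S_pow, S_inv_pow, S_apply, S_inv_apply, fw, bw]
  norm_num [e0, e1, e2, e3, e4]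
  left
  ring

/-- the map `x ↦ x ∧ σ_1` on the family `y` -/
theorem op_s0_eq (x : Binf) : op x (s 0) = x * tau 2 * (sh x)⁻¹ := by
  rw [op, sh_s]; simp [tau]; group

theorem y_s0_injective : Function.Injective (fun k => op (y k) (s 0)) := by
  intro k l h
  have h0 : y k * tau 2 * (sh (y k))⁻¹ = y l * tau 2 * (sh (y l))⁻¹ := by
    rw [← op_s0_eq, ← op_s0_eq]; exact h
  have h1 := Phi_fix (mem_of_conj_eq (by norm_num) h0)
  have h2 : Phi (y l) v3 = Phi (y k) v3 := by
    rw [map_mul, map_inv, Equiv.Perm.mul_apply, Equiv.Perm.inv_eq_iff_eq] at h1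
    exact h1
  have h3 := Phi_y3 k
  rw [← h2, Phi_y3 l] at h3
  have h4 : ((l : ℤ) - k) * (l + k + 6) = 0 := by linear_combination -h3
  rcases mul_eq_zero.1 h4 with h5 | h5 <;> omega

theorem new62 : (NewOf 6 2).Infinite := by
  have hfin : {k : ℕ | y k ∈ B 4}.Finite := by
    refine Set.Finite.preimage y_injective.injOn (s := Set.range ten) (Set.finite_range ten) |>.subset ?_
    intro k hk
    exact sub4 ⟨y_special k, hk⟩
  have hinf : {k : ℕ | y k ∈ B 4}ᶜ.Infinite := hfin.infinite_compl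
  refine (hinf.image y_s0_injective.injOn).mono ?_
  rintro _ ⟨k, hk, rfl⟩
  have hk' : y k ∉ B 4 := hk
  change op (y k) (s 0) ∈ _
  refine ⟨⟨Special.op (y_special k) special_s0, ?_, ?_⟩, ?_⟩
  · rw [op_s0_eq]
    exact mul_mem (mul_mem (B_mono (by omega) (y_mem k)) (B_mono (by omega) (tau_mem 2)))
      (inv_mem (sh_mem (y_mem k)))
  · rw [expSum_op, expSum_s]; norm_num
  · intro h5
    rw [op_s0_eq] at h5
    apply hk'
    refine unsh_mem (N := 5) (by omega) ?_
    have h6 : sh (y k) = (y k * tau 2 * (sh (y k))⁻¹)⁻¹ * (y k * tau 2) := by group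
    rw [h6]
    exact mul_mem (inv_mem h5) (mul_mem (y_mem k) (B_mono (by omega) (tau_mem 2)))

theorem newShift {n : ℕ} (hn : 1 ≤ n) {e : ℤ} (h : (NewOf n e).Infinite) (m : ℕ) :
    (NewOf (n + m) (e + m)).Infinite := by
  induction m with
  | zero => simpa using h
  | succ m ih =>
    have := new_up (by omega) ih
    have e' : (e + (m : ℤ) + 1) = e + ((m + 1 : ℕ) : ℤ) := by push_cast; ring
    rw [e'] at this
    exact this

theorem new_e1 {n : ℕ} (hn : 6 ≤ n) : (NewOf n 1).Infinite := by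
  obtain ⟨m, rfl⟩ : ∃ m, n = 5 + m + 1 := ⟨n - 6, by omega⟩
  refine new_one (e := 3 + m) hn ?_
  exact newShift (by norm_num) new53 m

theorem newAll {n : ℕ} (hn : 5 ≤ n) {e : ℤ} (h1 : 1 ≤ e) (h2 : e + 2 ≤ n)
    (h3 : n = 5 → e ≠ 1) : (NewOf n e).Infinite := by
  obtain ⟨j, rfl⟩ : ∃ j : ℕ, e = 1 + j := ⟨(e - 1).toNat, by omega⟩
  by_cases h6 : 6 + j ≤ n
  · obtain ⟨m, rfl⟩ : ∃ m, n = 6 + m + j := ⟨n - 6 - j, by omega⟩
    exact newShift (by omega) (new_e1 (n := 6 + m) (by omega)) j
  · -- `n - e` is `2`, `3` or `4`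
    have hj : 1 ≤ j := by
      by_contra hc
      have : j = 0 := by omega
      subst this
      exact h3 (by omega) (by norm_num)
    by_cases c1 : n = 5 + j
    · obtain ⟨i, rfl⟩ : ∃ i, j = 1 + i := ⟨j - 1, by omega⟩
      have := newShift (by norm_num) new62 i
      have a1 : n = 6 + i := by omega
      have a2 : (1 : ℤ) + ((1 + i : ℕ) : ℤ) = 2 + i := by push_cast; ring
      rw [a1, a2]
      exact this
    by_cases c2 : n = 4 + j
    · obtain ⟨i, rfl⟩ : ∃ i, j = 1 + i := ⟨j - 1, by omega⟩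
      have := newShift (by norm_num) new52 i
      have a1 : n = 5 + i := by omega
      have a2 : (1 : ℤ) + ((1 + i : ℕ) : ℤ) = 2 + i := by push_cast; ring
      rw [a1, a2]
      exact this
    · obtain ⟨i, rfl⟩ : ∃ i, j = 2 + i := ⟨j - 2, by omega⟩
      have := newShift (by norm_num) new53 i
      have a1 : n = 5 + i := by omega
      have a2 : (1 : ℤ) + ((2 + i : ℕ) : ℤ) = 3 + i := by push_cast; ring
      rw [a1, a2]
      exact this

end Pool.Agent.H22.SBE
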