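import Pool.Agent.H22.SBE.Words

/-!
# Infinitely many conjugacy classes
-/

set_option autoImplicit false

namespace Pool.Agent.H22.SBE

open Pool.Agent.K7.H32.SB

/-- the unit vectors -/
def ev (j : ℕ) : V := fun i => if i = j then 1 else 0

/-- linear permutations of the module of sequences -/
def Lin (P : Equiv.Perm V) : Prop :=
  (∀ v w : V, P (fun i => v i + w i) = fun i => P v i + P w i) ∧
    ∀ (c : ℤ) (v : V), P (fun i => c * v i) = fun i => c * P v i

theorem Lin_one : Lin 1 := ⟨fun _ _ => rfl, fun _ _ => rfl⟩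

theorem Lin_mul {P Q : Equiv.Perm V} (hP : Lin P) (hQ : Lin Q) : Lin (P * Q) := by
  refine ⟨fun v w => ?_, fun c v => ?_⟩
  · rw [Equiv.Perm.mul_apply, hQ.1, hP.1]; rfl
  · rw [Equiv.Perm.mul_apply, hQ.2, hP.2]; rfl

theorem Lin_inv {P : Equiv.Perm V} (hP : Lin P) : Lin P⁻¹ := by
  have e : ∀ v, P (P⁻¹ v) = v := fun v => P.apply_symm_apply v
  refine ⟨fun v w => ?_, fun c v => ?_⟩
  · apply P.injective
    rw [e, hP.1, e, e]
  · apply P.injective
    rw [e, hP.2, e]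

theorem Lin_S (i : ℕ) : Lin (S i) := by
  refine ⟨fun v w => ?_, fun c v => ?_⟩
  · funext j
    simp only [S_apply, fw]
    split_ifs <;> ring
  · funext j
    simp only [S_apply, fw]
    split_ifs <;> ring

theorem Lin_Phi (g : Binf) : Lin (Phi g) := by
  have hg : g ∈ Subgroup.closure (Set.range (PresentedGroup.of (rels := Rels))) := by
    rw [PresentedGroup.closure_range_of]; trivial
  induction hg using Subgroup.closure_induction with
  | mem x hx =>
    obtain ⟨i, rfl⟩ := hx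
    have : Phi (PresentedGroup.of i) = S i := Phi_s i
    rw [this]; exact Lin_S i
  | one => rw [map_one]; exact Lin_one
  | mul x y _ _ hx hy => rw [map_mul]; exact Lin_mul hx hy
  | inv x _ hx => rw [map_inv]; exact Lin_inv hx

theorem Phi_zero (g : Binf) : Phi g (fun _ => 0) = fun _ => 0 := by
  have h := (Lin_Phi g).2 0 (fun _ => 0)
  simpa using h

theorem Phi_sum (g : Binf) (c : ℕ → ℤ) (u : ℕ → V) (N : ℕ) :
    Phi g (fun i => ∑ j ∈ Finset.range N, c j * u j i) =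
      fun i => ∑ j ∈ Finset.range N, c j * Phi g (u j) i := by
  induction N with
  | zero => simpa using Phi_zero g
  | succ N ih =>
    simp only [Finset.sum_range_succ]
    rw [(Lin_Phi g).1 (fun i => ∑ j ∈ Finset.range N, c j * u j i) (fun i => c N * u N i),
      ih, (Lin_Phi g).2]

/-- the matrix entries determine the action of an element of `B_N` on the first `N` coordinates -/
theorem Phi_entry {N : ℕ} {g : Binf} (hg : g ∈ B N) (v : V) {i : ℕ} (hi : i < N) :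
    Phi g v i = ∑ j ∈ Finset.range N, v j * Phi g (ev j) i := by
  have h1 := (InG_Phi hg).2 v (fun i => ∑ j ∈ Finset.range N, v j * ev j i) (by
    intro i hi
    simp only [ev, mul_ite, mul_one, mul_zero]
    rw [Finset.sum_ite_eq]
    simp [hi]) i hi
  rw [h1, Phi_sum]

/-- the matrix of the action on the first `N` coordinates -/
def mat (N : ℕ) (g : Binf) : Matrix (Fin N) (Fin N) ℤ :=
  Matrix.of fun i j => Phi g (ev j) i

theorem mat_mul {N : ℕ} {g : Binf} (hg : g ∈ B N) (h : Binf) :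
    mat N (g * h) = mat N g * mat N h := by
  ext i j
  rw [Matrix.mul_apply]
  change Phi (g * h) (ev j) i = ∑ l : Fin N, Phi g (ev l) i * Phi h (ev j) l
  rw [map_mul, Equiv.Perm.mul_apply, Phi_entry hg _ i.2,
    ← Fin.sum_univ_eq_sum_range (fun l => Phi h (ev j) l * Phi g (ev l) i)]
  exact Finset.sum_congr rfl fun l _ => mul_comm _ _

theorem mat_one (N : ℕ) : mat N 1 = 1 := by
  ext i j
  change Phi 1 (ev j) i = _
  rw [map_one, Equiv.Perm.one_apply, Matrix.one_apply, ev]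
  simp [Fin.ext_iff]

/-- the normalised trace -/
def tr (N : ℕ) (g : Binf) : ℤ := ∑ i ∈ Finset.range N, (Phi g (ev i) i - 1)

theorem tr_eq (N : ℕ) (g : Binf) : tr N g = (mat N g).trace - N := by
  rw [tr, Finset.sum_sub_distrib, ← Fin.sum_univ_eq_sum_range (fun i => Phi g (ev i) i)]
  simp [Matrix.trace, mat]

theorem tr_conj {N : ℕ} {c x : Binf} (hc : c ∈ B N) (hx : x ∈ B N) :
    tr N (c * x * c⁻¹) = tr N x := by
  rw [tr_eq, tr_eq, mat_mul (mul_mem hc hx), Matrix.trace_mul_comm,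
    ← mat_mul (inv_mem hc)]
  congr 3
  group

theorem tr_stable {m N : ℕ} (h : m ≤ N) {x : Binf} (hx : x ∈ B m) : tr N x = tr m x := by
  rw [tr, tr]
  symm
  apply Finset.sum_subset (Finset.range_subset_range.2 h)
  intro i _ hi
  rw [(InG_Phi hx).1 (ev i) i (by simpa using hi)]
  simp [ev]

/-- the trace is an invariant of conjugacy in the braid group on infinitely many strands -/
theorem tr_of_isConj {m : ℕ} {x y : Binf} (hx : x ∈ B m) (hy : y ∈ B m) (h : IsConj x y) :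
    tr m x = tr m y := by
  obtain ⟨c, hc⟩ := isConj_iff.1 h
  obtain ⟨n, hn⟩ := exists_mem c
  have h1 := tr_conj (B_mono (le_max_right m n) hn) (B_mono (le_max_left m n) hx)
  rw [hc, tr_stable (le_max_left m n) hy, tr_stable (le_max_left m n) hx] at h1
  exact h1.symm

/-! ### The shift `x ↦ 1 ∧ x` -/

theorem ev_zero : ev 0 = cons 1 (fun _ => 0) := by
  funext i; cases i <;> simp [ev]

theorem ev_succ (j : ℕ) : ev (j + 1) = cons 0 (ev j) := by
  funext i; cases i <;> simp [ev]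

theorem S0_ev_zero : S 0 (ev 0) = cons 2 (ev 0) := by
  funext i
  rw [S_apply]
  rcases i with _ | _ | i <;> simp [fw, ev]

theorem S0_ev_one : S 0 (ev 1) = cons (-1) (fun _ => 0) := by
  funext i
  rw [S_apply]
  rcases i with _ | _ | i <;> simp [fw, ev]

theorem S0_ev (j : ℕ) : S 0 (ev (j + 2)) = cons 0 (ev (j + 1)) := by
  funext i
  rw [S_apply]
  rcases i with _ | _ | i <;> simp [fw, ev]

theorem Phi_op (x : Binf) (v : V) : Phi (op 1 x) v = shE (Phi x) (S 0 v) := by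
  rw [one_op_eq, map_mul, Phi_sh, Phi_s]; rfl

theorem op_00 (x : Binf) : Phi (op 1 x) (ev 0) 0 = 2 := by
  rw [Phi_op, S0_ev_zero, shE_apply]; rfl

theorem op_11 (x : Binf) : Phi (op 1 x) (ev 1) 1 = 0 := by
  rw [Phi_op, S0_ev_one, shE_apply, tl_cons, Phi_zero]; rfl

theorem op_jj (x : Binf) (j : ℕ) :
    Phi (op 1 x) (ev (j + 2)) (j + 2) = Phi x (ev (j + 1)) (j + 1) := by
  rw [Phi_op, S0_ev, shE_apply, tl_cons]; rfl

theorem tr_op (N : ℕ) (x : Binf) :
    tr (N + 2) (op 1 x) = tr (N + 1) x - Phi x (ev 0) 0 + 1 := by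
  rw [tr, Finset.sum_range_succ', Finset.sum_range_succ', tr, Finset.sum_range_succ']
  simp only [op_jj, zero_add, op_00, op_11]
  ring

/-- `1 ∧ (1 ∧ (⋯ (1 ∧ x)))` -/
def it (m : ℕ) (x : Binf) : Binf := (fun g => op 1 g)^[m] x

theorem it_succ (m : ℕ) (x : Binf) : it (m + 1) x = op 1 (it m x) :=
  Function.iterate_succ_apply' _ _ _

theorem it_mem {n : ℕ} {e : ℤ} {x : Binf} (h : x ∈ SpecialOf (n + 1) e) (m : ℕ) :
    it m x ∈ SpecialOf (n + 1 + m) (e + m) := by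
  induction m with
  | zero => simpa [it] using h
  | succ m ih =>
    rw [it_succ]
    obtain ⟨h1, h2, h3⟩ := ih
    refine ⟨Special.op Special.one h1, ?_, ?_⟩
    · rw [one_op_eq]
      exact mul_mem (sh_mem h2) (s_mem (by omega))
    · rw [expSum_op, h3]; push_cast; ring

theorem tr_it (N m : ℕ) (x : Binf) :
    tr (N + 2 + m) (it (m + 1) x) = tr (N + 1) x - Phi x (ev 0) 0 + 1 - m := by
  induction m with
  | zero => rw [it_succ]; simpa [it] using tr_op N x
  | succ m ih =>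
    have h := tr_op (N + 1 + m) (it (m + 1) x)
    rw [it_succ]
    rw [show N + 2 + (m + 1) = N + 1 + m + 2 by ring, h,
      show N + 1 + m + 1 = N + 2 + m by ring, ih, it_succ, op_00]
    push_cast; ring

/-! ### Values on words -/

theorem S_zpow (i : ℕ) (m : ℤ) (v : V) (j : ℕ) : (S i ^ m) v j =
    if j = i then v i + m * (v i - v (i + 1)) else
      if j = i + 1 then v (i + 1) + m * (v i - v (i + 1)) else v j := by
  cases m with
  | ofNat n =>
    rw [Int.ofNat_eq_natCast, zpow_natCast, S_pow]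
    split_ifs <;> ring
  | negSucc n =>
    rw [zpow_negSucc, S_inv_pow, Int.negSucc_eq]
    push_cast
    split_ifs <;> ring

theorem length_Lp (i : ℕ) (m : ℤ) (l : List ℤ) : (Lp i m l).length = l.length := by
  induction i generalizing l with
  | zero => rcases l with _ | ⟨x, _ | ⟨y, l⟩⟩ <;> simp [Lp]
  | succ i ih => rcases l with _ | ⟨x, l⟩ <;> simp [Lp, ih]

theorem vec_cons (x : ℤ) (l : List ℤ) (j : ℕ) : vec (x :: l) (j + 1) = vec l j := by
  simp [vec]

theorem vec_Lp (i : ℕ) (m : ℤ) (l : List ℤ) (h : i + 1 < l.length) (j : ℕ) :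
    vec (Lp i m l) j = if j = i then vec l i + m * (vec l i - vec l (i + 1)) else
      if j = i + 1 then vec l (i + 1) + m * (vec l i - vec l (i + 1)) else vec l j := by
  induction i generalizing l j with
  | zero =>
    match l, h with
    | x :: y :: l, _ =>
      rcases j with _ | _ | j <;> simp [Lp, vec]
  | succ i ih =>
    match l, h with
    | x :: l, h =>
      rw [Lp]
      cases j with
      | zero => simp [vec]
      | succ j =>
        rw [vec_cons, ih l (by simpa using h) j]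
        simp only [vec_cons, Nat.add_right_cancel_iff]

theorem S_zpow_vec (i : ℕ) (m : ℤ) (l : List ℤ) (h : i + 1 < l.length) :
    (S i ^ m) (vec l) = vec (Lp i m l) := by
  funext j
  rw [S_zpow, vec_Lp i m l h]

theorem length_run (w : List (ℕ × ℤ)) (l : List ℤ) : (run w l).length = l.length := by
  induction w with
  | nil => rfl
  | cons p w ih => rw [run, length_Lp, ih]

theorem Phi_wrd (w : List (ℕ × ℤ)) (l : List ℤ) (h : ∀ p ∈ w, p.1 + 1 < l.length) :
    Phi (wrd w) (vec l) = vec (run w l) := by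
  induction w with
  | nil => rw [wrd, map_one]; rfl
  | cons p w ih =>
    rw [wrd, map_mul, map_zpow, Phi_s, Equiv.Perm.mul_apply, ih fun q hq => h q (by simp [hq]),
      S_zpow_vec _ _ _ (by rw [length_run]; exact h p (by simp)), run]

/-- the inverse word -/
def ivw (w : List (ℕ × ℤ)) : List (ℕ × ℤ) := (w.map fun p => (p.1, -p.2)).reverse

/-- the shifted word -/
def shw (w : List (ℕ × ℤ)) : List (ℕ × ℤ) := w.map fun p => (p.1 + 1, p.2)

theorem wrd_append (u w : List (ℕ × ℤ)) : wrd (u ++ w) = wrd u * wrd w := by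
  induction u with
  | nil => simp [wrd]
  | cons p u ih => rw [List.cons_append, wrd, wrd, ih, mul_assoc]

theorem wrd_ivw (w : List (ℕ × ℤ)) : wrd (ivw w) = (wrd w)⁻¹ := by
  induction w with
  | nil => simp [ivw, wrd]
  | cons p w ih =>
    have h : ivw (p :: w) = ivw w ++ [(p.1, -p.2)] := by simp [ivw]
    rw [h, wrd_append, ih, wrd, wrd, wrd, mul_one, mul_inv_rev, zpow_neg]

theorem wrd_shw (w : List (ℕ × ℤ)) : wrd (shw w) = sh (wrd w) := by
  induction w with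
  | nil => simp [shw, wrd]
  | cons p w ih =>
    have h : shw (p :: w) = (p.1 + 1, p.2) :: shw w := rfl
    rw [h, wrd, wrd, ih, map_mul, map_zpow, sh_s]

/-- the word of `ρ_k` -/
def wrho (k : ℤ) : List (ℕ × ℤ) := [(0, k + 3), (2, k + 1), (1, -k - 2)]

theorem wrd_wrho (k : ℕ) : wrd (wrho k) = rho k := by
  have e1 : s 0 ^ (k + 3) = s 0 ^ ((k : ℤ) + 3) := by
    rw [← zpow_natCast]; push_cast; rfl
  have e2 : s 2 ^ (k + 1) = s 2 ^ ((k : ℤ) + 1) := by
    rw [← zpow_natCast]; push_cast; rfl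
  have e3 : (s 1 ^ (k + 2))⁻¹ = s 1 ^ (-(k : ℤ) - 2) := by
    rw [← zpow_natCast, ← zpow_neg]; push_cast; congr 1; ring
  rw [rho_eq, e1, e2, e3]
  simp only [wrho, wrd, mul_one, mul_assoc]

theorem wz_eq (k : ℤ) : wz k = (wrho k ++ [(2, 1), (1, 1)]) ++ ([(1, 1), (0, 1)] ++
    ivw (shw (wrho k ++ [(2, 1), (1, 1)]))) := by
  simp [wz, wrho, ivw, shw]
  ring_nf
  simp

theorem wy_eq (k : ℤ) : wy k = wrho k ++ ([(2, 1), (2, 1), (3, -1), (1, 1), (0, 1)] ++
    ivw (shw (wrho k))) := by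
  simp [wy, wrho, ivw, shw]
  ring_nf
  simp

theorem wyo_eq (k : ℤ) : wyo k = wy k ++ ([(0, 1)] ++ ivw (shw (wy k))) := by
  simp [wyo, wy, ivw, shw]
  ring_nf
  simp

theorem wrd_wz (k : ℕ) : wrd (wz k) = z k := by
  rw [wz_eq, wrd_append, wrd_append, wrd_append, wrd_ivw, wrd_shw, wrd_append, wrd_wrho, z_eq, gz]
  simp only [wrd, tau, mul_one, zpow_one, mul_assoc]

theorem wrd_wy (k : ℕ) : wrd (wy k) = y k := by
  rw [wy_eq, wrd_append, wrd_append, wrd_ivw, wrd_shw, wrd_wrho, y_eq]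
  simp only [wrd, mul_one, zpow_one, zpow_neg, mul_assoc]

theorem wrd_wyo (k : ℕ) : wrd (wyo k) = op (y k) 1 := by
  rw [wyo_eq, wrd_append, wrd_append, wrd_ivw, wrd_shw, wrd_wy, op_one_eq]
  simp only [wrd, tau, mul_one, zpow_one, mul_assoc]

theorem e50 : ev 0 = vec [1, 0, 0, 0, 0] := by
  funext i; rcases i with _ | _ | _ | _ | _ | i <;> simp [ev, vec]
theorem e51 : ev 1 = vec [0, 1, 0, 0, 0] := by
  funext i; rcases i with _ | _ | _ | _ | _ | i <;> simp [ev, vec]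
theorem e52 : ev 2 = vec [0, 0, 1, 0, 0] := by
  funext i; rcases i with _ | _ | _ | _ | _ | i <;> simp [ev, vec]
theorem e53 : ev 3 = vec [0, 0, 0, 1, 0] := by
  funext i; rcases i with _ | _ | _ | _ | _ | i <;> simp [ev, vec]
theorem e54 : ev 4 = vec [0, 0, 0, 0, 1] := by
  funext i; rcases i with _ | _ | _ | _ | _ | i <;> simp [ev, vec]

theorem e60 : ev 0 = vec [1, 0, 0, 0, 0, 0] := by
  funext i; rcases i with _ | _ | _ | _ | _ | _ | i <;> simp [ev, vec]
theorem e61 : ev 1 = vec [0, 1, 0, 0, 0, 0] := by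
  funext i; rcases i with _ | _ | _ | _ | _ | _ | i <;> simp [ev, vec]
theorem e62 : ev 2 = vec [0, 0, 1, 0, 0, 0] := by
  funext i; rcases i with _ | _ | _ | _ | _ | _ | i <;> simp [ev, vec]
theorem e63 : ev 3 = vec [0, 0, 0, 1, 0, 0] := by
  funext i; rcases i with _ | _ | _ | _ | _ | _ | i <;> simp [ev, vec]
theorem e64 : ev 4 = vec [0, 0, 0, 0, 1, 0] := by
  funext i; rcases i with _ | _ | _ | _ | _ | _ | i <;> simp [ev, vec]
theorem e65 : ev 5 = vec [0, 0, 0, 0, 0, 1] := by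
  funext i; rcases i with _ | _ | _ | _ | _ | _ | i <;> simp [ev, vec]

theorem Phi_z_vec (k : ℕ) (l : List ℤ) (h : l.length = 5) :
    Phi (z k) (vec l) = vec (run (wz k) l) := by
  rw [← wrd_wz]; apply Phi_wrd
  rw [h]; simp [wz]

theorem Phi_y_vec (k : ℕ) (l : List ℤ) (h : l.length = 5) :
    Phi (y k) (vec l) = vec (run (wy k) l) := by
  rw [← wrd_wy]; apply Phi_wrd
  rw [h]; simp [wy]

theorem Phi_yo_vec (k : ℕ) (l : List ℤ) (h : l.length = 6) :
    Phi (op (y k) 1) (vec l) = vec (run (wyo k) l) := by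
  rw [← wrd_wyo]; apply Phi_wrd
  rw [h]; simp [wyo]

theorem tr_z (k : ℕ) : tr 5 (z k) =
    3 * (k : ℤ) ^ 4 + 30 * (k : ℤ) ^ 3 + 113 * (k : ℤ) ^ 2 + 188 * k + 115 := by
  simp only [tr, Finset.sum_range_succ, Finset.sum_range_zero]
  rw [e50, e51, e52, e53, e54, Phi_z_vec _ _ rfl, Phi_z_vec _ _ rfl, Phi_z_vec _ _ rfl,
    Phi_z_vec _ _ rfl, Phi_z_vec _ _ rfl, wz_0, wz_1, wz_2, wz_3, wz_4]
  simp only [vec, List.getD_cons_zero, List.getD_cons_succ]
  ring

theorem tr_y (k : ℕ) : tr 5 (y k) =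
    3 * (k : ℤ) ^ 4 + 27 * (k : ℤ) ^ 3 + 91 * (k : ℤ) ^ 2 + 136 * k + 74 := by
  simp only [tr, Finset.sum_range_succ, Finset.sum_range_zero]
  rw [e50, e51, e52, e53, e54, Phi_y_vec _ _ rfl, Phi_y_vec _ _ rfl, Phi_y_vec _ _ rfl,
    Phi_y_vec _ _ rfl, Phi_y_vec _ _ rfl, wy_0, wy_1, wy_2, wy_3, wy_4]
  simp only [vec, List.getD_cons_zero, List.getD_cons_succ]
  ring

theorem y_00 (k : ℕ) : Phi (y k) (ev 0) 0 = - (k : ℤ) ^ 2 - 5 * k - 4 := by
  rw [e50, Phi_y_vec _ _ rfl, wy_0]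
  simp only [vec, List.getD_cons_zero]

theorem tr_yo (k : ℕ) : tr 6 (op (y k) 1) =
    9 * (k : ℤ) ^ 8 + 162 * (k : ℤ) ^ 7 + 1278 * (k : ℤ) ^ 6 + 5769 * (k : ℤ) ^ 5 +
      16307 * (k : ℤ) ^ 4 + 29599 * (k : ℤ) ^ 3 + 33770 * (k : ℤ) ^ 2 + 22212 * k + 6474 := by
  simp only [tr, Finset.sum_range_succ, Finset.sum_range_zero]
  rw [e60, e61, e62, e63, e64, e65, Phi_yo_vec _ _ rfl, Phi_yo_vec _ _ rfl, Phi_yo_vec _ _ rfl,
    Phi_yo_vec _ _ rfl, Phi_yo_vec _ _ rfl, Phi_yo_vec _ _ rfl,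
    wyo_0, wyo_1, wyo_2, wyo_3, wyo_4, wyo_5]
  simp only [vec, List.getD_cons_zero, List.getD_cons_succ]
  ring

/-- a family with increasing traces is a family of pairwise non-conjugate braids -/
theorem not_conj {m : ℕ} {f : ℕ → Binf} (hf : ∀ k, f k ∈ B m)
    (h : ∀ k l : ℕ, k < l → tr m (f k) < tr m (f l)) (k l : ℕ) (hkl : k ≠ l) :
    ¬ IsConj (f k) (f l) := by
  intro hc
  have h1 := tr_of_isConj (hf k) (hf l) hc
  rcases lt_or_gt_of_ne hkl with h2 | h2
  · exact absurd h1 (h k l h2).ne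
  · exact absurd h1 (h l k h2).ne'

theorem conj_z (k l : ℕ) (hkl : k < l) : tr 5 (z k) < tr 5 (z l) := by
  rw [tr_z, tr_z]
  have h : (k : ℤ) < l := by exact_mod_cast hkl
  have h0 : (0 : ℤ) ≤ k := by positivity
  have h2 : (k : ℤ) ^ 2 ≤ (l : ℤ) ^ 2 := by gcongr
  have h3 : (k : ℤ) ^ 3 ≤ (l : ℤ) ^ 3 := by gcongr
  have h4 : (k : ℤ) ^ 4 ≤ (l : ℤ) ^ 4 := by gcongr
  linarith

theorem conj_y (k l : ℕ) (hkl : k < l) : tr 5 (y k) < tr 5 (y l) := by
  rw [tr_y, tr_y]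
  have h : (k : ℤ) < l := by exact_mod_cast hkl
  have h0 : (0 : ℤ) ≤ k := by positivity
  have h2 : (k : ℤ) ^ 2 ≤ (l : ℤ) ^ 2 := by gcongr
  have h3 : (k : ℤ) ^ 3 ≤ (l : ℤ) ^ 3 := by gcongr
  have h4 : (k : ℤ) ^ 4 ≤ (l : ℤ) ^ 4 := by gcongr
  linarith

theorem conj_it (m k l : ℕ) (hkl : k < l) :
    tr (6 + m) (it (m + 1) (y k)) < tr (6 + m) (it (m + 1) (y l)) := by
  have a := tr_it 4 m (y k)
  have b := tr_it 4 m (y l)
  rw [show 4 + 2 + m = 6 + m by ring] at a b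
  rw [a, b, y_00, y_00, tr_y, tr_y]
  have h : (k : ℤ) < l := by exact_mod_cast hkl
  have h0 : (0 : ℤ) ≤ k := by positivity
  have h2 : (k : ℤ) ^ 2 ≤ (l : ℤ) ^ 2 := by gcongr
  have h3 : (k : ℤ) ^ 3 ≤ (l : ℤ) ^ 3 := by gcongr
  have h4 : (k : ℤ) ^ 4 ≤ (l : ℤ) ^ 4 := by gcongr
  linarith

theorem conj_yo (k l : ℕ) (hkl : k < l) : tr 6 (op (y k) 1) < tr 6 (op (y l) 1) := by
  rw [tr_yo, tr_yo]
  have h : (k : ℤ) < l := by exact_mod_cast hkl
  have h0 : (0 : ℤ) ≤ k := by positivity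
  have h2 : (k : ℤ) ^ 2 ≤ (l : ℤ) ^ 2 := by gcongr
  have h3 : (k : ℤ) ^ 3 ≤ (l : ℤ) ^ 3 := by gcongr
  have h4 : (k : ℤ) ^ 4 ≤ (l : ℤ) ^ 4 := by gcongr
  have h5 : (k : ℤ) ^ 5 ≤ (l : ℤ) ^ 5 := by gcongr
  have h6 : (k : ℤ) ^ 6 ≤ (l : ℤ) ^ 6 := by gcongr
  have h7 : (k : ℤ) ^ 7 ≤ (l : ℤ) ^ 7 := by gcongr
  have h8 : (k : ℤ) ^ 8 ≤ (l : ℤ) ^ 8 := by gcongr
  linarith

theorem z_of (k : ℕ) : z k ∈ SpecialOf 5 2 := by
  refine ⟨z_special k, z_mem k, ?_⟩
  rw [z, expSum_op, expSum_op, expSum_one]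
  norm_num

theorem y_of (k : ℕ) : y k ∈ SpecialOf 5 3 := by
  refine ⟨y_special k, y_mem k, ?_⟩
  rw [y, expSum_op, expSum_op, expSum_op, expSum_one]
  norm_num

theorem yo_of (k : ℕ) : op (y k) 1 ∈ SpecialOf 6 1 := by
  rw [set_one (by norm_num : 1 ≤ 5)]
  exact ⟨y k, ⟨y_special k, y_mem k⟩, rfl⟩

/-- infinitely many conjugacy classes -/
theorem conjAll {n : ℕ} (hn : 5 ≤ n) {e : ℤ} (h1 : 1 ≤ e) (h2 : e + 2 ≤ n)
    (h3 : ¬ (n = 5 ∧ e = 1)) : ∃ f : ℕ → Binf, (∀ k, f k ∈ SpecialOf n e) ∧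
      ∀ k l : ℕ, k ≠ l → ¬ IsConj (f k) (f l) := by
  by_cases he1 : e = 1
  · subst he1
    have hn6 : 6 ≤ n := by
      by_contra hc
      exact h3 ⟨by omega, rfl⟩
    exact ⟨fun k => op (y k) 1, fun k => mono_of hn6 1 (yo_of k),
      not_conj (fun k => (yo_of k).2.1) conj_yo⟩
  by_cases he2 : e = 2
  · subst he2
    exact ⟨z, fun k => mono_of hn 2 (z_of k), not_conj z_mem conj_z⟩
  by_cases he3 : e = 3
  · subst he3
    exact ⟨y, fun k => mono_of hn 3 (y_of k), not_conj y_mem conj_y⟩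
  obtain ⟨m, rfl⟩ : ∃ m : ℕ, e = 4 + m := ⟨(e - 4).toNat, by omega⟩
  have key : ∀ k, it (m + 1) (y k) ∈ SpecialOf (6 + m) (4 + m) := by
    intro k
    have h := it_mem (n := 4) (y_of k) (m + 1)
    have e1 : 4 + 1 + (m + 1) = 6 + m := by ring
    have e2 : (3 : ℤ) + ((m + 1 : ℕ) : ℤ) = 4 + m := by push_cast; ring
    rw [e1, e2] at h
    exact h
  exact ⟨fun k => it (m + 1) (y k), fun k => mono_of (by omega) _ (key k),
    not_conj (fun k => (key k).2.1) (conj_it m)⟩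

end Pool.Agent.H22.SBE
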