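import Pool.Agent.H22.SBE.Words

/-!
# Explicit values of the action on the families of special braids (generated)
-/

set_option autoImplicit false

namespace Pool.Agent.H22.SBE

open Pool.Agent.K7.H32.SB

def wu (k : ℤ) : List (ℕ × ℤ) :=
  [(2, k + 3), (4, k + 1), (3, -k - 2), (1, -1), (2, -1), (4, 1), (3, -1), (3, -1), (2, k + 2), (3, -k - 1), (1, -k - 3), (0, k + 3), (2, k + 1), (1, -k - 2), (2, 1), (2, 1), (3, -1), (1, 1), (0, 1), (2, k + 2), (3, -k - 1), (1, -k - 3)]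

theorem wu_0 (k : ℤ) : run (wu k) [1, 0, 0, 0, 0, 0] =
    [-k^2 - 5*k - 4, -3*k^4 - 27*k^3 - 93*k^2 - 145*k - 86, 3*k^6 + 42*k^5 + 240*k^4 + 718*k^3 + 1184*k^2 + 1014*k + 346, 3*k^6 + 39*k^5 + 207*k^4 + 571*k^3 + 851*k^2 + 629*k + 164, -3*k^6 - 42*k^5 - 252*k^4 - 826*k^3 - 1556*k^2 - 1594*k - 693, -3*k^6 - 39*k^5 - 216*k^4 - 652*k^3 - 1131*k^2 - 1069*k - 430] := by
  have h0 : Lp 1 (-k - 3) [1, 0, 0, 0, 0, 0] =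
      [1, 0, 0, 0, 0, 0] := by
    simp only [Lp]; exact l6 (by ring) (by ring) (by ring) (by ring) (by ring) (by ring)
  have h1 : Lp 3 (-k - 1) [1, 0, 0, 0, 0, 0] =
      [1, 0, 0, 0, 0, 0] := by
    simp only [Lp]; exact l6 (by ring) (by ring) (by ring) (by ring) (by ring) (by ring)
  have h2 : Lp 2 (k + 2) [1, 0, 0, 0, 0, 0] =
      [1, 0, 0, 0, 0, 0] := by
    simp only [Lp]; exact l6 (by ring) (by ring) (by ring) (by ring) (by ring) (by ring)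
  have h3 : Lp 0 (1) [1, 0, 0, 0, 0, 0] =
      [2, 1, 0, 0, 0, 0] := by
    simp only [Lp]; exact l6 (by ring) (by ring) (by ring) (by ring) (by ring) (by ring)
  have h4 : Lp 1 (1) [2, 1, 0, 0, 0, 0] =
      [2, 2, 1, 0, 0, 0] := by
    simp only [Lp]; exact l6 (by ring) (by ring) (by ring) (by ring) (by ring) (by ring)
  have h5 : Lp 3 (-1) [2, 2, 1, 0, 0, 0] =
      [2, 2, 1, 0, 0, 0] := by
    simp only [Lp]; exact l6 (by ring) (by ring) (by ring) (by ring) (by ring) (by ring)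
  have h6 : Lp 2 (1) [2, 2, 1, 0, 0, 0] =
      [2, 2, 2, 1, 0, 0] := by
    simp only [Lp]; exact l6 (by ring) (by ring) (by ring) (by ring) (by ring) (by ring)
  have h7 : Lp 2 (1) [2, 2, 2, 1, 0, 0] =
      [2, 2, 3, 2, 0, 0] := by
    simp only [Lp]; exact l6 (by ring) (by ring) (by ring) (by ring) (by ring) (by ring)
  have h8 : Lp 1 (-k - 2) [2, 2, 3, 2, 0, 0] =
      [2, k + 4, k + 5, 2, 0, 0] := by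
    simp only [Lp]; exact l6 (by ring) (by ring) (by ring) (by ring) (by ring) (by ring)
  have h9 : Lp 2 (k + 1) [2, k + 4, k + 5, 2, 0, 0] =
      [2, k + 4, k^2 + 5*k + 8, k^2 + 4*k + 5, 0, 0] := by
    simp only [Lp]; exact l6 (by ring) (by ring) (by ring) (by ring) (by ring) (by ring)
  have h10 : Lp 0 (k + 3) [2, k + 4, k^2 + 5*k + 8, k^2 + 4*k + 5, 0, 0] =
      [-k^2 - 5*k - 4, -k^2 - 4*k - 2, k^2 + 5*k + 8, k^2 + 4*k + 5, 0, 0] := by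
    simp only [Lp]; exact l6 (by ring) (by ring) (by ring) (by ring) (by ring) (by ring)
  have h11 : Lp 1 (-k - 3) [-k^2 - 5*k - 4, -k^2 - 4*k - 2, k^2 + 5*k + 8, k^2 + 4*k + 5, 0, 0] =
      [-k^2 - 5*k - 4, 2*k^3 + 14*k^2 + 33*k + 28, 2*k^3 + 16*k^2 + 42*k + 38, k^2 + 4*k + 5, 0, 0] := by
    simp only [Lp]; exact l6 (by ring) (by ring) (by ring) (by ring) (by ring) (by ring)
  have h12 : Lp 3 (-k - 1) [-k^2 - 5*k - 4, 2*k^3 + 14*k^2 + 33*k + 28, 2*k^3 + 16*k^2 + 42*k + 38, k^2 + 4*k + 5, 0, 0] =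
      [-k^2 - 5*k - 4, 2*k^3 + 14*k^2 + 33*k + 28, 2*k^3 + 16*k^2 + 42*k + 38, -k^3 - 4*k^2 - 5*k, -k^3 - 5*k^2 - 9*k - 5, 0] := by
    simp only [Lp]; exact l6 (by ring) (by ring) (by ring) (by ring) (by ring) (by ring)
  have h13 : Lp 2 (k + 2) [-k^2 - 5*k - 4, 2*k^3 + 14*k^2 + 33*k + 28, 2*k^3 + 16*k^2 + 42*k + 38, -k^3 - 4*k^2 - 5*k, -k^3 - 5*k^2 - 9*k - 5, 0] =
      [-k^2 - 5*k - 4, 2*k^3 + 14*k^2 + 33*k + 28, 3*k^4 + 28*k^3 + 103*k^2 + 174*k + 114, 3*k^4 + 25*k^3 + 83*k^2 + 127*k + 76, -k^3 - 5*k^2 - 9*k - 5, 0] := by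
    simp only [Lp]; exact l6 (by ring) (by ring) (by ring) (by ring) (by ring) (by ring)
  have h14 : Lp 3 (-1) [-k^2 - 5*k - 4, 2*k^3 + 14*k^2 + 33*k + 28, 3*k^4 + 28*k^3 + 103*k^2 + 174*k + 114, 3*k^4 + 25*k^3 + 83*k^2 + 127*k + 76, -k^3 - 5*k^2 - 9*k - 5, 0] =
      [-k^2 - 5*k - 4, 2*k^3 + 14*k^2 + 33*k + 28, 3*k^4 + 28*k^3 + 103*k^2 + 174*k + 114, -k^3 - 5*k^2 - 9*k - 5, -3*k^4 - 27*k^3 - 93*k^2 - 145*k - 86, 0] := by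
    simp only [Lp]; exact l6 (by ring) (by ring) (by ring) (by ring) (by ring) (by ring)
  have h15 : Lp 3 (-1) [-k^2 - 5*k - 4, 2*k^3 + 14*k^2 + 33*k + 28, 3*k^4 + 28*k^3 + 103*k^2 + 174*k + 114, -k^3 - 5*k^2 - 9*k - 5, -3*k^4 - 27*k^3 - 93*k^2 - 145*k - 86, 0] =
      [-k^2 - 5*k - 4, 2*k^3 + 14*k^2 + 33*k + 28, 3*k^4 + 28*k^3 + 103*k^2 + 174*k + 114, -3*k^4 - 27*k^3 - 93*k^2 - 145*k - 86, -6*k^4 - 53*k^3 - 181*k^2 - 281*k - 167, 0] := by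
    simp only [Lp]; exact l6 (by ring) (by ring) (by ring) (by ring) (by ring) (by ring)
  have h16 : Lp 4 (1) [-k^2 - 5*k - 4, 2*k^3 + 14*k^2 + 33*k + 28, 3*k^4 + 28*k^3 + 103*k^2 + 174*k + 114, -3*k^4 - 27*k^3 - 93*k^2 - 145*k - 86, -6*k^4 - 53*k^3 - 181*k^2 - 281*k - 167, 0] =
      [-k^2 - 5*k - 4, 2*k^3 + 14*k^2 + 33*k + 28, 3*k^4 + 28*k^3 + 103*k^2 + 174*k + 114, -3*k^4 - 27*k^3 - 93*k^2 - 145*k - 86, -12*k^4 - 106*k^3 - 362*k^2 - 562*k - 334, -6*k^4 - 53*k^3 - 181*k^2 - 281*k - 167] := by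
    simp only [Lp]; exact l6 (by ring) (by ring) (by ring) (by ring) (by ring) (by ring)
  have h17 : Lp 2 (-1) [-k^2 - 5*k - 4, 2*k^3 + 14*k^2 + 33*k + 28, 3*k^4 + 28*k^3 + 103*k^2 + 174*k + 114, -3*k^4 - 27*k^3 - 93*k^2 - 145*k - 86, -12*k^4 - 106*k^3 - 362*k^2 - 562*k - 334, -6*k^4 - 53*k^3 - 181*k^2 - 281*k - 167] =
      [-k^2 - 5*k - 4, 2*k^3 + 14*k^2 + 33*k + 28, -3*k^4 - 27*k^3 - 93*k^2 - 145*k - 86, -9*k^4 - 82*k^3 - 289*k^2 - 464*k - 286, -12*k^4 - 106*k^3 - 362*k^2 - 562*k - 334, -6*k^4 - 53*k^3 - 181*k^2 - 281*k - 167] := by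
    simp only [Lp]; exact l6 (by ring) (by ring) (by ring) (by ring) (by ring) (by ring)
  have h18 : Lp 1 (-1) [-k^2 - 5*k - 4, 2*k^3 + 14*k^2 + 33*k + 28, -3*k^4 - 27*k^3 - 93*k^2 - 145*k - 86, -9*k^4 - 82*k^3 - 289*k^2 - 464*k - 286, -12*k^4 - 106*k^3 - 362*k^2 - 562*k - 334, -6*k^4 - 53*k^3 - 181*k^2 - 281*k - 167] =
      [-k^2 - 5*k - 4, -3*k^4 - 27*k^3 - 93*k^2 - 145*k - 86, -6*k^4 - 56*k^3 - 200*k^2 - 323*k - 200, -9*k^4 - 82*k^3 - 289*k^2 - 464*k - 286, -12*k^4 - 106*k^3 - 362*k^2 - 562*k - 334, -6*k^4 - 53*k^3 - 181*k^2 - 281*k - 167] := by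
    simp only [Lp]; exact l6 (by ring) (by ring) (by ring) (by ring) (by ring) (by ring)
  have h19 : Lp 3 (-k - 2) [-k^2 - 5*k - 4, -3*k^4 - 27*k^3 - 93*k^2 - 145*k - 86, -6*k^4 - 56*k^3 - 200*k^2 - 323*k - 200, -9*k^4 - 82*k^3 - 289*k^2 - 464*k - 286, -12*k^4 - 106*k^3 - 362*k^2 - 562*k - 334, -6*k^4 - 53*k^3 - 181*k^2 - 281*k - 167] =
      [-k^2 - 5*k - 4, -3*k^4 - 27*k^3 - 93*k^2 - 145*k - 86, -6*k^4 - 56*k^3 - 200*k^2 - 323*k - 200, -3*k^5 - 39*k^4 - 203*k^3 - 533*k^2 - 708*k - 382, -3*k^5 - 42*k^4 - 227*k^3 - 606*k^2 - 806*k - 430, -6*k^4 - 53*k^3 - 181*k^2 - 281*k - 167] := by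
    simp only [Lp]; exact l6 (by ring) (by ring) (by ring) (by ring) (by ring) (by ring)
  have h20 : Lp 4 (k + 1) [-k^2 - 5*k - 4, -3*k^4 - 27*k^3 - 93*k^2 - 145*k - 86, -6*k^4 - 56*k^3 - 200*k^2 - 323*k - 200, -3*k^5 - 39*k^4 - 203*k^3 - 533*k^2 - 708*k - 382, -3*k^5 - 42*k^4 - 227*k^3 - 606*k^2 - 806*k - 430, -6*k^4 - 53*k^3 - 181*k^2 - 281*k - 167] =
      [-k^2 - 5*k - 4, -3*k^4 - 27*k^3 - 93*k^2 - 145*k - 86, -6*k^4 - 56*k^3 - 200*k^2 - 323*k - 200, -3*k^5 - 39*k^4 - 203*k^3 - 533*k^2 - 708*k - 382, -3*k^6 - 42*k^5 - 252*k^4 - 826*k^3 - 1556*k^2 - 1594*k - 693, -3*k^6 - 39*k^5 - 216*k^4 - 652*k^3 - 1131*k^2 - 1069*k - 430] := by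
    simp only [Lp]; exact l6 (by ring) (by ring) (by ring) (by ring) (by ring) (by ring)
  have h21 : Lp 2 (k + 3) [-k^2 - 5*k - 4, -3*k^4 - 27*k^3 - 93*k^2 - 145*k - 86, -6*k^4 - 56*k^3 - 200*k^2 - 323*k - 200, -3*k^5 - 39*k^4 - 203*k^3 - 533*k^2 - 708*k - 382, -3*k^6 - 42*k^5 - 252*k^4 - 826*k^3 - 1556*k^2 - 1594*k - 693, -3*k^6 - 39*k^5 - 216*k^4 - 652*k^3 - 1131*k^2 - 1069*k - 430] =
      [-k^2 - 5*k - 4, -3*k^4 - 27*k^3 - 93*k^2 - 145*k - 86, 3*k^6 + 42*k^5 + 240*k^4 + 718*k^3 + 1184*k^2 + 1014*k + 346, 3*k^6 + 39*k^5 + 207*k^4 + 571*k^3 + 851*k^2 + 629*k + 164, -3*k^6 - 42*k^5 - 252*k^4 - 826*k^3 - 1556*k^2 - 1594*k - 693, -3*k^6 - 39*k^5 - 216*k^4 - 652*k^3 - 1131*k^2 - 1069*k - 430] := by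
    simp only [Lp]; exact l6 (by ring) (by ring) (by ring) (by ring) (by ring) (by ring)
  simp only [wu, run]
  rw [h0, h1, h2, h3, h4, h5, h6, h7, h8, h9, h10, h11, h12, h13, h14, h15, h16, h17, h18, h19, h20, h21]

theorem wu_1 (k : ℤ) : run (wu k) [0, 1, 0, 0, 0, 0] =
    [k^4 + 10*k^3 + 37*k^2 + 60*k + 35, 3*k^6 + 42*k^5 + 245*k^4 + 763*k^3 + 1340*k^2 + 1261*k + 498, -3*k^8 - 57*k^7 - 467*k^6 - 2156*k^5 - 6136*k^4 - 11022*k^3 - 12193*k^2 - 7578*k - 2016, -3*k^8 - 54*k^7 - 419*k^6 - 1827*k^5 - 4881*k^4 - 8137*k^3 - 8185*k^2 - 4454*k - 960, 3*k^8 + 57*k^7 + 479*k^6 + 2324*k^5 + 7116*k^4 + 14074*k^3 + 17552*k^2 + 12617*k + 4002, 3*k^8 + 54*k^7 + 428*k^6 + 1953*k^5 + 5617*k^4 + 10436*k^3 + 12241*k^2 + 8292*k + 2484] := by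
  have h0 : Lp 1 (-k - 3) [0, 1, 0, 0, 0, 0] =
      [0, -k - 2, -k - 3, 0, 0, 0] := by
    simp only [Lp]; exact l6 (by ring) (by ring) (by ring) (by ring) (by ring) (by ring)
  have h1 : Lp 3 (-k - 1) [0, -k - 2, -k - 3, 0, 0, 0] =
      [0, -k - 2, -k - 3, 0, 0, 0] := by
    simp only [Lp]; exact l6 (by ring) (by ring) (by ring) (by ring) (by ring) (by ring)
  have h2 : Lp 2 (k + 2) [0, -k - 2, -k - 3, 0, 0, 0] =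
      [0, -k - 2, -k^2 - 6*k - 9, -k^2 - 5*k - 6, 0, 0] := by
    simp only [Lp]; exact l6 (by ring) (by ring) (by ring) (by ring) (by ring) (by ring)
  have h3 : Lp 0 (1) [0, -k - 2, -k^2 - 6*k - 9, -k^2 - 5*k - 6, 0, 0] =
      [k + 2, 0, -k^2 - 6*k - 9, -k^2 - 5*k - 6, 0, 0] := by
    simp only [Lp]; exact l6 (by ring) (by ring) (by ring) (by ring) (by ring) (by ring)
  have h4 : Lp 1 (1) [k + 2, 0, -k^2 - 6*k - 9, -k^2 - 5*k - 6, 0, 0] =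
      [k + 2, k^2 + 6*k + 9, 0, -k^2 - 5*k - 6, 0, 0] := by
    simp only [Lp]; exact l6 (by ring) (by ring) (by ring) (by ring) (by ring) (by ring)
  have h5 : Lp 3 (-1) [k + 2, k^2 + 6*k + 9, 0, -k^2 - 5*k - 6, 0, 0] =
      [k + 2, k^2 + 6*k + 9, 0, 0, k^2 + 5*k + 6, 0] := by
    simp only [Lp]; exact l6 (by ring) (by ring) (by ring) (by ring) (by ring) (by ring)
  have h6 : Lp 2 (1) [k + 2, k^2 + 6*k + 9, 0, 0, k^2 + 5*k + 6, 0] =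
      [k + 2, k^2 + 6*k + 9, 0, 0, k^2 + 5*k + 6, 0] := by
    simp only [Lp]; exact l6 (by ring) (by ring) (by ring) (by ring) (by ring) (by ring)
  have h7 : Lp 2 (1) [k + 2, k^2 + 6*k + 9, 0, 0, k^2 + 5*k + 6, 0] =
      [k + 2, k^2 + 6*k + 9, 0, 0, k^2 + 5*k + 6, 0] := by
    simp only [Lp]; exact l6 (by ring) (by ring) (by ring) (by ring) (by ring) (by ring)
  have h8 : Lp 1 (-k - 2) [k + 2, k^2 + 6*k + 9, 0, 0, k^2 + 5*k + 6, 0] =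
      [k + 2, -k^3 - 7*k^2 - 15*k - 9, -k^3 - 8*k^2 - 21*k - 18, 0, k^2 + 5*k + 6, 0] := by
    simp only [Lp]; exact l6 (by ring) (by ring) (by ring) (by ring) (by ring) (by ring)
  have h9 : Lp 2 (k + 1) [k + 2, -k^3 - 7*k^2 - 15*k - 9, -k^3 - 8*k^2 - 21*k - 18, 0, k^2 + 5*k + 6, 0] =
      [k + 2, -k^3 - 7*k^2 - 15*k - 9, -k^4 - 10*k^3 - 37*k^2 - 60*k - 36, -k^4 - 9*k^3 - 29*k^2 - 39*k - 18, k^2 + 5*k + 6, 0] := by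
    simp only [Lp]; exact l6 (by ring) (by ring) (by ring) (by ring) (by ring) (by ring)
  have h10 : Lp 0 (k + 3) [k + 2, -k^3 - 7*k^2 - 15*k - 9, -k^4 - 10*k^3 - 37*k^2 - 60*k - 36, -k^4 - 9*k^3 - 29*k^2 - 39*k - 18, k^2 + 5*k + 6, 0] =
      [k^4 + 10*k^3 + 37*k^2 + 60*k + 35, k^4 + 9*k^3 + 30*k^2 + 44*k + 24, -k^4 - 10*k^3 - 37*k^2 - 60*k - 36, -k^4 - 9*k^3 - 29*k^2 - 39*k - 18, k^2 + 5*k + 6, 0] := by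
    simp only [Lp]; exact l6 (by ring) (by ring) (by ring) (by ring) (by ring) (by ring)
  have h11 : Lp 1 (-k - 3) [k^4 + 10*k^3 + 37*k^2 + 60*k + 35, k^4 + 9*k^3 + 30*k^2 + 44*k + 24, -k^4 - 10*k^3 - 37*k^2 - 60*k - 36, -k^4 - 9*k^3 - 29*k^2 - 39*k - 18, k^2 + 5*k + 6, 0] =
      [k^4 + 10*k^3 + 37*k^2 + 60*k + 35, -2*k^5 - 24*k^4 - 115*k^3 - 275*k^2 - 328*k - 156, -2*k^5 - 26*k^4 - 134*k^3 - 342*k^2 - 432*k - 216, -k^4 - 9*k^3 - 29*k^2 - 39*k - 18, k^2 + 5*k + 6, 0] := by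
    simp only [Lp]; exact l6 (by ring) (by ring) (by ring) (by ring) (by ring) (by ring)
  have h12 : Lp 3 (-k - 1) [k^4 + 10*k^3 + 37*k^2 + 60*k + 35, -2*k^5 - 24*k^4 - 115*k^3 - 275*k^2 - 328*k - 156, -2*k^5 - 26*k^4 - 134*k^3 - 342*k^2 - 432*k - 216, -k^4 - 9*k^3 - 29*k^2 - 39*k - 18, k^2 + 5*k + 6, 0] =
      [k^4 + 10*k^3 + 37*k^2 + 60*k + 35, -2*k^5 - 24*k^4 - 115*k^3 - 275*k^2 - 328*k - 156, -2*k^5 - 26*k^4 - 134*k^3 - 342*k^2 - 432*k - 216, k^5 + 9*k^4 + 30*k^3 + 45*k^2 + 29*k + 6, k^5 + 10*k^4 + 39*k^3 + 75*k^2 + 73*k + 30, 0] := by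
    simp only [Lp]; exact l6 (by ring) (by ring) (by ring) (by ring) (by ring) (by ring)
  have h13 : Lp 2 (k + 2) [k^4 + 10*k^3 + 37*k^2 + 60*k + 35, -2*k^5 - 24*k^4 - 115*k^3 - 275*k^2 - 328*k - 156, -2*k^5 - 26*k^4 - 134*k^3 - 342*k^2 - 432*k - 216, k^5 + 9*k^4 + 30*k^3 + 45*k^2 + 29*k + 6, k^5 + 10*k^4 + 39*k^3 + 75*k^2 + 73*k + 30, 0] =
      [k^4 + 10*k^3 + 37*k^2 + 60*k + 35, -2*k^5 - 24*k^4 - 115*k^3 - 275*k^2 - 328*k - 156, -3*k^6 - 43*k^5 - 260*k^4 - 849*k^3 - 1577*k^2 - 1576*k - 660, -3*k^6 - 40*k^5 - 225*k^4 - 685*k^3 - 1190*k^2 - 1115*k - 438, k^5 + 10*k^4 + 39*k^3 + 75*k^2 + 73*k + 30, 0] := by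
    simp only [Lp]; exact l6 (by ring) (by ring) (by ring) (by ring) (by ring) (by ring)
  have h14 : Lp 3 (-1) [k^4 + 10*k^3 + 37*k^2 + 60*k + 35, -2*k^5 - 24*k^4 - 115*k^3 - 275*k^2 - 328*k - 156, -3*k^6 - 43*k^5 - 260*k^4 - 849*k^3 - 1577*k^2 - 1576*k - 660, -3*k^6 - 40*k^5 - 225*k^4 - 685*k^3 - 1190*k^2 - 1115*k - 438, k^5 + 10*k^4 + 39*k^3 + 75*k^2 + 73*k + 30, 0] =
      [k^4 + 10*k^3 + 37*k^2 + 60*k + 35, -2*k^5 - 24*k^4 - 115*k^3 - 275*k^2 - 328*k - 156, -3*k^6 - 43*k^5 - 260*k^4 - 849*k^3 - 1577*k^2 - 1576*k - 660, k^5 + 10*k^4 + 39*k^3 + 75*k^2 + 73*k + 30, 3*k^6 + 42*k^5 + 245*k^4 + 763*k^3 + 1340*k^2 + 1261*k + 498, 0] := by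
    simp only [Lp]; exact l6 (by ring) (by ring) (by ring) (by ring) (by ring) (by ring)
  have h15 : Lp 3 (-1) [k^4 + 10*k^3 + 37*k^2 + 60*k + 35, -2*k^5 - 24*k^4 - 115*k^3 - 275*k^2 - 328*k - 156, -3*k^6 - 43*k^5 - 260*k^4 - 849*k^3 - 1577*k^2 - 1576*k - 660, k^5 + 10*k^4 + 39*k^3 + 75*k^2 + 73*k + 30, 3*k^6 + 42*k^5 + 245*k^4 + 763*k^3 + 1340*k^2 + 1261*k + 498, 0] =
      [k^4 + 10*k^3 + 37*k^2 + 60*k + 35, -2*k^5 - 24*k^4 - 115*k^3 - 275*k^2 - 328*k - 156, -3*k^6 - 43*k^5 - 260*k^4 - 849*k^3 - 1577*k^2 - 1576*k - 660, 3*k^6 + 42*k^5 + 245*k^4 + 763*k^3 + 1340*k^2 + 1261*k + 498, 6*k^6 + 83*k^5 + 480*k^4 + 1487*k^3 + 2605*k^2 + 2449*k + 966, 0] := by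
    simp only [Lp]; exact l6 (by ring) (by ring) (by ring) (by ring) (by ring) (by ring)
  have h16 : Lp 4 (1) [k^4 + 10*k^3 + 37*k^2 + 60*k + 35, -2*k^5 - 24*k^4 - 115*k^3 - 275*k^2 - 328*k - 156, -3*k^6 - 43*k^5 - 260*k^4 - 849*k^3 - 1577*k^2 - 1576*k - 660, 3*k^6 + 42*k^5 + 245*k^4 + 763*k^3 + 1340*k^2 + 1261*k + 498, 6*k^6 + 83*k^5 + 480*k^4 + 1487*k^3 + 2605*k^2 + 2449*k + 966, 0] =
      [k^4 + 10*k^3 + 37*k^2 + 60*k + 35, -2*k^5 - 24*k^4 - 115*k^3 - 275*k^2 - 328*k - 156, -3*k^6 - 43*k^5 - 260*k^4 - 849*k^3 - 1577*k^2 - 1576*k - 660, 3*k^6 + 42*k^5 + 245*k^4 + 763*k^3 + 1340*k^2 + 1261*k + 498, 12*k^6 + 166*k^5 + 960*k^4 + 2974*k^3 + 5210*k^2 + 4898*k + 1932, 6*k^6 + 83*k^5 + 480*k^4 + 1487*k^3 + 2605*k^2 + 2449*k + 966] := by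
    simp only [Lp]; exact l6 (by ring) (by ring) (by ring) (by ring) (by ring) (by ring)
  have h17 : Lp 2 (-1) [k^4 + 10*k^3 + 37*k^2 + 60*k + 35, -2*k^5 - 24*k^4 - 115*k^3 - 275*k^2 - 328*k - 156, -3*k^6 - 43*k^5 - 260*k^4 - 849*k^3 - 1577*k^2 - 1576*k - 660, 3*k^6 + 42*k^5 + 245*k^4 + 763*k^3 + 1340*k^2 + 1261*k + 498, 12*k^6 + 166*k^5 + 960*k^4 + 2974*k^3 + 5210*k^2 + 4898*k + 1932, 6*k^6 + 83*k^5 + 480*k^4 + 1487*k^3 + 2605*k^2 + 2449*k + 966] =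
      [k^4 + 10*k^3 + 37*k^2 + 60*k + 35, -2*k^5 - 24*k^4 - 115*k^3 - 275*k^2 - 328*k - 156, 3*k^6 + 42*k^5 + 245*k^4 + 763*k^3 + 1340*k^2 + 1261*k + 498, 9*k^6 + 127*k^5 + 750*k^4 + 2375*k^3 + 4257*k^2 + 4098*k + 1656, 12*k^6 + 166*k^5 + 960*k^4 + 2974*k^3 + 5210*k^2 + 4898*k + 1932, 6*k^6 + 83*k^5 + 480*k^4 + 1487*k^3 + 2605*k^2 + 2449*k + 966] := by
    simp only [Lp]; exact l6 (by ring) (by ring) (by ring) (by ring) (by ring) (by ring)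
  have h18 : Lp 1 (-1) [k^4 + 10*k^3 + 37*k^2 + 60*k + 35, -2*k^5 - 24*k^4 - 115*k^3 - 275*k^2 - 328*k - 156, 3*k^6 + 42*k^5 + 245*k^4 + 763*k^3 + 1340*k^2 + 1261*k + 498, 9*k^6 + 127*k^5 + 750*k^4 + 2375*k^3 + 4257*k^2 + 4098*k + 1656, 12*k^6 + 166*k^5 + 960*k^4 + 2974*k^3 + 5210*k^2 + 4898*k + 1932, 6*k^6 + 83*k^5 + 480*k^4 + 1487*k^3 + 2605*k^2 + 2449*k + 966] =
      [k^4 + 10*k^3 + 37*k^2 + 60*k + 35, 3*k^6 + 42*k^5 + 245*k^4 + 763*k^3 + 1340*k^2 + 1261*k + 498, 6*k^6 + 86*k^5 + 514*k^4 + 1641*k^3 + 2955*k^2 + 2850*k + 1152, 9*k^6 + 127*k^5 + 750*k^4 + 2375*k^3 + 4257*k^2 + 4098*k + 1656, 12*k^6 + 166*k^5 + 960*k^4 + 2974*k^3 + 5210*k^2 + 4898*k + 1932, 6*k^6 + 83*k^5 + 480*k^4 + 1487*k^3 + 2605*k^2 + 2449*k + 966] := by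
    simp only [Lp]; exact l6 (by ring) (by ring) (by ring) (by ring) (by ring) (by ring)
  have h19 : Lp 3 (-k - 2) [k^4 + 10*k^3 + 37*k^2 + 60*k + 35, 3*k^6 + 42*k^5 + 245*k^4 + 763*k^3 + 1340*k^2 + 1261*k + 498, 6*k^6 + 86*k^5 + 514*k^4 + 1641*k^3 + 2955*k^2 + 2850*k + 1152, 9*k^6 + 127*k^5 + 750*k^4 + 2375*k^3 + 4257*k^2 + 4098*k + 1656, 12*k^6 + 166*k^5 + 960*k^4 + 2974*k^3 + 5210*k^2 + 4898*k + 1932, 6*k^6 + 83*k^5 + 480*k^4 + 1487*k^3 + 2605*k^2 + 2449*k + 966] =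
      [k^4 + 10*k^3 + 37*k^2 + 60*k + 35, 3*k^6 + 42*k^5 + 245*k^4 + 763*k^3 + 1340*k^2 + 1261*k + 498, 6*k^6 + 86*k^5 + 514*k^4 + 1641*k^3 + 2955*k^2 + 2850*k + 1152, 3*k^7 + 54*k^6 + 415*k^5 + 1769*k^4 + 4526*k^3 + 6963*k^2 + 5974*k + 2208, 3*k^7 + 57*k^6 + 454*k^5 + 1979*k^4 + 5125*k^3 + 7916*k^2 + 6774*k + 2484, 6*k^6 + 83*k^5 + 480*k^4 + 1487*k^3 + 2605*k^2 + 2449*k + 966] := by
    simp only [Lp]; exact l6 (by ring) (by ring) (by ring) (by ring) (by ring) (by ring)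
  have h20 : Lp 4 (k + 1) [k^4 + 10*k^3 + 37*k^2 + 60*k + 35, 3*k^6 + 42*k^5 + 245*k^4 + 763*k^3 + 1340*k^2 + 1261*k + 498, 6*k^6 + 86*k^5 + 514*k^4 + 1641*k^3 + 2955*k^2 + 2850*k + 1152, 3*k^7 + 54*k^6 + 415*k^5 + 1769*k^4 + 4526*k^3 + 6963*k^2 + 5974*k + 2208, 3*k^7 + 57*k^6 + 454*k^5 + 1979*k^4 + 5125*k^3 + 7916*k^2 + 6774*k + 2484, 6*k^6 + 83*k^5 + 480*k^4 + 1487*k^3 + 2605*k^2 + 2449*k + 966] =
      [k^4 + 10*k^3 + 37*k^2 + 60*k + 35, 3*k^6 + 42*k^5 + 245*k^4 + 763*k^3 + 1340*k^2 + 1261*k + 498, 6*k^6 + 86*k^5 + 514*k^4 + 1641*k^3 + 2955*k^2 + 2850*k + 1152, 3*k^7 + 54*k^6 + 415*k^5 + 1769*k^4 + 4526*k^3 + 6963*k^2 + 5974*k + 2208, 3*k^8 + 57*k^7 + 479*k^6 + 2324*k^5 + 7116*k^4 + 14074*k^3 + 17552*k^2 + 12617*k + 4002, 3*k^8 + 54*k^7 + 428*k^6 + 1953*k^5 + 5617*k^4 + 10436*k^3 + 12241*k^2 + 8292*k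 + 2484] := by
    simp only [Lp]; exact l6 (by ring) (by ring) (by ring) (by ring) (by ring) (by ring)
  have h21 : Lp 2 (k + 3) [k^4 + 10*k^3 + 37*k^2 + 60*k + 35, 3*k^6 + 42*k^5 + 245*k^4 + 763*k^3 + 1340*k^2 + 1261*k + 498, 6*k^6 + 86*k^5 + 514*k^4 + 1641*k^3 + 2955*k^2 + 2850*k + 1152, 3*k^7 + 54*k^6 + 415*k^5 + 1769*k^4 + 4526*k^3 + 6963*k^2 + 5974*k + 2208, 3*k^8 + 57*k^7 + 479*k^6 + 2324*k^5 + 7116*k^4 + 14074*k^3 + 17552*k^2 + 12617*k + 4002, 3*k^8 + 54*k^7 + 428*k^6 + 1953*k^5 + 5617*k^4 + 10436*k^3 + 12241*k^2 + 8292*k + 2484] =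
      [k^4 + 10*k^3 + 37*k^2 + 60*k + 35, 3*k^6 + 42*k^5 + 245*k^4 + 763*k^3 + 1340*k^2 + 1261*k + 498, -3*k^8 - 57*k^7 - 467*k^6 - 2156*k^5 - 6136*k^4 - 11022*k^3 - 12193*k^2 - 7578*k - 2016, -3*k^8 - 54*k^7 - 419*k^6 - 1827*k^5 - 4881*k^4 - 8137*k^3 - 8185*k^2 - 4454*k - 960, 3*k^8 + 57*k^7 + 479*k^6 + 2324*k^5 + 7116*k^4 + 14074*k^3 + 17552*k^2 + 12617*k + 4002, 3*k^8 + 54*k^7 + 428*k^6 + 1953*k^5 + 5617*k^4 + 10436*k^3 + 12241*k^2 + 8292*k + 2484] := by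
    simp only [Lp]; exact l6 (by ring) (by ring) (by ring) (by ring) (by ring) (by ring)
  simp only [wu, run]
  rw [h0, h1, h2, h3, h4, h5, h6, h7, h8, h9, h10, h11, h12, h13, h14, h15, h16, h17, h18, h19, h20, h21]

theorem wu_2 (k : ℤ) : run (wu k) [0, 0, 1, 0, 0, 0] =
    [-k^4 - 11*k^3 - 44*k^2 - 76*k - 48, -3*k^6 - 45*k^5 - 278*k^4 - 909*k^3 - 1666*k^2 - 1631*k - 670, 3*k^8 + 60*k^7 + 515*k^6 + 2479*k^5 + 7324*k^4 + 13607*k^3 + 15525*k^2 + 9930*k + 2713, 3*k^8 + 57*k^7 + 464*k^6 + 2111*k^5 + 5857*k^4 + 10102*k^3 + 10482*k^2 + 5866*k + 1292, -3*k^8 - 60*k^7 - 527*k^6 - 2659*k^5 - 8436*k^4 - 17243*k^3 - 22188*k^2 - 16448*k - 5384, -3*k^8 - 57*k^7 - 473*k^6 - 2246*k^5 - 6692*k^4 - 12840*k^3 - 15523*k^2 - 10829*k - 3342] := by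
  have h0 : Lp 1 (-k - 3) [0, 0, 1, 0, 0, 0] =
      [0, k + 3, k + 4, 0, 0, 0] := by
    simp only [Lp]; exact l6 (by ring) (by ring) (by ring) (by ring) (by ring) (by ring)
  have h1 : Lp 3 (-k - 1) [0, k + 3, k + 4, 0, 0, 0] =
      [0, k + 3, k + 4, 0, 0, 0] := by
    simp only [Lp]; exact l6 (by ring) (by ring) (by ring) (by ring) (by ring) (by ring)
  have h2 : Lp 2 (k + 2) [0, k + 3, k + 4, 0, 0, 0] =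
      [0, k + 3, k^2 + 7*k + 12, k^2 + 6*k + 8, 0, 0] := by
    simp only [Lp]; exact l6 (by ring) (by ring) (by ring) (by ring) (by ring) (by ring)
  have h3 : Lp 0 (1) [0, k + 3, k^2 + 7*k + 12, k^2 + 6*k + 8, 0, 0] =
      [-k - 3, 0, k^2 + 7*k + 12, k^2 + 6*k + 8, 0, 0] := by
    simp only [Lp]; exact l6 (by ring) (by ring) (by ring) (by ring) (by ring) (by ring)
  have h4 : Lp 1 (1) [-k - 3, 0, k^2 + 7*k + 12, k^2 + 6*k + 8, 0, 0] =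
      [-k - 3, -k^2 - 7*k - 12, 0, k^2 + 6*k + 8, 0, 0] := by
    simp only [Lp]; exact l6 (by ring) (by ring) (by ring) (by ring) (by ring) (by ring)
  have h5 : Lp 3 (-1) [-k - 3, -k^2 - 7*k - 12, 0, k^2 + 6*k + 8, 0, 0] =
      [-k - 3, -k^2 - 7*k - 12, 0, 0, -k^2 - 6*k - 8, 0] := by
    simp only [Lp]; exact l6 (by ring) (by ring) (by ring) (by ring) (by ring) (by ring)
  have h6 : Lp 2 (1) [-k - 3, -k^2 - 7*k - 12, 0, 0, -k^2 - 6*k - 8, 0] =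
      [-k - 3, -k^2 - 7*k - 12, 0, 0, -k^2 - 6*k - 8, 0] := by
    simp only [Lp]; exact l6 (by ring) (by ring) (by ring) (by ring) (by ring) (by ring)
  have h7 : Lp 2 (1) [-k - 3, -k^2 - 7*k - 12, 0, 0, -k^2 - 6*k - 8, 0] =
      [-k - 3, -k^2 - 7*k - 12, 0, 0, -k^2 - 6*k - 8, 0] := by
    simp only [Lp]; exact l6 (by ring) (by ring) (by ring) (by ring) (by ring) (by ring)
  have h8 : Lp 1 (-k - 2) [-k - 3, -k^2 - 7*k - 12, 0, 0, -k^2 - 6*k - 8, 0] =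
      [-k - 3, k^3 + 8*k^2 + 19*k + 12, k^3 + 9*k^2 + 26*k + 24, 0, -k^2 - 6*k - 8, 0] := by
    simp only [Lp]; exact l6 (by ring) (by ring) (by ring) (by ring) (by ring) (by ring)
  have h9 : Lp 2 (k + 1) [-k - 3, k^3 + 8*k^2 + 19*k + 12, k^3 + 9*k^2 + 26*k + 24, 0, -k^2 - 6*k - 8, 0] =
      [-k - 3, k^3 + 8*k^2 + 19*k + 12, k^4 + 11*k^3 + 44*k^2 + 76*k + 48, k^4 + 10*k^3 + 35*k^2 + 50*k + 24, -k^2 - 6*k - 8, 0] := by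
    simp only [Lp]; exact l6 (by ring) (by ring) (by ring) (by ring) (by ring) (by ring)
  have h10 : Lp 0 (k + 3) [-k - 3, k^3 + 8*k^2 + 19*k + 12, k^4 + 11*k^3 + 44*k^2 + 76*k + 48, k^4 + 10*k^3 + 35*k^2 + 50*k + 24, -k^2 - 6*k - 8, 0] =
      [-k^4 - 11*k^3 - 44*k^2 - 76*k - 48, -k^4 - 10*k^3 - 36*k^2 - 56*k - 33, k^4 + 11*k^3 + 44*k^2 + 76*k + 48, k^4 + 10*k^3 + 35*k^2 + 50*k + 24, -k^2 - 6*k - 8, 0] := by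
    simp only [Lp]; exact l6 (by ring) (by ring) (by ring) (by ring) (by ring) (by ring)
  have h11 : Lp 1 (-k - 3) [-k^4 - 11*k^3 - 44*k^2 - 76*k - 48, -k^4 - 10*k^3 - 36*k^2 - 56*k - 33, k^4 + 11*k^3 + 44*k^2 + 76*k + 48, k^4 + 10*k^3 + 35*k^2 + 50*k + 24, -k^2 - 6*k - 8, 0] =
      [-k^4 - 11*k^3 - 44*k^2 - 76*k - 48, 2*k^5 + 26*k^4 + 133*k^3 + 336*k^2 + 421*k + 210, 2*k^5 + 28*k^4 + 154*k^3 + 416*k^2 + 553*k + 291, k^4 + 10*k^3 + 35*k^2 + 50*k + 24, -k^2 - 6*k - 8, 0] := by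
    simp only [Lp]; exact l6 (by ring) (by ring) (by ring) (by ring) (by ring) (by ring)
  have h12 : Lp 3 (-k - 1) [-k^4 - 11*k^3 - 44*k^2 - 76*k - 48, 2*k^5 + 26*k^4 + 133*k^3 + 336*k^2 + 421*k + 210, 2*k^5 + 28*k^4 + 154*k^3 + 416*k^2 + 553*k + 291, k^4 + 10*k^3 + 35*k^2 + 50*k + 24, -k^2 - 6*k - 8, 0] =
      [-k^4 - 11*k^3 - 44*k^2 - 76*k - 48, 2*k^5 + 26*k^4 + 133*k^3 + 336*k^2 + 421*k + 210, 2*k^5 + 28*k^4 + 154*k^3 + 416*k^2 + 553*k + 291, -k^5 - 10*k^4 - 36*k^3 - 57*k^2 - 38*k - 8, -k^5 - 11*k^4 - 46*k^3 - 93*k^2 - 94*k - 40, 0] := by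
    simp only [Lp]; exact l6 (by ring) (by ring) (by ring) (by ring) (by ring) (by ring)
  have h13 : Lp 2 (k + 2) [-k^4 - 11*k^3 - 44*k^2 - 76*k - 48, 2*k^5 + 26*k^4 + 133*k^3 + 336*k^2 + 421*k + 210, 2*k^5 + 28*k^4 + 154*k^3 + 416*k^2 + 553*k + 291, -k^5 - 10*k^4 - 36*k^3 - 57*k^2 - 38*k - 8, -k^5 - 11*k^4 - 46*k^3 - 93*k^2 - 94*k - 40, 0] =
      [-k^4 - 11*k^3 - 44*k^2 - 76*k - 48, 2*k^5 + 26*k^4 + 133*k^3 + 336*k^2 + 421*k + 210, 3*k^6 + 46*k^5 + 294*k^4 + 1007*k^3 + 1953*k^2 + 2034*k + 889, 3*k^6 + 43*k^5 + 256*k^4 + 817*k^3 + 1480*k^2 + 1443*k + 590, -k^5 - 11*k^4 - 46*k^3 - 93*k^2 - 94*k - 40, 0] := by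
    simp only [Lp]; exact l6 (by ring) (by ring) (by ring) (by ring) (by ring) (by ring)
  have h14 : Lp 3 (-1) [-k^4 - 11*k^3 - 44*k^2 - 76*k - 48, 2*k^5 + 26*k^4 + 133*k^3 + 336*k^2 + 421*k + 210, 3*k^6 + 46*k^5 + 294*k^4 + 1007*k^3 + 1953*k^2 + 2034*k + 889, 3*k^6 + 43*k^5 + 256*k^4 + 817*k^3 + 1480*k^2 + 1443*k + 590, -k^5 - 11*k^4 - 46*k^3 - 93*k^2 - 94*k - 40, 0] =
      [-k^4 - 11*k^3 - 44*k^2 - 76*k - 48, 2*k^5 + 26*k^4 + 133*k^3 + 336*k^2 + 421*k + 210, 3*k^6 + 46*k^5 + 294*k^4 + 1007*k^3 + 1953*k^2 + 2034*k + 889, -k^5 - 11*k^4 - 46*k^3 - 93*k^2 - 94*k - 40, -3*k^6 - 45*k^5 - 278*k^4 - 909*k^3 - 1666*k^2 - 1631*k - 670, 0] := by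
    simp only [Lp]; exact l6 (by ring) (by ring) (by ring) (by ring) (by ring) (by ring)
  have h15 : Lp 3 (-1) [-k^4 - 11*k^3 - 44*k^2 - 76*k - 48, 2*k^5 + 26*k^4 + 133*k^3 + 336*k^2 + 421*k + 210, 3*k^6 + 46*k^5 + 294*k^4 + 1007*k^3 + 1953*k^2 + 2034*k + 889, -k^5 - 11*k^4 - 46*k^3 - 93*k^2 - 94*k - 40, -3*k^6 - 45*k^5 - 278*k^4 - 909*k^3 - 1666*k^2 - 1631*k - 670, 0] =
      [-k^4 - 11*k^3 - 44*k^2 - 76*k - 48, 2*k^5 + 26*k^4 + 133*k^3 + 336*k^2 + 421*k + 210, 3*k^6 + 46*k^5 + 294*k^4 + 1007*k^3 + 1953*k^2 + 2034*k + 889, -3*k^6 - 45*k^5 - 278*k^4 - 909*k^3 - 1666*k^2 - 1631*k - 670, -6*k^6 - 89*k^5 - 545*k^4 - 1772*k^3 - 3239*k^2 - 3168*k - 1300, 0] := by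
    simp only [Lp]; exact l6 (by ring) (by ring) (by ring) (by ring) (by ring) (by ring)
  have h16 : Lp 4 (1) [-k^4 - 11*k^3 - 44*k^2 - 76*k - 48, 2*k^5 + 26*k^4 + 133*k^3 + 336*k^2 + 421*k + 210, 3*k^6 + 46*k^5 + 294*k^4 + 1007*k^3 + 1953*k^2 + 2034*k + 889, -3*k^6 - 45*k^5 - 278*k^4 - 909*k^3 - 1666*k^2 - 1631*k - 670, -6*k^6 - 89*k^5 - 545*k^4 - 1772*k^3 - 3239*k^2 - 3168*k - 1300, 0] =
      [-k^4 - 11*k^3 - 44*k^2 - 76*k - 48, 2*k^5 + 26*k^4 + 133*k^3 + 336*k^2 + 421*k + 210, 3*k^6 + 46*k^5 + 294*k^4 + 1007*k^3 + 1953*k^2 + 2034*k + 889, -3*k^6 - 45*k^5 - 278*k^4 - 909*k^3 - 1666*k^2 - 1631*k - 670, -12*k^6 - 178*k^5 - 1090*k^4 - 3544*k^3 - 6478*k^2 - 6336*k - 2600, -6*k^6 - 89*k^5 - 545*k^4 - 1772*k^3 - 3239*k^2 - 3168*k - 1300] := by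
    simp only [Lp]; exact l6 (by ring) (by ring) (by ring) (by ring) (by ring) (by ring)
  have h17 : Lp 2 (-1) [-k^4 - 11*k^3 - 44*k^2 - 76*k - 48, 2*k^5 + 26*k^4 + 133*k^3 + 336*k^2 + 421*k + 210, 3*k^6 + 46*k^5 + 294*k^4 + 1007*k^3 + 1953*k^2 + 2034*k + 889, -3*k^6 - 45*k^5 - 278*k^4 - 909*k^3 - 1666*k^2 - 1631*k - 670, -12*k^6 - 178*k^5 - 1090*k^4 - 3544*k^3 - 6478*k^2 - 6336*k - 2600, -6*k^6 - 89*k^5 - 545*k^4 - 1772*k^3 - 3239*k^2 - 3168*k - 1300] =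
      [-k^4 - 11*k^3 - 44*k^2 - 76*k - 48, 2*k^5 + 26*k^4 + 133*k^3 + 336*k^2 + 421*k + 210, -3*k^6 - 45*k^5 - 278*k^4 - 909*k^3 - 1666*k^2 - 1631*k - 670, -9*k^6 - 136*k^5 - 850*k^4 - 2825*k^3 - 5285*k^2 - 5296*k - 2229, -12*k^6 - 178*k^5 - 1090*k^4 - 3544*k^3 - 6478*k^2 - 6336*k - 2600, -6*k^6 - 89*k^5 - 545*k^4 - 1772*k^3 - 3239*k^2 - 3168*k - 1300] := by
    simp only [Lp]; exact l6 (by ring) (by ring) (by ring) (by ring) (by ring) (by ring)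
  have h18 : Lp 1 (-1) [-k^4 - 11*k^3 - 44*k^2 - 76*k - 48, 2*k^5 + 26*k^4 + 133*k^3 + 336*k^2 + 421*k + 210, -3*k^6 - 45*k^5 - 278*k^4 - 909*k^3 - 1666*k^2 - 1631*k - 670, -9*k^6 - 136*k^5 - 850*k^4 - 2825*k^3 - 5285*k^2 - 5296*k - 2229, -12*k^6 - 178*k^5 - 1090*k^4 - 3544*k^3 - 6478*k^2 - 6336*k - 2600, -6*k^6 - 89*k^5 - 545*k^4 - 1772*k^3 - 3239*k^2 - 3168*k - 1300] =
      [-k^4 - 11*k^3 - 44*k^2 - 76*k - 48, -3*k^6 - 45*k^5 - 278*k^4 - 909*k^3 - 1666*k^2 - 1631*k - 670, -6*k^6 - 92*k^5 - 582*k^4 - 1951*k^3 - 3668*k^2 - 3683*k - 1550, -9*k^6 - 136*k^5 - 850*k^4 - 2825*k^3 - 5285*k^2 - 5296*k - 2229, -12*k^6 - 178*k^5 - 1090*k^4 - 3544*k^3 - 6478*k^2 - 6336*k - 2600, -6*k^6 - 89*k^5 - 545*k^4 - 1772*k^3 - 3239*k^2 - 3168*k - 1300] := by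
    simp only [Lp]; exact l6 (by ring) (by ring) (by ring) (by ring) (by ring) (by ring)
  have h19 : Lp 3 (-k - 2) [-k^4 - 11*k^3 - 44*k^2 - 76*k - 48, -3*k^6 - 45*k^5 - 278*k^4 - 909*k^3 - 1666*k^2 - 1631*k - 670, -6*k^6 - 92*k^5 - 582*k^4 - 1951*k^3 - 3668*k^2 - 3683*k - 1550, -9*k^6 - 136*k^5 - 850*k^4 - 2825*k^3 - 5285*k^2 - 5296*k - 2229, -12*k^6 - 178*k^5 - 1090*k^4 - 3544*k^3 - 6478*k^2 - 6336*k - 2600, -6*k^6 - 89*k^5 - 545*k^4 - 1772*k^3 - 3239*k^2 - 3168*k - 1300] =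
      [-k^4 - 11*k^3 - 44*k^2 - 76*k - 48, -3*k^6 - 45*k^5 - 278*k^4 - 909*k^3 - 1666*k^2 - 1631*k - 670, -6*k^6 - 92*k^5 - 582*k^4 - 1951*k^3 - 3668*k^2 - 3683*k - 1550, -3*k^7 - 57*k^6 - 460*k^5 - 2049*k^4 - 5456*k^3 - 8711*k^2 - 7747*k - 2971, -3*k^7 - 60*k^6 - 502*k^5 - 2289*k^4 - 6175*k^3 - 9904*k^2 - 8787*k - 3342, -6*k^6 - 89*k^5 - 545*k^4 - 1772*k^3 - 3239*k^2 - 3168*k - 1300] := by
    simp only [Lp]; exact l6 (by ring) (by ring) (by ring) (by ring) (by ring) (by ring)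
  have h20 : Lp 4 (k + 1) [-k^4 - 11*k^3 - 44*k^2 - 76*k - 48, -3*k^6 - 45*k^5 - 278*k^4 - 909*k^3 - 1666*k^2 - 1631*k - 670, -6*k^6 - 92*k^5 - 582*k^4 - 1951*k^3 - 3668*k^2 - 3683*k - 1550, -3*k^7 - 57*k^6 - 460*k^5 - 2049*k^4 - 5456*k^3 - 8711*k^2 - 7747*k - 2971, -3*k^7 - 60*k^6 - 502*k^5 - 2289*k^4 - 6175*k^3 - 9904*k^2 - 8787*k - 3342, -6*k^6 - 89*k^5 - 545*k^4 - 1772*k^3 - 3239*k^2 - 3168*k - 1300] =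
      [-k^4 - 11*k^3 - 44*k^2 - 76*k - 48, -3*k^6 - 45*k^5 - 278*k^4 - 909*k^3 - 1666*k^2 - 1631*k - 670, -6*k^6 - 92*k^5 - 582*k^4 - 1951*k^3 - 3668*k^2 - 3683*k - 1550, -3*k^7 - 57*k^6 - 460*k^5 - 2049*k^4 - 5456*k^3 - 8711*k^2 - 7747*k - 2971, -3*k^8 - 60*k^7 - 527*k^6 - 2659*k^5 - 8436*k^4 - 17243*k^3 - 22188*k^2 - 16448*k - 5384, -3*k^8 - 57*k^7 - 473*k^6 - 2246*k^5 - 6692*k^4 - 12840*k^3 - 15523*k^2 - 10829*k - 3342] := by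
    simp only [Lp]; exact l6 (by ring) (by ring) (by ring) (by ring) (by ring) (by ring)
  have h21 : Lp 2 (k + 3) [-k^4 - 11*k^3 - 44*k^2 - 76*k - 48, -3*k^6 - 45*k^5 - 278*k^4 - 909*k^3 - 1666*k^2 - 1631*k - 670, -6*k^6 - 92*k^5 - 582*k^4 - 1951*k^3 - 3668*k^2 - 3683*k - 1550, -3*k^7 - 57*k^6 - 460*k^5 - 2049*k^4 - 5456*k^3 - 8711*k^2 - 7747*k - 2971, -3*k^8 - 60*k^7 - 527*k^6 - 2659*k^5 - 8436*k^4 - 17243*k^3 - 22188*k^2 - 16448*k - 5384, -3*k^8 - 57*k^7 - 473*k^6 - 2246*k^5 - 6692*k^4 - 12840*k^3 - 15523*k^2 - 10829*k - 3342] =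
      [-k^4 - 11*k^3 - 44*k^2 - 76*k - 48, -3*k^6 - 45*k^5 - 278*k^4 - 909*k^3 - 1666*k^2 - 1631*k - 670, 3*k^8 + 60*k^7 + 515*k^6 + 2479*k^5 + 7324*k^4 + 13607*k^3 + 15525*k^2 + 9930*k + 2713, 3*k^8 + 57*k^7 + 464*k^6 + 2111*k^5 + 5857*k^4 + 10102*k^3 + 10482*k^2 + 5866*k + 1292, -3*k^8 - 60*k^7 - 527*k^6 - 2659*k^5 - 8436*k^4 - 17243*k^3 - 22188*k^2 - 16448*k - 5384, -3*k^8 - 57*k^7 - 473*k^6 - 2246*k^5 - 6692*k^4 - 12840*k^3 - 15523*k^2 - 10829*k - 3342] := by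
    simp only [Lp]; exact l6 (by ring) (by ring) (by ring) (by ring) (by ring) (by ring)
  simp only [wu, run]
  rw [h0, h1, h2, h3, h4, h5, h6, h7, h8, h9, h10, h11, h12, h13, h14, h15, h16, h17, h18, h19, h20, h21]

theorem wu_3 (k : ℤ) : run (wu k) [0, 0, 0, 1, 0, 0] =
    [-k^4 - 8*k^3 - 23*k^2 - 28*k - 12, -3*k^6 - 36*k^5 - 179*k^4 - 471*k^3 - 689*k^2 - 525*k - 158, 3*k^8 + 51*k^7 + 371*k^6 + 1510*k^5 + 3761*k^4 + 5861*k^3 + 5557*k^2 + 2910*k + 640, 3*k^8 + 48*k^7 + 329*k^6 + 1259*k^5 + 2930*k^4 + 4215*k^3 + 3613*k^2 + 1654*k + 305, -3*k^8 - 51*k^7 - 383*k^6 - 1654*k^5 - 4477*k^4 - 7745*k^3 - 8312*k^2 - 5007*k - 1270, -3*k^8 - 48*k^7 - 338*k^6 - 1367*k^5 - 3468*k^4 - 5636*k^3 - 5702*k^2 - 3254*k - 788] := by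
  have h0 : Lp 1 (-k - 3) [0, 0, 0, 1, 0, 0] =
      [0, 0, 0, 1, 0, 0] := by
    simp only [Lp]; exact l6 (by ring) (by ring) (by ring) (by ring) (by ring) (by ring)
  have h1 : Lp 3 (-k - 1) [0, 0, 0, 1, 0, 0] =
      [0, 0, 0, -k, -k - 1, 0] := by
    simp only [Lp]; exact l6 (by ring) (by ring) (by ring) (by ring) (by ring) (by ring)
  have h2 : Lp 2 (k + 2) [0, 0, 0, -k, -k - 1, 0] =
      [0, 0, k^2 + 2*k, k^2 + k, -k - 1, 0] := by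
    simp only [Lp]; exact l6 (by ring) (by ring) (by ring) (by ring) (by ring) (by ring)
  have h3 : Lp 0 (1) [0, 0, k^2 + 2*k, k^2 + k, -k - 1, 0] =
      [0, 0, k^2 + 2*k, k^2 + k, -k - 1, 0] := by
    simp only [Lp]; exact l6 (by ring) (by ring) (by ring) (by ring) (by ring) (by ring)
  have h4 : Lp 1 (1) [0, 0, k^2 + 2*k, k^2 + k, -k - 1, 0] =
      [0, -k^2 - 2*k, 0, k^2 + k, -k - 1, 0] := by
    simp only [Lp]; exact l6 (by ring) (by ring) (by ring) (by ring) (by ring) (by ring)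
  have h5 : Lp 3 (-1) [0, -k^2 - 2*k, 0, k^2 + k, -k - 1, 0] =
      [0, -k^2 - 2*k, 0, -k - 1, -k^2 - 3*k - 2, 0] := by
    simp only [Lp]; exact l6 (by ring) (by ring) (by ring) (by ring) (by ring) (by ring)
  have h6 : Lp 2 (1) [0, -k^2 - 2*k, 0, -k - 1, -k^2 - 3*k - 2, 0] =
      [0, -k^2 - 2*k, k + 1, 0, -k^2 - 3*k - 2, 0] := by
    simp only [Lp]; exact l6 (by ring) (by ring) (by ring) (by ring) (by ring) (by ring)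
  have h7 : Lp 2 (1) [0, -k^2 - 2*k, k + 1, 0, -k^2 - 3*k - 2, 0] =
      [0, -k^2 - 2*k, 2*k + 2, k + 1, -k^2 - 3*k - 2, 0] := by
    simp only [Lp]; exact l6 (by ring) (by ring) (by ring) (by ring) (by ring) (by ring)
  have h8 : Lp 1 (-k - 2) [0, -k^2 - 2*k, 2*k + 2, k + 1, -k^2 - 3*k - 2, 0] =
      [0, k^3 + 5*k^2 + 8*k + 4, k^3 + 6*k^2 + 12*k + 6, k + 1, -k^2 - 3*k - 2, 0] := by
    simp only [Lp]; exact l6 (by ring) (by ring) (by ring) (by ring) (by ring) (by ring)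
  have h9 : Lp 2 (k + 1) [0, k^3 + 5*k^2 + 8*k + 4, k^3 + 6*k^2 + 12*k + 6, k + 1, -k^2 - 3*k - 2, 0] =
      [0, k^3 + 5*k^2 + 8*k + 4, k^4 + 8*k^3 + 23*k^2 + 28*k + 11, k^4 + 7*k^3 + 17*k^2 + 17*k + 6, -k^2 - 3*k - 2, 0] := by
    simp only [Lp]; exact l6 (by ring) (by ring) (by ring) (by ring) (by ring) (by ring)
  have h10 : Lp 0 (k + 3) [0, k^3 + 5*k^2 + 8*k + 4, k^4 + 8*k^3 + 23*k^2 + 28*k + 11, k^4 + 7*k^3 + 17*k^2 + 17*k + 6, -k^2 - 3*k - 2, 0] =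
      [-k^4 - 8*k^3 - 23*k^2 - 28*k - 12, -k^4 - 7*k^3 - 18*k^2 - 20*k - 8, k^4 + 8*k^3 + 23*k^2 + 28*k + 11, k^4 + 7*k^3 + 17*k^2 + 17*k + 6, -k^2 - 3*k - 2, 0] := by
    simp only [Lp]; exact l6 (by ring) (by ring) (by ring) (by ring) (by ring) (by ring)
  have h11 : Lp 1 (-k - 3) [-k^4 - 8*k^3 - 23*k^2 - 28*k - 12, -k^4 - 7*k^3 - 18*k^2 - 20*k - 8, k^4 + 8*k^3 + 23*k^2 + 28*k + 11, k^4 + 7*k^3 + 17*k^2 + 17*k + 6, -k^2 - 3*k - 2, 0] =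
      [-k^4 - 8*k^3 - 23*k^2 - 28*k - 12, 2*k^5 + 20*k^4 + 79*k^3 + 153*k^2 + 143*k + 49, 2*k^5 + 22*k^4 + 94*k^3 + 194*k^2 + 191*k + 68, k^4 + 7*k^3 + 17*k^2 + 17*k + 6, -k^2 - 3*k - 2, 0] := by
    simp only [Lp]; exact l6 (by ring) (by ring) (by ring) (by ring) (by ring) (by ring)
  have h12 : Lp 3 (-k - 1) [-k^4 - 8*k^3 - 23*k^2 - 28*k - 12, 2*k^5 + 20*k^4 + 79*k^3 + 153*k^2 + 143*k + 49, 2*k^5 + 22*k^4 + 94*k^3 + 194*k^2 + 191*k + 68, k^4 + 7*k^3 + 17*k^2 + 17*k + 6, -k^2 - 3*k - 2, 0] =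
      [-k^4 - 8*k^3 - 23*k^2 - 28*k - 12, 2*k^5 + 20*k^4 + 79*k^3 + 153*k^2 + 143*k + 49, 2*k^5 + 22*k^4 + 94*k^3 + 194*k^2 + 191*k + 68, -k^5 - 7*k^4 - 18*k^3 - 21*k^2 - 11*k - 2, -k^5 - 8*k^4 - 25*k^3 - 39*k^2 - 31*k - 10, 0] := by
    simp only [Lp]; exact l6 (by ring) (by ring) (by ring) (by ring) (by ring) (by ring)
  have h13 : Lp 2 (k + 2) [-k^4 - 8*k^3 - 23*k^2 - 28*k - 12, 2*k^5 + 20*k^4 + 79*k^3 + 153*k^2 + 143*k + 49, 2*k^5 + 22*k^4 + 94*k^3 + 194*k^2 + 191*k + 68, -k^5 - 7*k^4 - 18*k^3 - 21*k^2 - 11*k - 2, -k^5 - 8*k^4 - 25*k^3 - 39*k^2 - 31*k - 10, 0] =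
      [-k^4 - 8*k^3 - 23*k^2 - 28*k - 12, 2*k^5 + 20*k^4 + 79*k^3 + 153*k^2 + 143*k + 49, 3*k^6 + 37*k^5 + 192*k^4 + 533*k^3 + 826*k^2 + 665*k + 208, 3*k^6 + 34*k^5 + 163*k^4 + 421*k^3 + 611*k^2 + 463*k + 138, -k^5 - 8*k^4 - 25*k^3 - 39*k^2 - 31*k - 10, 0] := by
    simp only [Lp]; exact l6 (by ring) (by ring) (by ring) (by ring) (by ring) (by ring)
  have h14 : Lp 3 (-1) [-k^4 - 8*k^3 - 23*k^2 - 28*k - 12, 2*k^5 + 20*k^4 + 79*k^3 + 153*k^2 + 143*k + 49, 3*k^6 + 37*k^5 + 192*k^4 + 533*k^3 + 826*k^2 + 665*k + 208, 3*k^6 + 34*k^5 + 163*k^4 + 421*k^3 + 611*k^2 + 463*k + 138, -k^5 - 8*k^4 - 25*k^3 - 39*k^2 - 31*k - 10, 0] =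
      [-k^4 - 8*k^3 - 23*k^2 - 28*k - 12, 2*k^5 + 20*k^4 + 79*k^3 + 153*k^2 + 143*k + 49, 3*k^6 + 37*k^5 + 192*k^4 + 533*k^3 + 826*k^2 + 665*k + 208, -k^5 - 8*k^4 - 25*k^3 - 39*k^2 - 31*k - 10, -3*k^6 - 36*k^5 - 179*k^4 - 471*k^3 - 689*k^2 - 525*k - 158, 0] := by
    simp only [Lp]; exact l6 (by ring) (by ring) (by ring) (by ring) (by ring) (by ring)
  have h15 : Lp 3 (-1) [-k^4 - 8*k^3 - 23*k^2 - 28*k - 12, 2*k^5 + 20*k^4 + 79*k^3 + 153*k^2 + 143*k + 49, 3*k^6 + 37*k^5 + 192*k^4 + 533*k^3 + 826*k^2 + 665*k + 208, -k^5 - 8*k^4 - 25*k^3 - 39*k^2 - 31*k - 10, -3*k^6 - 36*k^5 - 179*k^4 - 471*k^3 - 689*k^2 - 525*k - 158, 0] =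
      [-k^4 - 8*k^3 - 23*k^2 - 28*k - 12, 2*k^5 + 20*k^4 + 79*k^3 + 153*k^2 + 143*k + 49, 3*k^6 + 37*k^5 + 192*k^4 + 533*k^3 + 826*k^2 + 665*k + 208, -3*k^6 - 36*k^5 - 179*k^4 - 471*k^3 - 689*k^2 - 525*k - 158, -6*k^6 - 71*k^5 - 350*k^4 - 917*k^3 - 1339*k^2 - 1019*k - 306, 0] := by
    simp only [Lp]; exact l6 (by ring) (by ring) (by ring) (by ring) (by ring) (by ring)
  have h16 : Lp 4 (1) [-k^4 - 8*k^3 - 23*k^2 - 28*k - 12, 2*k^5 + 20*k^4 + 79*k^3 + 153*k^2 + 143*k + 49, 3*k^6 + 37*k^5 + 192*k^4 + 533*k^3 + 826*k^2 + 665*k + 208, -3*k^6 - 36*k^5 - 179*k^4 - 471*k^3 - 689*k^2 - 525*k - 158, -6*k^6 - 71*k^5 - 350*k^4 - 917*k^3 - 1339*k^2 - 1019*k - 306, 0] =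
      [-k^4 - 8*k^3 - 23*k^2 - 28*k - 12, 2*k^5 + 20*k^4 + 79*k^3 + 153*k^2 + 143*k + 49, 3*k^6 + 37*k^5 + 192*k^4 + 533*k^3 + 826*k^2 + 665*k + 208, -3*k^6 - 36*k^5 - 179*k^4 - 471*k^3 - 689*k^2 - 525*k - 158, -12*k^6 - 142*k^5 - 700*k^4 - 1834*k^3 - 2678*k^2 - 2038*k - 612, -6*k^6 - 71*k^5 - 350*k^4 - 917*k^3 - 1339*k^2 - 1019*k - 306] := by
    simp only [Lp]; exact l6 (by ring) (by ring) (by ring) (by ring) (by ring) (by ring)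
  have h17 : Lp 2 (-1) [-k^4 - 8*k^3 - 23*k^2 - 28*k - 12, 2*k^5 + 20*k^4 + 79*k^3 + 153*k^2 + 143*k + 49, 3*k^6 + 37*k^5 + 192*k^4 + 533*k^3 + 826*k^2 + 665*k + 208, -3*k^6 - 36*k^5 - 179*k^4 - 471*k^3 - 689*k^2 - 525*k - 158, -12*k^6 - 142*k^5 - 700*k^4 - 1834*k^3 - 2678*k^2 - 2038*k - 612, -6*k^6 - 71*k^5 - 350*k^4 - 917*k^3 - 1339*k^2 - 1019*k - 306] =
      [-k^4 - 8*k^3 - 23*k^2 - 28*k - 12, 2*k^5 + 20*k^4 + 79*k^3 + 153*k^2 + 143*k + 49, -3*k^6 - 36*k^5 - 179*k^4 - 471*k^3 - 689*k^2 - 525*k - 158, -9*k^6 - 109*k^5 - 550*k^4 - 1475*k^3 - 2204*k^2 - 1715*k - 524, -12*k^6 - 142*k^5 - 700*k^4 - 1834*k^3 - 2678*k^2 - 2038*k - 612, -6*k^6 - 71*k^5 - 350*k^4 - 917*k^3 - 1339*k^2 - 1019*k - 306] := by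
    simp only [Lp]; exact l6 (by ring) (by ring) (by ring) (by ring) (by ring) (by ring)
  have h18 : Lp 1 (-1) [-k^4 - 8*k^3 - 23*k^2 - 28*k - 12, 2*k^5 + 20*k^4 + 79*k^3 + 153*k^2 + 143*k + 49, -3*k^6 - 36*k^5 - 179*k^4 - 471*k^3 - 689*k^2 - 525*k - 158, -9*k^6 - 109*k^5 - 550*k^4 - 1475*k^3 - 2204*k^2 - 1715*k - 524, -12*k^6 - 142*k^5 - 700*k^4 - 1834*k^3 - 2678*k^2 - 2038*k - 612, -6*k^6 - 71*k^5 - 350*k^4 - 917*k^3 - 1339*k^2 - 1019*k - 306] =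
      [-k^4 - 8*k^3 - 23*k^2 - 28*k - 12, -3*k^6 - 36*k^5 - 179*k^4 - 471*k^3 - 689*k^2 - 525*k - 158, -6*k^6 - 74*k^5 - 378*k^4 - 1021*k^3 - 1531*k^2 - 1193*k - 365, -9*k^6 - 109*k^5 - 550*k^4 - 1475*k^3 - 2204*k^2 - 1715*k - 524, -12*k^6 - 142*k^5 - 700*k^4 - 1834*k^3 - 2678*k^2 - 2038*k - 612, -6*k^6 - 71*k^5 - 350*k^4 - 917*k^3 - 1339*k^2 - 1019*k - 306] := by
    simp only [Lp]; exact l6 (by ring) (by ring) (by ring) (by ring) (by ring) (by ring)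
  have h19 : Lp 3 (-k - 2) [-k^4 - 8*k^3 - 23*k^2 - 28*k - 12, -3*k^6 - 36*k^5 - 179*k^4 - 471*k^3 - 689*k^2 - 525*k - 158, -6*k^6 - 74*k^5 - 378*k^4 - 1021*k^3 - 1531*k^2 - 1193*k - 365, -9*k^6 - 109*k^5 - 550*k^4 - 1475*k^3 - 2204*k^2 - 1715*k - 524, -12*k^6 - 142*k^5 - 700*k^4 - 1834*k^3 - 2678*k^2 - 2038*k - 612, -6*k^6 - 71*k^5 - 350*k^4 - 917*k^3 - 1339*k^2 - 1019*k - 306] =
      [-k^4 - 8*k^3 - 23*k^2 - 28*k - 12, -3*k^6 - 36*k^5 - 179*k^4 - 471*k^3 - 689*k^2 - 525*k - 158, -6*k^6 - 74*k^5 - 378*k^4 - 1021*k^3 - 1531*k^2 - 1193*k - 365, -3*k^7 - 48*k^6 - 325*k^5 - 1209*k^4 - 2667*k^3 - 3475*k^2 - 2449*k - 700, -3*k^7 - 51*k^6 - 358*k^5 - 1359*k^4 - 3026*k^3 - 3949*k^2 - 2772*k - 788, -6*k^6 - 71*k^5 - 350*k^4 - 917*k^3 - 1339*k^2 - 1019*k - 306] := by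
    simp only [Lp]; exact l6 (by ring) (by ring) (by ring) (by ring) (by ring) (by ring)
  have h20 : Lp 4 (k + 1) [-k^4 - 8*k^3 - 23*k^2 - 28*k - 12, -3*k^6 - 36*k^5 - 179*k^4 - 471*k^3 - 689*k^2 - 525*k - 158, -6*k^6 - 74*k^5 - 378*k^4 - 1021*k^3 - 1531*k^2 - 1193*k - 365, -3*k^7 - 48*k^6 - 325*k^5 - 1209*k^4 - 2667*k^3 - 3475*k^2 - 2449*k - 700, -3*k^7 - 51*k^6 - 358*k^5 - 1359*k^4 - 3026*k^3 - 3949*k^2 - 2772*k - 788, -6*k^6 - 71*k^5 - 350*k^4 - 917*k^3 - 1339*k^2 - 1019*k - 306] =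
      [-k^4 - 8*k^3 - 23*k^2 - 28*k - 12, -3*k^6 - 36*k^5 - 179*k^4 - 471*k^3 - 689*k^2 - 525*k - 158, -6*k^6 - 74*k^5 - 378*k^4 - 1021*k^3 - 1531*k^2 - 1193*k - 365, -3*k^7 - 48*k^6 - 325*k^5 - 1209*k^4 - 2667*k^3 - 3475*k^2 - 2449*k - 700, -3*k^8 - 51*k^7 - 383*k^6 - 1654*k^5 - 4477*k^4 - 7745*k^3 - 8312*k^2 - 5007*k - 1270, -3*k^8 - 48*k^7 - 338*k^6 - 1367*k^5 - 3468*k^4 - 5636*k^3 - 5702*k^2 - 3254*k - 788] := by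
    simp only [Lp]; exact l6 (by ring) (by ring) (by ring) (by ring) (by ring) (by ring)
  have h21 : Lp 2 (k + 3) [-k^4 - 8*k^3 - 23*k^2 - 28*k - 12, -3*k^6 - 36*k^5 - 179*k^4 - 471*k^3 - 689*k^2 - 525*k - 158, -6*k^6 - 74*k^5 - 378*k^4 - 1021*k^3 - 1531*k^2 - 1193*k - 365, -3*k^7 - 48*k^6 - 325*k^5 - 1209*k^4 - 2667*k^3 - 3475*k^2 - 2449*k - 700, -3*k^8 - 51*k^7 - 383*k^6 - 1654*k^5 - 4477*k^4 - 7745*k^3 - 8312*k^2 - 5007*k - 1270, -3*k^8 - 48*k^7 - 338*k^6 - 1367*k^5 - 3468*k^4 - 5636*k^3 - 5702*k^2 - 3254*k - 788] =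
      [-k^4 - 8*k^3 - 23*k^2 - 28*k - 12, -3*k^6 - 36*k^5 - 179*k^4 - 471*k^3 - 689*k^2 - 525*k - 158, 3*k^8 + 51*k^7 + 371*k^6 + 1510*k^5 + 3761*k^4 + 5861*k^3 + 5557*k^2 + 2910*k + 640, 3*k^8 + 48*k^7 + 329*k^6 + 1259*k^5 + 2930*k^4 + 4215*k^3 + 3613*k^2 + 1654*k + 305, -3*k^8 - 51*k^7 - 383*k^6 - 1654*k^5 - 4477*k^4 - 7745*k^3 - 8312*k^2 - 5007*k - 1270, -3*k^8 - 48*k^7 - 338*k^6 - 1367*k^5 - 3468*k^4 - 5636*k^3 - 5702*k^2 - 3254*k - 788] := by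
    simp only [Lp]; exact l6 (by ring) (by ring) (by ring) (by ring) (by ring) (by ring)
  simp only [wu, run]
  rw [h0, h1, h2, h3, h4, h5, h6, h7, h8, h9, h10, h11, h12, h13, h14, h15, h16, h17, h18, h19, h20, h21]

theorem wu_4 (k : ℤ) : run (wu k) [0, 0, 0, 0, 1, 0] =
    [k^4 + 9*k^3 + 31*k^2 + 49*k + 30, 3*k^6 + 39*k^5 + 215*k^4 + 644*k^3 + 1108*k^2 + 1040*k + 417, -3*k^8 - 54*k^7 - 422*k^6 - 1875*k^5 - 5189*k^4 - 9164*k^3 - 10074*k^2 - 6281*k - 1688, -3*k^8 - 51*k^7 - 377*k^6 - 1582*k^5 - 4113*k^4 - 6751*k^3 - 6762*k^2 - 3699*k - 804, 3*k^8 + 54*k^7 + 434*k^6 + 2031*k^5 + 6049*k^4 + 11740*k^3 + 14505*k^2 + 10437*k + 3352, 3*k^8 + 51*k^7 + 386*k^6 + 1699*k^5 + 4759*k^4 + 8692*k^3 + 10116*k^2 + 6864*k + 2080] := by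
  have h0 : Lp 1 (-k - 3) [0, 0, 0, 0, 1, 0] =
      [0, 0, 0, 0, 1, 0] := by
    simp only [Lp]; exact l6 (by ring) (by ring) (by ring) (by ring) (by ring) (by ring)
  have h1 : Lp 3 (-k - 1) [0, 0, 0, 0, 1, 0] =
      [0, 0, 0, k + 1, k + 2, 0] := by
    simp only [Lp]; exact l6 (by ring) (by ring) (by ring) (by ring) (by ring) (by ring)
  have h2 : Lp 2 (k + 2) [0, 0, 0, k + 1, k + 2, 0] =
      [0, 0, -k^2 - 3*k - 2, -k^2 - 2*k - 1, k + 2, 0] := by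
    simp only [Lp]; exact l6 (by ring) (by ring) (by ring) (by ring) (by ring) (by ring)
  have h3 : Lp 0 (1) [0, 0, -k^2 - 3*k - 2, -k^2 - 2*k - 1, k + 2, 0] =
      [0, 0, -k^2 - 3*k - 2, -k^2 - 2*k - 1, k + 2, 0] := by
    simp only [Lp]; exact l6 (by ring) (by ring) (by ring) (by ring) (by ring) (by ring)
  have h4 : Lp 1 (1) [0, 0, -k^2 - 3*k - 2, -k^2 - 2*k - 1, k + 2, 0] =
      [0, k^2 + 3*k + 2, 0, -k^2 - 2*k - 1, k + 2, 0] := by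
    simp only [Lp]; exact l6 (by ring) (by ring) (by ring) (by ring) (by ring) (by ring)
  have h5 : Lp 3 (-1) [0, k^2 + 3*k + 2, 0, -k^2 - 2*k - 1, k + 2, 0] =
      [0, k^2 + 3*k + 2, 0, k + 2, k^2 + 4*k + 5, 0] := by
    simp only [Lp]; exact l6 (by ring) (by ring) (by ring) (by ring) (by ring) (by ring)
  have h6 : Lp 2 (1) [0, k^2 + 3*k + 2, 0, k + 2, k^2 + 4*k + 5, 0] =
      [0, k^2 + 3*k + 2, -k - 2, 0, k^2 + 4*k + 5, 0] := by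
    simp only [Lp]; exact l6 (by ring) (by ring) (by ring) (by ring) (by ring) (by ring)
  have h7 : Lp 2 (1) [0, k^2 + 3*k + 2, -k - 2, 0, k^2 + 4*k + 5, 0] =
      [0, k^2 + 3*k + 2, -2*k - 4, -k - 2, k^2 + 4*k + 5, 0] := by
    simp only [Lp]; exact l6 (by ring) (by ring) (by ring) (by ring) (by ring) (by ring)
  have h8 : Lp 1 (-k - 2) [0, k^2 + 3*k + 2, -2*k - 4, -k - 2, k^2 + 4*k + 5, 0] =
      [0, -k^3 - 6*k^2 - 13*k - 10, -k^3 - 7*k^2 - 18*k - 16, -k - 2, k^2 + 4*k + 5, 0] := by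
    simp only [Lp]; exact l6 (by ring) (by ring) (by ring) (by ring) (by ring) (by ring)
  have h9 : Lp 2 (k + 1) [0, -k^3 - 6*k^2 - 13*k - 10, -k^3 - 7*k^2 - 18*k - 16, -k - 2, k^2 + 4*k + 5, 0] =
      [0, -k^3 - 6*k^2 - 13*k - 10, -k^4 - 9*k^3 - 31*k^2 - 49*k - 30, -k^4 - 8*k^3 - 24*k^2 - 32*k - 16, k^2 + 4*k + 5, 0] := by
    simp only [Lp]; exact l6 (by ring) (by ring) (by ring) (by ring) (by ring) (by ring)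
  have h10 : Lp 0 (k + 3) [0, -k^3 - 6*k^2 - 13*k - 10, -k^4 - 9*k^3 - 31*k^2 - 49*k - 30, -k^4 - 8*k^3 - 24*k^2 - 32*k - 16, k^2 + 4*k + 5, 0] =
      [k^4 + 9*k^3 + 31*k^2 + 49*k + 30, k^4 + 8*k^3 + 25*k^2 + 36*k + 20, -k^4 - 9*k^3 - 31*k^2 - 49*k - 30, -k^4 - 8*k^3 - 24*k^2 - 32*k - 16, k^2 + 4*k + 5, 0] := by
    simp only [Lp]; exact l6 (by ring) (by ring) (by ring) (by ring) (by ring) (by ring)
  have h11 : Lp 1 (-k - 3) [k^4 + 9*k^3 + 31*k^2 + 49*k + 30, k^4 + 8*k^3 + 25*k^2 + 36*k + 20, -k^4 - 9*k^3 - 31*k^2 - 49*k - 30, -k^4 - 8*k^3 - 24*k^2 - 32*k - 16, k^2 + 4*k + 5, 0] =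
      [k^4 + 9*k^3 + 31*k^2 + 49*k + 30, -2*k^5 - 22*k^4 - 99*k^3 - 228*k^2 - 269*k - 130, -2*k^5 - 24*k^4 - 116*k^3 - 284*k^2 - 354*k - 180, -k^4 - 8*k^3 - 24*k^2 - 32*k - 16, k^2 + 4*k + 5, 0] := by
    simp only [Lp]; exact l6 (by ring) (by ring) (by ring) (by ring) (by ring) (by ring)
  have h12 : Lp 3 (-k - 1) [k^4 + 9*k^3 + 31*k^2 + 49*k + 30, -2*k^5 - 22*k^4 - 99*k^3 - 228*k^2 - 269*k - 130, -2*k^5 - 24*k^4 - 116*k^3 - 284*k^2 - 354*k - 180, -k^4 - 8*k^3 - 24*k^2 - 32*k - 16, k^2 + 4*k + 5, 0] =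
      [k^4 + 9*k^3 + 31*k^2 + 49*k + 30, -2*k^5 - 22*k^4 - 99*k^3 - 228*k^2 - 269*k - 130, -2*k^5 - 24*k^4 - 116*k^3 - 284*k^2 - 354*k - 180, k^5 + 8*k^4 + 25*k^3 + 37*k^2 + 25*k + 5, k^5 + 9*k^4 + 33*k^3 + 62*k^2 + 61*k + 26, 0] := by
    simp only [Lp]; exact l6 (by ring) (by ring) (by ring) (by ring) (by ring) (by ring)
  have h13 : Lp 2 (k + 2) [k^4 + 9*k^3 + 31*k^2 + 49*k + 30, -2*k^5 - 22*k^4 - 99*k^3 - 228*k^2 - 269*k - 130, -2*k^5 - 24*k^4 - 116*k^3 - 284*k^2 - 354*k - 180, k^5 + 8*k^4 + 25*k^3 + 37*k^2 + 25*k + 5, k^5 + 9*k^4 + 33*k^3 + 62*k^2 + 61*k + 26, 0] =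
      [k^4 + 9*k^3 + 31*k^2 + 49*k + 30, -2*k^5 - 22*k^4 - 99*k^3 - 228*k^2 - 269*k - 130, -3*k^6 - 40*k^5 - 229*k^4 - 719*k^3 - 1305*k^2 - 1297*k - 550, -3*k^6 - 37*k^5 - 197*k^4 - 578*k^3 - 984*k^2 - 918*k - 365, k^5 + 9*k^4 + 33*k^3 + 62*k^2 + 61*k + 26, 0] := by
    simp only [Lp]; exact l6 (by ring) (by ring) (by ring) (by ring) (by ring) (by ring)
  have h14 : Lp 3 (-1) [k^4 + 9*k^3 + 31*k^2 + 49*k + 30, -2*k^5 - 22*k^4 - 99*k^3 - 228*k^2 - 269*k - 130, -3*k^6 - 40*k^5 - 229*k^4 - 719*k^3 - 1305*k^2 - 1297*k - 550, -3*k^6 - 37*k^5 - 197*k^4 - 578*k^3 - 984*k^2 - 918*k - 365, k^5 + 9*k^4 + 33*k^3 + 62*k^2 + 61*k + 26, 0] =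
      [k^4 + 9*k^3 + 31*k^2 + 49*k + 30, -2*k^5 - 22*k^4 - 99*k^3 - 228*k^2 - 269*k - 130, -3*k^6 - 40*k^5 - 229*k^4 - 719*k^3 - 1305*k^2 - 1297*k - 550, k^5 + 9*k^4 + 33*k^3 + 62*k^2 + 61*k + 26, 3*k^6 + 39*k^5 + 215*k^4 + 644*k^3 + 1108*k^2 + 1040*k + 417, 0] := by
    simp only [Lp]; exact l6 (by ring) (by ring) (by ring) (by ring) (by ring) (by ring)
  have h15 : Lp 3 (-1) [k^4 + 9*k^3 + 31*k^2 + 49*k + 30, -2*k^5 - 22*k^4 - 99*k^3 - 228*k^2 - 269*k - 130, -3*k^6 - 40*k^5 - 229*k^4 - 719*k^3 - 1305*k^2 - 1297*k - 550, k^5 + 9*k^4 + 33*k^3 + 62*k^2 + 61*k + 26, 3*k^6 + 39*k^5 + 215*k^4 + 644*k^3 + 1108*k^2 + 1040*k + 417, 0] =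
      [k^4 + 9*k^3 + 31*k^2 + 49*k + 30, -2*k^5 - 22*k^4 - 99*k^3 - 228*k^2 - 269*k - 130, -3*k^6 - 40*k^5 - 229*k^4 - 719*k^3 - 1305*k^2 - 1297*k - 550, 3*k^6 + 39*k^5 + 215*k^4 + 644*k^3 + 1108*k^2 + 1040*k + 417, 6*k^6 + 77*k^5 + 421*k^4 + 1255*k^3 + 2154*k^2 + 2019*k + 808, 0] := by
    simp only [Lp]; exact l6 (by ring) (by ring) (by ring) (by ring) (by ring) (by ring)
  have h16 : Lp 4 (1) [k^4 + 9*k^3 + 31*k^2 + 49*k + 30, -2*k^5 - 22*k^4 - 99*k^3 - 228*k^2 - 269*k - 130, -3*k^6 - 40*k^5 - 229*k^4 - 719*k^3 - 1305*k^2 - 1297*k - 550, 3*k^6 + 39*k^5 + 215*k^4 + 644*k^3 + 1108*k^2 + 1040*k + 417, 6*k^6 + 77*k^5 + 421*k^4 + 1255*k^3 + 2154*k^2 + 2019*k + 808, 0] =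
      [k^4 + 9*k^3 + 31*k^2 + 49*k + 30, -2*k^5 - 22*k^4 - 99*k^3 - 228*k^2 - 269*k - 130, -3*k^6 - 40*k^5 - 229*k^4 - 719*k^3 - 1305*k^2 - 1297*k - 550, 3*k^6 + 39*k^5 + 215*k^4 + 644*k^3 + 1108*k^2 + 1040*k + 417, 12*k^6 + 154*k^5 + 842*k^4 + 2510*k^3 + 4308*k^2 + 4038*k + 1616, 6*k^6 + 77*k^5 + 421*k^4 + 1255*k^3 + 2154*k^2 + 2019*k + 808] := by
    simp only [Lp]; exact l6 (by ring) (by ring) (by ring) (by ring) (by ring) (by ring)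
  have h17 : Lp 2 (-1) [k^4 + 9*k^3 + 31*k^2 + 49*k + 30, -2*k^5 - 22*k^4 - 99*k^3 - 228*k^2 - 269*k - 130, -3*k^6 - 40*k^5 - 229*k^4 - 719*k^3 - 1305*k^2 - 1297*k - 550, 3*k^6 + 39*k^5 + 215*k^4 + 644*k^3 + 1108*k^2 + 1040*k + 417, 12*k^6 + 154*k^5 + 842*k^4 + 2510*k^3 + 4308*k^2 + 4038*k + 1616, 6*k^6 + 77*k^5 + 421*k^4 + 1255*k^3 + 2154*k^2 + 2019*k + 808] =
      [k^4 + 9*k^3 + 31*k^2 + 49*k + 30, -2*k^5 - 22*k^4 - 99*k^3 - 228*k^2 - 269*k - 130, 3*k^6 + 39*k^5 + 215*k^4 + 644*k^3 + 1108*k^2 + 1040*k + 417, 9*k^6 + 118*k^5 + 659*k^4 + 2007*k^3 + 3521*k^2 + 3377*k + 1384, 12*k^6 + 154*k^5 + 842*k^4 + 2510*k^3 + 4308*k^2 + 4038*k + 1616, 6*k^6 + 77*k^5 + 421*k^4 + 1255*k^3 + 2154*k^2 + 2019*k + 808] := by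
    simp only [Lp]; exact l6 (by ring) (by ring) (by ring) (by ring) (by ring) (by ring)
  have h18 : Lp 1 (-1) [k^4 + 9*k^3 + 31*k^2 + 49*k + 30, -2*k^5 - 22*k^4 - 99*k^3 - 228*k^2 - 269*k - 130, 3*k^6 + 39*k^5 + 215*k^4 + 644*k^3 + 1108*k^2 + 1040*k + 417, 9*k^6 + 118*k^5 + 659*k^4 + 2007*k^3 + 3521*k^2 + 3377*k + 1384, 12*k^6 + 154*k^5 + 842*k^4 + 2510*k^3 + 4308*k^2 + 4038*k + 1616, 6*k^6 + 77*k^5 + 421*k^4 + 1255*k^3 + 2154*k^2 + 2019*k + 808] =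
      [k^4 + 9*k^3 + 31*k^2 + 49*k + 30, 3*k^6 + 39*k^5 + 215*k^4 + 644*k^3 + 1108*k^2 + 1040*k + 417, 6*k^6 + 80*k^5 + 452*k^4 + 1387*k^3 + 2444*k^2 + 2349*k + 964, 9*k^6 + 118*k^5 + 659*k^4 + 2007*k^3 + 3521*k^2 + 3377*k + 1384, 12*k^6 + 154*k^5 + 842*k^4 + 2510*k^3 + 4308*k^2 + 4038*k + 1616, 6*k^6 + 77*k^5 + 421*k^4 + 1255*k^3 + 2154*k^2 + 2019*k + 808] := by
    simp only [Lp]; exact l6 (by ring) (by ring) (by ring) (by ring) (by ring) (by ring)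
  have h19 : Lp 3 (-k - 2) [k^4 + 9*k^3 + 31*k^2 + 49*k + 30, 3*k^6 + 39*k^5 + 215*k^4 + 644*k^3 + 1108*k^2 + 1040*k + 417, 6*k^6 + 80*k^5 + 452*k^4 + 1387*k^3 + 2444*k^2 + 2349*k + 964, 9*k^6 + 118*k^5 + 659*k^4 + 2007*k^3 + 3521*k^2 + 3377*k + 1384, 12*k^6 + 154*k^5 + 842*k^4 + 2510*k^3 + 4308*k^2 + 4038*k + 1616, 6*k^6 + 77*k^5 + 421*k^4 + 1255*k^3 + 2154*k^2 + 2019*k + 808] =
      [k^4 + 9*k^3 + 31*k^2 + 49*k + 30, 3*k^6 + 39*k^5 + 215*k^4 + 644*k^3 + 1108*k^2 + 1040*k + 417, 6*k^6 + 80*k^5 + 452*k^4 + 1387*k^3 + 2444*k^2 + 2349*k + 964, 3*k^7 + 51*k^6 + 373*k^5 + 1528*k^4 + 3800*k^3 + 5756*k^2 + 4931*k + 1848, 3*k^7 + 54*k^6 + 409*k^5 + 1711*k^4 + 4303*k^3 + 6543*k^2 + 5592*k + 2080, 6*k^6 + 77*k^5 + 421*k^4 + 1255*k^3 + 2154*k^2 + 2019*k + 808] := by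
    simp only [Lp]; exact l6 (by ring) (by ring) (by ring) (by ring) (by ring) (by ring)
  have h20 : Lp 4 (k + 1) [k^4 + 9*k^3 + 31*k^2 + 49*k + 30, 3*k^6 + 39*k^5 + 215*k^4 + 644*k^3 + 1108*k^2 + 1040*k + 417, 6*k^6 + 80*k^5 + 452*k^4 + 1387*k^3 + 2444*k^2 + 2349*k + 964, 3*k^7 + 51*k^6 + 373*k^5 + 1528*k^4 + 3800*k^3 + 5756*k^2 + 4931*k + 1848, 3*k^7 + 54*k^6 + 409*k^5 + 1711*k^4 + 4303*k^3 + 6543*k^2 + 5592*k + 2080, 6*k^6 + 77*k^5 + 421*k^4 + 1255*k^3 + 2154*k^2 + 2019*k + 808] =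
      [k^4 + 9*k^3 + 31*k^2 + 49*k + 30, 3*k^6 + 39*k^5 + 215*k^4 + 644*k^3 + 1108*k^2 + 1040*k + 417, 6*k^6 + 80*k^5 + 452*k^4 + 1387*k^3 + 2444*k^2 + 2349*k + 964, 3*k^7 + 51*k^6 + 373*k^5 + 1528*k^4 + 3800*k^3 + 5756*k^2 + 4931*k + 1848, 3*k^8 + 54*k^7 + 434*k^6 + 2031*k^5 + 6049*k^4 + 11740*k^3 + 14505*k^2 + 10437*k + 3352, 3*k^8 + 51*k^7 + 386*k^6 + 1699*k^5 + 4759*k^4 + 8692*k^3 + 10116*k^2 + 6864*k + 2080] := by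
    simp only [Lp]; exact l6 (by ring) (by ring) (by ring) (by ring) (by ring) (by ring)
  have h21 : Lp 2 (k + 3) [k^4 + 9*k^3 + 31*k^2 + 49*k + 30, 3*k^6 + 39*k^5 + 215*k^4 + 644*k^3 + 1108*k^2 + 1040*k + 417, 6*k^6 + 80*k^5 + 452*k^4 + 1387*k^3 + 2444*k^2 + 2349*k + 964, 3*k^7 + 51*k^6 + 373*k^5 + 1528*k^4 + 3800*k^3 + 5756*k^2 + 4931*k + 1848, 3*k^8 + 54*k^7 + 434*k^6 + 2031*k^5 + 6049*k^4 + 11740*k^3 + 14505*k^2 + 10437*k + 3352, 3*k^8 + 51*k^7 + 386*k^6 + 1699*k^5 + 4759*k^4 + 8692*k^3 + 10116*k^2 + 6864*k + 2080] =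
      [k^4 + 9*k^3 + 31*k^2 + 49*k + 30, 3*k^6 + 39*k^5 + 215*k^4 + 644*k^3 + 1108*k^2 + 1040*k + 417, -3*k^8 - 54*k^7 - 422*k^6 - 1875*k^5 - 5189*k^4 - 9164*k^3 - 10074*k^2 - 6281*k - 1688, -3*k^8 - 51*k^7 - 377*k^6 - 1582*k^5 - 4113*k^4 - 6751*k^3 - 6762*k^2 - 3699*k - 804, 3*k^8 + 54*k^7 + 434*k^6 + 2031*k^5 + 6049*k^4 + 11740*k^3 + 14505*k^2 + 10437*k + 3352, 3*k^8 + 51*k^7 + 386*k^6 + 1699*k^5 + 4759*k^4 + 8692*k^3 + 10116*k^2 + 6864*k + 2080] := by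
    simp only [Lp]; exact l6 (by ring) (by ring) (by ring) (by ring) (by ring) (by ring)
  simp only [wu, run]
  rw [h0, h1, h2, h3, h4, h5, h6, h7, h8, h9, h10, h11, h12, h13, h14, h15, h16, h17, h18, h19, h20, h21]

theorem wu_5 (k : ℤ) : run (wu k) [0, 0, 0, 0, 0, 1] =
    [0, 0, k^2 + 5*k + 6, k^2 + 4*k + 4, -k^2 - 5*k - 6, -k^2 - 4*k - 3] := by
  have h0 : Lp 1 (-k - 3) [0, 0, 0, 0, 0, 1] =
      [0, 0, 0, 0, 0, 1] := by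
    simp only [Lp]; exact l6 (by ring) (by ring) (by ring) (by ring) (by ring) (by ring)
  have h1 : Lp 3 (-k - 1) [0, 0, 0, 0, 0, 1] =
      [0, 0, 0, 0, 0, 1] := by
    simp only [Lp]; exact l6 (by ring) (by ring) (by ring) (by ring) (by ring) (by ring)
  have h2 : Lp 2 (k + 2) [0, 0, 0, 0, 0, 1] =
      [0, 0, 0, 0, 0, 1] := by
    simp only [Lp]; exact l6 (by ring) (by ring) (by ring) (by ring) (by ring) (by ring)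
  have h3 : Lp 0 (1) [0, 0, 0, 0, 0, 1] =
      [0, 0, 0, 0, 0, 1] := by
    simp only [Lp]; exact l6 (by ring) (by ring) (by ring) (by ring) (by ring) (by ring)
  have h4 : Lp 1 (1) [0, 0, 0, 0, 0, 1] =
      [0, 0, 0, 0, 0, 1] := by
    simp only [Lp]; exact l6 (by ring) (by ring) (by ring) (by ring) (by ring) (by ring)
  have h5 : Lp 3 (-1) [0, 0, 0, 0, 0, 1] =
      [0, 0, 0, 0, 0, 1] := by
    simp only [Lp]; exact l6 (by ring) (by ring) (by ring) (by ring) (by ring) (by ring)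
  have h6 : Lp 2 (1) [0, 0, 0, 0, 0, 1] =
      [0, 0, 0, 0, 0, 1] := by
    simp only [Lp]; exact l6 (by ring) (by ring) (by ring) (by ring) (by ring) (by ring)
  have h7 : Lp 2 (1) [0, 0, 0, 0, 0, 1] =
      [0, 0, 0, 0, 0, 1] := by
    simp only [Lp]; exact l6 (by ring) (by ring) (by ring) (by ring) (by ring) (by ring)
  have h8 : Lp 1 (-k - 2) [0, 0, 0, 0, 0, 1] =
      [0, 0, 0, 0, 0, 1] := by
    simp only [Lp]; exact l6 (by ring) (by ring) (by ring) (by ring) (by ring) (by ring)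
  have h9 : Lp 2 (k + 1) [0, 0, 0, 0, 0, 1] =
      [0, 0, 0, 0, 0, 1] := by
    simp only [Lp]; exact l6 (by ring) (by ring) (by ring) (by ring) (by ring) (by ring)
  have h10 : Lp 0 (k + 3) [0, 0, 0, 0, 0, 1] =
      [0, 0, 0, 0, 0, 1] := by
    simp only [Lp]; exact l6 (by ring) (by ring) (by ring) (by ring) (by ring) (by ring)
  have h11 : Lp 1 (-k - 3) [0, 0, 0, 0, 0, 1] =
      [0, 0, 0, 0, 0, 1] := by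
    simp only [Lp]; exact l6 (by ring) (by ring) (by ring) (by ring) (by ring) (by ring)
  have h12 : Lp 3 (-k - 1) [0, 0, 0, 0, 0, 1] =
      [0, 0, 0, 0, 0, 1] := by
    simp only [Lp]; exact l6 (by ring) (by ring) (by ring) (by ring) (by ring) (by ring)
  have h13 : Lp 2 (k + 2) [0, 0, 0, 0, 0, 1] =
      [0, 0, 0, 0, 0, 1] := by
    simp only [Lp]; exact l6 (by ring) (by ring) (by ring) (by ring) (by ring) (by ring)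
  have h14 : Lp 3 (-1) [0, 0, 0, 0, 0, 1] =
      [0, 0, 0, 0, 0, 1] := by
    simp only [Lp]; exact l6 (by ring) (by ring) (by ring) (by ring) (by ring) (by ring)
  have h15 : Lp 3 (-1) [0, 0, 0, 0, 0, 1] =
      [0, 0, 0, 0, 0, 1] := by
    simp only [Lp]; exact l6 (by ring) (by ring) (by ring) (by ring) (by ring) (by ring)
  have h16 : Lp 4 (1) [0, 0, 0, 0, 0, 1] =
      [0, 0, 0, 0, -1, 0] := by
    simp only [Lp]; exact l6 (by ring) (by ring) (by ring) (by ring) (by ring) (by ring)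
  have h17 : Lp 2 (-1) [0, 0, 0, 0, -1, 0] =
      [0, 0, 0, 0, -1, 0] := by
    simp only [Lp]; exact l6 (by ring) (by ring) (by ring) (by ring) (by ring) (by ring)
  have h18 : Lp 1 (-1) [0, 0, 0, 0, -1, 0] =
      [0, 0, 0, 0, -1, 0] := by
    simp only [Lp]; exact l6 (by ring) (by ring) (by ring) (by ring) (by ring) (by ring)
  have h19 : Lp 3 (-k - 2) [0, 0, 0, 0, -1, 0] =
      [0, 0, 0, -k - 2, -k - 3, 0] := by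
    simp only [Lp]; exact l6 (by ring) (by ring) (by ring) (by ring) (by ring) (by ring)
  have h20 : Lp 4 (k + 1) [0, 0, 0, -k - 2, -k - 3, 0] =
      [0, 0, 0, -k - 2, -k^2 - 5*k - 6, -k^2 - 4*k - 3] := by
    simp only [Lp]; exact l6 (by ring) (by ring) (by ring) (by ring) (by ring) (by ring)
  have h21 : Lp 2 (k + 3) [0, 0, 0, -k - 2, -k^2 - 5*k - 6, -k^2 - 4*k - 3] =
      [0, 0, k^2 + 5*k + 6, k^2 + 4*k + 4, -k^2 - 5*k - 6, -k^2 - 4*k - 3] := by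
    simp only [Lp]; exact l6 (by ring) (by ring) (by ring) (by ring) (by ring) (by ring)
  simp only [wu, run]
  rw [h0, h1, h2, h3, h4, h5, h6, h7, h8, h9, h10, h11, h12, h13, h14, h15, h16, h17, h18, h19, h20, h21]

def wys (k : ℤ) : List (ℕ × ℤ) :=
  [(0, k + 3), (2, k + 1), (1, -k - 2), (2, 1), (2, 1), (3, -1), (1, 1), (0, 1), (2, k + 2), (3, -k - 1), (1, -k - 3), (1, 1), (0, 1), (2, k + 3), (4, k + 1), (3, -k - 2), (1, -1), (2, -1), (4, 1), (3, -1), (3, -1), (2, k + 2), (3, -k - 1), (1, -k - 3)]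

theorem wys_0 (k : ℤ) : run (wys k) [1, 0, 0, 0, 0, 0] =
    [k^4 + 9*k^3 + 28*k^2 + 34*k + 14, k^4 + 8*k^3 + 22*k^2 + 24*k + 11, -k^4 - 9*k^3 - 28*k^2 - 34*k - 8, -k^4 - 8*k^3 - 21*k^2 - 20*k - 2, k^2 + 4*k + 4, 0] := by
  have h0 : Lp 1 (-k - 3) [1, 0, 0, 0, 0, 0] =
      [1, 0, 0, 0, 0, 0] := by
    simp only [Lp]; exact l6 (by ring) (by ring) (by ring) (by ring) (by ring) (by ring)
  have h1 : Lp 3 (-k - 1) [1, 0, 0, 0, 0, 0] =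
      [1, 0, 0, 0, 0, 0] := by
    simp only [Lp]; exact l6 (by ring) (by ring) (by ring) (by ring) (by ring) (by ring)
  have h2 : Lp 2 (k + 2) [1, 0, 0, 0, 0, 0] =
      [1, 0, 0, 0, 0, 0] := by
    simp only [Lp]; exact l6 (by ring) (by ring) (by ring) (by ring) (by ring) (by ring)
  have h3 : Lp 3 (-1) [1, 0, 0, 0, 0, 0] =
      [1, 0, 0, 0, 0, 0] := by
    simp only [Lp]; exact l6 (by ring) (by ring) (by ring) (by ring) (by ring) (by ring)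
  have h4 : Lp 3 (-1) [1, 0, 0, 0, 0, 0] =
      [1, 0, 0, 0, 0, 0] := by
    simp only [Lp]; exact l6 (by ring) (by ring) (by ring) (by ring) (by ring) (by ring)
  have h5 : Lp 4 (1) [1, 0, 0, 0, 0, 0] =
      [1, 0, 0, 0, 0, 0] := by
    simp only [Lp]; exact l6 (by ring) (by ring) (by ring) (by ring) (by ring) (by ring)
  have h6 : Lp 2 (-1) [1, 0, 0, 0, 0, 0] =
      [1, 0, 0, 0, 0, 0] := by
    simp only [Lp]; exact l6 (by ring) (by ring) (by ring) (by ring) (by ring) (by ring)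
  have h7 : Lp 1 (-1) [1, 0, 0, 0, 0, 0] =
      [1, 0, 0, 0, 0, 0] := by
    simp only [Lp]; exact l6 (by ring) (by ring) (by ring) (by ring) (by ring) (by ring)
  have h8 : Lp 3 (-k - 2) [1, 0, 0, 0, 0, 0] =
      [1, 0, 0, 0, 0, 0] := by
    simp only [Lp]; exact l6 (by ring) (by ring) (by ring) (by ring) (by ring) (by ring)
  have h9 : Lp 4 (k + 1) [1, 0, 0, 0, 0, 0] =
      [1, 0, 0, 0, 0, 0] := by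
    simp only [Lp]; exact l6 (by ring) (by ring) (by ring) (by ring) (by ring) (by ring)
  have h10 : Lp 2 (k + 3) [1, 0, 0, 0, 0, 0] =
      [1, 0, 0, 0, 0, 0] := by
    simp only [Lp]; exact l6 (by ring) (by ring) (by ring) (by ring) (by ring) (by ring)
  have h11 : Lp 0 (1) [1, 0, 0, 0, 0, 0] =
      [2, 1, 0, 0, 0, 0] := by
    simp only [Lp]; exact l6 (by ring) (by ring) (by ring) (by ring) (by ring) (by ring)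
  have h12 : Lp 1 (1) [2, 1, 0, 0, 0, 0] =
      [2, 2, 1, 0, 0, 0] := by
    simp only [Lp]; exact l6 (by ring) (by ring) (by ring) (by ring) (by ring) (by ring)
  have h13 : Lp 1 (-k - 3) [2, 2, 1, 0, 0, 0] =
      [2, -k - 1, -k - 2, 0, 0, 0] := by
    simp only [Lp]; exact l6 (by ring) (by ring) (by ring) (by ring) (by ring) (by ring)
  have h14 : Lp 3 (-k - 1) [2, -k - 1, -k - 2, 0, 0, 0] =
      [2, -k - 1, -k - 2, 0, 0, 0] := by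
    simp only [Lp]; exact l6 (by ring) (by ring) (by ring) (by ring) (by ring) (by ring)
  have h15 : Lp 2 (k + 2) [2, -k - 1, -k - 2, 0, 0, 0] =
      [2, -k - 1, -k^2 - 5*k - 6, -k^2 - 4*k - 4, 0, 0] := by
    simp only [Lp]; exact l6 (by ring) (by ring) (by ring) (by ring) (by ring) (by ring)
  have h16 : Lp 0 (1) [2, -k - 1, -k^2 - 5*k - 6, -k^2 - 4*k - 4, 0, 0] =
      [k + 5, 2, -k^2 - 5*k - 6, -k^2 - 4*k - 4, 0, 0] := by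
    simp only [Lp]; exact l6 (by ring) (by ring) (by ring) (by ring) (by ring) (by ring)
  have h17 : Lp 1 (1) [k + 5, 2, -k^2 - 5*k - 6, -k^2 - 4*k - 4, 0, 0] =
      [k + 5, k^2 + 5*k + 10, 2, -k^2 - 4*k - 4, 0, 0] := by
    simp only [Lp]; exact l6 (by ring) (by ring) (by ring) (by ring) (by ring) (by ring)
  have h18 : Lp 3 (-1) [k + 5, k^2 + 5*k + 10, 2, -k^2 - 4*k - 4, 0, 0] =
      [k + 5, k^2 + 5*k + 10, 2, 0, k^2 + 4*k + 4, 0] := by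
    simp only [Lp]; exact l6 (by ring) (by ring) (by ring) (by ring) (by ring) (by ring)
  have h19 : Lp 2 (1) [k + 5, k^2 + 5*k + 10, 2, 0, k^2 + 4*k + 4, 0] =
      [k + 5, k^2 + 5*k + 10, 4, 2, k^2 + 4*k + 4, 0] := by
    simp only [Lp]; exact l6 (by ring) (by ring) (by ring) (by ring) (by ring) (by ring)
  have h20 : Lp 2 (1) [k + 5, k^2 + 5*k + 10, 4, 2, k^2 + 4*k + 4, 0] =
      [k + 5, k^2 + 5*k + 10, 6, 4, k^2 + 4*k + 4, 0] := by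
    simp only [Lp]; exact l6 (by ring) (by ring) (by ring) (by ring) (by ring) (by ring)
  have h21 : Lp 1 (-k - 2) [k + 5, k^2 + 5*k + 10, 6, 4, k^2 + 4*k + 4, 0] =
      [k + 5, -k^3 - 6*k^2 - 9*k + 2, -k^3 - 7*k^2 - 14*k - 2, 4, k^2 + 4*k + 4, 0] := by
    simp only [Lp]; exact l6 (by ring) (by ring) (by ring) (by ring) (by ring) (by ring)
  have h22 : Lp 2 (k + 1) [k + 5, -k^3 - 6*k^2 - 9*k + 2, -k^3 - 7*k^2 - 14*k - 2, 4, k^2 + 4*k + 4, 0] =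
      [k + 5, -k^3 - 6*k^2 - 9*k + 2, -k^4 - 9*k^3 - 28*k^2 - 34*k - 8, -k^4 - 8*k^3 - 21*k^2 - 20*k - 2, k^2 + 4*k + 4, 0] := by
    simp only [Lp]; exact l6 (by ring) (by ring) (by ring) (by ring) (by ring) (by ring)
  have h23 : Lp 0 (k + 3) [k + 5, -k^3 - 6*k^2 - 9*k + 2, -k^4 - 9*k^3 - 28*k^2 - 34*k - 8, -k^4 - 8*k^3 - 21*k^2 - 20*k - 2, k^2 + 4*k + 4, 0] =
      [k^4 + 9*k^3 + 28*k^2 + 34*k + 14, k^4 + 8*k^3 + 22*k^2 + 24*k + 11, -k^4 - 9*k^3 - 28*k^2 - 34*k - 8, -k^4 - 8*k^3 - 21*k^2 - 20*k - 2, k^2 + 4*k + 4, 0] := by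
    simp only [Lp]; exact l6 (by ring) (by ring) (by ring) (by ring) (by ring) (by ring)
  simp only [wys, run]
  rw [h0, h1, h2, h3, h4, h5, h6, h7, h8, h9, h10, h11, h12, h13, h14, h15, h16, h17, h18, h19, h20, h21, h22, h23]

theorem wys_1 (k : ℤ) : run (wys k) [0, 1, 0, 0, 0, 0] =
    [3*k^8 + 56*k^7 + 455*k^6 + 2103*k^5 + 6055*k^4 + 11143*k^3 + 12837*k^2 + 8496*k + 2483, 3*k^8 + 53*k^7 + 408*k^6 + 1789*k^5 + 4895*k^4 + 8580*k^3 + 9438*k^2 + 5974*k + 1668, -3*k^8 - 56*k^7 - 455*k^6 - 2103*k^5 - 6055*k^4 - 11144*k^3 - 12848*k^2 - 8532*k - 2520, -3*k^8 - 53*k^7 - 405*k^6 - 1748*k^5 - 4664*k^4 - 7893*k^3 - 8302*k^2 - 4988*k - 1320, 3*k^6 + 41*k^5 + 232*k^4 + 697*k^3 + 1178*k^2 + 1071*k + 414, k^4 + 9*k^3 + 31*k^2 + 49*k + 30] := by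
  have h0 : Lp 1 (-k - 3) [0, 1, 0, 0, 0, 0] =
      [0, -k - 2, -k - 3, 0, 0, 0] := by
    simp only [Lp]; exact l6 (by ring) (by ring) (by ring) (by ring) (by ring) (by ring)
  have h1 : Lp 3 (-k - 1) [0, -k - 2, -k - 3, 0, 0, 0] =
      [0, -k - 2, -k - 3, 0, 0, 0] := by
    simp only [Lp]; exact l6 (by ring) (by ring) (by ring) (by ring) (by ring) (by ring)
  have h2 : Lp 2 (k + 2) [0, -k - 2, -k - 3, 0, 0, 0] =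
      [0, -k - 2, -k^2 - 6*k - 9, -k^2 - 5*k - 6, 0, 0] := by
    simp only [Lp]; exact l6 (by ring) (by ring) (by ring) (by ring) (by ring) (by ring)
  have h3 : Lp 3 (-1) [0, -k - 2, -k^2 - 6*k - 9, -k^2 - 5*k - 6, 0, 0] =
      [0, -k - 2, -k^2 - 6*k - 9, 0, k^2 + 5*k + 6, 0] := by
    simp only [Lp]; exact l6 (by ring) (by ring) (by ring) (by ring) (by ring) (by ring)
  have h4 : Lp 3 (-1) [0, -k - 2, -k^2 - 6*k - 9, 0, k^2 + 5*k + 6, 0] =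
      [0, -k - 2, -k^2 - 6*k - 9, k^2 + 5*k + 6, 2*k^2 + 10*k + 12, 0] := by
    simp only [Lp]; exact l6 (by ring) (by ring) (by ring) (by ring) (by ring) (by ring)
  have h5 : Lp 4 (1) [0, -k - 2, -k^2 - 6*k - 9, k^2 + 5*k + 6, 2*k^2 + 10*k + 12, 0] =
      [0, -k - 2, -k^2 - 6*k - 9, k^2 + 5*k + 6, 4*k^2 + 20*k + 24, 2*k^2 + 10*k + 12] := by
    simp only [Lp]; exact l6 (by ring) (by ring) (by ring) (by ring) (by ring) (by ring)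
  have h6 : Lp 2 (-1) [0, -k - 2, -k^2 - 6*k - 9, k^2 + 5*k + 6, 4*k^2 + 20*k + 24, 2*k^2 + 10*k + 12] =
      [0, -k - 2, k^2 + 5*k + 6, 3*k^2 + 16*k + 21, 4*k^2 + 20*k + 24, 2*k^2 + 10*k + 12] := by
    simp only [Lp]; exact l6 (by ring) (by ring) (by ring) (by ring) (by ring) (by ring)
  have h7 : Lp 1 (-1) [0, -k - 2, k^2 + 5*k + 6, 3*k^2 + 16*k + 21, 4*k^2 + 20*k + 24, 2*k^2 + 10*k + 12] =
      [0, k^2 + 5*k + 6, 2*k^2 + 11*k + 14, 3*k^2 + 16*k + 21, 4*k^2 + 20*k + 24, 2*k^2 + 10*k + 12] := by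
    simp only [Lp]; exact l6 (by ring) (by ring) (by ring) (by ring) (by ring) (by ring)
  have h8 : Lp 3 (-k - 2) [0, k^2 + 5*k + 6, 2*k^2 + 11*k + 14, 3*k^2 + 16*k + 21, 4*k^2 + 20*k + 24, 2*k^2 + 10*k + 12] =
      [0, k^2 + 5*k + 6, 2*k^2 + 11*k + 14, k^3 + 9*k^2 + 27*k + 27, k^3 + 10*k^2 + 31*k + 30, 2*k^2 + 10*k + 12] := by
    simp only [Lp]; exact l6 (by ring) (by ring) (by ring) (by ring) (by ring) (by ring)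
  have h9 : Lp 4 (k + 1) [0, k^2 + 5*k + 6, 2*k^2 + 11*k + 14, k^3 + 9*k^2 + 27*k + 27, k^3 + 10*k^2 + 31*k + 30, 2*k^2 + 10*k + 12] =
      [0, k^2 + 5*k + 6, 2*k^2 + 11*k + 14, k^3 + 9*k^2 + 27*k + 27, k^4 + 10*k^3 + 39*k^2 + 70*k + 48, k^4 + 9*k^3 + 31*k^2 + 49*k + 30] := by
    simp only [Lp]; exact l6 (by ring) (by ring) (by ring) (by ring) (by ring) (by ring)
  have h10 : Lp 2 (k + 3) [0, k^2 + 5*k + 6, 2*k^2 + 11*k + 14, k^3 + 9*k^2 + 27*k + 27, k^4 + 10*k^3 + 39*k^2 + 70*k + 48, k^4 + 9*k^3 + 31*k^2 + 49*k + 30] =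
      [0, k^2 + 5*k + 6, -k^4 - 10*k^3 - 35*k^2 - 50*k - 25, -k^4 - 9*k^3 - 28*k^2 - 34*k - 12, k^4 + 10*k^3 + 39*k^2 + 70*k + 48, k^4 + 9*k^3 + 31*k^2 + 49*k + 30] := by
    simp only [Lp]; exact l6 (by ring) (by ring) (by ring) (by ring) (by ring) (by ring)
  have h11 : Lp 0 (1) [0, k^2 + 5*k + 6, -k^4 - 10*k^3 - 35*k^2 - 50*k - 25, -k^4 - 9*k^3 - 28*k^2 - 34*k - 12, k^4 + 10*k^3 + 39*k^2 + 70*k + 48, k^4 + 9*k^3 + 31*k^2 + 49*k + 30] =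
      [-k^2 - 5*k - 6, 0, -k^4 - 10*k^3 - 35*k^2 - 50*k - 25, -k^4 - 9*k^3 - 28*k^2 - 34*k - 12, k^4 + 10*k^3 + 39*k^2 + 70*k + 48, k^4 + 9*k^3 + 31*k^2 + 49*k + 30] := by
    simp only [Lp]; exact l6 (by ring) (by ring) (by ring) (by ring) (by ring) (by ring)
  have h12 : Lp 1 (1) [-k^2 - 5*k - 6, 0, -k^4 - 10*k^3 - 35*k^2 - 50*k - 25, -k^4 - 9*k^3 - 28*k^2 - 34*k - 12, k^4 + 10*k^3 + 39*k^2 + 70*k + 48, k^4 + 9*k^3 + 31*k^2 + 49*k + 30] =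
      [-k^2 - 5*k - 6, k^4 + 10*k^3 + 35*k^2 + 50*k + 25, 0, -k^4 - 9*k^3 - 28*k^2 - 34*k - 12, k^4 + 10*k^3 + 39*k^2 + 70*k + 48, k^4 + 9*k^3 + 31*k^2 + 49*k + 30] := by
    simp only [Lp]; exact l6 (by ring) (by ring) (by ring) (by ring) (by ring) (by ring)
  have h13 : Lp 1 (-k - 3) [-k^2 - 5*k - 6, k^4 + 10*k^3 + 35*k^2 + 50*k + 25, 0, -k^4 - 9*k^3 - 28*k^2 - 34*k - 12, k^4 + 10*k^3 + 39*k^2 + 70*k + 48, k^4 + 9*k^3 + 31*k^2 + 49*k + 30] =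
      [-k^2 - 5*k - 6, -k^5 - 12*k^4 - 55*k^3 - 120*k^2 - 125*k - 50, -k^5 - 13*k^4 - 65*k^3 - 155*k^2 - 175*k - 75, -k^4 - 9*k^3 - 28*k^2 - 34*k - 12, k^4 + 10*k^3 + 39*k^2 + 70*k + 48, k^4 + 9*k^3 + 31*k^2 + 49*k + 30] := by
    simp only [Lp]; exact l6 (by ring) (by ring) (by ring) (by ring) (by ring) (by ring)
  have h14 : Lp 3 (-k - 1) [-k^2 - 5*k - 6, -k^5 - 12*k^4 - 55*k^3 - 120*k^2 - 125*k - 50, -k^5 - 13*k^4 - 65*k^3 - 155*k^2 - 175*k - 75, -k^4 - 9*k^3 - 28*k^2 - 34*k - 12, k^4 + 10*k^3 + 39*k^2 + 70*k + 48, k^4 + 9*k^3 + 31*k^2 + 49*k + 30] =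
      [-k^2 - 5*k - 6, -k^5 - 12*k^4 - 55*k^3 - 120*k^2 - 125*k - 50, -k^5 - 13*k^4 - 65*k^3 - 155*k^2 - 175*k - 75, 2*k^5 + 20*k^4 + 77*k^3 + 143*k^2 + 130*k + 48, 2*k^5 + 22*k^4 + 96*k^3 + 210*k^2 + 234*k + 108, k^4 + 9*k^3 + 31*k^2 + 49*k + 30] := by
    simp only [Lp]; exact l6 (by ring) (by ring) (by ring) (by ring) (by ring) (by ring)
  have h15 : Lp 2 (k + 2) [-k^2 - 5*k - 6, -k^5 - 12*k^4 - 55*k^3 - 120*k^2 - 125*k - 50, -k^5 - 13*k^4 - 65*k^3 - 155*k^2 - 175*k - 75, 2*k^5 + 20*k^4 + 77*k^3 + 143*k^2 + 130*k + 48, 2*k^5 + 22*k^4 + 96*k^3 + 210*k^2 + 234*k + 108, k^4 + 9*k^3 + 31*k^2 + 49*k + 30] =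
      [-k^2 - 5*k - 6, -k^5 - 12*k^4 - 55*k^3 - 120*k^2 - 125*k - 50, -3*k^6 - 40*k^5 - 221*k^4 - 647*k^3 - 1056*k^2 - 908*k - 321, -3*k^6 - 37*k^5 - 188*k^4 - 505*k^3 - 758*k^2 - 603*k - 198, 2*k^5 + 22*k^4 + 96*k^3 + 210*k^2 + 234*k + 108, k^4 + 9*k^3 + 31*k^2 + 49*k + 30] := by
    simp only [Lp]; exact l6 (by ring) (by ring) (by ring) (by ring) (by ring) (by ring)
  have h16 : Lp 0 (1) [-k^2 - 5*k - 6, -k^5 - 12*k^4 - 55*k^3 - 120*k^2 - 125*k - 50, -3*k^6 - 40*k^5 - 221*k^4 - 647*k^3 - 1056*k^2 - 908*k - 321, -3*k^6 - 37*k^5 - 188*k^4 - 505*k^3 - 758*k^2 - 603*k - 198, 2*k^5 + 22*k^4 + 96*k^3 + 210*k^2 + 234*k + 108, k^4 + 9*k^3 + 31*k^2 + 49*k + 30] =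
      [k^5 + 12*k^4 + 55*k^3 + 118*k^2 + 115*k + 38, -k^2 - 5*k - 6, -3*k^6 - 40*k^5 - 221*k^4 - 647*k^3 - 1056*k^2 - 908*k - 321, -3*k^6 - 37*k^5 - 188*k^4 - 505*k^3 - 758*k^2 - 603*k - 198, 2*k^5 + 22*k^4 + 96*k^3 + 210*k^2 + 234*k + 108, k^4 + 9*k^3 + 31*k^2 + 49*k + 30] := by
    simp only [Lp]; exact l6 (by ring) (by ring) (by ring) (by ring) (by ring) (by ring)
  have h17 : Lp 1 (1) [k^5 + 12*k^4 + 55*k^3 + 118*k^2 + 115*k + 38, -k^2 - 5*k - 6, -3*k^6 - 40*k^5 - 221*k^4 - 647*k^3 - 1056*k^2 - 908*k - 321, -3*k^6 - 37*k^5 - 188*k^4 - 505*k^3 - 758*k^2 - 603*k - 198, 2*k^5 + 22*k^4 + 96*k^3 + 210*k^2 + 234*k + 108, k^4 + 9*k^3 + 31*k^2 + 49*k + 30] =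
      [k^5 + 12*k^4 + 55*k^3 + 118*k^2 + 115*k + 38, 3*k^6 + 40*k^5 + 221*k^4 + 647*k^3 + 1054*k^2 + 898*k + 309, -k^2 - 5*k - 6, -3*k^6 - 37*k^5 - 188*k^4 - 505*k^3 - 758*k^2 - 603*k - 198, 2*k^5 + 22*k^4 + 96*k^3 + 210*k^2 + 234*k + 108, k^4 + 9*k^3 + 31*k^2 + 49*k + 30] := by
    simp only [Lp]; exact l6 (by ring) (by ring) (by ring) (by ring) (by ring) (by ring)
  have h18 : Lp 3 (-1) [k^5 + 12*k^4 + 55*k^3 + 118*k^2 + 115*k + 38, 3*k^6 + 40*k^5 + 221*k^4 + 647*k^3 + 1054*k^2 + 898*k + 309, -k^2 - 5*k - 6, -3*k^6 - 37*k^5 - 188*k^4 - 505*k^3 - 758*k^2 - 603*k - 198, 2*k^5 + 22*k^4 + 96*k^3 + 210*k^2 + 234*k + 108, k^4 + 9*k^3 + 31*k^2 + 49*k + 30] =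
      [k^5 + 12*k^4 + 55*k^3 + 118*k^2 + 115*k + 38, 3*k^6 + 40*k^5 + 221*k^4 + 647*k^3 + 1054*k^2 + 898*k + 309, -k^2 - 5*k - 6, 2*k^5 + 22*k^4 + 96*k^3 + 210*k^2 + 234*k + 108, 3*k^6 + 41*k^5 + 232*k^4 + 697*k^3 + 1178*k^2 + 1071*k + 414, k^4 + 9*k^3 + 31*k^2 + 49*k + 30] := by
    simp only [Lp]; exact l6 (by ring) (by ring) (by ring) (by ring) (by ring) (by ring)
  have h19 : Lp 2 (1) [k^5 + 12*k^4 + 55*k^3 + 118*k^2 + 115*k + 38, 3*k^6 + 40*k^5 + 221*k^4 + 647*k^3 + 1054*k^2 + 898*k + 309, -k^2 - 5*k - 6, 2*k^5 + 22*k^4 + 96*k^3 + 210*k^2 + 234*k + 108, 3*k^6 + 41*k^5 + 232*k^4 + 697*k^3 + 1178*k^2 + 1071*k + 414, k^4 + 9*k^3 + 31*k^2 + 49*k + 30] =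
      [k^5 + 12*k^4 + 55*k^3 + 118*k^2 + 115*k + 38, 3*k^6 + 40*k^5 + 221*k^4 + 647*k^3 + 1054*k^2 + 898*k + 309, -2*k^5 - 22*k^4 - 96*k^3 - 212*k^2 - 244*k - 120, -k^2 - 5*k - 6, 3*k^6 + 41*k^5 + 232*k^4 + 697*k^3 + 1178*k^2 + 1071*k + 414, k^4 + 9*k^3 + 31*k^2 + 49*k + 30] := by
    simp only [Lp]; exact l6 (by ring) (by ring) (by ring) (by ring) (by ring) (by ring)
  have h20 : Lp 2 (1) [k^5 + 12*k^4 + 55*k^3 + 118*k^2 + 115*k + 38, 3*k^6 + 40*k^5 + 221*k^4 + 647*k^3 + 1054*k^2 + 898*k + 309, -2*k^5 - 22*k^4 - 96*k^3 - 212*k^2 - 244*k - 120, -k^2 - 5*k - 6, 3*k^6 + 41*k^5 + 232*k^4 + 697*k^3 + 1178*k^2 + 1071*k + 414, k^4 + 9*k^3 + 31*k^2 + 49*k + 30] =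
      [k^5 + 12*k^4 + 55*k^3 + 118*k^2 + 115*k + 38, 3*k^6 + 40*k^5 + 221*k^4 + 647*k^3 + 1054*k^2 + 898*k + 309, -4*k^5 - 44*k^4 - 192*k^3 - 423*k^2 - 483*k - 234, -2*k^5 - 22*k^4 - 96*k^3 - 212*k^2 - 244*k - 120, 3*k^6 + 41*k^5 + 232*k^4 + 697*k^3 + 1178*k^2 + 1071*k + 414, k^4 + 9*k^3 + 31*k^2 + 49*k + 30] := by
    simp only [Lp]; exact l6 (by ring) (by ring) (by ring) (by ring) (by ring) (by ring)
  have h21 : Lp 1 (-k - 2) [k^5 + 12*k^4 + 55*k^3 + 118*k^2 + 115*k + 38, 3*k^6 + 40*k^5 + 221*k^4 + 647*k^3 + 1054*k^2 + 898*k + 309, -4*k^5 - 44*k^4 - 192*k^3 - 423*k^2 - 483*k - 234, -2*k^5 - 22*k^4 - 96*k^3 - 212*k^2 - 244*k - 120, 3*k^6 + 41*k^5 + 232*k^4 + 697*k^3 + 1178*k^2 + 1071*k + 414, k^4 + 9*k^3 + 31*k^2 + 49*k + 30] =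
      [k^5 + 12*k^4 + 55*k^3 + 118*k^2 + 115*k + 38, -3*k^7 - 47*k^6 - 313*k^5 - 1148*k^4 - 2508*k^3 - 3281*k^2 - 2407*k - 777, -3*k^7 - 50*k^6 - 357*k^5 - 1413*k^4 - 3347*k^3 - 4758*k^2 - 3788*k - 1320, -2*k^5 - 22*k^4 - 96*k^3 - 212*k^2 - 244*k - 120, 3*k^6 + 41*k^5 + 232*k^4 + 697*k^3 + 1178*k^2 + 1071*k + 414, k^4 + 9*k^3 + 31*k^2 + 49*k + 30] := by
    simp only [Lp]; exact l6 (by ring) (by ring) (by ring) (by ring) (by ring) (by ring)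
  have h22 : Lp 2 (k + 1) [k^5 + 12*k^4 + 55*k^3 + 118*k^2 + 115*k + 38, -3*k^7 - 47*k^6 - 313*k^5 - 1148*k^4 - 2508*k^3 - 3281*k^2 - 2407*k - 777, -3*k^7 - 50*k^6 - 357*k^5 - 1413*k^4 - 3347*k^3 - 4758*k^2 - 3788*k - 1320, -2*k^5 - 22*k^4 - 96*k^3 - 212*k^2 - 244*k - 120, 3*k^6 + 41*k^5 + 232*k^4 + 697*k^3 + 1178*k^2 + 1071*k + 414, k^4 + 9*k^3 + 31*k^2 + 49*k + 30] =
      [k^5 + 12*k^4 + 55*k^3 + 118*k^2 + 115*k + 38, -3*k^7 - 47*k^6 - 313*k^5 - 1148*k^4 - 2508*k^3 - 3281*k^2 - 2407*k - 777, -3*k^8 - 56*k^7 - 455*k^6 - 2103*k^5 - 6055*k^4 - 11144*k^3 - 12848*k^2 - 8532*k - 2520, -3*k^8 - 53*k^7 - 405*k^6 - 1748*k^5 - 4664*k^4 - 7893*k^3 - 8302*k^2 - 4988*k - 1320, 3*k^6 + 41*k^5 + 232*k^4 + 697*k^3 + 1178*k^2 + 1071*k + 414, k^4 + 9*k^3 + 31*k^2 + 49*k + 30] := by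
    simp only [Lp]; exact l6 (by ring) (by ring) (by ring) (by ring) (by ring) (by ring)
  have h23 : Lp 0 (k + 3) [k^5 + 12*k^4 + 55*k^3 + 118*k^2 + 115*k + 38, -3*k^7 - 47*k^6 - 313*k^5 - 1148*k^4 - 2508*k^3 - 3281*k^2 - 2407*k - 777, -3*k^8 - 56*k^7 - 455*k^6 - 2103*k^5 - 6055*k^4 - 11144*k^3 - 12848*k^2 - 8532*k - 2520, -3*k^8 - 53*k^7 - 405*k^6 - 1748*k^5 - 4664*k^4 - 7893*k^3 - 8302*k^2 - 4988*k - 1320, 3*k^6 + 41*k^5 + 232*k^4 + 697*k^3 + 1178*k^2 + 1071*k + 414, k^4 + 9*k^3 + 31*k^2 + 49*k + 30] =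
      [3*k^8 + 56*k^7 + 455*k^6 + 2103*k^5 + 6055*k^4 + 11143*k^3 + 12837*k^2 + 8496*k + 2483, 3*k^8 + 53*k^7 + 408*k^6 + 1789*k^5 + 4895*k^4 + 8580*k^3 + 9438*k^2 + 5974*k + 1668, -3*k^8 - 56*k^7 - 455*k^6 - 2103*k^5 - 6055*k^4 - 11144*k^3 - 12848*k^2 - 8532*k - 2520, -3*k^8 - 53*k^7 - 405*k^6 - 1748*k^5 - 4664*k^4 - 7893*k^3 - 8302*k^2 - 4988*k - 1320, 3*k^6 + 41*k^5 + 232*k^4 + 697*k^3 + 1178*k^2 + 1071*k + 414, k^4 + 9*k^3 + 31*k^2 + 49*k + 30] := by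
    simp only [Lp]; exact l6 (by ring) (by ring) (by ring) (by ring) (by ring) (by ring)
  simp only [wys, run]
  rw [h0, h1, h2, h3, h4, h5, h6, h7, h8, h9, h10, h11, h12, h13, h14, h15, h16, h17, h18, h19, h20, h21, h22, h23]

theorem wys_2 (k : ℤ) : run (wys k) [0, 0, 1, 0, 0, 0] =
    [-3*k^8 - 59*k^7 - 502*k^6 - 2417*k^5 - 7214*k^4 - 13696*k^3 - 16197*k^2 - 10948*k - 3252, -3*k^8 - 56*k^7 - 452*k^6 - 2065*k^5 - 5854*k^4 - 10575*k^3 - 11928*k^2 - 7704*k - 2184, 3*k^8 + 59*k^7 + 502*k^6 + 2417*k^5 + 7214*k^4 + 13697*k^3 + 16209*k^2 + 10992*k + 3301, 3*k^8 + 56*k^7 + 449*k^6 + 2021*k^5 + 5591*k^4 + 9753*k^3 + 10512*k^2 + 6437*k + 1730, -3*k^6 - 44*k^5 - 264*k^4 - 833*k^3 - 1465*k^2 - 1373*k - 542, -k^4 - 10*k^3 - 37*k^2 - 62*k - 40] := by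
  have h0 : Lp 1 (-k - 3) [0, 0, 1, 0, 0, 0] =
      [0, k + 3, k + 4, 0, 0, 0] := by
    simp only [Lp]; exact l6 (by ring) (by ring) (by ring) (by ring) (by ring) (by ring)
  have h1 : Lp 3 (-k - 1) [0, k + 3, k + 4, 0, 0, 0] =
      [0, k + 3, k + 4, 0, 0, 0] := by
    simp only [Lp]; exact l6 (by ring) (by ring) (by ring) (by ring) (by ring) (by ring)
  have h2 : Lp 2 (k + 2) [0, k + 3, k + 4, 0, 0, 0] =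
      [0, k + 3, k^2 + 7*k + 12, k^2 + 6*k + 8, 0, 0] := by
    simp only [Lp]; exact l6 (by ring) (by ring) (by ring) (by ring) (by ring) (by ring)
  have h3 : Lp 3 (-1) [0, k + 3, k^2 + 7*k + 12, k^2 + 6*k + 8, 0, 0] =
      [0, k + 3, k^2 + 7*k + 12, 0, -k^2 - 6*k - 8, 0] := by
    simp only [Lp]; exact l6 (by ring) (by ring) (by ring) (by ring) (by ring) (by ring)
  have h4 : Lp 3 (-1) [0, k + 3, k^2 + 7*k + 12, 0, -k^2 - 6*k - 8, 0] =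
      [0, k + 3, k^2 + 7*k + 12, -k^2 - 6*k - 8, -2*k^2 - 12*k - 16, 0] := by
    simp only [Lp]; exact l6 (by ring) (by ring) (by ring) (by ring) (by ring) (by ring)
  have h5 : Lp 4 (1) [0, k + 3, k^2 + 7*k + 12, -k^2 - 6*k - 8, -2*k^2 - 12*k - 16, 0] =
      [0, k + 3, k^2 + 7*k + 12, -k^2 - 6*k - 8, -4*k^2 - 24*k - 32, -2*k^2 - 12*k - 16] := by
    simp only [Lp]; exact l6 (by ring) (by ring) (by ring) (by ring) (by ring) (by ring)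
  have h6 : Lp 2 (-1) [0, k + 3, k^2 + 7*k + 12, -k^2 - 6*k - 8, -4*k^2 - 24*k - 32, -2*k^2 - 12*k - 16] =
      [0, k + 3, -k^2 - 6*k - 8, -3*k^2 - 19*k - 28, -4*k^2 - 24*k - 32, -2*k^2 - 12*k - 16] := by
    simp only [Lp]; exact l6 (by ring) (by ring) (by ring) (by ring) (by ring) (by ring)
  have h7 : Lp 1 (-1) [0, k + 3, -k^2 - 6*k - 8, -3*k^2 - 19*k - 28, -4*k^2 - 24*k - 32, -2*k^2 - 12*k - 16] =
      [0, -k^2 - 6*k - 8, -2*k^2 - 13*k - 19, -3*k^2 - 19*k - 28, -4*k^2 - 24*k - 32, -2*k^2 - 12*k - 16] := by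
    simp only [Lp]; exact l6 (by ring) (by ring) (by ring) (by ring) (by ring) (by ring)
  have h8 : Lp 3 (-k - 2) [0, -k^2 - 6*k - 8, -2*k^2 - 13*k - 19, -3*k^2 - 19*k - 28, -4*k^2 - 24*k - 32, -2*k^2 - 12*k - 16] =
      [0, -k^2 - 6*k - 8, -2*k^2 - 13*k - 19, -k^3 - 10*k^2 - 33*k - 36, -k^3 - 11*k^2 - 38*k - 40, -2*k^2 - 12*k - 16] := by
    simp only [Lp]; exact l6 (by ring) (by ring) (by ring) (by ring) (by ring) (by ring)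
  have h9 : Lp 4 (k + 1) [0, -k^2 - 6*k - 8, -2*k^2 - 13*k - 19, -k^3 - 10*k^2 - 33*k - 36, -k^3 - 11*k^2 - 38*k - 40, -2*k^2 - 12*k - 16] =
      [0, -k^2 - 6*k - 8, -2*k^2 - 13*k - 19, -k^3 - 10*k^2 - 33*k - 36, -k^4 - 11*k^3 - 46*k^2 - 88*k - 64, -k^4 - 10*k^3 - 37*k^2 - 62*k - 40] := by
    simp only [Lp]; exact l6 (by ring) (by ring) (by ring) (by ring) (by ring) (by ring)
  have h10 : Lp 2 (k + 3) [0, -k^2 - 6*k - 8, -2*k^2 - 13*k - 19, -k^3 - 10*k^2 - 33*k - 36, -k^4 - 11*k^3 - 46*k^2 - 88*k - 64, -k^4 - 10*k^3 - 37*k^2 - 62*k - 40] =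
      [0, -k^2 - 6*k - 8, k^4 + 11*k^3 + 42*k^2 + 64*k + 32, k^4 + 10*k^3 + 34*k^2 + 44*k + 15, -k^4 - 11*k^3 - 46*k^2 - 88*k - 64, -k^4 - 10*k^3 - 37*k^2 - 62*k - 40] := by
    simp only [Lp]; exact l6 (by ring) (by ring) (by ring) (by ring) (by ring) (by ring)
  have h11 : Lp 0 (1) [0, -k^2 - 6*k - 8, k^4 + 11*k^3 + 42*k^2 + 64*k + 32, k^4 + 10*k^3 + 34*k^2 + 44*k + 15, -k^4 - 11*k^3 - 46*k^2 - 88*k - 64, -k^4 - 10*k^3 - 37*k^2 - 62*k - 40] =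
      [k^2 + 6*k + 8, 0, k^4 + 11*k^3 + 42*k^2 + 64*k + 32, k^4 + 10*k^3 + 34*k^2 + 44*k + 15, -k^4 - 11*k^3 - 46*k^2 - 88*k - 64, -k^4 - 10*k^3 - 37*k^2 - 62*k - 40] := by
    simp only [Lp]; exact l6 (by ring) (by ring) (by ring) (by ring) (by ring) (by ring)
  have h12 : Lp 1 (1) [k^2 + 6*k + 8, 0, k^4 + 11*k^3 + 42*k^2 + 64*k + 32, k^4 + 10*k^3 + 34*k^2 + 44*k + 15, -k^4 - 11*k^3 - 46*k^2 - 88*k - 64, -k^4 - 10*k^3 - 37*k^2 - 62*k - 40] =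
      [k^2 + 6*k + 8, -k^4 - 11*k^3 - 42*k^2 - 64*k - 32, 0, k^4 + 10*k^3 + 34*k^2 + 44*k + 15, -k^4 - 11*k^3 - 46*k^2 - 88*k - 64, -k^4 - 10*k^3 - 37*k^2 - 62*k - 40] := by
    simp only [Lp]; exact l6 (by ring) (by ring) (by ring) (by ring) (by ring) (by ring)
  have h13 : Lp 1 (-k - 3) [k^2 + 6*k + 8, -k^4 - 11*k^3 - 42*k^2 - 64*k - 32, 0, k^4 + 10*k^3 + 34*k^2 + 44*k + 15, -k^4 - 11*k^3 - 46*k^2 - 88*k - 64, -k^4 - 10*k^3 - 37*k^2 - 62*k - 40] =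
      [k^2 + 6*k + 8, k^5 + 13*k^4 + 64*k^3 + 148*k^2 + 160*k + 64, k^5 + 14*k^4 + 75*k^3 + 190*k^2 + 224*k + 96, k^4 + 10*k^3 + 34*k^2 + 44*k + 15, -k^4 - 11*k^3 - 46*k^2 - 88*k - 64, -k^4 - 10*k^3 - 37*k^2 - 62*k - 40] := by
    simp only [Lp]; exact l6 (by ring) (by ring) (by ring) (by ring) (by ring) (by ring)
  have h14 : Lp 3 (-k - 1) [k^2 + 6*k + 8, k^5 + 13*k^4 + 64*k^3 + 148*k^2 + 160*k + 64, k^5 + 14*k^4 + 75*k^3 + 190*k^2 + 224*k + 96, k^4 + 10*k^3 + 34*k^2 + 44*k + 15, -k^4 - 11*k^3 - 46*k^2 - 88*k - 64, -k^4 - 10*k^3 - 37*k^2 - 62*k - 40] =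
      [k^2 + 6*k + 8, k^5 + 13*k^4 + 64*k^3 + 148*k^2 + 160*k + 64, k^5 + 14*k^4 + 75*k^3 + 190*k^2 + 224*k + 96, -2*k^5 - 22*k^4 - 91*k^3 - 178*k^2 - 167*k - 64, -2*k^5 - 24*k^4 - 112*k^3 - 258*k^2 - 299*k - 143, -k^4 - 10*k^3 - 37*k^2 - 62*k - 40] := by
    simp only [Lp]; exact l6 (by ring) (by ring) (by ring) (by ring) (by ring) (by ring)
  have h15 : Lp 2 (k + 2) [k^2 + 6*k + 8, k^5 + 13*k^4 + 64*k^3 + 148*k^2 + 160*k + 64, k^5 + 14*k^4 + 75*k^3 + 190*k^2 + 224*k + 96, -2*k^5 - 22*k^4 - 91*k^3 - 178*k^2 - 167*k - 64, -2*k^5 - 24*k^4 - 112*k^3 - 258*k^2 - 299*k - 143, -k^4 - 10*k^3 - 37*k^2 - 62*k - 40] =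
      [k^2 + 6*k + 8, k^5 + 13*k^4 + 64*k^3 + 148*k^2 + 160*k + 64, 3*k^6 + 43*k^5 + 252*k^4 + 775*k^3 + 1317*k^2 + 1166*k + 416, 3*k^6 + 40*k^5 + 216*k^4 + 609*k^3 + 949*k^2 + 775*k + 256, -2*k^5 - 24*k^4 - 112*k^3 - 258*k^2 - 299*k - 143, -k^4 - 10*k^3 - 37*k^2 - 62*k - 40] := by
    simp only [Lp]; exact l6 (by ring) (by ring) (by ring) (by ring) (by ring) (by ring)
  have h16 : Lp 0 (1) [k^2 + 6*k + 8, k^5 + 13*k^4 + 64*k^3 + 148*k^2 + 160*k + 64, 3*k^6 + 43*k^5 + 252*k^4 + 775*k^3 + 1317*k^2 + 1166*k + 416, 3*k^6 + 40*k^5 + 216*k^4 + 609*k^3 + 949*k^2 + 775*k + 256, -2*k^5 - 24*k^4 - 112*k^3 - 258*k^2 - 299*k - 143, -k^4 - 10*k^3 - 37*k^2 - 62*k - 40] =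
      [-k^5 - 13*k^4 - 64*k^3 - 146*k^2 - 148*k - 48, k^2 + 6*k + 8, 3*k^6 + 43*k^5 + 252*k^4 + 775*k^3 + 1317*k^2 + 1166*k + 416, 3*k^6 + 40*k^5 + 216*k^4 + 609*k^3 + 949*k^2 + 775*k + 256, -2*k^5 - 24*k^4 - 112*k^3 - 258*k^2 - 299*k - 143, -k^4 - 10*k^3 - 37*k^2 - 62*k - 40] := by
    simp only [Lp]; exact l6 (by ring) (by ring) (by ring) (by ring) (by ring) (by ring)
  have h17 : Lp 1 (1) [-k^5 - 13*k^4 - 64*k^3 - 146*k^2 - 148*k - 48, k^2 + 6*k + 8, 3*k^6 + 43*k^5 + 252*k^4 + 775*k^3 + 1317*k^2 + 1166*k + 416, 3*k^6 + 40*k^5 + 216*k^4 + 609*k^3 + 949*k^2 + 775*k + 256, -2*k^5 - 24*k^4 - 112*k^3 - 258*k^2 - 299*k - 143, -k^4 - 10*k^3 - 37*k^2 - 62*k - 40] =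
      [-k^5 - 13*k^4 - 64*k^3 - 146*k^2 - 148*k - 48, -3*k^6 - 43*k^5 - 252*k^4 - 775*k^3 - 1315*k^2 - 1154*k - 400, k^2 + 6*k + 8, 3*k^6 + 40*k^5 + 216*k^4 + 609*k^3 + 949*k^2 + 775*k + 256, -2*k^5 - 24*k^4 - 112*k^3 - 258*k^2 - 299*k - 143, -k^4 - 10*k^3 - 37*k^2 - 62*k - 40] := by
    simp only [Lp]; exact l6 (by ring) (by ring) (by ring) (by ring) (by ring) (by ring)
  have h18 : Lp 3 (-1) [-k^5 - 13*k^4 - 64*k^3 - 146*k^2 - 148*k - 48, -3*k^6 - 43*k^5 - 252*k^4 - 775*k^3 - 1315*k^2 - 1154*k - 400, k^2 + 6*k + 8, 3*k^6 + 40*k^5 + 216*k^4 + 609*k^3 + 949*k^2 + 775*k + 256, -2*k^5 - 24*k^4 - 112*k^3 - 258*k^2 - 299*k - 143, -k^4 - 10*k^3 - 37*k^2 - 62*k - 40] =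
      [-k^5 - 13*k^4 - 64*k^3 - 146*k^2 - 148*k - 48, -3*k^6 - 43*k^5 - 252*k^4 - 775*k^3 - 1315*k^2 - 1154*k - 400, k^2 + 6*k + 8, -2*k^5 - 24*k^4 - 112*k^3 - 258*k^2 - 299*k - 143, -3*k^6 - 44*k^5 - 264*k^4 - 833*k^3 - 1465*k^2 - 1373*k - 542, -k^4 - 10*k^3 - 37*k^2 - 62*k - 40] := by
    simp only [Lp]; exact l6 (by ring) (by ring) (by ring) (by ring) (by ring) (by ring)
  have h19 : Lp 2 (1) [-k^5 - 13*k^4 - 64*k^3 - 146*k^2 - 148*k - 48, -3*k^6 - 43*k^5 - 252*k^4 - 775*k^3 - 1315*k^2 - 1154*k - 400, k^2 + 6*k + 8, -2*k^5 - 24*k^4 - 112*k^3 - 258*k^2 - 299*k - 143, -3*k^6 - 44*k^5 - 264*k^4 - 833*k^3 - 1465*k^2 - 1373*k - 542, -k^4 - 10*k^3 - 37*k^2 - 62*k - 40] =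
      [-k^5 - 13*k^4 - 64*k^3 - 146*k^2 - 148*k - 48, -3*k^6 - 43*k^5 - 252*k^4 - 775*k^3 - 1315*k^2 - 1154*k - 400, 2*k^5 + 24*k^4 + 112*k^3 + 260*k^2 + 311*k + 159, k^2 + 6*k + 8, -3*k^6 - 44*k^5 - 264*k^4 - 833*k^3 - 1465*k^2 - 1373*k - 542, -k^4 - 10*k^3 - 37*k^2 - 62*k - 40] := by
    simp only [Lp]; exact l6 (by ring) (by ring) (by ring) (by ring) (by ring) (by ring)
  have h20 : Lp 2 (1) [-k^5 - 13*k^4 - 64*k^3 - 146*k^2 - 148*k - 48, -3*k^6 - 43*k^5 - 252*k^4 - 775*k^3 - 1315*k^2 - 1154*k - 400, 2*k^5 + 24*k^4 + 112*k^3 + 260*k^2 + 311*k + 159, k^2 + 6*k + 8, -3*k^6 - 44*k^5 - 264*k^4 - 833*k^3 - 1465*k^2 - 1373*k - 542, -k^4 - 10*k^3 - 37*k^2 - 62*k - 40] =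
      [-k^5 - 13*k^4 - 64*k^3 - 146*k^2 - 148*k - 48, -3*k^6 - 43*k^5 - 252*k^4 - 775*k^3 - 1315*k^2 - 1154*k - 400, 4*k^5 + 48*k^4 + 224*k^3 + 519*k^2 + 616*k + 310, 2*k^5 + 24*k^4 + 112*k^3 + 260*k^2 + 311*k + 159, -3*k^6 - 44*k^5 - 264*k^4 - 833*k^3 - 1465*k^2 - 1373*k - 542, -k^4 - 10*k^3 - 37*k^2 - 62*k - 40] := by
    simp only [Lp]; exact l6 (by ring) (by ring) (by ring) (by ring) (by ring) (by ring)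
  have h21 : Lp 1 (-k - 2) [-k^5 - 13*k^4 - 64*k^3 - 146*k^2 - 148*k - 48, -3*k^6 - 43*k^5 - 252*k^4 - 775*k^3 - 1315*k^2 - 1154*k - 400, 4*k^5 + 48*k^4 + 224*k^3 + 519*k^2 + 616*k + 310, 2*k^5 + 24*k^4 + 112*k^3 + 260*k^2 + 311*k + 159, -3*k^6 - 44*k^5 - 264*k^4 - 833*k^3 - 1465*k^2 - 1373*k - 542, -k^4 - 10*k^3 - 37*k^2 - 62*k - 40] =
      [-k^5 - 13*k^4 - 64*k^3 - 146*k^2 - 148*k - 48, 3*k^7 + 50*k^6 + 351*k^5 + 1347*k^4 + 3057*k^3 + 4123*k^2 + 3096*k + 1020, 3*k^7 + 53*k^6 + 398*k^5 + 1647*k^4 + 4056*k^3 + 5957*k^2 + 4866*k + 1730, 2*k^5 + 24*k^4 + 112*k^3 + 260*k^2 + 311*k + 159, -3*k^6 - 44*k^5 - 264*k^4 - 833*k^3 - 1465*k^2 - 1373*k - 542, -k^4 - 10*k^3 - 37*k^2 - 62*k - 40] := by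
    simp only [Lp]; exact l6 (by ring) (by ring) (by ring) (by ring) (by ring) (by ring)
  have h22 : Lp 2 (k + 1) [-k^5 - 13*k^4 - 64*k^3 - 146*k^2 - 148*k - 48, 3*k^7 + 50*k^6 + 351*k^5 + 1347*k^4 + 3057*k^3 + 4123*k^2 + 3096*k + 1020, 3*k^7 + 53*k^6 + 398*k^5 + 1647*k^4 + 4056*k^3 + 5957*k^2 + 4866*k + 1730, 2*k^5 + 24*k^4 + 112*k^3 + 260*k^2 + 311*k + 159, -3*k^6 - 44*k^5 - 264*k^4 - 833*k^3 - 1465*k^2 - 1373*k - 542, -k^4 - 10*k^3 - 37*k^2 - 62*k - 40] =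
      [-k^5 - 13*k^4 - 64*k^3 - 146*k^2 - 148*k - 48, 3*k^7 + 50*k^6 + 351*k^5 + 1347*k^4 + 3057*k^3 + 4123*k^2 + 3096*k + 1020, 3*k^8 + 59*k^7 + 502*k^6 + 2417*k^5 + 7214*k^4 + 13697*k^3 + 16209*k^2 + 10992*k + 3301, 3*k^8 + 56*k^7 + 449*k^6 + 2021*k^5 + 5591*k^4 + 9753*k^3 + 10512*k^2 + 6437*k + 1730, -3*k^6 - 44*k^5 - 264*k^4 - 833*k^3 - 1465*k^2 - 1373*k - 542, -k^4 - 10*k^3 - 37*k^2 - 62*k - 40] := by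
    simp only [Lp]; exact l6 (by ring) (by ring) (by ring) (by ring) (by ring) (by ring)
  have h23 : Lp 0 (k + 3) [-k^5 - 13*k^4 - 64*k^3 - 146*k^2 - 148*k - 48, 3*k^7 + 50*k^6 + 351*k^5 + 1347*k^4 + 3057*k^3 + 4123*k^2 + 3096*k + 1020, 3*k^8 + 59*k^7 + 502*k^6 + 2417*k^5 + 7214*k^4 + 13697*k^3 + 16209*k^2 + 10992*k + 3301, 3*k^8 + 56*k^7 + 449*k^6 + 2021*k^5 + 5591*k^4 + 9753*k^3 + 10512*k^2 + 6437*k + 1730, -3*k^6 - 44*k^5 - 264*k^4 - 833*k^3 - 1465*k^2 - 1373*k - 542, -k^4 - 10*k^3 - 37*k^2 - 62*k - 40] =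
      [-3*k^8 - 59*k^7 - 502*k^6 - 2417*k^5 - 7214*k^4 - 13696*k^3 - 16197*k^2 - 10948*k - 3252, -3*k^8 - 56*k^7 - 452*k^6 - 2065*k^5 - 5854*k^4 - 10575*k^3 - 11928*k^2 - 7704*k - 2184, 3*k^8 + 59*k^7 + 502*k^6 + 2417*k^5 + 7214*k^4 + 13697*k^3 + 16209*k^2 + 10992*k + 3301, 3*k^8 + 56*k^7 + 449*k^6 + 2021*k^5 + 5591*k^4 + 9753*k^3 + 10512*k^2 + 6437*k + 1730, -3*k^6 - 44*k^5 - 264*k^4 - 833*k^3 - 1465*k^2 - 1373*k - 542, -k^4 - 10*k^3 - 37*k^2 - 62*k - 40] := by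
    simp only [Lp]; exact l6 (by ring) (by ring) (by ring) (by ring) (by ring) (by ring)
  simp only [wys, run]
  rw [h0, h1, h2, h3, h4, h5, h6, h7, h8, h9, h10, h11, h12, h13, h14, h15, h16, h17, h18, h19, h20, h21, h22, h23]

theorem wys_3 (k : ℤ) : run (wys k) [0, 0, 0, 1, 0, 0] =
    [-3*k^8 - 50*k^7 - 361*k^6 - 1475*k^5 - 3733*k^4 - 6000*k^3 - 5991*k^2 - 3405*k - 846, -3*k^8 - 47*k^7 - 320*k^6 - 1237*k^5 - 2973*k^4 - 4557*k^3 - 4357*k^2 - 2378*k - 568, 3*k^8 + 50*k^7 + 361*k^6 + 1475*k^5 + 3733*k^4 + 6001*k^3 + 6000*k^2 + 3425*k + 858, 3*k^8 + 47*k^7 + 317*k^6 + 1202*k^5 + 2806*k^4 + 4140*k^3 + 3785*k^2 + 1971*k + 450, -3*k^6 - 35*k^5 - 168*k^4 - 425*k^3 - 600*k^2 - 450*k - 141, -k^4 - 7*k^3 - 19*k^2 - 23*k - 10] := by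
  have h0 : Lp 1 (-k - 3) [0, 0, 0, 1, 0, 0] =
      [0, 0, 0, 1, 0, 0] := by
    simp only [Lp]; exact l6 (by ring) (by ring) (by ring) (by ring) (by ring) (by ring)
  have h1 : Lp 3 (-k - 1) [0, 0, 0, 1, 0, 0] =
      [0, 0, 0, -k, -k - 1, 0] := by
    simp only [Lp]; exact l6 (by ring) (by ring) (by ring) (by ring) (by ring) (by ring)
  have h2 : Lp 2 (k + 2) [0, 0, 0, -k, -k - 1, 0] =
      [0, 0, k^2 + 2*k, k^2 + k, -k - 1, 0] := by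
    simp only [Lp]; exact l6 (by ring) (by ring) (by ring) (by ring) (by ring) (by ring)
  have h3 : Lp 3 (-1) [0, 0, k^2 + 2*k, k^2 + k, -k - 1, 0] =
      [0, 0, k^2 + 2*k, -k - 1, -k^2 - 3*k - 2, 0] := by
    simp only [Lp]; exact l6 (by ring) (by ring) (by ring) (by ring) (by ring) (by ring)
  have h4 : Lp 3 (-1) [0, 0, k^2 + 2*k, -k - 1, -k^2 - 3*k - 2, 0] =
      [0, 0, k^2 + 2*k, -k^2 - 3*k - 2, -2*k^2 - 5*k - 3, 0] := by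
    simp only [Lp]; exact l6 (by ring) (by ring) (by ring) (by ring) (by ring) (by ring)
  have h5 : Lp 4 (1) [0, 0, k^2 + 2*k, -k^2 - 3*k - 2, -2*k^2 - 5*k - 3, 0] =
      [0, 0, k^2 + 2*k, -k^2 - 3*k - 2, -4*k^2 - 10*k - 6, -2*k^2 - 5*k - 3] := by
    simp only [Lp]; exact l6 (by ring) (by ring) (by ring) (by ring) (by ring) (by ring)
  have h6 : Lp 2 (-1) [0, 0, k^2 + 2*k, -k^2 - 3*k - 2, -4*k^2 - 10*k - 6, -2*k^2 - 5*k - 3] =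
      [0, 0, -k^2 - 3*k - 2, -3*k^2 - 8*k - 4, -4*k^2 - 10*k - 6, -2*k^2 - 5*k - 3] := by
    simp only [Lp]; exact l6 (by ring) (by ring) (by ring) (by ring) (by ring) (by ring)
  have h7 : Lp 1 (-1) [0, 0, -k^2 - 3*k - 2, -3*k^2 - 8*k - 4, -4*k^2 - 10*k - 6, -2*k^2 - 5*k - 3] =
      [0, -k^2 - 3*k - 2, -2*k^2 - 6*k - 4, -3*k^2 - 8*k - 4, -4*k^2 - 10*k - 6, -2*k^2 - 5*k - 3] := by
    simp only [Lp]; exact l6 (by ring) (by ring) (by ring) (by ring) (by ring) (by ring)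
  have h8 : Lp 3 (-k - 2) [0, -k^2 - 3*k - 2, -2*k^2 - 6*k - 4, -3*k^2 - 8*k - 4, -4*k^2 - 10*k - 6, -2*k^2 - 5*k - 3] =
      [0, -k^2 - 3*k - 2, -2*k^2 - 6*k - 4, -k^3 - 7*k^2 - 14*k - 8, -k^3 - 8*k^2 - 16*k - 10, -2*k^2 - 5*k - 3] := by
    simp only [Lp]; exact l6 (by ring) (by ring) (by ring) (by ring) (by ring) (by ring)
  have h9 : Lp 4 (k + 1) [0, -k^2 - 3*k - 2, -2*k^2 - 6*k - 4, -k^3 - 7*k^2 - 14*k - 8, -k^3 - 8*k^2 - 16*k - 10, -2*k^2 - 5*k - 3] =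
      [0, -k^2 - 3*k - 2, -2*k^2 - 6*k - 4, -k^3 - 7*k^2 - 14*k - 8, -k^4 - 8*k^3 - 25*k^2 - 34*k - 17, -k^4 - 7*k^3 - 19*k^2 - 23*k - 10] := by
    simp only [Lp]; exact l6 (by ring) (by ring) (by ring) (by ring) (by ring) (by ring)
  have h10 : Lp 2 (k + 3) [0, -k^2 - 3*k - 2, -2*k^2 - 6*k - 4, -k^3 - 7*k^2 - 14*k - 8, -k^4 - 8*k^3 - 25*k^2 - 34*k - 17, -k^4 - 7*k^3 - 19*k^2 - 23*k - 10] =
      [0, -k^2 - 3*k - 2, k^4 + 8*k^3 + 21*k^2 + 22*k + 8, k^4 + 7*k^3 + 16*k^2 + 14*k + 4, -k^4 - 8*k^3 - 25*k^2 - 34*k - 17, -k^4 - 7*k^3 - 19*k^2 - 23*k - 10] := by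
    simp only [Lp]; exact l6 (by ring) (by ring) (by ring) (by ring) (by ring) (by ring)
  have h11 : Lp 0 (1) [0, -k^2 - 3*k - 2, k^4 + 8*k^3 + 21*k^2 + 22*k + 8, k^4 + 7*k^3 + 16*k^2 + 14*k + 4, -k^4 - 8*k^3 - 25*k^2 - 34*k - 17, -k^4 - 7*k^3 - 19*k^2 - 23*k - 10] =
      [k^2 + 3*k + 2, 0, k^4 + 8*k^3 + 21*k^2 + 22*k + 8, k^4 + 7*k^3 + 16*k^2 + 14*k + 4, -k^4 - 8*k^3 - 25*k^2 - 34*k - 17, -k^4 - 7*k^3 - 19*k^2 - 23*k - 10] := by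
    simp only [Lp]; exact l6 (by ring) (by ring) (by ring) (by ring) (by ring) (by ring)
  have h12 : Lp 1 (1) [k^2 + 3*k + 2, 0, k^4 + 8*k^3 + 21*k^2 + 22*k + 8, k^4 + 7*k^3 + 16*k^2 + 14*k + 4, -k^4 - 8*k^3 - 25*k^2 - 34*k - 17, -k^4 - 7*k^3 - 19*k^2 - 23*k - 10] =
      [k^2 + 3*k + 2, -k^4 - 8*k^3 - 21*k^2 - 22*k - 8, 0, k^4 + 7*k^3 + 16*k^2 + 14*k + 4, -k^4 - 8*k^3 - 25*k^2 - 34*k - 17, -k^4 - 7*k^3 - 19*k^2 - 23*k - 10] := by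
    simp only [Lp]; exact l6 (by ring) (by ring) (by ring) (by ring) (by ring) (by ring)
  have h13 : Lp 1 (-k - 3) [k^2 + 3*k + 2, -k^4 - 8*k^3 - 21*k^2 - 22*k - 8, 0, k^4 + 7*k^3 + 16*k^2 + 14*k + 4, -k^4 - 8*k^3 - 25*k^2 - 34*k - 17, -k^4 - 7*k^3 - 19*k^2 - 23*k - 10] =
      [k^2 + 3*k + 2, k^5 + 10*k^4 + 37*k^3 + 64*k^2 + 52*k + 16, k^5 + 11*k^4 + 45*k^3 + 85*k^2 + 74*k + 24, k^4 + 7*k^3 + 16*k^2 + 14*k + 4, -k^4 - 8*k^3 - 25*k^2 - 34*k - 17, -k^4 - 7*k^3 - 19*k^2 - 23*k - 10] := by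
    simp only [Lp]; exact l6 (by ring) (by ring) (by ring) (by ring) (by ring) (by ring)
  have h14 : Lp 3 (-k - 1) [k^2 + 3*k + 2, k^5 + 10*k^4 + 37*k^3 + 64*k^2 + 52*k + 16, k^5 + 11*k^4 + 45*k^3 + 85*k^2 + 74*k + 24, k^4 + 7*k^3 + 16*k^2 + 14*k + 4, -k^4 - 8*k^3 - 25*k^2 - 34*k - 17, -k^4 - 7*k^3 - 19*k^2 - 23*k - 10] =
      [k^2 + 3*k + 2, k^5 + 10*k^4 + 37*k^3 + 64*k^2 + 52*k + 16, k^5 + 11*k^4 + 45*k^3 + 85*k^2 + 74*k + 24, -2*k^5 - 16*k^4 - 49*k^3 - 73*k^2 - 55*k - 17, -2*k^5 - 18*k^4 - 64*k^3 - 114*k^2 - 103*k - 38, -k^4 - 7*k^3 - 19*k^2 - 23*k - 10] := by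
    simp only [Lp]; exact l6 (by ring) (by ring) (by ring) (by ring) (by ring) (by ring)
  have h15 : Lp 2 (k + 2) [k^2 + 3*k + 2, k^5 + 10*k^4 + 37*k^3 + 64*k^2 + 52*k + 16, k^5 + 11*k^4 + 45*k^3 + 85*k^2 + 74*k + 24, -2*k^5 - 16*k^4 - 49*k^3 - 73*k^2 - 55*k - 17, -2*k^5 - 18*k^4 - 64*k^3 - 114*k^2 - 103*k - 38, -k^4 - 7*k^3 - 19*k^2 - 23*k - 10] =
      [k^2 + 3*k + 2, k^5 + 10*k^4 + 37*k^3 + 64*k^2 + 52*k + 16, 3*k^6 + 34*k^5 + 159*k^4 + 391*k^3 + 530*k^2 + 373*k + 106, 3*k^6 + 31*k^5 + 132*k^4 + 297*k^3 + 372*k^2 + 244*k + 65, -2*k^5 - 18*k^4 - 64*k^3 - 114*k^2 - 103*k - 38, -k^4 - 7*k^3 - 19*k^2 - 23*k - 10] := by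
    simp only [Lp]; exact l6 (by ring) (by ring) (by ring) (by ring) (by ring) (by ring)
  have h16 : Lp 0 (1) [k^2 + 3*k + 2, k^5 + 10*k^4 + 37*k^3 + 64*k^2 + 52*k + 16, 3*k^6 + 34*k^5 + 159*k^4 + 391*k^3 + 530*k^2 + 373*k + 106, 3*k^6 + 31*k^5 + 132*k^4 + 297*k^3 + 372*k^2 + 244*k + 65, -2*k^5 - 18*k^4 - 64*k^3 - 114*k^2 - 103*k - 38, -k^4 - 7*k^3 - 19*k^2 - 23*k - 10] =
      [-k^5 - 10*k^4 - 37*k^3 - 62*k^2 - 46*k - 12, k^2 + 3*k + 2, 3*k^6 + 34*k^5 + 159*k^4 + 391*k^3 + 530*k^2 + 373*k + 106, 3*k^6 + 31*k^5 + 132*k^4 + 297*k^3 + 372*k^2 + 244*k + 65, -2*k^5 - 18*k^4 - 64*k^3 - 114*k^2 - 103*k - 38, -k^4 - 7*k^3 - 19*k^2 - 23*k - 10] := by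
    simp only [Lp]; exact l6 (by ring) (by ring) (by ring) (by ring) (by ring) (by ring)
  have h17 : Lp 1 (1) [-k^5 - 10*k^4 - 37*k^3 - 62*k^2 - 46*k - 12, k^2 + 3*k + 2, 3*k^6 + 34*k^5 + 159*k^4 + 391*k^3 + 530*k^2 + 373*k + 106, 3*k^6 + 31*k^5 + 132*k^4 + 297*k^3 + 372*k^2 + 244*k + 65, -2*k^5 - 18*k^4 - 64*k^3 - 114*k^2 - 103*k - 38, -k^4 - 7*k^3 - 19*k^2 - 23*k - 10] =
      [-k^5 - 10*k^4 - 37*k^3 - 62*k^2 - 46*k - 12, -3*k^6 - 34*k^5 - 159*k^4 - 391*k^3 - 528*k^2 - 367*k - 102, k^2 + 3*k + 2, 3*k^6 + 31*k^5 + 132*k^4 + 297*k^3 + 372*k^2 + 244*k + 65, -2*k^5 - 18*k^4 - 64*k^3 - 114*k^2 - 103*k - 38, -k^4 - 7*k^3 - 19*k^2 - 23*k - 10] := by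
    simp only [Lp]; exact l6 (by ring) (by ring) (by ring) (by ring) (by ring) (by ring)
  have h18 : Lp 3 (-1) [-k^5 - 10*k^4 - 37*k^3 - 62*k^2 - 46*k - 12, -3*k^6 - 34*k^5 - 159*k^4 - 391*k^3 - 528*k^2 - 367*k - 102, k^2 + 3*k + 2, 3*k^6 + 31*k^5 + 132*k^4 + 297*k^3 + 372*k^2 + 244*k + 65, -2*k^5 - 18*k^4 - 64*k^3 - 114*k^2 - 103*k - 38, -k^4 - 7*k^3 - 19*k^2 - 23*k - 10] =
      [-k^5 - 10*k^4 - 37*k^3 - 62*k^2 - 46*k - 12, -3*k^6 - 34*k^5 - 159*k^4 - 391*k^3 - 528*k^2 - 367*k - 102, k^2 + 3*k + 2, -2*k^5 - 18*k^4 - 64*k^3 - 114*k^2 - 103*k - 38, -3*k^6 - 35*k^5 - 168*k^4 - 425*k^3 - 600*k^2 - 450*k - 141, -k^4 - 7*k^3 - 19*k^2 - 23*k - 10] := by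
    simp only [Lp]; exact l6 (by ring) (by ring) (by ring) (by ring) (by ring) (by ring)
  have h19 : Lp 2 (1) [-k^5 - 10*k^4 - 37*k^3 - 62*k^2 - 46*k - 12, -3*k^6 - 34*k^5 - 159*k^4 - 391*k^3 - 528*k^2 - 367*k - 102, k^2 + 3*k + 2, -2*k^5 - 18*k^4 - 64*k^3 - 114*k^2 - 103*k - 38, -3*k^6 - 35*k^5 - 168*k^4 - 425*k^3 - 600*k^2 - 450*k - 141, -k^4 - 7*k^3 - 19*k^2 - 23*k - 10] =
      [-k^5 - 10*k^4 - 37*k^3 - 62*k^2 - 46*k - 12, -3*k^6 - 34*k^5 - 159*k^4 - 391*k^3 - 528*k^2 - 367*k - 102, 2*k^5 + 18*k^4 + 64*k^3 + 116*k^2 + 109*k + 42, k^2 + 3*k + 2, -3*k^6 - 35*k^5 - 168*k^4 - 425*k^3 - 600*k^2 - 450*k - 141, -k^4 - 7*k^3 - 19*k^2 - 23*k - 10] := by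
    simp only [Lp]; exact l6 (by ring) (by ring) (by ring) (by ring) (by ring) (by ring)
  have h20 : Lp 2 (1) [-k^5 - 10*k^4 - 37*k^3 - 62*k^2 - 46*k - 12, -3*k^6 - 34*k^5 - 159*k^4 - 391*k^3 - 528*k^2 - 367*k - 102, 2*k^5 + 18*k^4 + 64*k^3 + 116*k^2 + 109*k + 42, k^2 + 3*k + 2, -3*k^6 - 35*k^5 - 168*k^4 - 425*k^3 - 600*k^2 - 450*k - 141, -k^4 - 7*k^3 - 19*k^2 - 23*k - 10] =
      [-k^5 - 10*k^4 - 37*k^3 - 62*k^2 - 46*k - 12, -3*k^6 - 34*k^5 - 159*k^4 - 391*k^3 - 528*k^2 - 367*k - 102, 4*k^5 + 36*k^4 + 128*k^3 + 231*k^2 + 215*k + 82, 2*k^5 + 18*k^4 + 64*k^3 + 116*k^2 + 109*k + 42, -3*k^6 - 35*k^5 - 168*k^4 - 425*k^3 - 600*k^2 - 450*k - 141, -k^4 - 7*k^3 - 19*k^2 - 23*k - 10] := by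
    simp only [Lp]; exact l6 (by ring) (by ring) (by ring) (by ring) (by ring) (by ring)
  have h21 : Lp 1 (-k - 2) [-k^5 - 10*k^4 - 37*k^3 - 62*k^2 - 46*k - 12, -3*k^6 - 34*k^5 - 159*k^4 - 391*k^3 - 528*k^2 - 367*k - 102, 4*k^5 + 36*k^4 + 128*k^3 + 231*k^2 + 215*k + 82, 2*k^5 + 18*k^4 + 64*k^3 + 116*k^2 + 109*k + 42, -3*k^6 - 35*k^5 - 168*k^4 - 425*k^3 - 600*k^2 - 450*k - 141, -k^4 - 7*k^3 - 19*k^2 - 23*k - 10] =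
      [-k^5 - 10*k^4 - 37*k^3 - 62*k^2 - 46*k - 12, 3*k^7 + 41*k^6 + 237*k^5 + 750*k^4 + 1406*k^3 + 1572*k^2 + 981*k + 266, 3*k^7 + 44*k^6 + 275*k^5 + 945*k^4 + 1925*k^3 + 2331*k^2 + 1563*k + 450, 2*k^5 + 18*k^4 + 64*k^3 + 116*k^2 + 109*k + 42, -3*k^6 - 35*k^5 - 168*k^4 - 425*k^3 - 600*k^2 - 450*k - 141, -k^4 - 7*k^3 - 19*k^2 - 23*k - 10] := by
    simp only [Lp]; exact l6 (by ring) (by ring) (by ring) (by ring) (by ring) (by ring)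
  have h22 : Lp 2 (k + 1) [-k^5 - 10*k^4 - 37*k^3 - 62*k^2 - 46*k - 12, 3*k^7 + 41*k^6 + 237*k^5 + 750*k^4 + 1406*k^3 + 1572*k^2 + 981*k + 266, 3*k^7 + 44*k^6 + 275*k^5 + 945*k^4 + 1925*k^3 + 2331*k^2 + 1563*k + 450, 2*k^5 + 18*k^4 + 64*k^3 + 116*k^2 + 109*k + 42, -3*k^6 - 35*k^5 - 168*k^4 - 425*k^3 - 600*k^2 - 450*k - 141, -k^4 - 7*k^3 - 19*k^2 - 23*k - 10] =
      [-k^5 - 10*k^4 - 37*k^3 - 62*k^2 - 46*k - 12, 3*k^7 + 41*k^6 + 237*k^5 + 750*k^4 + 1406*k^3 + 1572*k^2 + 981*k + 266, 3*k^8 + 50*k^7 + 361*k^6 + 1475*k^5 + 3733*k^4 + 6001*k^3 + 6000*k^2 + 3425*k + 858, 3*k^8 + 47*k^7 + 317*k^6 + 1202*k^5 + 2806*k^4 + 4140*k^3 + 3785*k^2 + 1971*k + 450, -3*k^6 - 35*k^5 - 168*k^4 - 425*k^3 - 600*k^2 - 450*k - 141, -k^4 - 7*k^3 - 19*k^2 - 23*k - 10] := by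
    simp only [Lp]; exact l6 (by ring) (by ring) (by ring) (by ring) (by ring) (by ring)
  have h23 : Lp 0 (k + 3) [-k^5 - 10*k^4 - 37*k^3 - 62*k^2 - 46*k - 12, 3*k^7 + 41*k^6 + 237*k^5 + 750*k^4 + 1406*k^3 + 1572*k^2 + 981*k + 266, 3*k^8 + 50*k^7 + 361*k^6 + 1475*k^5 + 3733*k^4 + 6001*k^3 + 6000*k^2 + 3425*k + 858, 3*k^8 + 47*k^7 + 317*k^6 + 1202*k^5 + 2806*k^4 + 4140*k^3 + 3785*k^2 + 1971*k + 450, -3*k^6 - 35*k^5 - 168*k^4 - 425*k^3 - 600*k^2 - 450*k - 141, -k^4 - 7*k^3 - 19*k^2 - 23*k - 10] =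
      [-3*k^8 - 50*k^7 - 361*k^6 - 1475*k^5 - 3733*k^4 - 6000*k^3 - 5991*k^2 - 3405*k - 846, -3*k^8 - 47*k^7 - 320*k^6 - 1237*k^5 - 2973*k^4 - 4557*k^3 - 4357*k^2 - 2378*k - 568, 3*k^8 + 50*k^7 + 361*k^6 + 1475*k^5 + 3733*k^4 + 6001*k^3 + 6000*k^2 + 3425*k + 858, 3*k^8 + 47*k^7 + 317*k^6 + 1202*k^5 + 2806*k^4 + 4140*k^3 + 3785*k^2 + 1971*k + 450, -3*k^6 - 35*k^5 - 168*k^4 - 425*k^3 - 600*k^2 - 450*k - 141, -k^4 - 7*k^3 - 19*k^2 - 23*k - 10] := by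
    simp only [Lp]; exact l6 (by ring) (by ring) (by ring) (by ring) (by ring) (by ring)
  simp only [wys, run]
  rw [h0, h1, h2, h3, h4, h5, h6, h7, h8, h9, h10, h11, h12, h13, h14, h15, h16, h17, h18, h19, h20, h21, h22, h23]

theorem wys_4 (k : ℤ) : run (wys k) [0, 0, 0, 0, 1, 0] =
    [3*k^8 + 53*k^7 + 411*k^6 + 1830*k^5 + 5125*k^4 + 9259*k^3 + 10557*k^2 + 6962*k + 2040, 3*k^8 + 50*k^7 + 367*k^6 + 1551*k^5 + 4133*k^4 + 7121*k^3 + 7759*k^2 + 4896*k + 1370, -3*k^8 - 53*k^7 - 411*k^6 - 1830*k^5 - 5125*k^4 - 9260*k^3 - 10567*k^2 - 6991*k - 2070, -3*k^8 - 50*k^7 - 364*k^6 - 1513*k^5 - 3931*k^4 - 6543*k^3 - 6823*k^2 - 4088*k - 1085, 3*k^6 + 38*k^5 + 203*k^4 + 587*k^3 + 972*k^2 + 877*k + 340, k^4 + 8*k^3 + 26*k^2 + 40*k + 24] := by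
  have h0 : Lp 1 (-k - 3) [0, 0, 0, 0, 1, 0] =
      [0, 0, 0, 0, 1, 0] := by
    simp only [Lp]; exact l6 (by ring) (by ring) (by ring) (by ring) (by ring) (by ring)
  have h1 : Lp 3 (-k - 1) [0, 0, 0, 0, 1, 0] =
      [0, 0, 0, k + 1, k + 2, 0] := by
    simp only [Lp]; exact l6 (by ring) (by ring) (by ring) (by ring) (by ring) (by ring)
  have h2 : Lp 2 (k + 2) [0, 0, 0, k + 1, k + 2, 0] =
      [0, 0, -k^2 - 3*k - 2, -k^2 - 2*k - 1, k + 2, 0] := by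
    simp only [Lp]; exact l6 (by ring) (by ring) (by ring) (by ring) (by ring) (by ring)
  have h3 : Lp 3 (-1) [0, 0, -k^2 - 3*k - 2, -k^2 - 2*k - 1, k + 2, 0] =
      [0, 0, -k^2 - 3*k - 2, k + 2, k^2 + 4*k + 5, 0] := by
    simp only [Lp]; exact l6 (by ring) (by ring) (by ring) (by ring) (by ring) (by ring)
  have h4 : Lp 3 (-1) [0, 0, -k^2 - 3*k - 2, k + 2, k^2 + 4*k + 5, 0] =
      [0, 0, -k^2 - 3*k - 2, k^2 + 4*k + 5, 2*k^2 + 7*k + 8, 0] := by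
    simp only [Lp]; exact l6 (by ring) (by ring) (by ring) (by ring) (by ring) (by ring)
  have h5 : Lp 4 (1) [0, 0, -k^2 - 3*k - 2, k^2 + 4*k + 5, 2*k^2 + 7*k + 8, 0] =
      [0, 0, -k^2 - 3*k - 2, k^2 + 4*k + 5, 4*k^2 + 14*k + 16, 2*k^2 + 7*k + 8] := by
    simp only [Lp]; exact l6 (by ring) (by ring) (by ring) (by ring) (by ring) (by ring)
  have h6 : Lp 2 (-1) [0, 0, -k^2 - 3*k - 2, k^2 + 4*k + 5, 4*k^2 + 14*k + 16, 2*k^2 + 7*k + 8] =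
      [0, 0, k^2 + 4*k + 5, 3*k^2 + 11*k + 12, 4*k^2 + 14*k + 16, 2*k^2 + 7*k + 8] := by
    simp only [Lp]; exact l6 (by ring) (by ring) (by ring) (by ring) (by ring) (by ring)
  have h7 : Lp 1 (-1) [0, 0, k^2 + 4*k + 5, 3*k^2 + 11*k + 12, 4*k^2 + 14*k + 16, 2*k^2 + 7*k + 8] =
      [0, k^2 + 4*k + 5, 2*k^2 + 8*k + 10, 3*k^2 + 11*k + 12, 4*k^2 + 14*k + 16, 2*k^2 + 7*k + 8] := by
    simp only [Lp]; exact l6 (by ring) (by ring) (by ring) (by ring) (by ring) (by ring)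
  have h8 : Lp 3 (-k - 2) [0, k^2 + 4*k + 5, 2*k^2 + 8*k + 10, 3*k^2 + 11*k + 12, 4*k^2 + 14*k + 16, 2*k^2 + 7*k + 8] =
      [0, k^2 + 4*k + 5, 2*k^2 + 8*k + 10, k^3 + 8*k^2 + 21*k + 20, k^3 + 9*k^2 + 24*k + 24, 2*k^2 + 7*k + 8] := by
    simp only [Lp]; exact l6 (by ring) (by ring) (by ring) (by ring) (by ring) (by ring)
  have h9 : Lp 4 (k + 1) [0, k^2 + 4*k + 5, 2*k^2 + 8*k + 10, k^3 + 8*k^2 + 21*k + 20, k^3 + 9*k^2 + 24*k + 24, 2*k^2 + 7*k + 8] =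
      [0, k^2 + 4*k + 5, 2*k^2 + 8*k + 10, k^3 + 8*k^2 + 21*k + 20, k^4 + 9*k^3 + 33*k^2 + 57*k + 40, k^4 + 8*k^3 + 26*k^2 + 40*k + 24] := by
    simp only [Lp]; exact l6 (by ring) (by ring) (by ring) (by ring) (by ring) (by ring)
  have h10 : Lp 2 (k + 3) [0, k^2 + 4*k + 5, 2*k^2 + 8*k + 10, k^3 + 8*k^2 + 21*k + 20, k^4 + 9*k^3 + 33*k^2 + 57*k + 40, k^4 + 8*k^3 + 26*k^2 + 40*k + 24] =
      [0, k^2 + 4*k + 5, -k^4 - 9*k^3 - 29*k^2 - 41*k - 20, -k^4 - 8*k^3 - 23*k^2 - 28*k - 10, k^4 + 9*k^3 + 33*k^2 + 57*k + 40, k^4 + 8*k^3 + 26*k^2 + 40*k + 24] := by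
    simp only [Lp]; exact l6 (by ring) (by ring) (by ring) (by ring) (by ring) (by ring)
  have h11 : Lp 0 (1) [0, k^2 + 4*k + 5, -k^4 - 9*k^3 - 29*k^2 - 41*k - 20, -k^4 - 8*k^3 - 23*k^2 - 28*k - 10, k^4 + 9*k^3 + 33*k^2 + 57*k + 40, k^4 + 8*k^3 + 26*k^2 + 40*k + 24] =
      [-k^2 - 4*k - 5, 0, -k^4 - 9*k^3 - 29*k^2 - 41*k - 20, -k^4 - 8*k^3 - 23*k^2 - 28*k - 10, k^4 + 9*k^3 + 33*k^2 + 57*k + 40, k^4 + 8*k^3 + 26*k^2 + 40*k + 24] := by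
    simp only [Lp]; exact l6 (by ring) (by ring) (by ring) (by ring) (by ring) (by ring)
  have h12 : Lp 1 (1) [-k^2 - 4*k - 5, 0, -k^4 - 9*k^3 - 29*k^2 - 41*k - 20, -k^4 - 8*k^3 - 23*k^2 - 28*k - 10, k^4 + 9*k^3 + 33*k^2 + 57*k + 40, k^4 + 8*k^3 + 26*k^2 + 40*k + 24] =
      [-k^2 - 4*k - 5, k^4 + 9*k^3 + 29*k^2 + 41*k + 20, 0, -k^4 - 8*k^3 - 23*k^2 - 28*k - 10, k^4 + 9*k^3 + 33*k^2 + 57*k + 40, k^4 + 8*k^3 + 26*k^2 + 40*k + 24] := by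
    simp only [Lp]; exact l6 (by ring) (by ring) (by ring) (by ring) (by ring) (by ring)
  have h13 : Lp 1 (-k - 3) [-k^2 - 4*k - 5, k^4 + 9*k^3 + 29*k^2 + 41*k + 20, 0, -k^4 - 8*k^3 - 23*k^2 - 28*k - 10, k^4 + 9*k^3 + 33*k^2 + 57*k + 40, k^4 + 8*k^3 + 26*k^2 + 40*k + 24] =
      [-k^2 - 4*k - 5, -k^5 - 11*k^4 - 47*k^3 - 99*k^2 - 102*k - 40, -k^5 - 12*k^4 - 56*k^3 - 128*k^2 - 143*k - 60, -k^4 - 8*k^3 - 23*k^2 - 28*k - 10, k^4 + 9*k^3 + 33*k^2 + 57*k + 40, k^4 + 8*k^3 + 26*k^2 + 40*k + 24] := by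
    simp only [Lp]; exact l6 (by ring) (by ring) (by ring) (by ring) (by ring) (by ring)
  have h14 : Lp 3 (-k - 1) [-k^2 - 4*k - 5, -k^5 - 11*k^4 - 47*k^3 - 99*k^2 - 102*k - 40, -k^5 - 12*k^4 - 56*k^3 - 128*k^2 - 143*k - 60, -k^4 - 8*k^3 - 23*k^2 - 28*k - 10, k^4 + 9*k^3 + 33*k^2 + 57*k + 40, k^4 + 8*k^3 + 26*k^2 + 40*k + 24] =
      [-k^2 - 4*k - 5, -k^5 - 11*k^4 - 47*k^3 - 99*k^2 - 102*k - 40, -k^5 - 12*k^4 - 56*k^3 - 128*k^2 - 143*k - 60, 2*k^5 + 18*k^4 + 65*k^3 + 118*k^2 + 107*k + 40, 2*k^5 + 20*k^4 + 82*k^3 + 174*k^2 + 192*k + 90, k^4 + 8*k^3 + 26*k^2 + 40*k + 24] := by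
    simp only [Lp]; exact l6 (by ring) (by ring) (by ring) (by ring) (by ring) (by ring)
  have h15 : Lp 2 (k + 2) [-k^2 - 4*k - 5, -k^5 - 11*k^4 - 47*k^3 - 99*k^2 - 102*k - 40, -k^5 - 12*k^4 - 56*k^3 - 128*k^2 - 143*k - 60, 2*k^5 + 18*k^4 + 65*k^3 + 118*k^2 + 107*k + 40, 2*k^5 + 20*k^4 + 82*k^3 + 174*k^2 + 192*k + 90, k^4 + 8*k^3 + 26*k^2 + 40*k + 24] =
      [-k^2 - 4*k - 5, -k^5 - 11*k^4 - 47*k^3 - 99*k^2 - 102*k - 40, -3*k^6 - 37*k^5 - 193*k^4 - 544*k^3 - 870*k^2 - 743*k - 260, -3*k^6 - 34*k^5 - 163*k^4 - 423*k^3 - 624*k^2 - 493*k - 160, 2*k^5 + 20*k^4 + 82*k^3 + 174*k^2 + 192*k + 90, k^4 + 8*k^3 + 26*k^2 + 40*k + 24] := by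
    simp only [Lp]; exact l6 (by ring) (by ring) (by ring) (by ring) (by ring) (by ring)
  have h16 : Lp 0 (1) [-k^2 - 4*k - 5, -k^5 - 11*k^4 - 47*k^3 - 99*k^2 - 102*k - 40, -3*k^6 - 37*k^5 - 193*k^4 - 544*k^3 - 870*k^2 - 743*k - 260, -3*k^6 - 34*k^5 - 163*k^4 - 423*k^3 - 624*k^2 - 493*k - 160, 2*k^5 + 20*k^4 + 82*k^3 + 174*k^2 + 192*k + 90, k^4 + 8*k^3 + 26*k^2 + 40*k + 24] =
      [k^5 + 11*k^4 + 47*k^3 + 97*k^2 + 94*k + 30, -k^2 - 4*k - 5, -3*k^6 - 37*k^5 - 193*k^4 - 544*k^3 - 870*k^2 - 743*k - 260, -3*k^6 - 34*k^5 - 163*k^4 - 423*k^3 - 624*k^2 - 493*k - 160, 2*k^5 + 20*k^4 + 82*k^3 + 174*k^2 + 192*k + 90, k^4 + 8*k^3 + 26*k^2 + 40*k + 24] := by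
    simp only [Lp]; exact l6 (by ring) (by ring) (by ring) (by ring) (by ring) (by ring)
  have h17 : Lp 1 (1) [k^5 + 11*k^4 + 47*k^3 + 97*k^2 + 94*k + 30, -k^2 - 4*k - 5, -3*k^6 - 37*k^5 - 193*k^4 - 544*k^3 - 870*k^2 - 743*k - 260, -3*k^6 - 34*k^5 - 163*k^4 - 423*k^3 - 624*k^2 - 493*k - 160, 2*k^5 + 20*k^4 + 82*k^3 + 174*k^2 + 192*k + 90, k^4 + 8*k^3 + 26*k^2 + 40*k + 24] =
      [k^5 + 11*k^4 + 47*k^3 + 97*k^2 + 94*k + 30, 3*k^6 + 37*k^5 + 193*k^4 + 544*k^3 + 868*k^2 + 735*k + 250, -k^2 - 4*k - 5, -3*k^6 - 34*k^5 - 163*k^4 - 423*k^3 - 624*k^2 - 493*k - 160, 2*k^5 + 20*k^4 + 82*k^3 + 174*k^2 + 192*k + 90, k^4 + 8*k^3 + 26*k^2 + 40*k + 24] := by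
    simp only [Lp]; exact l6 (by ring) (by ring) (by ring) (by ring) (by ring) (by ring)
  have h18 : Lp 3 (-1) [k^5 + 11*k^4 + 47*k^3 + 97*k^2 + 94*k + 30, 3*k^6 + 37*k^5 + 193*k^4 + 544*k^3 + 868*k^2 + 735*k + 250, -k^2 - 4*k - 5, -3*k^6 - 34*k^5 - 163*k^4 - 423*k^3 - 624*k^2 - 493*k - 160, 2*k^5 + 20*k^4 + 82*k^3 + 174*k^2 + 192*k + 90, k^4 + 8*k^3 + 26*k^2 + 40*k + 24] =
      [k^5 + 11*k^4 + 47*k^3 + 97*k^2 + 94*k + 30, 3*k^6 + 37*k^5 + 193*k^4 + 544*k^3 + 868*k^2 + 735*k + 250, -k^2 - 4*k - 5, 2*k^5 + 20*k^4 + 82*k^3 + 174*k^2 + 192*k + 90, 3*k^6 + 38*k^5 + 203*k^4 + 587*k^3 + 972*k^2 + 877*k + 340, k^4 + 8*k^3 + 26*k^2 + 40*k + 24] := by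
    simp only [Lp]; exact l6 (by ring) (by ring) (by ring) (by ring) (by ring) (by ring)
  have h19 : Lp 2 (1) [k^5 + 11*k^4 + 47*k^3 + 97*k^2 + 94*k + 30, 3*k^6 + 37*k^5 + 193*k^4 + 544*k^3 + 868*k^2 + 735*k + 250, -k^2 - 4*k - 5, 2*k^5 + 20*k^4 + 82*k^3 + 174*k^2 + 192*k + 90, 3*k^6 + 38*k^5 + 203*k^4 + 587*k^3 + 972*k^2 + 877*k + 340, k^4 + 8*k^3 + 26*k^2 + 40*k + 24] =
      [k^5 + 11*k^4 + 47*k^3 + 97*k^2 + 94*k + 30, 3*k^6 + 37*k^5 + 193*k^4 + 544*k^3 + 868*k^2 + 735*k + 250, -2*k^5 - 20*k^4 - 82*k^3 - 176*k^2 - 200*k - 100, -k^2 - 4*k - 5, 3*k^6 + 38*k^5 + 203*k^4 + 587*k^3 + 972*k^2 + 877*k + 340, k^4 + 8*k^3 + 26*k^2 + 40*k + 24] := by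
    simp only [Lp]; exact l6 (by ring) (by ring) (by ring) (by ring) (by ring) (by ring)
  have h20 : Lp 2 (1) [k^5 + 11*k^4 + 47*k^3 + 97*k^2 + 94*k + 30, 3*k^6 + 37*k^5 + 193*k^4 + 544*k^3 + 868*k^2 + 735*k + 250, -2*k^5 - 20*k^4 - 82*k^3 - 176*k^2 - 200*k - 100, -k^2 - 4*k - 5, 3*k^6 + 38*k^5 + 203*k^4 + 587*k^3 + 972*k^2 + 877*k + 340, k^4 + 8*k^3 + 26*k^2 + 40*k + 24] =
      [k^5 + 11*k^4 + 47*k^3 + 97*k^2 + 94*k + 30, 3*k^6 + 37*k^5 + 193*k^4 + 544*k^3 + 868*k^2 + 735*k + 250, -4*k^5 - 40*k^4 - 164*k^3 - 351*k^2 - 396*k - 195, -2*k^5 - 20*k^4 - 82*k^3 - 176*k^2 - 200*k - 100, 3*k^6 + 38*k^5 + 203*k^4 + 587*k^3 + 972*k^2 + 877*k + 340, k^4 + 8*k^3 + 26*k^2 + 40*k + 24] := by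
    simp only [Lp]; exact l6 (by ring) (by ring) (by ring) (by ring) (by ring) (by ring)
  have h21 : Lp 1 (-k - 2) [k^5 + 11*k^4 + 47*k^3 + 97*k^2 + 94*k + 30, 3*k^6 + 37*k^5 + 193*k^4 + 544*k^3 + 868*k^2 + 735*k + 250, -4*k^5 - 40*k^4 - 164*k^3 - 351*k^2 - 396*k - 195, -2*k^5 - 20*k^4 - 82*k^3 - 176*k^2 - 200*k - 100, 3*k^6 + 38*k^5 + 203*k^4 + 587*k^3 + 972*k^2 + 877*k + 340, k^4 + 8*k^3 + 26*k^2 + 40*k + 24] =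
      [k^5 + 11*k^4 + 47*k^3 + 97*k^2 + 94*k + 30, -3*k^7 - 44*k^6 - 278*k^5 - 981*k^4 - 2091*k^3 - 2701*k^2 - 1972*k - 640, -3*k^7 - 47*k^6 - 319*k^5 - 1214*k^4 - 2799*k^3 - 3920*k^2 - 3103*k - 1085, -2*k^5 - 20*k^4 - 82*k^3 - 176*k^2 - 200*k - 100, 3*k^6 + 38*k^5 + 203*k^4 + 587*k^3 + 972*k^2 + 877*k + 340, k^4 + 8*k^3 + 26*k^2 + 40*k + 24] := by
    simp only [Lp]; exact l6 (by ring) (by ring) (by ring) (by ring) (by ring) (by ring)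
  have h22 : Lp 2 (k + 1) [k^5 + 11*k^4 + 47*k^3 + 97*k^2 + 94*k + 30, -3*k^7 - 44*k^6 - 278*k^5 - 981*k^4 - 2091*k^3 - 2701*k^2 - 1972*k - 640, -3*k^7 - 47*k^6 - 319*k^5 - 1214*k^4 - 2799*k^3 - 3920*k^2 - 3103*k - 1085, -2*k^5 - 20*k^4 - 82*k^3 - 176*k^2 - 200*k - 100, 3*k^6 + 38*k^5 + 203*k^4 + 587*k^3 + 972*k^2 + 877*k + 340, k^4 + 8*k^3 + 26*k^2 + 40*k + 24] =
      [k^5 + 11*k^4 + 47*k^3 + 97*k^2 + 94*k + 30, -3*k^7 - 44*k^6 - 278*k^5 - 981*k^4 - 2091*k^3 - 2701*k^2 - 1972*k - 640, -3*k^8 - 53*k^7 - 411*k^6 - 1830*k^5 - 5125*k^4 - 9260*k^3 - 10567*k^2 - 6991*k - 2070, -3*k^8 - 50*k^7 - 364*k^6 - 1513*k^5 - 3931*k^4 - 6543*k^3 - 6823*k^2 - 4088*k - 1085, 3*k^6 + 38*k^5 + 203*k^4 + 587*k^3 + 972*k^2 + 877*k + 340, k^4 + 8*k^3 + 26*k^2 + 40*k + 24] := by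
    simp only [Lp]; exact l6 (by ring) (by ring) (by ring) (by ring) (by ring) (by ring)
  have h23 : Lp 0 (k + 3) [k^5 + 11*k^4 + 47*k^3 + 97*k^2 + 94*k + 30, -3*k^7 - 44*k^6 - 278*k^5 - 981*k^4 - 2091*k^3 - 2701*k^2 - 1972*k - 640, -3*k^8 - 53*k^7 - 411*k^6 - 1830*k^5 - 5125*k^4 - 9260*k^3 - 10567*k^2 - 6991*k - 2070, -3*k^8 - 50*k^7 - 364*k^6 - 1513*k^5 - 3931*k^4 - 6543*k^3 - 6823*k^2 - 4088*k - 1085, 3*k^6 + 38*k^5 + 203*k^4 + 587*k^3 + 972*k^2 + 877*k + 340, k^4 + 8*k^3 + 26*k^2 + 40*k + 24] =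
      [3*k^8 + 53*k^7 + 411*k^6 + 1830*k^5 + 5125*k^4 + 9259*k^3 + 10557*k^2 + 6962*k + 2040, 3*k^8 + 50*k^7 + 367*k^6 + 1551*k^5 + 4133*k^4 + 7121*k^3 + 7759*k^2 + 4896*k + 1370, -3*k^8 - 53*k^7 - 411*k^6 - 1830*k^5 - 5125*k^4 - 9260*k^3 - 10567*k^2 - 6991*k - 2070, -3*k^8 - 50*k^7 - 364*k^6 - 1513*k^5 - 3931*k^4 - 6543*k^3 - 6823*k^2 - 4088*k - 1085, 3*k^6 + 38*k^5 + 203*k^4 + 587*k^3 + 972*k^2 + 877*k + 340, k^4 + 8*k^3 + 26*k^2 + 40*k + 24] := by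
    simp only [Lp]; exact l6 (by ring) (by ring) (by ring) (by ring) (by ring) (by ring)
  simp only [wys, run]
  rw [h0, h1, h2, h3, h4, h5, h6, h7, h8, h9, h10, h11, h12, h13, h14, h15, h16, h17, h18, h19, h20, h21, h22, h23]

theorem wys_5 (k : ℤ) : run (wys k) [0, 0, 0, 0, 0, 1] =
    [-3*k^6 - 41*k^5 - 234*k^4 - 715*k^3 - 1234*k^2 - 1139*k - 438, -3*k^6 - 38*k^5 - 202*k^4 - 577*k^3 - 934*k^2 - 812*k - 296, 3*k^6 + 41*k^5 + 234*k^4 + 715*k^3 + 1234*k^2 + 1140*k + 440, 3*k^6 + 38*k^5 + 199*k^4 + 551*k^3 + 849*k^2 + 688*k + 228, -3*k^4 - 26*k^3 - 86*k^2 - 129*k - 74, -k^2 - 4*k - 3] := by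
  have h0 : Lp 1 (-k - 3) [0, 0, 0, 0, 0, 1] =
      [0, 0, 0, 0, 0, 1] := by
    simp only [Lp]; exact l6 (by ring) (by ring) (by ring) (by ring) (by ring) (by ring)
  have h1 : Lp 3 (-k - 1) [0, 0, 0, 0, 0, 1] =
      [0, 0, 0, 0, 0, 1] := by
    simp only [Lp]; exact l6 (by ring) (by ring) (by ring) (by ring) (by ring) (by ring)
  have h2 : Lp 2 (k + 2) [0, 0, 0, 0, 0, 1] =
      [0, 0, 0, 0, 0, 1] := by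
    simp only [Lp]; exact l6 (by ring) (by ring) (by ring) (by ring) (by ring) (by ring)
  have h3 : Lp 3 (-1) [0, 0, 0, 0, 0, 1] =
      [0, 0, 0, 0, 0, 1] := by
    simp only [Lp]; exact l6 (by ring) (by ring) (by ring) (by ring) (by ring) (by ring)
  have h4 : Lp 3 (-1) [0, 0, 0, 0, 0, 1] =
      [0, 0, 0, 0, 0, 1] := by
    simp only [Lp]; exact l6 (by ring) (by ring) (by ring) (by ring) (by ring) (by ring)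
  have h5 : Lp 4 (1) [0, 0, 0, 0, 0, 1] =
      [0, 0, 0, 0, -1, 0] := by
    simp only [Lp]; exact l6 (by ring) (by ring) (by ring) (by ring) (by ring) (by ring)
  have h6 : Lp 2 (-1) [0, 0, 0, 0, -1, 0] =
      [0, 0, 0, 0, -1, 0] := by
    simp only [Lp]; exact l6 (by ring) (by ring) (by ring) (by ring) (by ring) (by ring)
  have h7 : Lp 1 (-1) [0, 0, 0, 0, -1, 0] =
      [0, 0, 0, 0, -1, 0] := by
    simp only [Lp]; exact l6 (by ring) (by ring) (by ring) (by ring) (by ring) (by ring)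
  have h8 : Lp 3 (-k - 2) [0, 0, 0, 0, -1, 0] =
      [0, 0, 0, -k - 2, -k - 3, 0] := by
    simp only [Lp]; exact l6 (by ring) (by ring) (by ring) (by ring) (by ring) (by ring)
  have h9 : Lp 4 (k + 1) [0, 0, 0, -k - 2, -k - 3, 0] =
      [0, 0, 0, -k - 2, -k^2 - 5*k - 6, -k^2 - 4*k - 3] := by
    simp only [Lp]; exact l6 (by ring) (by ring) (by ring) (by ring) (by ring) (by ring)
  have h10 : Lp 2 (k + 3) [0, 0, 0, -k - 2, -k^2 - 5*k - 6, -k^2 - 4*k - 3] =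
      [0, 0, k^2 + 5*k + 6, k^2 + 4*k + 4, -k^2 - 5*k - 6, -k^2 - 4*k - 3] := by
    simp only [Lp]; exact l6 (by ring) (by ring) (by ring) (by ring) (by ring) (by ring)
  have h11 : Lp 0 (1) [0, 0, k^2 + 5*k + 6, k^2 + 4*k + 4, -k^2 - 5*k - 6, -k^2 - 4*k - 3] =
      [0, 0, k^2 + 5*k + 6, k^2 + 4*k + 4, -k^2 - 5*k - 6, -k^2 - 4*k - 3] := by
    simp only [Lp]; exact l6 (by ring) (by ring) (by ring) (by ring) (by ring) (by ring)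
  have h12 : Lp 1 (1) [0, 0, k^2 + 5*k + 6, k^2 + 4*k + 4, -k^2 - 5*k - 6, -k^2 - 4*k - 3] =
      [0, -k^2 - 5*k - 6, 0, k^2 + 4*k + 4, -k^2 - 5*k - 6, -k^2 - 4*k - 3] := by
    simp only [Lp]; exact l6 (by ring) (by ring) (by ring) (by ring) (by ring) (by ring)
  have h13 : Lp 1 (-k - 3) [0, -k^2 - 5*k - 6, 0, k^2 + 4*k + 4, -k^2 - 5*k - 6, -k^2 - 4*k - 3] =
      [0, k^3 + 7*k^2 + 16*k + 12, k^3 + 8*k^2 + 21*k + 18, k^2 + 4*k + 4, -k^2 - 5*k - 6, -k^2 - 4*k - 3] := by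
    simp only [Lp]; exact l6 (by ring) (by ring) (by ring) (by ring) (by ring) (by ring)
  have h14 : Lp 3 (-k - 1) [0, k^3 + 7*k^2 + 16*k + 12, k^3 + 8*k^2 + 21*k + 18, k^2 + 4*k + 4, -k^2 - 5*k - 6, -k^2 - 4*k - 3] =
      [0, k^3 + 7*k^2 + 16*k + 12, k^3 + 8*k^2 + 21*k + 18, -2*k^3 - 10*k^2 - 15*k - 6, -2*k^3 - 12*k^2 - 24*k - 16, -k^2 - 4*k - 3] := by
    simp only [Lp]; exact l6 (by ring) (by ring) (by ring) (by ring) (by ring) (by ring)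
  have h15 : Lp 2 (k + 2) [0, k^3 + 7*k^2 + 16*k + 12, k^3 + 8*k^2 + 21*k + 18, -2*k^3 - 10*k^2 - 15*k - 6, -2*k^3 - 12*k^2 - 24*k - 16, -k^2 - 4*k - 3] =
      [0, k^3 + 7*k^2 + 16*k + 12, 3*k^4 + 25*k^3 + 80*k^2 + 117*k + 66, 3*k^4 + 22*k^3 + 62*k^2 + 81*k + 42, -2*k^3 - 12*k^2 - 24*k - 16, -k^2 - 4*k - 3] := by
    simp only [Lp]; exact l6 (by ring) (by ring) (by ring) (by ring) (by ring) (by ring)
  have h16 : Lp 0 (1) [0, k^3 + 7*k^2 + 16*k + 12, 3*k^4 + 25*k^3 + 80*k^2 + 117*k + 66, 3*k^4 + 22*k^3 + 62*k^2 + 81*k + 42, -2*k^3 - 12*k^2 - 24*k - 16, -k^2 - 4*k - 3] =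
      [-k^3 - 7*k^2 - 16*k - 12, 0, 3*k^4 + 25*k^3 + 80*k^2 + 117*k + 66, 3*k^4 + 22*k^3 + 62*k^2 + 81*k + 42, -2*k^3 - 12*k^2 - 24*k - 16, -k^2 - 4*k - 3] := by
    simp only [Lp]; exact l6 (by ring) (by ring) (by ring) (by ring) (by ring) (by ring)
  have h17 : Lp 1 (1) [-k^3 - 7*k^2 - 16*k - 12, 0, 3*k^4 + 25*k^3 + 80*k^2 + 117*k + 66, 3*k^4 + 22*k^3 + 62*k^2 + 81*k + 42, -2*k^3 - 12*k^2 - 24*k - 16, -k^2 - 4*k - 3] =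
      [-k^3 - 7*k^2 - 16*k - 12, -3*k^4 - 25*k^3 - 80*k^2 - 117*k - 66, 0, 3*k^4 + 22*k^3 + 62*k^2 + 81*k + 42, -2*k^3 - 12*k^2 - 24*k - 16, -k^2 - 4*k - 3] := by
    simp only [Lp]; exact l6 (by ring) (by ring) (by ring) (by ring) (by ring) (by ring)
  have h18 : Lp 3 (-1) [-k^3 - 7*k^2 - 16*k - 12, -3*k^4 - 25*k^3 - 80*k^2 - 117*k - 66, 0, 3*k^4 + 22*k^3 + 62*k^2 + 81*k + 42, -2*k^3 - 12*k^2 - 24*k - 16, -k^2 - 4*k - 3] =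
      [-k^3 - 7*k^2 - 16*k - 12, -3*k^4 - 25*k^3 - 80*k^2 - 117*k - 66, 0, -2*k^3 - 12*k^2 - 24*k - 16, -3*k^4 - 26*k^3 - 86*k^2 - 129*k - 74, -k^2 - 4*k - 3] := by
    simp only [Lp]; exact l6 (by ring) (by ring) (by ring) (by ring) (by ring) (by ring)
  have h19 : Lp 2 (1) [-k^3 - 7*k^2 - 16*k - 12, -3*k^4 - 25*k^3 - 80*k^2 - 117*k - 66, 0, -2*k^3 - 12*k^2 - 24*k - 16, -3*k^4 - 26*k^3 - 86*k^2 - 129*k - 74, -k^2 - 4*k - 3] =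
      [-k^3 - 7*k^2 - 16*k - 12, -3*k^4 - 25*k^3 - 80*k^2 - 117*k - 66, 2*k^3 + 12*k^2 + 24*k + 16, 0, -3*k^4 - 26*k^3 - 86*k^2 - 129*k - 74, -k^2 - 4*k - 3] := by
    simp only [Lp]; exact l6 (by ring) (by ring) (by ring) (by ring) (by ring) (by ring)
  have h20 : Lp 2 (1) [-k^3 - 7*k^2 - 16*k - 12, -3*k^4 - 25*k^3 - 80*k^2 - 117*k - 66, 2*k^3 + 12*k^2 + 24*k + 16, 0, -3*k^4 - 26*k^3 - 86*k^2 - 129*k - 74, -k^2 - 4*k - 3] =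
      [-k^3 - 7*k^2 - 16*k - 12, -3*k^4 - 25*k^3 - 80*k^2 - 117*k - 66, 4*k^3 + 24*k^2 + 48*k + 32, 2*k^3 + 12*k^2 + 24*k + 16, -3*k^4 - 26*k^3 - 86*k^2 - 129*k - 74, -k^2 - 4*k - 3] := by
    simp only [Lp]; exact l6 (by ring) (by ring) (by ring) (by ring) (by ring) (by ring)
  have h21 : Lp 1 (-k - 2) [-k^3 - 7*k^2 - 16*k - 12, -3*k^4 - 25*k^3 - 80*k^2 - 117*k - 66, 4*k^3 + 24*k^2 + 48*k + 32, 2*k^3 + 12*k^2 + 24*k + 16, -3*k^4 - 26*k^3 - 86*k^2 - 129*k - 74, -k^2 - 4*k - 3] =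
      [-k^3 - 7*k^2 - 16*k - 12, 3*k^5 + 32*k^4 + 137*k^3 + 293*k^2 + 311*k + 130, 3*k^5 + 35*k^4 + 166*k^3 + 397*k^2 + 476*k + 228, 2*k^3 + 12*k^2 + 24*k + 16, -3*k^4 - 26*k^3 - 86*k^2 - 129*k - 74, -k^2 - 4*k - 3] := by
    simp only [Lp]; exact l6 (by ring) (by ring) (by ring) (by ring) (by ring) (by ring)
  have h22 : Lp 2 (k + 1) [-k^3 - 7*k^2 - 16*k - 12, 3*k^5 + 32*k^4 + 137*k^3 + 293*k^2 + 311*k + 130, 3*k^5 + 35*k^4 + 166*k^3 + 397*k^2 + 476*k + 228, 2*k^3 + 12*k^2 + 24*k + 16, -3*k^4 - 26*k^3 - 86*k^2 - 129*k - 74, -k^2 - 4*k - 3] =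
      [-k^3 - 7*k^2 - 16*k - 12, 3*k^5 + 32*k^4 + 137*k^3 + 293*k^2 + 311*k + 130, 3*k^6 + 41*k^5 + 234*k^4 + 715*k^3 + 1234*k^2 + 1140*k + 440, 3*k^6 + 38*k^5 + 199*k^4 + 551*k^3 + 849*k^2 + 688*k + 228, -3*k^4 - 26*k^3 - 86*k^2 - 129*k - 74, -k^2 - 4*k - 3] := by
    simp only [Lp]; exact l6 (by ring) (by ring) (by ring) (by ring) (by ring) (by ring)
  have h23 : Lp 0 (k + 3) [-k^3 - 7*k^2 - 16*k - 12, 3*k^5 + 32*k^4 + 137*k^3 + 293*k^2 + 311*k + 130, 3*k^6 + 41*k^5 + 234*k^4 + 715*k^3 + 1234*k^2 + 1140*k + 440, 3*k^6 + 38*k^5 + 199*k^4 + 551*k^3 + 849*k^2 + 688*k + 228, -3*k^4 - 26*k^3 - 86*k^2 - 129*k - 74, -k^2 - 4*k - 3] =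
      [-3*k^6 - 41*k^5 - 234*k^4 - 715*k^3 - 1234*k^2 - 1139*k - 438, -3*k^6 - 38*k^5 - 202*k^4 - 577*k^3 - 934*k^2 - 812*k - 296, 3*k^6 + 41*k^5 + 234*k^4 + 715*k^3 + 1234*k^2 + 1140*k + 440, 3*k^6 + 38*k^5 + 199*k^4 + 551*k^3 + 849*k^2 + 688*k + 228, -3*k^4 - 26*k^3 - 86*k^2 - 129*k - 74, -k^2 - 4*k - 3] := by
    simp only [Lp]; exact l6 (by ring) (by ring) (by ring) (by ring) (by ring) (by ring)
  simp only [wys, run]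
  rw [h0, h1, h2, h3, h4, h5, h6, h7, h8, h9, h10, h11, h12, h13, h14, h15, h16, h17, h18, h19, h20, h21, h22, h23]


end Pool.Agent.H22.SBE
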