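import Pool.Agent.H22.SBE.Conj
import Pool.Agent.H22.SBE.Words2

/-!
# Infinitely many conjugacy classes of special braids that need `n` strands
-/

set_option autoImplicit false

namespace Pool.Agent.H22.SBE

open Pool.Agent.K7.H32.SB

/-- the statement for one cell -/
def Good (n : ℕ) (e : ℤ) : Prop := ∃ f : ℕ → Binf, (∀ k, f k ∈ NewOf n e) ∧
  ∀ k l : ℕ, k ≠ l → ¬ IsConj (f k) (f l)

/-! ### Braids outside `B_{n-1}` -/

theorem ex_up {n : ℕ} (hn : 2 ≤ n) {e : ℤ} {x : Binf} (h : x ∈ NewOf n e) :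
    op 1 x ∈ NewOf (n + 1) (e + 1) := by
  obtain ⟨⟨h1, h2, h3⟩, h4⟩ := h
  refine ⟨⟨Special.op Special.one h1, ?_, ?_⟩, ?_⟩
  · rw [one_op_eq]
    exact mul_mem (sh_mem h2) (s_mem (by omega))
  · rw [expSum_op, h3]
  · intro h5
    rw [one_op_eq] at h5
    have h6 : sh x ∈ B n := by
      have := mul_mem h5 (inv_mem (s_mem (i := 0) (n := n + 1 - 1) (by omega)))
      rwa [mul_inv_cancel_right] at this
    exact h4 (unsh_mem (by omega) h6)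

theorem ex_tau {n k : ℕ} (hk : k + 1 ≤ n) {x : Binf} (h2 : x ∈ B n) (h4 : x ∉ B (n - 1)) :
    x * tau k * (sh x)⁻¹ ∉ B n := by
  intro h5
  apply h4
  refine unsh_mem (by omega) ?_
  have h6 : sh x = (x * tau k * (sh x)⁻¹)⁻¹ * (x * tau k) := by group
  rw [h6]
  exact mul_mem (inv_mem h5) (mul_mem h2 (B_mono hk (tau_mem k)))

theorem ex_one {n : ℕ} (hn : 2 ≤ n) {e : ℤ} {x : Binf} (h : x ∈ NewOf n e) :
    op x 1 ∈ NewOf (n + 1) 1 := by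
  obtain ⟨⟨h1, h2, h3⟩, h4⟩ := h
  refine ⟨⟨Special.op h1 Special.one, ?_, ?_⟩, ?_⟩
  · rw [op_one_eq]
    exact mul_mem (mul_mem (B_mono (by omega) h2) (B_mono (by omega) (tau_mem 1)))
      (inv_mem (sh_mem h2))
  · rw [expSum_op, expSum_one]; norm_num
  · rw [op_one_eq]
    exact ex_tau (by omega) h2 h4

theorem ex_s0 {n : ℕ} (hn : 3 ≤ n) {e : ℤ} {x : Binf} (h : x ∈ NewOf n e) :
    op x (s 0) ∈ NewOf (n + 1) 2 := by
  obtain ⟨⟨h1, h2, h3⟩, h4⟩ := h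
  refine ⟨⟨Special.op h1 special_s0, ?_, ?_⟩, ?_⟩
  · rw [op_s0_eq]
    exact mul_mem (mul_mem (B_mono (by omega) h2) (B_mono (by omega) (tau_mem 2)))
      (inv_mem (sh_mem h2))
  · rw [expSum_op, expSum_s]; norm_num
  · rw [op_s0_eq]
    exact ex_tau (by omega) h2 h4

theorem y_new (k : ℕ) : y k ∈ NewOf 5 3 := by
  refine ⟨y_of k, fun h => ?_⟩
  have h1 := (InG_Phi h).1 v3 4 le_rfl
  rw [Phi_y3] at h1
  have e4 : v3 4 = 0 := rfl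
  rw [e4] at h1
  have : (0 : ℤ) < ((k : ℤ) + 2) * (k + 4) := by positivity
  omega

theorem z_new (k : ℕ) : z k ∈ NewOf 5 2 := by
  refine ⟨z_of k, fun h => ?_⟩
  have h1 := (InG_Phi h).1 (ev 1) 4 le_rfl
  rw [e51, Phi_z_vec _ _ rfl, wz_1] at h1
  simp only [vec, List.getD_cons_zero, List.getD_cons_succ] at h1
  have : (0 : ℤ) < (k : ℤ) ^ 2 + 5 * k + 6 := by positivity
  omega

theorem it_new {n : ℕ} (hn : 2 ≤ n) {e : ℤ} {x : Binf} (h : x ∈ NewOf n e) (m : ℕ) :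
    it m x ∈ NewOf (n + m) (e + m) := by
  induction m with
  | zero => simpa [it] using h
  | succ m ih =>
    rw [it_succ]
    have h1 := ex_up (by omega) ih
    have e1 : e + ((m + 1 : ℕ) : ℤ) = e + m + 1 := by push_cast; ring
    rw [e1]
    exact h1

/-! ### Shifting a family -/

theorem shift_fam {N : ℕ} (hN : 1 ≤ N) {e : ℤ} {f : ℕ → Binf} (hf : ∀ k, f k ∈ NewOf (N + 1) e)
    (h1 : ∀ k l : ℕ, k < l → tr (N + 1) (f k) < tr (N + 1) (f l))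
    (h2 : ∀ k l : ℕ, k < l → tr (N + 1) (f k) - Phi (f k) (ev 0) 0 <
      tr (N + 1) (f l) - Phi (f l) (ev 0) 0) (j : ℕ) : Good (N + 1 + j) (e + j) := by
  refine ⟨fun k => it j (f k), fun k => it_new (by omega) (hf k) j, ?_⟩
  apply not_conj (m := N + 1 + j) (fun k => (it_new (by omega) (hf k) j).1.2.1)
  intro k l hkl
  cases j with
  | zero => exact h1 k l hkl
  | succ m =>
    have a := tr_it N m (f k)
    have b := tr_it N m (f l)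
    rw [show N + 1 + (m + 1) = N + 2 + m by ring, a, b]
    have := h2 k l hkl
    linarith

/-! ### The families `(1 ∧ (⋯ (1 ∧ y_k))) ∧ 1` -/

/-- the element `sh(x)⁻¹ x` -/
def Uf (x : Binf) : Binf := (sh x)⁻¹ * x

theorem Uf_op (x : Binf) : Uf (op 1 x) = (s 1)⁻¹ * sh (Uf x) * s 0 := by
  rw [Uf, Uf, one_op_eq]
  simp only [map_mul, map_inv, mul_inv_rev, sh_s]
  group

theorem Phi_sh_cons (U : Binf) (a : ℤ) (v : V) : Phi (sh U) (cons a v) = cons a (Phi U v) := by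
  rw [Phi_sh, shE_apply]; rfl

theorem Phi_s1_inv (v : V) (j : ℕ) : Phi (s 1)⁻¹ v j =
    if j = 1 then v 2 else if j = 2 then 2 * v 2 - v 1 else v j := by
  rw [map_inv, Phi_s, S_inv_apply]; rfl

theorem Phi_smul_ev (U : Binf) (c : ℤ) (i : ℕ) :
    Phi U (fun i => c * ev 0 i) i = c * Phi U (ev 0) i := by
  rw [(Lin_Phi U).2]

theorem S0_sq_zero : S 0 (S 0 (ev 0)) = cons 3 (fun i => 2 * ev 0 i) := by
  rw [S0_ev_zero]
  funext i
  rw [S_apply]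
  rcases i with _ | _ | i <;> simp [fw, ev]

theorem S0_sq_one : S 0 (S 0 (ev 1)) = cons (-2) (fun i => (-1) * ev 0 i) := by
  rw [S0_ev_one]
  funext i
  rw [S_apply]
  rcases i with _ | _ | i <;> simp [fw, ev]

theorem S0_sq (j : ℕ) : S 0 (S 0 (ev (j + 2))) = cons 0 (ev (j + 1)) := by
  calc S 0 (S 0 (ev (j + 2))) = S 0 (cons 0 (ev (j + 1))) := by rw [S0_ev]
    _ = S 0 (ev (j + 2)) := by rw [← ev_succ]
    _ = cons 0 (ev (j + 1)) := S0_ev j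

/-- `σ_2⁻¹ sh(U) σ_1 σ_1` -/
theorem tr_G (N : ℕ) (U : Binf) : tr (N + 3) ((s 1)⁻¹ * sh U * s 0 * s 0) =
    tr (N + 2) U - Phi U (ev 0) 0 - Phi U (ev 1) 0 - Phi U (ev 0) 1 + Phi U (ev 1) 1 + 2 := by
  have key : ∀ v : V, Phi ((s 1)⁻¹ * sh U * s 0 * s 0) v =
      Phi (s 1)⁻¹ (Phi (sh U) (S 0 (S 0 v))) := by
    intro v
    simp only [map_mul, Phi_s, Equiv.Perm.mul_apply]
  rw [tr, Finset.sum_range_succ', Finset.sum_range_succ', Finset.sum_range_succ', tr,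
    Finset.sum_range_succ', Finset.sum_range_succ']
  have h3 : ∀ j : ℕ, Phi ((s 1)⁻¹ * sh U * s 0 * s 0) (ev (j + 1 + 1 + 1)) (j + 1 + 1 + 1) =
      Phi U (ev (j + 1 + 1)) (j + 1 + 1) := by
    intro j
    rw [key, S0_sq, Phi_sh_cons, Phi_s1_inv, if_neg (by omega), if_neg (by omega)]
    rfl
  have h0 : Phi ((s 1)⁻¹ * sh U * s 0 * s 0) (ev 0) 0 = 3 := by
    rw [key, S0_sq_zero, Phi_sh_cons, Phi_s1_inv, if_neg (by omega), if_neg (by omega)]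
    rfl
  have h1 : Phi ((s 1)⁻¹ * sh U * s 0 * s 0) (ev 1) 1 = - Phi U (ev 0) 1 := by
    rw [key, S0_sq_one, Phi_sh_cons, Phi_s1_inv, if_pos rfl, cons_succ, Phi_smul_ev]
    ring
  have h2 : Phi ((s 1)⁻¹ * sh U * s 0 * s 0) (ev 2) 2 =
      2 * Phi U (ev 1) 1 - Phi U (ev 1) 0 := by
    rw [key, S0_sq 0, Phi_sh_cons, Phi_s1_inv, if_neg (by omega), if_pos rfl, cons_succ,
      cons_succ]
  simp only [h3, zero_add, Nat.reduceAdd, h0, h1, h2]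
  ring

/-- `σ_2⁻¹ sh(U) σ_1` -/
theorem tr_U (N : ℕ) (U : Binf) : tr (N + 3) ((s 1)⁻¹ * sh U * s 0) =
      tr (N + 2) U - Phi U (ev 0) 0 - Phi U (ev 1) 0 + Phi U (ev 1) 1 + 1 ∧
    Phi ((s 1)⁻¹ * sh U * s 0) (ev 0) 0 = 2 ∧
    Phi ((s 1)⁻¹ * sh U * s 0) (ev 0) 1 = Phi U (ev 0) 1 ∧
    Phi ((s 1)⁻¹ * sh U * s 0) (ev 1) 0 = -1 ∧
    Phi ((s 1)⁻¹ * sh U * s 0) (ev 1) 1 = 0 := by
  have key : ∀ v : V, Phi ((s 1)⁻¹ * sh U * s 0) v =
      Phi (s 1)⁻¹ (Phi (sh U) (S 0 v)) := by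
    intro v
    simp only [map_mul, Phi_s, Equiv.Perm.mul_apply]
  have h3 : ∀ j : ℕ, Phi ((s 1)⁻¹ * sh U * s 0) (ev (j + 1 + 1 + 1)) (j + 1 + 1 + 1) =
      Phi U (ev (j + 1 + 1)) (j + 1 + 1) := by
    intro j
    rw [key, S0_ev, Phi_sh_cons, Phi_s1_inv, if_neg (by omega), if_neg (by omega)]
    rfl
  have h0 : Phi ((s 1)⁻¹ * sh U * s 0) (ev 0) 0 = 2 := by
    rw [key, S0_ev_zero, Phi_sh_cons, Phi_s1_inv, if_neg (by omega), if_neg (by omega)]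
    rfl
  have h01 : Phi ((s 1)⁻¹ * sh U * s 0) (ev 0) 1 = Phi U (ev 0) 1 := by
    rw [key, S0_ev_zero, Phi_sh_cons, Phi_s1_inv, if_pos rfl, cons_succ]
  have h10 : Phi ((s 1)⁻¹ * sh U * s 0) (ev 1) 0 = -1 := by
    rw [key, S0_ev_one, Phi_sh_cons, Phi_s1_inv, if_neg (by omega), if_neg (by omega)]
    rfl
  have h1 : Phi ((s 1)⁻¹ * sh U * s 0) (ev 1) 1 = 0 := by
    rw [key, S0_ev_one, Phi_sh_cons, Phi_s1_inv, if_pos rfl, cons_succ, Phi_zero]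
  have h2 : Phi ((s 1)⁻¹ * sh U * s 0) (ev 2) 2 =
      2 * Phi U (ev 1) 1 - Phi U (ev 1) 0 := by
    rw [key, S0_ev 0, Phi_sh_cons, Phi_s1_inv, if_neg (by omega), if_pos rfl, cons_succ,
      cons_succ]
  refine ⟨?_, h0, h01, h10, h1⟩
  rw [tr, Finset.sum_range_succ', Finset.sum_range_succ', Finset.sum_range_succ', tr,
    Finset.sum_range_succ', Finset.sum_range_succ']
  simp only [h3, zero_add, Nat.reduceAdd, h0, h1, h2]
  ring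

/-- the invariant quantity -/
def Rf (N : ℕ) (U : Binf) : ℤ :=
  tr N U - Phi U (ev 0) 0 - Phi U (ev 1) 0 - Phi U (ev 0) 1 + Phi U (ev 1) 1 + 2

theorem Rf_it (x : Binf) (N m : ℕ) : Rf (N + 2 + m) (Uf (it m x)) = Rf (N + 2) (Uf x) := by
  induction m with
  | zero => rfl
  | succ m ih =>
    rw [← ih, it_succ, Uf_op]
    obtain ⟨a1, a2, a3, a4, a5⟩ := tr_U (N + m) (Uf (it m x))
    rw [show N + 2 + (m + 1) = N + m + 3 by ring, show N + 2 + m = N + m + 2 by ring]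
    rw [Rf, Rf, a1, a2, a3, a4, a5]
    ring

theorem tr_w {n : ℕ} {x : Binf} (hx : x ∈ B (n + 1)) :
    tr (n + 3) (op (op 1 x) 1) = Rf (n + 2) (Uf x) := by
  have hy : op 1 x ∈ B (n + 2) := by
    rw [one_op_eq]; exact mul_mem (sh_mem hx) (s_mem (by omega))
  have hc : (sh (op 1 x))⁻¹ ∈ B (n + 3) := inv_mem (sh_mem hy)
  have hw : op (op 1 x) 1 ∈ B (n + 3) := by
    rw [op_one_eq]
    exact mul_mem (mul_mem (B_mono (by omega) hy) (B_mono (by omega) (tau_mem 1))) hc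
  rw [← tr_conj hc hw]
  have e : (sh (op 1 x))⁻¹ * op (op 1 x) 1 * ((sh (op 1 x))⁻¹)⁻¹ =
      (s 1)⁻¹ * sh (Uf x) * s 0 * s 0 := by
    rw [← Uf_op, op_one_eq, Uf]
    simp only [tau, mul_one]
    group
  rw [e, tr_G]
  rfl

theorem C_w (x : Binf) : Phi (op (op 1 x) 1) (ev 0) 0 = 3 := by
  have h1 : Phi (sh (op 1 x))⁻¹ (ev 0) = ev 0 := by
    rw [map_inv, Equiv.Perm.inv_eq_iff_eq, ev_zero, Phi_sh_cons, Phi_zero]
  rw [op_one_eq, map_mul, map_mul, Equiv.Perm.mul_apply, h1, Equiv.Perm.mul_apply]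
  simp only [tau, mul_one]
  rw [Phi_s, Phi_op, S0_sq_zero, shE_apply]
  rfl

/-! ### Values -/

theorem wu_eq (k : ℤ) : wu k = ivw (shw (wy k)) ++ wy k := by
  simp [wu, wy, ivw, shw]
  ring_nf
  simp

theorem wrd_wu (k : ℕ) : wrd (wu k) = Uf (y k) := by
  rw [wu_eq, wrd_append, wrd_ivw, wrd_shw, wrd_wy, Uf]

theorem wys_eq (k : ℤ) : wys k = wy k ++ ([(1, 1), (0, 1)] ++ ivw (shw (wy k))) := by
  simp [wys, wy, ivw, shw]
  ring_nf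
  simp

theorem wrd_wys (k : ℕ) : wrd (wys k) = op (y k) (s 0) := by
  rw [wys_eq, wrd_append, wrd_append, wrd_ivw, wrd_shw, wrd_wy, op_s0_eq]
  simp only [wrd, tau, mul_one, zpow_one, mul_assoc]

theorem Phi_u_vec (k : ℕ) (l : List ℤ) (h : l.length = 6) :
    Phi (Uf (y k)) (vec l) = vec (run (wu k) l) := by
  rw [← wrd_wu]; apply Phi_wrd
  rw [h]; simp [wu]

theorem Phi_ys_vec (k : ℕ) (l : List ℤ) (h : l.length = 6) :
    Phi (op (y k) (s 0)) (vec l) = vec (run (wys k) l) := by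
  rw [← wrd_wys]; apply Phi_wrd
  rw [h]; simp [wys]

theorem Rf_y (k : ℕ) : Rf 6 (Uf (y k)) =
    9 * (k : ℤ) ^ 8 + 162 * (k : ℤ) ^ 7 + 1284 * (k : ℤ) ^ 6 + 5853 * (k : ℤ) ^ 5 +
      16795 * (k : ℤ) ^ 4 + 31105 * (k : ℤ) ^ 3 + 36378 * (k : ℤ) ^ 2 + 24624 * k + 7410 := by
  simp only [Rf, tr, Finset.sum_range_succ, Finset.sum_range_zero]
  rw [e60, e61, e62, e63, e64, e65, Phi_u_vec _ _ rfl, Phi_u_vec _ _ rfl, Phi_u_vec _ _ rfl,
    Phi_u_vec _ _ rfl, Phi_u_vec _ _ rfl, Phi_u_vec _ _ rfl, wu_0, wu_1, wu_2, wu_3, wu_4, wu_5]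
  simp only [vec, List.getD_cons_zero, List.getD_cons_succ]
  ring

theorem tr_ys (k : ℕ) : tr 6 (op (y k) (s 0)) =
    9 * (k : ℤ) ^ 8 + 159 * (k : ℤ) ^ 7 + 1230 * (k : ℤ) ^ 6 + 5446 * (k : ℤ) ^ 5 +
      15119 * (k : ℤ) ^ 4 + 27013 * (k : ℤ) ^ 3 + 30431 * (k : ℤ) ^ 2 + 19844 * k + 5764 := by
  simp only [tr, Finset.sum_range_succ, Finset.sum_range_zero]
  rw [e60, e61, e62, e63, e64, e65, Phi_ys_vec _ _ rfl, Phi_ys_vec _ _ rfl, Phi_ys_vec _ _ rfl,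
    Phi_ys_vec _ _ rfl, Phi_ys_vec _ _ rfl, Phi_ys_vec _ _ rfl, wys_0, wys_1, wys_2, wys_3,
    wys_4, wys_5]
  simp only [vec, List.getD_cons_zero, List.getD_cons_succ]
  ring

theorem ys_00 (k : ℕ) : Phi (op (y k) (s 0)) (ev 0) 0 =
    (k : ℤ) ^ 4 + 9 * (k : ℤ) ^ 3 + 28 * (k : ℤ) ^ 2 + 34 * k + 14 := by
  rw [e60, Phi_ys_vec _ _ rfl, wys_0]
  simp only [vec, List.getD_cons_zero]

theorem yo_00 (k : ℕ) : Phi (op (y k) 1) (ev 0) 0 =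
    (k : ℤ) ^ 4 + 10 * (k : ℤ) ^ 3 + 35 * (k : ℤ) ^ 2 + 50 * k + 27 := by
  rw [e60, Phi_yo_vec _ _ rfl, wyo_0]
  simp only [vec, List.getD_cons_zero]

theorem z_00 (k : ℕ) : Phi (z k) (ev 0) 0 = - (k : ℤ) ^ 2 - 6 * k - 7 := by
  rw [e50, Phi_z_vec _ _ rfl, wz_0]
  simp only [vec, List.getD_cons_zero]

theorem pows {k l : ℕ} (h : k < l) : (k : ℤ) < l ∧ (k : ℤ) ^ 2 ≤ (l : ℤ) ^ 2 ∧
    (k : ℤ) ^ 3 ≤ (l : ℤ) ^ 3 ∧ (k : ℤ) ^ 4 ≤ (l : ℤ) ^ 4 ∧ (k : ℤ) ^ 5 ≤ (l : ℤ) ^ 5 ∧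
    (k : ℤ) ^ 6 ≤ (l : ℤ) ^ 6 ∧ (k : ℤ) ^ 7 ≤ (l : ℤ) ^ 7 ∧ (k : ℤ) ^ 8 ≤ (l : ℤ) ^ 8 := by
  have h1 : (k : ℤ) < l := by exact_mod_cast h
  have h0 : (0 : ℤ) ≤ k := by positivity
  refine ⟨h1, ?_, ?_, ?_, ?_, ?_, ?_, ?_⟩ <;> gcongr

theorem good2 (j : ℕ) : Good (5 + j) (3 + j) := by
  refine shift_fam (N := 4) (by norm_num) y_new conj_y (fun k l hkl => ?_) j
  obtain ⟨h1, h2, h3, h4, -⟩ := pows hkl
  rw [tr_y, tr_y, y_00, y_00]
  linarith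

theorem good3 (j : ℕ) : Good (5 + j) (2 + j) := by
  refine shift_fam (N := 4) (by norm_num) z_new conj_z (fun k l hkl => ?_) j
  obtain ⟨h1, h2, h3, h4, -⟩ := pows hkl
  rw [tr_z, tr_z, z_00, z_00]
  linarith

theorem good4 (j : ℕ) : Good (6 + j) (2 + j) := by
  refine shift_fam (N := 5) (by norm_num) (fun k => ex_s0 (by norm_num) (y_new k))
    (fun k l hkl => ?_) (fun k l hkl => ?_) j
  · obtain ⟨h1, h2, h3, h4, h5, h6, h7, h8⟩ := pows hkl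
    rw [tr_ys, tr_ys]
    linarith
  · obtain ⟨h1, h2, h3, h4, h5, h6, h7, h8⟩ := pows hkl
    rw [tr_ys, tr_ys, ys_00, ys_00]
    linarith

theorem good5 (j : ℕ) : Good (6 + j) (1 + j) := by
  refine shift_fam (N := 5) (by norm_num) (fun k => ex_one (by norm_num) (y_new k))
    conj_yo (fun k l hkl => ?_) j
  obtain ⟨h1, h2, h3, h4, h5, h6, h7, h8⟩ := pows hkl
  rw [tr_yo, tr_yo, yo_00, yo_00]
  linarith

theorem tr_wm (m k : ℕ) : tr (7 + m) (op (it (m + 1) (y k)) 1) = Rf 6 (Uf (y k)) := by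
  have hx : it m (y k) ∈ B (4 + m + 1) := by
    have := (it_new (by norm_num) (y_new k) m).1.2.1
    exact B_mono (by omega) this
  have h1 := tr_w hx
  have h2 := Rf_it (y k) 4 m
  rw [it_succ, show 7 + m = 4 + m + 3 by ring, h1, show 4 + m + 2 = 4 + 2 + m by ring, h2]

theorem good6 (m j : ℕ) : Good (7 + m + j) (1 + j) := by
  have hf : ∀ k, op (it (m + 1) (y k)) 1 ∈ NewOf (6 + m + 1) 1 := by
    intro k
    have h1 := it_new (by norm_num) (y_new k) (m + 1)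
    have h2 := ex_one (by omega) h1
    rw [show 5 + (m + 1) + 1 = 6 + m + 1 by ring] at h2
    exact h2
  have h1 : ∀ k, tr (6 + m + 1) (op (it (m + 1) (y k)) 1) = Rf 6 (Uf (y k)) := by
    intro k
    rw [show 6 + m + 1 = 7 + m by ring]
    exact tr_wm m k
  have h2 : ∀ k, Phi (op (it (m + 1) (y k)) 1) (ev 0) 0 = 3 := by
    intro k
    rw [it_succ]
    exact C_w _
  have h3 := shift_fam (N := 6 + m) (by omega) hf (fun k l hkl => ?_) (fun k l hkl => ?_) j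
  · rw [show 7 + m + j = 6 + m + 1 + j by ring]
    exact h3
  · rw [h1, h1, Rf_y, Rf_y]
    obtain ⟨h1, h2, h3, h4, h5, h6, h7, h8⟩ := pows hkl
    linarith
  · rw [h1, h1, h2, h2, Rf_y, Rf_y]
    obtain ⟨h1, h2, h3, h4, h5, h6, h7, h8⟩ := pows hkl
    linarith

/-- all the cells -/
theorem goodAll {n : ℕ} (hn : 5 ≤ n) {e : ℤ} (h1 : 1 ≤ e) (h2 : e + 2 ≤ n)
    (h3 : ¬ (n = 5 ∧ e = 1)) : Good n e := by
  by_cases c2 : (n : ℤ) = e + 2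
  · obtain ⟨j, rfl⟩ : ∃ j, n = 5 + j := ⟨n - 5, by omega⟩
    have : e = 3 + j := by push_cast at c2; linarith
    rw [this]; exact good2 j
  by_cases c3 : (n : ℤ) = e + 3
  · obtain ⟨j, rfl⟩ : ∃ j, n = 5 + j := ⟨n - 5, by omega⟩
    have : e = 2 + j := by push_cast at c3; linarith
    rw [this]; exact good3 j
  have hn6 : 6 ≤ n := by omega
  by_cases c4 : (n : ℤ) = e + 4
  · obtain ⟨j, rfl⟩ : ∃ j, n = 6 + j := ⟨n - 6, by omega⟩
    have : e = 2 + j := by push_cast at c4; linarith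
    rw [this]; exact good4 j
  by_cases c5 : (n : ℤ) = e + 5
  · obtain ⟨j, rfl⟩ : ∃ j, n = 6 + j := ⟨n - 6, by omega⟩
    have : e = 1 + j := by push_cast at c5; linarith
    rw [this]; exact good5 j
  obtain ⟨j, rfl⟩ : ∃ j : ℕ, e = 1 + j := ⟨(e - 1).toNat, by omega⟩
  obtain ⟨m, rfl⟩ : ∃ m, n = 7 + m + j := ⟨n - 7 - j, by omega⟩
  exact good6 m j

end Pool.Agent.H22.SBE
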