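import Pool.Agent.H22.SBE.Basic

/-!
# Explicit values of the action on the families of special braids (generated)
-/

set_option autoImplicit false

namespace Pool.Agent.H22.SBE

open Pool.Agent.K7.H32.SB

/-- the action of the `m`-th power of a generator on finite lists -/
def Lp : ℕ → ℤ → List ℤ → List ℤ
  | 0, m, x :: y :: l => (x + m * (x - y)) :: (y + m * (x - y)) :: l
  | i + 1, m, x :: l => x :: Lp i m l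
  | _, _, l => l

/-- the action of a word on finite lists -/
def run : List (ℕ × ℤ) → List ℤ → List ℤ
  | [], l => l
  | p :: w, l => Lp p.1 p.2 (run w l)

/-- the braid of a word -/
def wrd : List (ℕ × ℤ) → Binf
  | [] => 1
  | p :: w => s p.1 ^ p.2 * wrd w

/-- the sequence of a list -/
def vec (l : List ℤ) : V := fun i => l.getD i 0

theorem l5 {a b c d e a' b' c' d' e' : ℤ} (h1 : a = a') (h2 : b = b') (h3 : c = c') (h4 : d = d')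
    (h5 : e = e') : [a, b, c, d, e] = [a', b', c', d', e'] := by
  subst h1 h2 h3 h4 h5; rfl

theorem l6 {a b c d e f a' b' c' d' e' f' : ℤ} (h1 : a = a') (h2 : b = b') (h3 : c = c')
    (h4 : d = d') (h5 : e = e') (h6 : f = f') : [a, b, c, d, e, f] = [a', b', c', d', e', f'] := by
  subst h1 h2 h3 h4 h5 h6; rfl

def wz (k : ℤ) : List (ℕ × ℤ) :=
  [(0, k + 3), (2, k + 1), (1, -k - 2), (2, 1), (1, 1), (1, 1), (0, 1), (2, -1), (3, -1), (2, k + 2), (3, -k - 1), (1, -k - 3)]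

theorem wz_0 (k : ℤ) : run (wz k) [1, 0, 0, 0, 0] =
    [-k^2 - 6*k - 7, -k^2 - 5*k - 4, k^2 + 6*k + 10, k^2 + 5*k + 6, 0] := by
  have h0 : Lp 1 (-k - 3) [1, 0, 0, 0, 0] =
      [1, 0, 0, 0, 0] := by
    simp only [Lp]; exact l5 (by ring) (by ring) (by ring) (by ring) (by ring)
  have h1 : Lp 3 (-k - 1) [1, 0, 0, 0, 0] =
      [1, 0, 0, 0, 0] := by
    simp only [Lp]; exact l5 (by ring) (by ring) (by ring) (by ring) (by ring)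
  have h2 : Lp 2 (k + 2) [1, 0, 0, 0, 0] =
      [1, 0, 0, 0, 0] := by
    simp only [Lp]; exact l5 (by ring) (by ring) (by ring) (by ring) (by ring)
  have h3 : Lp 3 (-1) [1, 0, 0, 0, 0] =
      [1, 0, 0, 0, 0] := by
    simp only [Lp]; exact l5 (by ring) (by ring) (by ring) (by ring) (by ring)
  have h4 : Lp 2 (-1) [1, 0, 0, 0, 0] =
      [1, 0, 0, 0, 0] := by
    simp only [Lp]; exact l5 (by ring) (by ring) (by ring) (by ring) (by ring)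
  have h5 : Lp 0 (1) [1, 0, 0, 0, 0] =
      [2, 1, 0, 0, 0] := by
    simp only [Lp]; exact l5 (by ring) (by ring) (by ring) (by ring) (by ring)
  have h6 : Lp 1 (1) [2, 1, 0, 0, 0] =
      [2, 2, 1, 0, 0] := by
    simp only [Lp]; exact l5 (by ring) (by ring) (by ring) (by ring) (by ring)
  have h7 : Lp 1 (1) [2, 2, 1, 0, 0] =
      [2, 3, 2, 0, 0] := by
    simp only [Lp]; exact l5 (by ring) (by ring) (by ring) (by ring) (by ring)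
  have h8 : Lp 2 (1) [2, 3, 2, 0, 0] =
      [2, 3, 4, 2, 0] := by
    simp only [Lp]; exact l5 (by ring) (by ring) (by ring) (by ring) (by ring)
  have h9 : Lp 1 (-k - 2) [2, 3, 4, 2, 0] =
      [2, k + 5, k + 6, 2, 0] := by
    simp only [Lp]; exact l5 (by ring) (by ring) (by ring) (by ring) (by ring)
  have h10 : Lp 2 (k + 1) [2, k + 5, k + 6, 2, 0] =
      [2, k + 5, k^2 + 6*k + 10, k^2 + 5*k + 6, 0] := by
    simp only [Lp]; exact l5 (by ring) (by ring) (by ring) (by ring) (by ring)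
  have h11 : Lp 0 (k + 3) [2, k + 5, k^2 + 6*k + 10, k^2 + 5*k + 6, 0] =
      [-k^2 - 6*k - 7, -k^2 - 5*k - 4, k^2 + 6*k + 10, k^2 + 5*k + 6, 0] := by
    simp only [Lp]; exact l5 (by ring) (by ring) (by ring) (by ring) (by ring)
  simp only [wz, run]
  rw [h0, h1, h2, h3, h4, h5, h6, h7, h8, h9, h10, h11]

theorem wz_1 (k : ℤ) : run (wz k) [0, 1, 0, 0, 0] =
    [k^4 + 11*k^3 + 46*k^2 + 87*k + 62, k^4 + 10*k^3 + 38*k^2 + 65*k + 42, -k^4 - 11*k^3 - 45*k^2 - 81*k - 54, -k^4 - 10*k^3 - 36*k^2 - 54*k - 27, k^2 + 5*k + 6] := by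
  have h0 : Lp 1 (-k - 3) [0, 1, 0, 0, 0] =
      [0, -k - 2, -k - 3, 0, 0] := by
    simp only [Lp]; exact l5 (by ring) (by ring) (by ring) (by ring) (by ring)
  have h1 : Lp 3 (-k - 1) [0, -k - 2, -k - 3, 0, 0] =
      [0, -k - 2, -k - 3, 0, 0] := by
    simp only [Lp]; exact l5 (by ring) (by ring) (by ring) (by ring) (by ring)
  have h2 : Lp 2 (k + 2) [0, -k - 2, -k - 3, 0, 0] =
      [0, -k - 2, -k^2 - 6*k - 9, -k^2 - 5*k - 6, 0] := by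
    simp only [Lp]; exact l5 (by ring) (by ring) (by ring) (by ring) (by ring)
  have h3 : Lp 3 (-1) [0, -k - 2, -k^2 - 6*k - 9, -k^2 - 5*k - 6, 0] =
      [0, -k - 2, -k^2 - 6*k - 9, 0, k^2 + 5*k + 6] := by
    simp only [Lp]; exact l5 (by ring) (by ring) (by ring) (by ring) (by ring)
  have h4 : Lp 2 (-1) [0, -k - 2, -k^2 - 6*k - 9, 0, k^2 + 5*k + 6] =
      [0, -k - 2, 0, k^2 + 6*k + 9, k^2 + 5*k + 6] := by
    simp only [Lp]; exact l5 (by ring) (by ring) (by ring) (by ring) (by ring)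
  have h5 : Lp 0 (1) [0, -k - 2, 0, k^2 + 6*k + 9, k^2 + 5*k + 6] =
      [k + 2, 0, 0, k^2 + 6*k + 9, k^2 + 5*k + 6] := by
    simp only [Lp]; exact l5 (by ring) (by ring) (by ring) (by ring) (by ring)
  have h6 : Lp 1 (1) [k + 2, 0, 0, k^2 + 6*k + 9, k^2 + 5*k + 6] =
      [k + 2, 0, 0, k^2 + 6*k + 9, k^2 + 5*k + 6] := by
    simp only [Lp]; exact l5 (by ring) (by ring) (by ring) (by ring) (by ring)
  have h7 : Lp 1 (1) [k + 2, 0, 0, k^2 + 6*k + 9, k^2 + 5*k + 6] =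
      [k + 2, 0, 0, k^2 + 6*k + 9, k^2 + 5*k + 6] := by
    simp only [Lp]; exact l5 (by ring) (by ring) (by ring) (by ring) (by ring)
  have h8 : Lp 2 (1) [k + 2, 0, 0, k^2 + 6*k + 9, k^2 + 5*k + 6] =
      [k + 2, 0, -k^2 - 6*k - 9, 0, k^2 + 5*k + 6] := by
    simp only [Lp]; exact l5 (by ring) (by ring) (by ring) (by ring) (by ring)
  have h9 : Lp 1 (-k - 2) [k + 2, 0, -k^2 - 6*k - 9, 0, k^2 + 5*k + 6] =
      [k + 2, -k^3 - 8*k^2 - 21*k - 18, -k^3 - 9*k^2 - 27*k - 27, 0, k^2 + 5*k + 6] := by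
    simp only [Lp]; exact l5 (by ring) (by ring) (by ring) (by ring) (by ring)
  have h10 : Lp 2 (k + 1) [k + 2, -k^3 - 8*k^2 - 21*k - 18, -k^3 - 9*k^2 - 27*k - 27, 0, k^2 + 5*k + 6] =
      [k + 2, -k^3 - 8*k^2 - 21*k - 18, -k^4 - 11*k^3 - 45*k^2 - 81*k - 54, -k^4 - 10*k^3 - 36*k^2 - 54*k - 27, k^2 + 5*k + 6] := by
    simp only [Lp]; exact l5 (by ring) (by ring) (by ring) (by ring) (by ring)
  have h11 : Lp 0 (k + 3) [k + 2, -k^3 - 8*k^2 - 21*k - 18, -k^4 - 11*k^3 - 45*k^2 - 81*k - 54, -k^4 - 10*k^3 - 36*k^2 - 54*k - 27, k^2 + 5*k + 6] =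
      [k^4 + 11*k^3 + 46*k^2 + 87*k + 62, k^4 + 10*k^3 + 38*k^2 + 65*k + 42, -k^4 - 11*k^3 - 45*k^2 - 81*k - 54, -k^4 - 10*k^3 - 36*k^2 - 54*k - 27, k^2 + 5*k + 6] := by
    simp only [Lp]; exact l5 (by ring) (by ring) (by ring) (by ring) (by ring)
  simp only [wz, run]
  rw [h0, h1, h2, h3, h4, h5, h6, h7, h8, h9, h10, h11]

theorem wz_2 (k : ℤ) : run (wz k) [0, 0, 1, 0, 0] =
    [-k^4 - 12*k^3 - 54*k^2 - 109*k - 84, -k^4 - 11*k^3 - 45*k^2 - 82*k - 57, k^4 + 12*k^3 + 53*k^2 + 102*k + 72, k^4 + 11*k^3 + 43*k^2 + 69*k + 36, -k^2 - 6*k - 8] := by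
  have h0 : Lp 1 (-k - 3) [0, 0, 1, 0, 0] =
      [0, k + 3, k + 4, 0, 0] := by
    simp only [Lp]; exact l5 (by ring) (by ring) (by ring) (by ring) (by ring)
  have h1 : Lp 3 (-k - 1) [0, k + 3, k + 4, 0, 0] =
      [0, k + 3, k + 4, 0, 0] := by
    simp only [Lp]; exact l5 (by ring) (by ring) (by ring) (by ring) (by ring)
  have h2 : Lp 2 (k + 2) [0, k + 3, k + 4, 0, 0] =
      [0, k + 3, k^2 + 7*k + 12, k^2 + 6*k + 8, 0] := by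
    simp only [Lp]; exact l5 (by ring) (by ring) (by ring) (by ring) (by ring)
  have h3 : Lp 3 (-1) [0, k + 3, k^2 + 7*k + 12, k^2 + 6*k + 8, 0] =
      [0, k + 3, k^2 + 7*k + 12, 0, -k^2 - 6*k - 8] := by
    simp only [Lp]; exact l5 (by ring) (by ring) (by ring) (by ring) (by ring)
  have h4 : Lp 2 (-1) [0, k + 3, k^2 + 7*k + 12, 0, -k^2 - 6*k - 8] =
      [0, k + 3, 0, -k^2 - 7*k - 12, -k^2 - 6*k - 8] := by
    simp only [Lp]; exact l5 (by ring) (by ring) (by ring) (by ring) (by ring)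
  have h5 : Lp 0 (1) [0, k + 3, 0, -k^2 - 7*k - 12, -k^2 - 6*k - 8] =
      [-k - 3, 0, 0, -k^2 - 7*k - 12, -k^2 - 6*k - 8] := by
    simp only [Lp]; exact l5 (by ring) (by ring) (by ring) (by ring) (by ring)
  have h6 : Lp 1 (1) [-k - 3, 0, 0, -k^2 - 7*k - 12, -k^2 - 6*k - 8] =
      [-k - 3, 0, 0, -k^2 - 7*k - 12, -k^2 - 6*k - 8] := by
    simp only [Lp]; exact l5 (by ring) (by ring) (by ring) (by ring) (by ring)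
  have h7 : Lp 1 (1) [-k - 3, 0, 0, -k^2 - 7*k - 12, -k^2 - 6*k - 8] =
      [-k - 3, 0, 0, -k^2 - 7*k - 12, -k^2 - 6*k - 8] := by
    simp only [Lp]; exact l5 (by ring) (by ring) (by ring) (by ring) (by ring)
  have h8 : Lp 2 (1) [-k - 3, 0, 0, -k^2 - 7*k - 12, -k^2 - 6*k - 8] =
      [-k - 3, 0, k^2 + 7*k + 12, 0, -k^2 - 6*k - 8] := by
    simp only [Lp]; exact l5 (by ring) (by ring) (by ring) (by ring) (by ring)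
  have h9 : Lp 1 (-k - 2) [-k - 3, 0, k^2 + 7*k + 12, 0, -k^2 - 6*k - 8] =
      [-k - 3, k^3 + 9*k^2 + 26*k + 24, k^3 + 10*k^2 + 33*k + 36, 0, -k^2 - 6*k - 8] := by
    simp only [Lp]; exact l5 (by ring) (by ring) (by ring) (by ring) (by ring)
  have h10 : Lp 2 (k + 1) [-k - 3, k^3 + 9*k^2 + 26*k + 24, k^3 + 10*k^2 + 33*k + 36, 0, -k^2 - 6*k - 8] =
      [-k - 3, k^3 + 9*k^2 + 26*k + 24, k^4 + 12*k^3 + 53*k^2 + 102*k + 72, k^4 + 11*k^3 + 43*k^2 + 69*k + 36, -k^2 - 6*k - 8] := by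
    simp only [Lp]; exact l5 (by ring) (by ring) (by ring) (by ring) (by ring)
  have h11 : Lp 0 (k + 3) [-k - 3, k^3 + 9*k^2 + 26*k + 24, k^4 + 12*k^3 + 53*k^2 + 102*k + 72, k^4 + 11*k^3 + 43*k^2 + 69*k + 36, -k^2 - 6*k - 8] =
      [-k^4 - 12*k^3 - 54*k^2 - 109*k - 84, -k^4 - 11*k^3 - 45*k^2 - 82*k - 57, k^4 + 12*k^3 + 53*k^2 + 102*k + 72, k^4 + 11*k^3 + 43*k^2 + 69*k + 36, -k^2 - 6*k - 8] := by
    simp only [Lp]; exact l5 (by ring) (by ring) (by ring) (by ring) (by ring)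
  simp only [wz, run]
  rw [h0, h1, h2, h3, h4, h5, h6, h7, h8, h9, h10, h11]

theorem wz_3 (k : ℤ) : run (wz k) [0, 0, 0, 1, 0] =
    [-k^4 - 9*k^3 - 30*k^2 - 42*k - 18, -k^4 - 8*k^3 - 24*k^2 - 30*k - 12, k^4 + 9*k^3 + 29*k^2 + 38*k + 15, k^4 + 8*k^3 + 22*k^2 + 23*k + 8, -k^2 - 3*k - 2] := by
  have h0 : Lp 1 (-k - 3) [0, 0, 0, 1, 0] =
      [0, 0, 0, 1, 0] := by
    simp only [Lp]; exact l5 (by ring) (by ring) (by ring) (by ring) (by ring)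
  have h1 : Lp 3 (-k - 1) [0, 0, 0, 1, 0] =
      [0, 0, 0, -k, -k - 1] := by
    simp only [Lp]; exact l5 (by ring) (by ring) (by ring) (by ring) (by ring)
  have h2 : Lp 2 (k + 2) [0, 0, 0, -k, -k - 1] =
      [0, 0, k^2 + 2*k, k^2 + k, -k - 1] := by
    simp only [Lp]; exact l5 (by ring) (by ring) (by ring) (by ring) (by ring)
  have h3 : Lp 3 (-1) [0, 0, k^2 + 2*k, k^2 + k, -k - 1] =
      [0, 0, k^2 + 2*k, -k - 1, -k^2 - 3*k - 2] := by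
    simp only [Lp]; exact l5 (by ring) (by ring) (by ring) (by ring) (by ring)
  have h4 : Lp 2 (-1) [0, 0, k^2 + 2*k, -k - 1, -k^2 - 3*k - 2] =
      [0, 0, -k - 1, -k^2 - 4*k - 2, -k^2 - 3*k - 2] := by
    simp only [Lp]; exact l5 (by ring) (by ring) (by ring) (by ring) (by ring)
  have h5 : Lp 0 (1) [0, 0, -k - 1, -k^2 - 4*k - 2, -k^2 - 3*k - 2] =
      [0, 0, -k - 1, -k^2 - 4*k - 2, -k^2 - 3*k - 2] := by
    simp only [Lp]; exact l5 (by ring) (by ring) (by ring) (by ring) (by ring)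
  have h6 : Lp 1 (1) [0, 0, -k - 1, -k^2 - 4*k - 2, -k^2 - 3*k - 2] =
      [0, k + 1, 0, -k^2 - 4*k - 2, -k^2 - 3*k - 2] := by
    simp only [Lp]; exact l5 (by ring) (by ring) (by ring) (by ring) (by ring)
  have h7 : Lp 1 (1) [0, k + 1, 0, -k^2 - 4*k - 2, -k^2 - 3*k - 2] =
      [0, 2*k + 2, k + 1, -k^2 - 4*k - 2, -k^2 - 3*k - 2] := by
    simp only [Lp]; exact l5 (by ring) (by ring) (by ring) (by ring) (by ring)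
  have h8 : Lp 2 (1) [0, 2*k + 2, k + 1, -k^2 - 4*k - 2, -k^2 - 3*k - 2] =
      [0, 2*k + 2, k^2 + 6*k + 4, k + 1, -k^2 - 3*k - 2] := by
    simp only [Lp]; exact l5 (by ring) (by ring) (by ring) (by ring) (by ring)
  have h9 : Lp 1 (-k - 2) [0, 2*k + 2, k^2 + 6*k + 4, k + 1, -k^2 - 3*k - 2] =
      [0, k^3 + 6*k^2 + 12*k + 6, k^3 + 7*k^2 + 16*k + 8, k + 1, -k^2 - 3*k - 2] := by
    simp only [Lp]; exact l5 (by ring) (by ring) (by ring) (by ring) (by ring)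
  have h10 : Lp 2 (k + 1) [0, k^3 + 6*k^2 + 12*k + 6, k^3 + 7*k^2 + 16*k + 8, k + 1, -k^2 - 3*k - 2] =
      [0, k^3 + 6*k^2 + 12*k + 6, k^4 + 9*k^3 + 29*k^2 + 38*k + 15, k^4 + 8*k^3 + 22*k^2 + 23*k + 8, -k^2 - 3*k - 2] := by
    simp only [Lp]; exact l5 (by ring) (by ring) (by ring) (by ring) (by ring)
  have h11 : Lp 0 (k + 3) [0, k^3 + 6*k^2 + 12*k + 6, k^4 + 9*k^3 + 29*k^2 + 38*k + 15, k^4 + 8*k^3 + 22*k^2 + 23*k + 8, -k^2 - 3*k - 2] =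
      [-k^4 - 9*k^3 - 30*k^2 - 42*k - 18, -k^4 - 8*k^3 - 24*k^2 - 30*k - 12, k^4 + 9*k^3 + 29*k^2 + 38*k + 15, k^4 + 8*k^3 + 22*k^2 + 23*k + 8, -k^2 - 3*k - 2] := by
    simp only [Lp]; exact l5 (by ring) (by ring) (by ring) (by ring) (by ring)
  simp only [wz, run]
  rw [h0, h1, h2, h3, h4, h5, h6, h7, h8, h9, h10, h11]

theorem wz_4 (k : ℤ) : run (wz k) [0, 0, 0, 0, 1] =
    [k^4 + 10*k^3 + 39*k^2 + 70*k + 48, k^4 + 9*k^3 + 32*k^2 + 52*k + 32, -k^4 - 10*k^3 - 38*k^2 - 65*k - 42, -k^4 - 9*k^3 - 30*k^2 - 43*k - 22, k^2 + 4*k + 5] := by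
  have h0 : Lp 1 (-k - 3) [0, 0, 0, 0, 1] =
      [0, 0, 0, 0, 1] := by
    simp only [Lp]; exact l5 (by ring) (by ring) (by ring) (by ring) (by ring)
  have h1 : Lp 3 (-k - 1) [0, 0, 0, 0, 1] =
      [0, 0, 0, k + 1, k + 2] := by
    simp only [Lp]; exact l5 (by ring) (by ring) (by ring) (by ring) (by ring)
  have h2 : Lp 2 (k + 2) [0, 0, 0, k + 1, k + 2] =
      [0, 0, -k^2 - 3*k - 2, -k^2 - 2*k - 1, k + 2] := by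
    simp only [Lp]; exact l5 (by ring) (by ring) (by ring) (by ring) (by ring)
  have h3 : Lp 3 (-1) [0, 0, -k^2 - 3*k - 2, -k^2 - 2*k - 1, k + 2] =
      [0, 0, -k^2 - 3*k - 2, k + 2, k^2 + 4*k + 5] := by
    simp only [Lp]; exact l5 (by ring) (by ring) (by ring) (by ring) (by ring)
  have h4 : Lp 2 (-1) [0, 0, -k^2 - 3*k - 2, k + 2, k^2 + 4*k + 5] =
      [0, 0, k + 2, k^2 + 5*k + 6, k^2 + 4*k + 5] := by
    simp only [Lp]; exact l5 (by ring) (by ring) (by ring) (by ring) (by ring)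
  have h5 : Lp 0 (1) [0, 0, k + 2, k^2 + 5*k + 6, k^2 + 4*k + 5] =
      [0, 0, k + 2, k^2 + 5*k + 6, k^2 + 4*k + 5] := by
    simp only [Lp]; exact l5 (by ring) (by ring) (by ring) (by ring) (by ring)
  have h6 : Lp 1 (1) [0, 0, k + 2, k^2 + 5*k + 6, k^2 + 4*k + 5] =
      [0, -k - 2, 0, k^2 + 5*k + 6, k^2 + 4*k + 5] := by
    simp only [Lp]; exact l5 (by ring) (by ring) (by ring) (by ring) (by ring)
  have h7 : Lp 1 (1) [0, -k - 2, 0, k^2 + 5*k + 6, k^2 + 4*k + 5] =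
      [0, -2*k - 4, -k - 2, k^2 + 5*k + 6, k^2 + 4*k + 5] := by
    simp only [Lp]; exact l5 (by ring) (by ring) (by ring) (by ring) (by ring)
  have h8 : Lp 2 (1) [0, -2*k - 4, -k - 2, k^2 + 5*k + 6, k^2 + 4*k + 5] =
      [0, -2*k - 4, -k^2 - 7*k - 10, -k - 2, k^2 + 4*k + 5] := by
    simp only [Lp]; exact l5 (by ring) (by ring) (by ring) (by ring) (by ring)
  have h9 : Lp 1 (-k - 2) [0, -2*k - 4, -k^2 - 7*k - 10, -k - 2, k^2 + 4*k + 5] =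
      [0, -k^3 - 7*k^2 - 18*k - 16, -k^3 - 8*k^2 - 23*k - 22, -k - 2, k^2 + 4*k + 5] := by
    simp only [Lp]; exact l5 (by ring) (by ring) (by ring) (by ring) (by ring)
  have h10 : Lp 2 (k + 1) [0, -k^3 - 7*k^2 - 18*k - 16, -k^3 - 8*k^2 - 23*k - 22, -k - 2, k^2 + 4*k + 5] =
      [0, -k^3 - 7*k^2 - 18*k - 16, -k^4 - 10*k^3 - 38*k^2 - 65*k - 42, -k^4 - 9*k^3 - 30*k^2 - 43*k - 22, k^2 + 4*k + 5] := by
    simp only [Lp]; exact l5 (by ring) (by ring) (by ring) (by ring) (by ring)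
  have h11 : Lp 0 (k + 3) [0, -k^3 - 7*k^2 - 18*k - 16, -k^4 - 10*k^3 - 38*k^2 - 65*k - 42, -k^4 - 9*k^3 - 30*k^2 - 43*k - 22, k^2 + 4*k + 5] =
      [k^4 + 10*k^3 + 39*k^2 + 70*k + 48, k^4 + 9*k^3 + 32*k^2 + 52*k + 32, -k^4 - 10*k^3 - 38*k^2 - 65*k - 42, -k^4 - 9*k^3 - 30*k^2 - 43*k - 22, k^2 + 4*k + 5] := by
    simp only [Lp]; exact l5 (by ring) (by ring) (by ring) (by ring) (by ring)
  simp only [wz, run]
  rw [h0, h1, h2, h3, h4, h5, h6, h7, h8, h9, h10, h11]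

def wy (k : ℤ) : List (ℕ × ℤ) :=
  [(0, k + 3), (2, k + 1), (1, -k - 2), (2, 1), (2, 1), (3, -1), (1, 1), (0, 1), (2, k + 2), (3, -k - 1), (1, -k - 3)]

theorem wy_0 (k : ℤ) : run (wy k) [1, 0, 0, 0, 0] =
    [-k^2 - 5*k - 4, -k^2 - 4*k - 2, k^2 + 5*k + 8, k^2 + 4*k + 5, 0] := by
  have h0 : Lp 1 (-k - 3) [1, 0, 0, 0, 0] =
      [1, 0, 0, 0, 0] := by
    simp only [Lp]; exact l5 (by ring) (by ring) (by ring) (by ring) (by ring)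
  have h1 : Lp 3 (-k - 1) [1, 0, 0, 0, 0] =
      [1, 0, 0, 0, 0] := by
    simp only [Lp]; exact l5 (by ring) (by ring) (by ring) (by ring) (by ring)
  have h2 : Lp 2 (k + 2) [1, 0, 0, 0, 0] =
      [1, 0, 0, 0, 0] := by
    simp only [Lp]; exact l5 (by ring) (by ring) (by ring) (by ring) (by ring)
  have h3 : Lp 0 (1) [1, 0, 0, 0, 0] =
      [2, 1, 0, 0, 0] := by
    simp only [Lp]; exact l5 (by ring) (by ring) (by ring) (by ring) (by ring)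
  have h4 : Lp 1 (1) [2, 1, 0, 0, 0] =
      [2, 2, 1, 0, 0] := by
    simp only [Lp]; exact l5 (by ring) (by ring) (by ring) (by ring) (by ring)
  have h5 : Lp 3 (-1) [2, 2, 1, 0, 0] =
      [2, 2, 1, 0, 0] := by
    simp only [Lp]; exact l5 (by ring) (by ring) (by ring) (by ring) (by ring)
  have h6 : Lp 2 (1) [2, 2, 1, 0, 0] =
      [2, 2, 2, 1, 0] := by
    simp only [Lp]; exact l5 (by ring) (by ring) (by ring) (by ring) (by ring)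
  have h7 : Lp 2 (1) [2, 2, 2, 1, 0] =
      [2, 2, 3, 2, 0] := by
    simp only [Lp]; exact l5 (by ring) (by ring) (by ring) (by ring) (by ring)
  have h8 : Lp 1 (-k - 2) [2, 2, 3, 2, 0] =
      [2, k + 4, k + 5, 2, 0] := by
    simp only [Lp]; exact l5 (by ring) (by ring) (by ring) (by ring) (by ring)
  have h9 : Lp 2 (k + 1) [2, k + 4, k + 5, 2, 0] =
      [2, k + 4, k^2 + 5*k + 8, k^2 + 4*k + 5, 0] := by
    simp only [Lp]; exact l5 (by ring) (by ring) (by ring) (by ring) (by ring)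
  have h10 : Lp 0 (k + 3) [2, k + 4, k^2 + 5*k + 8, k^2 + 4*k + 5, 0] =
      [-k^2 - 5*k - 4, -k^2 - 4*k - 2, k^2 + 5*k + 8, k^2 + 4*k + 5, 0] := by
    simp only [Lp]; exact l5 (by ring) (by ring) (by ring) (by ring) (by ring)
  simp only [wy, run]
  rw [h0, h1, h2, h3, h4, h5, h6, h7, h8, h9, h10]

theorem wy_1 (k : ℤ) : run (wy k) [0, 1, 0, 0, 0] =
    [k^4 + 10*k^3 + 37*k^2 + 60*k + 35, k^4 + 9*k^3 + 30*k^2 + 44*k + 24, -k^4 - 10*k^3 - 37*k^2 - 60*k - 36, -k^4 - 9*k^3 - 29*k^2 - 39*k - 18, k^2 + 5*k + 6] := by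
  have h0 : Lp 1 (-k - 3) [0, 1, 0, 0, 0] =
      [0, -k - 2, -k - 3, 0, 0] := by
    simp only [Lp]; exact l5 (by ring) (by ring) (by ring) (by ring) (by ring)
  have h1 : Lp 3 (-k - 1) [0, -k - 2, -k - 3, 0, 0] =
      [0, -k - 2, -k - 3, 0, 0] := by
    simp only [Lp]; exact l5 (by ring) (by ring) (by ring) (by ring) (by ring)
  have h2 : Lp 2 (k + 2) [0, -k - 2, -k - 3, 0, 0] =
      [0, -k - 2, -k^2 - 6*k - 9, -k^2 - 5*k - 6, 0] := by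
    simp only [Lp]; exact l5 (by ring) (by ring) (by ring) (by ring) (by ring)
  have h3 : Lp 0 (1) [0, -k - 2, -k^2 - 6*k - 9, -k^2 - 5*k - 6, 0] =
      [k + 2, 0, -k^2 - 6*k - 9, -k^2 - 5*k - 6, 0] := by
    simp only [Lp]; exact l5 (by ring) (by ring) (by ring) (by ring) (by ring)
  have h4 : Lp 1 (1) [k + 2, 0, -k^2 - 6*k - 9, -k^2 - 5*k - 6, 0] =
      [k + 2, k^2 + 6*k + 9, 0, -k^2 - 5*k - 6, 0] := by
    simp only [Lp]; exact l5 (by ring) (by ring) (by ring) (by ring) (by ring)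
  have h5 : Lp 3 (-1) [k + 2, k^2 + 6*k + 9, 0, -k^2 - 5*k - 6, 0] =
      [k + 2, k^2 + 6*k + 9, 0, 0, k^2 + 5*k + 6] := by
    simp only [Lp]; exact l5 (by ring) (by ring) (by ring) (by ring) (by ring)
  have h6 : Lp 2 (1) [k + 2, k^2 + 6*k + 9, 0, 0, k^2 + 5*k + 6] =
      [k + 2, k^2 + 6*k + 9, 0, 0, k^2 + 5*k + 6] := by
    simp only [Lp]; exact l5 (by ring) (by ring) (by ring) (by ring) (by ring)
  have h7 : Lp 2 (1) [k + 2, k^2 + 6*k + 9, 0, 0, k^2 + 5*k + 6] =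
      [k + 2, k^2 + 6*k + 9, 0, 0, k^2 + 5*k + 6] := by
    simp only [Lp]; exact l5 (by ring) (by ring) (by ring) (by ring) (by ring)
  have h8 : Lp 1 (-k - 2) [k + 2, k^2 + 6*k + 9, 0, 0, k^2 + 5*k + 6] =
      [k + 2, -k^3 - 7*k^2 - 15*k - 9, -k^3 - 8*k^2 - 21*k - 18, 0, k^2 + 5*k + 6] := by
    simp only [Lp]; exact l5 (by ring) (by ring) (by ring) (by ring) (by ring)
  have h9 : Lp 2 (k + 1) [k + 2, -k^3 - 7*k^2 - 15*k - 9, -k^3 - 8*k^2 - 21*k - 18, 0, k^2 + 5*k + 6] =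
      [k + 2, -k^3 - 7*k^2 - 15*k - 9, -k^4 - 10*k^3 - 37*k^2 - 60*k - 36, -k^4 - 9*k^3 - 29*k^2 - 39*k - 18, k^2 + 5*k + 6] := by
    simp only [Lp]; exact l5 (by ring) (by ring) (by ring) (by ring) (by ring)
  have h10 : Lp 0 (k + 3) [k + 2, -k^3 - 7*k^2 - 15*k - 9, -k^4 - 10*k^3 - 37*k^2 - 60*k - 36, -k^4 - 9*k^3 - 29*k^2 - 39*k - 18, k^2 + 5*k + 6] =
      [k^4 + 10*k^3 + 37*k^2 + 60*k + 35, k^4 + 9*k^3 + 30*k^2 + 44*k + 24, -k^4 - 10*k^3 - 37*k^2 - 60*k - 36, -k^4 - 9*k^3 - 29*k^2 - 39*k - 18, k^2 + 5*k + 6] := by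
    simp only [Lp]; exact l5 (by ring) (by ring) (by ring) (by ring) (by ring)
  simp only [wy, run]
  rw [h0, h1, h2, h3, h4, h5, h6, h7, h8, h9, h10]

theorem wy_2 (k : ℤ) : run (wy k) [0, 0, 1, 0, 0] =
    [-k^4 - 11*k^3 - 44*k^2 - 76*k - 48, -k^4 - 10*k^3 - 36*k^2 - 56*k - 33, k^4 + 11*k^3 + 44*k^2 + 76*k + 48, k^4 + 10*k^3 + 35*k^2 + 50*k + 24, -k^2 - 6*k - 8] := by
  have h0 : Lp 1 (-k - 3) [0, 0, 1, 0, 0] =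
      [0, k + 3, k + 4, 0, 0] := by
    simp only [Lp]; exact l5 (by ring) (by ring) (by ring) (by ring) (by ring)
  have h1 : Lp 3 (-k - 1) [0, k + 3, k + 4, 0, 0] =
      [0, k + 3, k + 4, 0, 0] := by
    simp only [Lp]; exact l5 (by ring) (by ring) (by ring) (by ring) (by ring)
  have h2 : Lp 2 (k + 2) [0, k + 3, k + 4, 0, 0] =
      [0, k + 3, k^2 + 7*k + 12, k^2 + 6*k + 8, 0] := by
    simp only [Lp]; exact l5 (by ring) (by ring) (by ring) (by ring) (by ring)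
  have h3 : Lp 0 (1) [0, k + 3, k^2 + 7*k + 12, k^2 + 6*k + 8, 0] =
      [-k - 3, 0, k^2 + 7*k + 12, k^2 + 6*k + 8, 0] := by
    simp only [Lp]; exact l5 (by ring) (by ring) (by ring) (by ring) (by ring)
  have h4 : Lp 1 (1) [-k - 3, 0, k^2 + 7*k + 12, k^2 + 6*k + 8, 0] =
      [-k - 3, -k^2 - 7*k - 12, 0, k^2 + 6*k + 8, 0] := by
    simp only [Lp]; exact l5 (by ring) (by ring) (by ring) (by ring) (by ring)
  have h5 : Lp 3 (-1) [-k - 3, -k^2 - 7*k - 12, 0, k^2 + 6*k + 8, 0] =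
      [-k - 3, -k^2 - 7*k - 12, 0, 0, -k^2 - 6*k - 8] := by
    simp only [Lp]; exact l5 (by ring) (by ring) (by ring) (by ring) (by ring)
  have h6 : Lp 2 (1) [-k - 3, -k^2 - 7*k - 12, 0, 0, -k^2 - 6*k - 8] =
      [-k - 3, -k^2 - 7*k - 12, 0, 0, -k^2 - 6*k - 8] := by
    simp only [Lp]; exact l5 (by ring) (by ring) (by ring) (by ring) (by ring)
  have h7 : Lp 2 (1) [-k - 3, -k^2 - 7*k - 12, 0, 0, -k^2 - 6*k - 8] =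
      [-k - 3, -k^2 - 7*k - 12, 0, 0, -k^2 - 6*k - 8] := by
    simp only [Lp]; exact l5 (by ring) (by ring) (by ring) (by ring) (by ring)
  have h8 : Lp 1 (-k - 2) [-k - 3, -k^2 - 7*k - 12, 0, 0, -k^2 - 6*k - 8] =
      [-k - 3, k^3 + 8*k^2 + 19*k + 12, k^3 + 9*k^2 + 26*k + 24, 0, -k^2 - 6*k - 8] := by
    simp only [Lp]; exact l5 (by ring) (by ring) (by ring) (by ring) (by ring)
  have h9 : Lp 2 (k + 1) [-k - 3, k^3 + 8*k^2 + 19*k + 12, k^3 + 9*k^2 + 26*k + 24, 0, -k^2 - 6*k - 8] =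
      [-k - 3, k^3 + 8*k^2 + 19*k + 12, k^4 + 11*k^3 + 44*k^2 + 76*k + 48, k^4 + 10*k^3 + 35*k^2 + 50*k + 24, -k^2 - 6*k - 8] := by
    simp only [Lp]; exact l5 (by ring) (by ring) (by ring) (by ring) (by ring)
  have h10 : Lp 0 (k + 3) [-k - 3, k^3 + 8*k^2 + 19*k + 12, k^4 + 11*k^3 + 44*k^2 + 76*k + 48, k^4 + 10*k^3 + 35*k^2 + 50*k + 24, -k^2 - 6*k - 8] =
      [-k^4 - 11*k^3 - 44*k^2 - 76*k - 48, -k^4 - 10*k^3 - 36*k^2 - 56*k - 33, k^4 + 11*k^3 + 44*k^2 + 76*k + 48, k^4 + 10*k^3 + 35*k^2 + 50*k + 24, -k^2 - 6*k - 8] := by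
    simp only [Lp]; exact l5 (by ring) (by ring) (by ring) (by ring) (by ring)
  simp only [wy, run]
  rw [h0, h1, h2, h3, h4, h5, h6, h7, h8, h9, h10]

theorem wy_3 (k : ℤ) : run (wy k) [0, 0, 0, 1, 0] =
    [-k^4 - 8*k^3 - 23*k^2 - 28*k - 12, -k^4 - 7*k^3 - 18*k^2 - 20*k - 8, k^4 + 8*k^3 + 23*k^2 + 28*k + 11, k^4 + 7*k^3 + 17*k^2 + 17*k + 6, -k^2 - 3*k - 2] := by
  have h0 : Lp 1 (-k - 3) [0, 0, 0, 1, 0] =
      [0, 0, 0, 1, 0] := by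
    simp only [Lp]; exact l5 (by ring) (by ring) (by ring) (by ring) (by ring)
  have h1 : Lp 3 (-k - 1) [0, 0, 0, 1, 0] =
      [0, 0, 0, -k, -k - 1] := by
    simp only [Lp]; exact l5 (by ring) (by ring) (by ring) (by ring) (by ring)
  have h2 : Lp 2 (k + 2) [0, 0, 0, -k, -k - 1] =
      [0, 0, k^2 + 2*k, k^2 + k, -k - 1] := by
    simp only [Lp]; exact l5 (by ring) (by ring) (by ring) (by ring) (by ring)
  have h3 : Lp 0 (1) [0, 0, k^2 + 2*k, k^2 + k, -k - 1] =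
      [0, 0, k^2 + 2*k, k^2 + k, -k - 1] := by
    simp only [Lp]; exact l5 (by ring) (by ring) (by ring) (by ring) (by ring)
  have h4 : Lp 1 (1) [0, 0, k^2 + 2*k, k^2 + k, -k - 1] =
      [0, -k^2 - 2*k, 0, k^2 + k, -k - 1] := by
    simp only [Lp]; exact l5 (by ring) (by ring) (by ring) (by ring) (by ring)
  have h5 : Lp 3 (-1) [0, -k^2 - 2*k, 0, k^2 + k, -k - 1] =
      [0, -k^2 - 2*k, 0, -k - 1, -k^2 - 3*k - 2] := by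
    simp only [Lp]; exact l5 (by ring) (by ring) (by ring) (by ring) (by ring)
  have h6 : Lp 2 (1) [0, -k^2 - 2*k, 0, -k - 1, -k^2 - 3*k - 2] =
      [0, -k^2 - 2*k, k + 1, 0, -k^2 - 3*k - 2] := by
    simp only [Lp]; exact l5 (by ring) (by ring) (by ring) (by ring) (by ring)
  have h7 : Lp 2 (1) [0, -k^2 - 2*k, k + 1, 0, -k^2 - 3*k - 2] =
      [0, -k^2 - 2*k, 2*k + 2, k + 1, -k^2 - 3*k - 2] := by
    simp only [Lp]; exact l5 (by ring) (by ring) (by ring) (by ring) (by ring)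
  have h8 : Lp 1 (-k - 2) [0, -k^2 - 2*k, 2*k + 2, k + 1, -k^2 - 3*k - 2] =
      [0, k^3 + 5*k^2 + 8*k + 4, k^3 + 6*k^2 + 12*k + 6, k + 1, -k^2 - 3*k - 2] := by
    simp only [Lp]; exact l5 (by ring) (by ring) (by ring) (by ring) (by ring)
  have h9 : Lp 2 (k + 1) [0, k^3 + 5*k^2 + 8*k + 4, k^3 + 6*k^2 + 12*k + 6, k + 1, -k^2 - 3*k - 2] =
      [0, k^3 + 5*k^2 + 8*k + 4, k^4 + 8*k^3 + 23*k^2 + 28*k + 11, k^4 + 7*k^3 + 17*k^2 + 17*k + 6, -k^2 - 3*k - 2] := by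
    simp only [Lp]; exact l5 (by ring) (by ring) (by ring) (by ring) (by ring)
  have h10 : Lp 0 (k + 3) [0, k^3 + 5*k^2 + 8*k + 4, k^4 + 8*k^3 + 23*k^2 + 28*k + 11, k^4 + 7*k^3 + 17*k^2 + 17*k + 6, -k^2 - 3*k - 2] =
      [-k^4 - 8*k^3 - 23*k^2 - 28*k - 12, -k^4 - 7*k^3 - 18*k^2 - 20*k - 8, k^4 + 8*k^3 + 23*k^2 + 28*k + 11, k^4 + 7*k^3 + 17*k^2 + 17*k + 6, -k^2 - 3*k - 2] := by
    simp only [Lp]; exact l5 (by ring) (by ring) (by ring) (by ring) (by ring)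
  simp only [wy, run]
  rw [h0, h1, h2, h3, h4, h5, h6, h7, h8, h9, h10]

theorem wy_4 (k : ℤ) : run (wy k) [0, 0, 0, 0, 1] =
    [k^4 + 9*k^3 + 31*k^2 + 49*k + 30, k^4 + 8*k^3 + 25*k^2 + 36*k + 20, -k^4 - 9*k^3 - 31*k^2 - 49*k - 30, -k^4 - 8*k^3 - 24*k^2 - 32*k - 16, k^2 + 4*k + 5] := by
  have h0 : Lp 1 (-k - 3) [0, 0, 0, 0, 1] =
      [0, 0, 0, 0, 1] := by
    simp only [Lp]; exact l5 (by ring) (by ring) (by ring) (by ring) (by ring)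
  have h1 : Lp 3 (-k - 1) [0, 0, 0, 0, 1] =
      [0, 0, 0, k + 1, k + 2] := by
    simp only [Lp]; exact l5 (by ring) (by ring) (by ring) (by ring) (by ring)
  have h2 : Lp 2 (k + 2) [0, 0, 0, k + 1, k + 2] =
      [0, 0, -k^2 - 3*k - 2, -k^2 - 2*k - 1, k + 2] := by
    simp only [Lp]; exact l5 (by ring) (by ring) (by ring) (by ring) (by ring)
  have h3 : Lp 0 (1) [0, 0, -k^2 - 3*k - 2, -k^2 - 2*k - 1, k + 2] =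
      [0, 0, -k^2 - 3*k - 2, -k^2 - 2*k - 1, k + 2] := by
    simp only [Lp]; exact l5 (by ring) (by ring) (by ring) (by ring) (by ring)
  have h4 : Lp 1 (1) [0, 0, -k^2 - 3*k - 2, -k^2 - 2*k - 1, k + 2] =
      [0, k^2 + 3*k + 2, 0, -k^2 - 2*k - 1, k + 2] := by
    simp only [Lp]; exact l5 (by ring) (by ring) (by ring) (by ring) (by ring)
  have h5 : Lp 3 (-1) [0, k^2 + 3*k + 2, 0, -k^2 - 2*k - 1, k + 2] =
      [0, k^2 + 3*k + 2, 0, k + 2, k^2 + 4*k + 5] := by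
    simp only [Lp]; exact l5 (by ring) (by ring) (by ring) (by ring) (by ring)
  have h6 : Lp 2 (1) [0, k^2 + 3*k + 2, 0, k + 2, k^2 + 4*k + 5] =
      [0, k^2 + 3*k + 2, -k - 2, 0, k^2 + 4*k + 5] := by
    simp only [Lp]; exact l5 (by ring) (by ring) (by ring) (by ring) (by ring)
  have h7 : Lp 2 (1) [0, k^2 + 3*k + 2, -k - 2, 0, k^2 + 4*k + 5] =
      [0, k^2 + 3*k + 2, -2*k - 4, -k - 2, k^2 + 4*k + 5] := by
    simp only [Lp]; exact l5 (by ring) (by ring) (by ring) (by ring) (by ring)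
  have h8 : Lp 1 (-k - 2) [0, k^2 + 3*k + 2, -2*k - 4, -k - 2, k^2 + 4*k + 5] =
      [0, -k^3 - 6*k^2 - 13*k - 10, -k^3 - 7*k^2 - 18*k - 16, -k - 2, k^2 + 4*k + 5] := by
    simp only [Lp]; exact l5 (by ring) (by ring) (by ring) (by ring) (by ring)
  have h9 : Lp 2 (k + 1) [0, -k^3 - 6*k^2 - 13*k - 10, -k^3 - 7*k^2 - 18*k - 16, -k - 2, k^2 + 4*k + 5] =
      [0, -k^3 - 6*k^2 - 13*k - 10, -k^4 - 9*k^3 - 31*k^2 - 49*k - 30, -k^4 - 8*k^3 - 24*k^2 - 32*k - 16, k^2 + 4*k + 5] := by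
    simp only [Lp]; exact l5 (by ring) (by ring) (by ring) (by ring) (by ring)
  have h10 : Lp 0 (k + 3) [0, -k^3 - 6*k^2 - 13*k - 10, -k^4 - 9*k^3 - 31*k^2 - 49*k - 30, -k^4 - 8*k^3 - 24*k^2 - 32*k - 16, k^2 + 4*k + 5] =
      [k^4 + 9*k^3 + 31*k^2 + 49*k + 30, k^4 + 8*k^3 + 25*k^2 + 36*k + 20, -k^4 - 9*k^3 - 31*k^2 - 49*k - 30, -k^4 - 8*k^3 - 24*k^2 - 32*k - 16, k^2 + 4*k + 5] := by
    simp only [Lp]; exact l5 (by ring) (by ring) (by ring) (by ring) (by ring)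
  simp only [wy, run]
  rw [h0, h1, h2, h3, h4, h5, h6, h7, h8, h9, h10]

def wyo (k : ℤ) : List (ℕ × ℤ) :=
  [(0, k + 3), (2, k + 1), (1, -k - 2), (2, 1), (2, 1), (3, -1), (1, 1), (0, 1), (2, k + 2), (3, -k - 1), (1, -k - 3), (0, 1), (2, k + 3), (4, k + 1), (3, -k - 2), (1, -1), (2, -1), (4, 1), (3, -1), (3, -1), (2, k + 2), (3, -k - 1), (1, -k - 3)]

theorem wyo_0 (k : ℤ) : run (wyo k) [1, 0, 0, 0, 0, 0] =
    [k^4 + 10*k^3 + 35*k^2 + 50*k + 27, k^4 + 9*k^3 + 28*k^2 + 36*k + 20, -k^4 - 10*k^3 - 35*k^2 - 50*k - 20, -k^4 - 9*k^3 - 27*k^2 - 31*k - 8, k^2 + 5*k + 6, 0] := by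
  have h0 : Lp 1 (-k - 3) [1, 0, 0, 0, 0, 0] =
      [1, 0, 0, 0, 0, 0] := by
    simp only [Lp]; exact l6 (by ring) (by ring) (by ring) (by ring) (by ring) (by ring)
  have h1 : Lp 3 (-k - 1) [1, 0, 0, 0, 0, 0] =
      [1, 0, 0, 0, 0, 0] := by
    simp only [Lp]; exact l6 (by ring) (by ring) (by ring) (by ring) (by ring) (by ring)
  have h2 : Lp 2 (k + 2) [1, 0, 0, 0, 0, 0] =
      [1, 0, 0, 0, 0, 0] := by
    simp only [Lp]; exact l6 (by ring) (by ring) (by ring) (by ring) (by ring) (by ring)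
  have h3 : Lp 3 (-1) [1, 0, 0, 0, 0, 0] =
      [1, 0, 0, 0, 0, 0] := by
    simp only [Lp]; exact l6 (by ring) (by ring) (by ring) (by ring) (by ring) (by ring)
  have h4 : Lp 3 (-1) [1, 0, 0, 0, 0, 0] =
      [1, 0, 0, 0, 0, 0] := by
    simp only [Lp]; exact l6 (by ring) (by ring) (by ring) (by ring) (by ring) (by ring)
  have h5 : Lp 4 (1) [1, 0, 0, 0, 0, 0] =
      [1, 0, 0, 0, 0, 0] := by
    simp only [Lp]; exact l6 (by ring) (by ring) (by ring) (by ring) (by ring) (by ring)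
  have h6 : Lp 2 (-1) [1, 0, 0, 0, 0, 0] =
      [1, 0, 0, 0, 0, 0] := by
    simp only [Lp]; exact l6 (by ring) (by ring) (by ring) (by ring) (by ring) (by ring)
  have h7 : Lp 1 (-1) [1, 0, 0, 0, 0, 0] =
      [1, 0, 0, 0, 0, 0] := by
    simp only [Lp]; exact l6 (by ring) (by ring) (by ring) (by ring) (by ring) (by ring)
  have h8 : Lp 3 (-k - 2) [1, 0, 0, 0, 0, 0] =
      [1, 0, 0, 0, 0, 0] := by
    simp only [Lp]; exact l6 (by ring) (by ring) (by ring) (by ring) (by ring) (by ring)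
  have h9 : Lp 4 (k + 1) [1, 0, 0, 0, 0, 0] =
      [1, 0, 0, 0, 0, 0] := by
    simp only [Lp]; exact l6 (by ring) (by ring) (by ring) (by ring) (by ring) (by ring)
  have h10 : Lp 2 (k + 3) [1, 0, 0, 0, 0, 0] =
      [1, 0, 0, 0, 0, 0] := by
    simp only [Lp]; exact l6 (by ring) (by ring) (by ring) (by ring) (by ring) (by ring)
  have h11 : Lp 0 (1) [1, 0, 0, 0, 0, 0] =
      [2, 1, 0, 0, 0, 0] := by
    simp only [Lp]; exact l6 (by ring) (by ring) (by ring) (by ring) (by ring) (by ring)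
  have h12 : Lp 1 (-k - 3) [2, 1, 0, 0, 0, 0] =
      [2, -k - 2, -k - 3, 0, 0, 0] := by
    simp only [Lp]; exact l6 (by ring) (by ring) (by ring) (by ring) (by ring) (by ring)
  have h13 : Lp 3 (-k - 1) [2, -k - 2, -k - 3, 0, 0, 0] =
      [2, -k - 2, -k - 3, 0, 0, 0] := by
    simp only [Lp]; exact l6 (by ring) (by ring) (by ring) (by ring) (by ring) (by ring)
  have h14 : Lp 2 (k + 2) [2, -k - 2, -k - 3, 0, 0, 0] =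
      [2, -k - 2, -k^2 - 6*k - 9, -k^2 - 5*k - 6, 0, 0] := by
    simp only [Lp]; exact l6 (by ring) (by ring) (by ring) (by ring) (by ring) (by ring)
  have h15 : Lp 0 (1) [2, -k - 2, -k^2 - 6*k - 9, -k^2 - 5*k - 6, 0, 0] =
      [k + 6, 2, -k^2 - 6*k - 9, -k^2 - 5*k - 6, 0, 0] := by
    simp only [Lp]; exact l6 (by ring) (by ring) (by ring) (by ring) (by ring) (by ring)
  have h16 : Lp 1 (1) [k + 6, 2, -k^2 - 6*k - 9, -k^2 - 5*k - 6, 0, 0] =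
      [k + 6, k^2 + 6*k + 13, 2, -k^2 - 5*k - 6, 0, 0] := by
    simp only [Lp]; exact l6 (by ring) (by ring) (by ring) (by ring) (by ring) (by ring)
  have h17 : Lp 3 (-1) [k + 6, k^2 + 6*k + 13, 2, -k^2 - 5*k - 6, 0, 0] =
      [k + 6, k^2 + 6*k + 13, 2, 0, k^2 + 5*k + 6, 0] := by
    simp only [Lp]; exact l6 (by ring) (by ring) (by ring) (by ring) (by ring) (by ring)
  have h18 : Lp 2 (1) [k + 6, k^2 + 6*k + 13, 2, 0, k^2 + 5*k + 6, 0] =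
      [k + 6, k^2 + 6*k + 13, 4, 2, k^2 + 5*k + 6, 0] := by
    simp only [Lp]; exact l6 (by ring) (by ring) (by ring) (by ring) (by ring) (by ring)
  have h19 : Lp 2 (1) [k + 6, k^2 + 6*k + 13, 4, 2, k^2 + 5*k + 6, 0] =
      [k + 6, k^2 + 6*k + 13, 6, 4, k^2 + 5*k + 6, 0] := by
    simp only [Lp]; exact l6 (by ring) (by ring) (by ring) (by ring) (by ring) (by ring)
  have h20 : Lp 1 (-k - 2) [k + 6, k^2 + 6*k + 13, 6, 4, k^2 + 5*k + 6, 0] =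
      [k + 6, -k^3 - 7*k^2 - 13*k - 1, -k^3 - 8*k^2 - 19*k - 8, 4, k^2 + 5*k + 6, 0] := by
    simp only [Lp]; exact l6 (by ring) (by ring) (by ring) (by ring) (by ring) (by ring)
  have h21 : Lp 2 (k + 1) [k + 6, -k^3 - 7*k^2 - 13*k - 1, -k^3 - 8*k^2 - 19*k - 8, 4, k^2 + 5*k + 6, 0] =
      [k + 6, -k^3 - 7*k^2 - 13*k - 1, -k^4 - 10*k^3 - 35*k^2 - 50*k - 20, -k^4 - 9*k^3 - 27*k^2 - 31*k - 8, k^2 + 5*k + 6, 0] := by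
    simp only [Lp]; exact l6 (by ring) (by ring) (by ring) (by ring) (by ring) (by ring)
  have h22 : Lp 0 (k + 3) [k + 6, -k^3 - 7*k^2 - 13*k - 1, -k^4 - 10*k^3 - 35*k^2 - 50*k - 20, -k^4 - 9*k^3 - 27*k^2 - 31*k - 8, k^2 + 5*k + 6, 0] =
      [k^4 + 10*k^3 + 35*k^2 + 50*k + 27, k^4 + 9*k^3 + 28*k^2 + 36*k + 20, -k^4 - 10*k^3 - 35*k^2 - 50*k - 20, -k^4 - 9*k^3 - 27*k^2 - 31*k - 8, k^2 + 5*k + 6, 0] := by
    simp only [Lp]; exact l6 (by ring) (by ring) (by ring) (by ring) (by ring) (by ring)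
  simp only [wyo, run]
  rw [h0, h1, h2, h3, h4, h5, h6, h7, h8, h9, h10, h11, h12, h13, h14, h15, h16, h17, h18, h19, h20, h21, h22]

theorem wyo_1 (k : ℤ) : run (wyo k) [0, 1, 0, 0, 0, 0] =
    [3*k^8 + 57*k^7 + 472*k^6 + 2224*k^5 + 6523*k^4 + 12208*k^3 + 14267*k^2 + 9546*k + 2808, 3*k^8 + 54*k^7 + 424*k^6 + 1896*k^5 + 5284*k^4 + 9415*k^3 + 10503*k^2 + 6724*k + 1893, -3*k^8 - 57*k^7 - 472*k^6 - 2224*k^5 - 6522*k^4 - 12199*k^3 - 14243*k^2 - 9532*k - 2820, -3*k^8 - 54*k^7 - 421*k^6 - 1854*k^5 - 5040*k^4 - 8663*k^3 - 9212*k^2 - 5563*k - 1470, 3*k^6 + 42*k^5 + 244*k^4 + 752*k^3 + 1298*k^2 + 1196*k + 464, k^4 + 9*k^3 + 31*k^2 + 49*k + 30] := by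
  have h0 : Lp 1 (-k - 3) [0, 1, 0, 0, 0, 0] =
      [0, -k - 2, -k - 3, 0, 0, 0] := by
    simp only [Lp]; exact l6 (by ring) (by ring) (by ring) (by ring) (by ring) (by ring)
  have h1 : Lp 3 (-k - 1) [0, -k - 2, -k - 3, 0, 0, 0] =
      [0, -k - 2, -k - 3, 0, 0, 0] := by
    simp only [Lp]; exact l6 (by ring) (by ring) (by ring) (by ring) (by ring) (by ring)
  have h2 : Lp 2 (k + 2) [0, -k - 2, -k - 3, 0, 0, 0] =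
      [0, -k - 2, -k^2 - 6*k - 9, -k^2 - 5*k - 6, 0, 0] := by
    simp only [Lp]; exact l6 (by ring) (by ring) (by ring) (by ring) (by ring) (by ring)
  have h3 : Lp 3 (-1) [0, -k - 2, -k^2 - 6*k - 9, -k^2 - 5*k - 6, 0, 0] =
      [0, -k - 2, -k^2 - 6*k - 9, 0, k^2 + 5*k + 6, 0] := by
    simp only [Lp]; exact l6 (by ring) (by ring) (by ring) (by ring) (by ring) (by ring)
  have h4 : Lp 3 (-1) [0, -k - 2, -k^2 - 6*k - 9, 0, k^2 + 5*k + 6, 0] =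
      [0, -k - 2, -k^2 - 6*k - 9, k^2 + 5*k + 6, 2*k^2 + 10*k + 12, 0] := by
    simp only [Lp]; exact l6 (by ring) (by ring) (by ring) (by ring) (by ring) (by ring)
  have h5 : Lp 4 (1) [0, -k - 2, -k^2 - 6*k - 9, k^2 + 5*k + 6, 2*k^2 + 10*k + 12, 0] =
      [0, -k - 2, -k^2 - 6*k - 9, k^2 + 5*k + 6, 4*k^2 + 20*k + 24, 2*k^2 + 10*k + 12] := by
    simp only [Lp]; exact l6 (by ring) (by ring) (by ring) (by ring) (by ring) (by ring)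
  have h6 : Lp 2 (-1) [0, -k - 2, -k^2 - 6*k - 9, k^2 + 5*k + 6, 4*k^2 + 20*k + 24, 2*k^2 + 10*k + 12] =
      [0, -k - 2, k^2 + 5*k + 6, 3*k^2 + 16*k + 21, 4*k^2 + 20*k + 24, 2*k^2 + 10*k + 12] := by
    simp only [Lp]; exact l6 (by ring) (by ring) (by ring) (by ring) (by ring) (by ring)
  have h7 : Lp 1 (-1) [0, -k - 2, k^2 + 5*k + 6, 3*k^2 + 16*k + 21, 4*k^2 + 20*k + 24, 2*k^2 + 10*k + 12] =
      [0, k^2 + 5*k + 6, 2*k^2 + 11*k + 14, 3*k^2 + 16*k + 21, 4*k^2 + 20*k + 24, 2*k^2 + 10*k + 12] := by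
    simp only [Lp]; exact l6 (by ring) (by ring) (by ring) (by ring) (by ring) (by ring)
  have h8 : Lp 3 (-k - 2) [0, k^2 + 5*k + 6, 2*k^2 + 11*k + 14, 3*k^2 + 16*k + 21, 4*k^2 + 20*k + 24, 2*k^2 + 10*k + 12] =
      [0, k^2 + 5*k + 6, 2*k^2 + 11*k + 14, k^3 + 9*k^2 + 27*k + 27, k^3 + 10*k^2 + 31*k + 30, 2*k^2 + 10*k + 12] := by
    simp only [Lp]; exact l6 (by ring) (by ring) (by ring) (by ring) (by ring) (by ring)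
  have h9 : Lp 4 (k + 1) [0, k^2 + 5*k + 6, 2*k^2 + 11*k + 14, k^3 + 9*k^2 + 27*k + 27, k^3 + 10*k^2 + 31*k + 30, 2*k^2 + 10*k + 12] =
      [0, k^2 + 5*k + 6, 2*k^2 + 11*k + 14, k^3 + 9*k^2 + 27*k + 27, k^4 + 10*k^3 + 39*k^2 + 70*k + 48, k^4 + 9*k^3 + 31*k^2 + 49*k + 30] := by
    simp only [Lp]; exact l6 (by ring) (by ring) (by ring) (by ring) (by ring) (by ring)
  have h10 : Lp 2 (k + 3) [0, k^2 + 5*k + 6, 2*k^2 + 11*k + 14, k^3 + 9*k^2 + 27*k + 27, k^4 + 10*k^3 + 39*k^2 + 70*k + 48, k^4 + 9*k^3 + 31*k^2 + 49*k + 30] =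
      [0, k^2 + 5*k + 6, -k^4 - 10*k^3 - 35*k^2 - 50*k - 25, -k^4 - 9*k^3 - 28*k^2 - 34*k - 12, k^4 + 10*k^3 + 39*k^2 + 70*k + 48, k^4 + 9*k^3 + 31*k^2 + 49*k + 30] := by
    simp only [Lp]; exact l6 (by ring) (by ring) (by ring) (by ring) (by ring) (by ring)
  have h11 : Lp 0 (1) [0, k^2 + 5*k + 6, -k^4 - 10*k^3 - 35*k^2 - 50*k - 25, -k^4 - 9*k^3 - 28*k^2 - 34*k - 12, k^4 + 10*k^3 + 39*k^2 + 70*k + 48, k^4 + 9*k^3 + 31*k^2 + 49*k + 30] =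
      [-k^2 - 5*k - 6, 0, -k^4 - 10*k^3 - 35*k^2 - 50*k - 25, -k^4 - 9*k^3 - 28*k^2 - 34*k - 12, k^4 + 10*k^3 + 39*k^2 + 70*k + 48, k^4 + 9*k^3 + 31*k^2 + 49*k + 30] := by
    simp only [Lp]; exact l6 (by ring) (by ring) (by ring) (by ring) (by ring) (by ring)
  have h12 : Lp 1 (-k - 3) [-k^2 - 5*k - 6, 0, -k^4 - 10*k^3 - 35*k^2 - 50*k - 25, -k^4 - 9*k^3 - 28*k^2 - 34*k - 12, k^4 + 10*k^3 + 39*k^2 + 70*k + 48, k^4 + 9*k^3 + 31*k^2 + 49*k + 30] =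
      [-k^2 - 5*k - 6, -k^5 - 13*k^4 - 65*k^3 - 155*k^2 - 175*k - 75, -k^5 - 14*k^4 - 75*k^3 - 190*k^2 - 225*k - 100, -k^4 - 9*k^3 - 28*k^2 - 34*k - 12, k^4 + 10*k^3 + 39*k^2 + 70*k + 48, k^4 + 9*k^3 + 31*k^2 + 49*k + 30] := by
    simp only [Lp]; exact l6 (by ring) (by ring) (by ring) (by ring) (by ring) (by ring)
  have h13 : Lp 3 (-k - 1) [-k^2 - 5*k - 6, -k^5 - 13*k^4 - 65*k^3 - 155*k^2 - 175*k - 75, -k^5 - 14*k^4 - 75*k^3 - 190*k^2 - 225*k - 100, -k^4 - 9*k^3 - 28*k^2 - 34*k - 12, k^4 + 10*k^3 + 39*k^2 + 70*k + 48, k^4 + 9*k^3 + 31*k^2 + 49*k + 30] =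
      [-k^2 - 5*k - 6, -k^5 - 13*k^4 - 65*k^3 - 155*k^2 - 175*k - 75, -k^5 - 14*k^4 - 75*k^3 - 190*k^2 - 225*k - 100, 2*k^5 + 20*k^4 + 77*k^3 + 143*k^2 + 130*k + 48, 2*k^5 + 22*k^4 + 96*k^3 + 210*k^2 + 234*k + 108, k^4 + 9*k^3 + 31*k^2 + 49*k + 30] := by
    simp only [Lp]; exact l6 (by ring) (by ring) (by ring) (by ring) (by ring) (by ring)
  have h14 : Lp 2 (k + 2) [-k^2 - 5*k - 6, -k^5 - 13*k^4 - 65*k^3 - 155*k^2 - 175*k - 75, -k^5 - 14*k^4 - 75*k^3 - 190*k^2 - 225*k - 100, 2*k^5 + 20*k^4 + 77*k^3 + 143*k^2 + 130*k + 48, 2*k^5 + 22*k^4 + 96*k^3 + 210*k^2 + 234*k + 108, k^4 + 9*k^3 + 31*k^2 + 49*k + 30] =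
      [-k^2 - 5*k - 6, -k^5 - 13*k^4 - 65*k^3 - 155*k^2 - 175*k - 75, -3*k^6 - 41*k^5 - 234*k^4 - 712*k^3 - 1211*k^2 - 1083*k - 396, -3*k^6 - 38*k^5 - 200*k^4 - 560*k^3 - 878*k^2 - 728*k - 248, 2*k^5 + 22*k^4 + 96*k^3 + 210*k^2 + 234*k + 108, k^4 + 9*k^3 + 31*k^2 + 49*k + 30] := by
    simp only [Lp]; exact l6 (by ring) (by ring) (by ring) (by ring) (by ring) (by ring)
  have h15 : Lp 0 (1) [-k^2 - 5*k - 6, -k^5 - 13*k^4 - 65*k^3 - 155*k^2 - 175*k - 75, -3*k^6 - 41*k^5 - 234*k^4 - 712*k^3 - 1211*k^2 - 1083*k - 396, -3*k^6 - 38*k^5 - 200*k^4 - 560*k^3 - 878*k^2 - 728*k - 248, 2*k^5 + 22*k^4 + 96*k^3 + 210*k^2 + 234*k + 108, k^4 + 9*k^3 + 31*k^2 + 49*k + 30] =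
      [k^5 + 13*k^4 + 65*k^3 + 153*k^2 + 165*k + 63, -k^2 - 5*k - 6, -3*k^6 - 41*k^5 - 234*k^4 - 712*k^3 - 1211*k^2 - 1083*k - 396, -3*k^6 - 38*k^5 - 200*k^4 - 560*k^3 - 878*k^2 - 728*k - 248, 2*k^5 + 22*k^4 + 96*k^3 + 210*k^2 + 234*k + 108, k^4 + 9*k^3 + 31*k^2 + 49*k + 30] := by
    simp only [Lp]; exact l6 (by ring) (by ring) (by ring) (by ring) (by ring) (by ring)
  have h16 : Lp 1 (1) [k^5 + 13*k^4 + 65*k^3 + 153*k^2 + 165*k + 63, -k^2 - 5*k - 6, -3*k^6 - 41*k^5 - 234*k^4 - 712*k^3 - 1211*k^2 - 1083*k - 396, -3*k^6 - 38*k^5 - 200*k^4 - 560*k^3 - 878*k^2 - 728*k - 248, 2*k^5 + 22*k^4 + 96*k^3 + 210*k^2 + 234*k + 108, k^4 + 9*k^3 + 31*k^2 + 49*k + 30] =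
      [k^5 + 13*k^4 + 65*k^3 + 153*k^2 + 165*k + 63, 3*k^6 + 41*k^5 + 234*k^4 + 712*k^3 + 1209*k^2 + 1073*k + 384, -k^2 - 5*k - 6, -3*k^6 - 38*k^5 - 200*k^4 - 560*k^3 - 878*k^2 - 728*k - 248, 2*k^5 + 22*k^4 + 96*k^3 + 210*k^2 + 234*k + 108, k^4 + 9*k^3 + 31*k^2 + 49*k + 30] := by
    simp only [Lp]; exact l6 (by ring) (by ring) (by ring) (by ring) (by ring) (by ring)
  have h17 : Lp 3 (-1) [k^5 + 13*k^4 + 65*k^3 + 153*k^2 + 165*k + 63, 3*k^6 + 41*k^5 + 234*k^4 + 712*k^3 + 1209*k^2 + 1073*k + 384, -k^2 - 5*k - 6, -3*k^6 - 38*k^5 - 200*k^4 - 560*k^3 - 878*k^2 - 728*k - 248, 2*k^5 + 22*k^4 + 96*k^3 + 210*k^2 + 234*k + 108, k^4 + 9*k^3 + 31*k^2 + 49*k + 30] =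
      [k^5 + 13*k^4 + 65*k^3 + 153*k^2 + 165*k + 63, 3*k^6 + 41*k^5 + 234*k^4 + 712*k^3 + 1209*k^2 + 1073*k + 384, -k^2 - 5*k - 6, 2*k^5 + 22*k^4 + 96*k^3 + 210*k^2 + 234*k + 108, 3*k^6 + 42*k^5 + 244*k^4 + 752*k^3 + 1298*k^2 + 1196*k + 464, k^4 + 9*k^3 + 31*k^2 + 49*k + 30] := by
    simp only [Lp]; exact l6 (by ring) (by ring) (by ring) (by ring) (by ring) (by ring)
  have h18 : Lp 2 (1) [k^5 + 13*k^4 + 65*k^3 + 153*k^2 + 165*k + 63, 3*k^6 + 41*k^5 + 234*k^4 + 712*k^3 + 1209*k^2 + 1073*k + 384, -k^2 - 5*k - 6, 2*k^5 + 22*k^4 + 96*k^3 + 210*k^2 + 234*k + 108, 3*k^6 + 42*k^5 + 244*k^4 + 752*k^3 + 1298*k^2 + 1196*k + 464, k^4 + 9*k^3 + 31*k^2 + 49*k + 30] =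
      [k^5 + 13*k^4 + 65*k^3 + 153*k^2 + 165*k + 63, 3*k^6 + 41*k^5 + 234*k^4 + 712*k^3 + 1209*k^2 + 1073*k + 384, -2*k^5 - 22*k^4 - 96*k^3 - 212*k^2 - 244*k - 120, -k^2 - 5*k - 6, 3*k^6 + 42*k^5 + 244*k^4 + 752*k^3 + 1298*k^2 + 1196*k + 464, k^4 + 9*k^3 + 31*k^2 + 49*k + 30] := by
    simp only [Lp]; exact l6 (by ring) (by ring) (by ring) (by ring) (by ring) (by ring)
  have h19 : Lp 2 (1) [k^5 + 13*k^4 + 65*k^3 + 153*k^2 + 165*k + 63, 3*k^6 + 41*k^5 + 234*k^4 + 712*k^3 + 1209*k^2 + 1073*k + 384, -2*k^5 - 22*k^4 - 96*k^3 - 212*k^2 - 244*k - 120, -k^2 - 5*k - 6, 3*k^6 + 42*k^5 + 244*k^4 + 752*k^3 + 1298*k^2 + 1196*k + 464, k^4 + 9*k^3 + 31*k^2 + 49*k + 30] =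
      [k^5 + 13*k^4 + 65*k^3 + 153*k^2 + 165*k + 63, 3*k^6 + 41*k^5 + 234*k^4 + 712*k^3 + 1209*k^2 + 1073*k + 384, -4*k^5 - 44*k^4 - 192*k^3 - 423*k^2 - 483*k - 234, -2*k^5 - 22*k^4 - 96*k^3 - 212*k^2 - 244*k - 120, 3*k^6 + 42*k^5 + 244*k^4 + 752*k^3 + 1298*k^2 + 1196*k + 464, k^4 + 9*k^3 + 31*k^2 + 49*k + 30] := by
    simp only [Lp]; exact l6 (by ring) (by ring) (by ring) (by ring) (by ring) (by ring)
  have h20 : Lp 1 (-k - 2) [k^5 + 13*k^4 + 65*k^3 + 153*k^2 + 165*k + 63, 3*k^6 + 41*k^5 + 234*k^4 + 712*k^3 + 1209*k^2 + 1073*k + 384, -4*k^5 - 44*k^4 - 192*k^3 - 423*k^2 - 483*k - 234, -2*k^5 - 22*k^4 - 96*k^3 - 212*k^2 - 244*k - 120, 3*k^6 + 42*k^5 + 244*k^4 + 752*k^3 + 1298*k^2 + 1196*k + 464, k^4 + 9*k^3 + 31*k^2 + 49*k + 30] =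
      [k^5 + 13*k^4 + 65*k^3 + 153*k^2 + 165*k + 63, -3*k^7 - 48*k^6 - 327*k^5 - 1226*k^4 - 2728*k^3 - 3611*k^2 - 2657*k - 852, -3*k^7 - 51*k^6 - 372*k^5 - 1504*k^4 - 3632*k^3 - 5243*k^2 - 4213*k - 1470, -2*k^5 - 22*k^4 - 96*k^3 - 212*k^2 - 244*k - 120, 3*k^6 + 42*k^5 + 244*k^4 + 752*k^3 + 1298*k^2 + 1196*k + 464, k^4 + 9*k^3 + 31*k^2 + 49*k + 30] := by
    simp only [Lp]; exact l6 (by ring) (by ring) (by ring) (by ring) (by ring) (by ring)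
  have h21 : Lp 2 (k + 1) [k^5 + 13*k^4 + 65*k^3 + 153*k^2 + 165*k + 63, -3*k^7 - 48*k^6 - 327*k^5 - 1226*k^4 - 2728*k^3 - 3611*k^2 - 2657*k - 852, -3*k^7 - 51*k^6 - 372*k^5 - 1504*k^4 - 3632*k^3 - 5243*k^2 - 4213*k - 1470, -2*k^5 - 22*k^4 - 96*k^3 - 212*k^2 - 244*k - 120, 3*k^6 + 42*k^5 + 244*k^4 + 752*k^3 + 1298*k^2 + 1196*k + 464, k^4 + 9*k^3 + 31*k^2 + 49*k + 30] =
      [k^5 + 13*k^4 + 65*k^3 + 153*k^2 + 165*k + 63, -3*k^7 - 48*k^6 - 327*k^5 - 1226*k^4 - 2728*k^3 - 3611*k^2 - 2657*k - 852, -3*k^8 - 57*k^7 - 472*k^6 - 2224*k^5 - 6522*k^4 - 12199*k^3 - 14243*k^2 - 9532*k - 2820, -3*k^8 - 54*k^7 - 421*k^6 - 1854*k^5 - 5040*k^4 - 8663*k^3 - 9212*k^2 - 5563*k - 1470, 3*k^6 + 42*k^5 + 244*k^4 + 752*k^3 + 1298*k^2 + 1196*k + 464, k^4 + 9*k^3 + 31*k^2 + 49*k + 30] := by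
    simp only [Lp]; exact l6 (by ring) (by ring) (by ring) (by ring) (by ring) (by ring)
  have h22 : Lp 0 (k + 3) [k^5 + 13*k^4 + 65*k^3 + 153*k^2 + 165*k + 63, -3*k^7 - 48*k^6 - 327*k^5 - 1226*k^4 - 2728*k^3 - 3611*k^2 - 2657*k - 852, -3*k^8 - 57*k^7 - 472*k^6 - 2224*k^5 - 6522*k^4 - 12199*k^3 - 14243*k^2 - 9532*k - 2820, -3*k^8 - 54*k^7 - 421*k^6 - 1854*k^5 - 5040*k^4 - 8663*k^3 - 9212*k^2 - 5563*k - 1470, 3*k^6 + 42*k^5 + 244*k^4 + 752*k^3 + 1298*k^2 + 1196*k + 464, k^4 + 9*k^3 + 31*k^2 + 49*k + 30] =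
      [3*k^8 + 57*k^7 + 472*k^6 + 2224*k^5 + 6523*k^4 + 12208*k^3 + 14267*k^2 + 9546*k + 2808, 3*k^8 + 54*k^7 + 424*k^6 + 1896*k^5 + 5284*k^4 + 9415*k^3 + 10503*k^2 + 6724*k + 1893, -3*k^8 - 57*k^7 - 472*k^6 - 2224*k^5 - 6522*k^4 - 12199*k^3 - 14243*k^2 - 9532*k - 2820, -3*k^8 - 54*k^7 - 421*k^6 - 1854*k^5 - 5040*k^4 - 8663*k^3 - 9212*k^2 - 5563*k - 1470, 3*k^6 + 42*k^5 + 244*k^4 + 752*k^3 + 1298*k^2 + 1196*k + 464, k^4 + 9*k^3 + 31*k^2 + 49*k + 30] := by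
    simp only [Lp]; exact l6 (by ring) (by ring) (by ring) (by ring) (by ring) (by ring)
  simp only [wyo, run]
  rw [h0, h1, h2, h3, h4, h5, h6, h7, h8, h9, h10, h11, h12, h13, h14, h15, h16, h17, h18, h19, h20, h21, h22]

theorem wyo_2 (k : ℤ) : run (wyo k) [0, 0, 1, 0, 0, 0] =
    [-3*k^8 - 60*k^7 - 520*k^6 - 2552*k^5 - 7761*k^4 - 14991*k^3 - 17991*k^2 - 12292*k - 3668, -3*k^8 - 57*k^7 - 469*k^6 - 2185*k^5 - 6311*k^4 - 11594*k^3 - 13266*k^2 - 8664*k - 2472, 3*k^8 + 60*k^7 + 520*k^6 + 2552*k^5 + 7760*k^4 + 14981*k^3 + 17961*k^2 + 12272*k + 3685, 3*k^8 + 57*k^7 + 466*k^6 + 2140*k^5 + 6034*k^4 + 10697*k^3 + 11660*k^2 + 7173*k + 1922, -3*k^6 - 45*k^5 - 277*k^4 - 897*k^3 - 1613*k^2 - 1533*k - 606, -k^4 - 10*k^3 - 37*k^2 - 62*k - 40] := by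
  have h0 : Lp 1 (-k - 3) [0, 0, 1, 0, 0, 0] =
      [0, k + 3, k + 4, 0, 0, 0] := by
    simp only [Lp]; exact l6 (by ring) (by ring) (by ring) (by ring) (by ring) (by ring)
  have h1 : Lp 3 (-k - 1) [0, k + 3, k + 4, 0, 0, 0] =
      [0, k + 3, k + 4, 0, 0, 0] := by
    simp only [Lp]; exact l6 (by ring) (by ring) (by ring) (by ring) (by ring) (by ring)
  have h2 : Lp 2 (k + 2) [0, k + 3, k + 4, 0, 0, 0] =
      [0, k + 3, k^2 + 7*k + 12, k^2 + 6*k + 8, 0, 0] := by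
    simp only [Lp]; exact l6 (by ring) (by ring) (by ring) (by ring) (by ring) (by ring)
  have h3 : Lp 3 (-1) [0, k + 3, k^2 + 7*k + 12, k^2 + 6*k + 8, 0, 0] =
      [0, k + 3, k^2 + 7*k + 12, 0, -k^2 - 6*k - 8, 0] := by
    simp only [Lp]; exact l6 (by ring) (by ring) (by ring) (by ring) (by ring) (by ring)
  have h4 : Lp 3 (-1) [0, k + 3, k^2 + 7*k + 12, 0, -k^2 - 6*k - 8, 0] =
      [0, k + 3, k^2 + 7*k + 12, -k^2 - 6*k - 8, -2*k^2 - 12*k - 16, 0] := by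
    simp only [Lp]; exact l6 (by ring) (by ring) (by ring) (by ring) (by ring) (by ring)
  have h5 : Lp 4 (1) [0, k + 3, k^2 + 7*k + 12, -k^2 - 6*k - 8, -2*k^2 - 12*k - 16, 0] =
      [0, k + 3, k^2 + 7*k + 12, -k^2 - 6*k - 8, -4*k^2 - 24*k - 32, -2*k^2 - 12*k - 16] := by
    simp only [Lp]; exact l6 (by ring) (by ring) (by ring) (by ring) (by ring) (by ring)
  have h6 : Lp 2 (-1) [0, k + 3, k^2 + 7*k + 12, -k^2 - 6*k - 8, -4*k^2 - 24*k - 32, -2*k^2 - 12*k - 16] =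
      [0, k + 3, -k^2 - 6*k - 8, -3*k^2 - 19*k - 28, -4*k^2 - 24*k - 32, -2*k^2 - 12*k - 16] := by
    simp only [Lp]; exact l6 (by ring) (by ring) (by ring) (by ring) (by ring) (by ring)
  have h7 : Lp 1 (-1) [0, k + 3, -k^2 - 6*k - 8, -3*k^2 - 19*k - 28, -4*k^2 - 24*k - 32, -2*k^2 - 12*k - 16] =
      [0, -k^2 - 6*k - 8, -2*k^2 - 13*k - 19, -3*k^2 - 19*k - 28, -4*k^2 - 24*k - 32, -2*k^2 - 12*k - 16] := by
    simp only [Lp]; exact l6 (by ring) (by ring) (by ring) (by ring) (by ring) (by ring)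
  have h8 : Lp 3 (-k - 2) [0, -k^2 - 6*k - 8, -2*k^2 - 13*k - 19, -3*k^2 - 19*k - 28, -4*k^2 - 24*k - 32, -2*k^2 - 12*k - 16] =
      [0, -k^2 - 6*k - 8, -2*k^2 - 13*k - 19, -k^3 - 10*k^2 - 33*k - 36, -k^3 - 11*k^2 - 38*k - 40, -2*k^2 - 12*k - 16] := by
    simp only [Lp]; exact l6 (by ring) (by ring) (by ring) (by ring) (by ring) (by ring)
  have h9 : Lp 4 (k + 1) [0, -k^2 - 6*k - 8, -2*k^2 - 13*k - 19, -k^3 - 10*k^2 - 33*k - 36, -k^3 - 11*k^2 - 38*k - 40, -2*k^2 - 12*k - 16] =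
      [0, -k^2 - 6*k - 8, -2*k^2 - 13*k - 19, -k^3 - 10*k^2 - 33*k - 36, -k^4 - 11*k^3 - 46*k^2 - 88*k - 64, -k^4 - 10*k^3 - 37*k^2 - 62*k - 40] := by
    simp only [Lp]; exact l6 (by ring) (by ring) (by ring) (by ring) (by ring) (by ring)
  have h10 : Lp 2 (k + 3) [0, -k^2 - 6*k - 8, -2*k^2 - 13*k - 19, -k^3 - 10*k^2 - 33*k - 36, -k^4 - 11*k^3 - 46*k^2 - 88*k - 64, -k^4 - 10*k^3 - 37*k^2 - 62*k - 40] =
      [0, -k^2 - 6*k - 8, k^4 + 11*k^3 + 42*k^2 + 64*k + 32, k^4 + 10*k^3 + 34*k^2 + 44*k + 15, -k^4 - 11*k^3 - 46*k^2 - 88*k - 64, -k^4 - 10*k^3 - 37*k^2 - 62*k - 40] := by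
    simp only [Lp]; exact l6 (by ring) (by ring) (by ring) (by ring) (by ring) (by ring)
  have h11 : Lp 0 (1) [0, -k^2 - 6*k - 8, k^4 + 11*k^3 + 42*k^2 + 64*k + 32, k^4 + 10*k^3 + 34*k^2 + 44*k + 15, -k^4 - 11*k^3 - 46*k^2 - 88*k - 64, -k^4 - 10*k^3 - 37*k^2 - 62*k - 40] =
      [k^2 + 6*k + 8, 0, k^4 + 11*k^3 + 42*k^2 + 64*k + 32, k^4 + 10*k^3 + 34*k^2 + 44*k + 15, -k^4 - 11*k^3 - 46*k^2 - 88*k - 64, -k^4 - 10*k^3 - 37*k^2 - 62*k - 40] := by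
    simp only [Lp]; exact l6 (by ring) (by ring) (by ring) (by ring) (by ring) (by ring)
  have h12 : Lp 1 (-k - 3) [k^2 + 6*k + 8, 0, k^4 + 11*k^3 + 42*k^2 + 64*k + 32, k^4 + 10*k^3 + 34*k^2 + 44*k + 15, -k^4 - 11*k^3 - 46*k^2 - 88*k - 64, -k^4 - 10*k^3 - 37*k^2 - 62*k - 40] =
      [k^2 + 6*k + 8, k^5 + 14*k^4 + 75*k^3 + 190*k^2 + 224*k + 96, k^5 + 15*k^4 + 86*k^3 + 232*k^2 + 288*k + 128, k^4 + 10*k^3 + 34*k^2 + 44*k + 15, -k^4 - 11*k^3 - 46*k^2 - 88*k - 64, -k^4 - 10*k^3 - 37*k^2 - 62*k - 40] := by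
    simp only [Lp]; exact l6 (by ring) (by ring) (by ring) (by ring) (by ring) (by ring)
  have h13 : Lp 3 (-k - 1) [k^2 + 6*k + 8, k^5 + 14*k^4 + 75*k^3 + 190*k^2 + 224*k + 96, k^5 + 15*k^4 + 86*k^3 + 232*k^2 + 288*k + 128, k^4 + 10*k^3 + 34*k^2 + 44*k + 15, -k^4 - 11*k^3 - 46*k^2 - 88*k - 64, -k^4 - 10*k^3 - 37*k^2 - 62*k - 40] =
      [k^2 + 6*k + 8, k^5 + 14*k^4 + 75*k^3 + 190*k^2 + 224*k + 96, k^5 + 15*k^4 + 86*k^3 + 232*k^2 + 288*k + 128, -2*k^5 - 22*k^4 - 91*k^3 - 178*k^2 - 167*k - 64, -2*k^5 - 24*k^4 - 112*k^3 - 258*k^2 - 299*k - 143, -k^4 - 10*k^3 - 37*k^2 - 62*k - 40] := by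
    simp only [Lp]; exact l6 (by ring) (by ring) (by ring) (by ring) (by ring) (by ring)
  have h14 : Lp 2 (k + 2) [k^2 + 6*k + 8, k^5 + 14*k^4 + 75*k^3 + 190*k^2 + 224*k + 96, k^5 + 15*k^4 + 86*k^3 + 232*k^2 + 288*k + 128, -2*k^5 - 22*k^4 - 91*k^3 - 178*k^2 - 167*k - 64, -2*k^5 - 24*k^4 - 112*k^3 - 258*k^2 - 299*k - 143, -k^4 - 10*k^3 - 37*k^2 - 62*k - 40] =
      [k^2 + 6*k + 8, k^5 + 14*k^4 + 75*k^3 + 190*k^2 + 224*k + 96, 3*k^6 + 44*k^5 + 266*k^4 + 850*k^3 + 1507*k^2 + 1390*k + 512, 3*k^6 + 41*k^5 + 229*k^4 + 673*k^3 + 1097*k^2 + 935*k + 320, -2*k^5 - 24*k^4 - 112*k^3 - 258*k^2 - 299*k - 143, -k^4 - 10*k^3 - 37*k^2 - 62*k - 40] := by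
    simp only [Lp]; exact l6 (by ring) (by ring) (by ring) (by ring) (by ring) (by ring)
  have h15 : Lp 0 (1) [k^2 + 6*k + 8, k^5 + 14*k^4 + 75*k^3 + 190*k^2 + 224*k + 96, 3*k^6 + 44*k^5 + 266*k^4 + 850*k^3 + 1507*k^2 + 1390*k + 512, 3*k^6 + 41*k^5 + 229*k^4 + 673*k^3 + 1097*k^2 + 935*k + 320, -2*k^5 - 24*k^4 - 112*k^3 - 258*k^2 - 299*k - 143, -k^4 - 10*k^3 - 37*k^2 - 62*k - 40] =
      [-k^5 - 14*k^4 - 75*k^3 - 188*k^2 - 212*k - 80, k^2 + 6*k + 8, 3*k^6 + 44*k^5 + 266*k^4 + 850*k^3 + 1507*k^2 + 1390*k + 512, 3*k^6 + 41*k^5 + 229*k^4 + 673*k^3 + 1097*k^2 + 935*k + 320, -2*k^5 - 24*k^4 - 112*k^3 - 258*k^2 - 299*k - 143, -k^4 - 10*k^3 - 37*k^2 - 62*k - 40] := by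
    simp only [Lp]; exact l6 (by ring) (by ring) (by ring) (by ring) (by ring) (by ring)
  have h16 : Lp 1 (1) [-k^5 - 14*k^4 - 75*k^3 - 188*k^2 - 212*k - 80, k^2 + 6*k + 8, 3*k^6 + 44*k^5 + 266*k^4 + 850*k^3 + 1507*k^2 + 1390*k + 512, 3*k^6 + 41*k^5 + 229*k^4 + 673*k^3 + 1097*k^2 + 935*k + 320, -2*k^5 - 24*k^4 - 112*k^3 - 258*k^2 - 299*k - 143, -k^4 - 10*k^3 - 37*k^2 - 62*k - 40] =
      [-k^5 - 14*k^4 - 75*k^3 - 188*k^2 - 212*k - 80, -3*k^6 - 44*k^5 - 266*k^4 - 850*k^3 - 1505*k^2 - 1378*k - 496, k^2 + 6*k + 8, 3*k^6 + 41*k^5 + 229*k^4 + 673*k^3 + 1097*k^2 + 935*k + 320, -2*k^5 - 24*k^4 - 112*k^3 - 258*k^2 - 299*k - 143, -k^4 - 10*k^3 - 37*k^2 - 62*k - 40] := by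
    simp only [Lp]; exact l6 (by ring) (by ring) (by ring) (by ring) (by ring) (by ring)
  have h17 : Lp 3 (-1) [-k^5 - 14*k^4 - 75*k^3 - 188*k^2 - 212*k - 80, -3*k^6 - 44*k^5 - 266*k^4 - 850*k^3 - 1505*k^2 - 1378*k - 496, k^2 + 6*k + 8, 3*k^6 + 41*k^5 + 229*k^4 + 673*k^3 + 1097*k^2 + 935*k + 320, -2*k^5 - 24*k^4 - 112*k^3 - 258*k^2 - 299*k - 143, -k^4 - 10*k^3 - 37*k^2 - 62*k - 40] =
      [-k^5 - 14*k^4 - 75*k^3 - 188*k^2 - 212*k - 80, -3*k^6 - 44*k^5 - 266*k^4 - 850*k^3 - 1505*k^2 - 1378*k - 496, k^2 + 6*k + 8, -2*k^5 - 24*k^4 - 112*k^3 - 258*k^2 - 299*k - 143, -3*k^6 - 45*k^5 - 277*k^4 - 897*k^3 - 1613*k^2 - 1533*k - 606, -k^4 - 10*k^3 - 37*k^2 - 62*k - 40] := by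
    simp only [Lp]; exact l6 (by ring) (by ring) (by ring) (by ring) (by ring) (by ring)
  have h18 : Lp 2 (1) [-k^5 - 14*k^4 - 75*k^3 - 188*k^2 - 212*k - 80, -3*k^6 - 44*k^5 - 266*k^4 - 850*k^3 - 1505*k^2 - 1378*k - 496, k^2 + 6*k + 8, -2*k^5 - 24*k^4 - 112*k^3 - 258*k^2 - 299*k - 143, -3*k^6 - 45*k^5 - 277*k^4 - 897*k^3 - 1613*k^2 - 1533*k - 606, -k^4 - 10*k^3 - 37*k^2 - 62*k - 40] =
      [-k^5 - 14*k^4 - 75*k^3 - 188*k^2 - 212*k - 80, -3*k^6 - 44*k^5 - 266*k^4 - 850*k^3 - 1505*k^2 - 1378*k - 496, 2*k^5 + 24*k^4 + 112*k^3 + 260*k^2 + 311*k + 159, k^2 + 6*k + 8, -3*k^6 - 45*k^5 - 277*k^4 - 897*k^3 - 1613*k^2 - 1533*k - 606, -k^4 - 10*k^3 - 37*k^2 - 62*k - 40] := by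
    simp only [Lp]; exact l6 (by ring) (by ring) (by ring) (by ring) (by ring) (by ring)
  have h19 : Lp 2 (1) [-k^5 - 14*k^4 - 75*k^3 - 188*k^2 - 212*k - 80, -3*k^6 - 44*k^5 - 266*k^4 - 850*k^3 - 1505*k^2 - 1378*k - 496, 2*k^5 + 24*k^4 + 112*k^3 + 260*k^2 + 311*k + 159, k^2 + 6*k + 8, -3*k^6 - 45*k^5 - 277*k^4 - 897*k^3 - 1613*k^2 - 1533*k - 606, -k^4 - 10*k^3 - 37*k^2 - 62*k - 40] =
      [-k^5 - 14*k^4 - 75*k^3 - 188*k^2 - 212*k - 80, -3*k^6 - 44*k^5 - 266*k^4 - 850*k^3 - 1505*k^2 - 1378*k - 496, 4*k^5 + 48*k^4 + 224*k^3 + 519*k^2 + 616*k + 310, 2*k^5 + 24*k^4 + 112*k^3 + 260*k^2 + 311*k + 159, -3*k^6 - 45*k^5 - 277*k^4 - 897*k^3 - 1613*k^2 - 1533*k - 606, -k^4 - 10*k^3 - 37*k^2 - 62*k - 40] := by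
    simp only [Lp]; exact l6 (by ring) (by ring) (by ring) (by ring) (by ring) (by ring)
  have h20 : Lp 1 (-k - 2) [-k^5 - 14*k^4 - 75*k^3 - 188*k^2 - 212*k - 80, -3*k^6 - 44*k^5 - 266*k^4 - 850*k^3 - 1505*k^2 - 1378*k - 496, 4*k^5 + 48*k^4 + 224*k^3 + 519*k^2 + 616*k + 310, 2*k^5 + 24*k^4 + 112*k^3 + 260*k^2 + 311*k + 159, -3*k^6 - 45*k^5 - 277*k^4 - 897*k^3 - 1613*k^2 - 1533*k - 606, -k^4 - 10*k^3 - 37*k^2 - 62*k - 40] =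
      [-k^5 - 14*k^4 - 75*k^3 - 188*k^2 - 212*k - 80, 3*k^7 + 51*k^6 + 366*k^5 + 1436*k^4 + 3322*k^3 + 4537*k^2 + 3416*k + 1116, 3*k^7 + 54*k^6 + 414*k^5 + 1750*k^4 + 4396*k^3 + 6561*k^2 + 5410*k + 1922, 2*k^5 + 24*k^4 + 112*k^3 + 260*k^2 + 311*k + 159, -3*k^6 - 45*k^5 - 277*k^4 - 897*k^3 - 1613*k^2 - 1533*k - 606, -k^4 - 10*k^3 - 37*k^2 - 62*k - 40] := by
    simp only [Lp]; exact l6 (by ring) (by ring) (by ring) (by ring) (by ring) (by ring)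
  have h21 : Lp 2 (k + 1) [-k^5 - 14*k^4 - 75*k^3 - 188*k^2 - 212*k - 80, 3*k^7 + 51*k^6 + 366*k^5 + 1436*k^4 + 3322*k^3 + 4537*k^2 + 3416*k + 1116, 3*k^7 + 54*k^6 + 414*k^5 + 1750*k^4 + 4396*k^3 + 6561*k^2 + 5410*k + 1922, 2*k^5 + 24*k^4 + 112*k^3 + 260*k^2 + 311*k + 159, -3*k^6 - 45*k^5 - 277*k^4 - 897*k^3 - 1613*k^2 - 1533*k - 606, -k^4 - 10*k^3 - 37*k^2 - 62*k - 40] =
      [-k^5 - 14*k^4 - 75*k^3 - 188*k^2 - 212*k - 80, 3*k^7 + 51*k^6 + 366*k^5 + 1436*k^4 + 3322*k^3 + 4537*k^2 + 3416*k + 1116, 3*k^8 + 60*k^7 + 520*k^6 + 2552*k^5 + 7760*k^4 + 14981*k^3 + 17961*k^2 + 12272*k + 3685, 3*k^8 + 57*k^7 + 466*k^6 + 2140*k^5 + 6034*k^4 + 10697*k^3 + 11660*k^2 + 7173*k + 1922, -3*k^6 - 45*k^5 - 277*k^4 - 897*k^3 - 1613*k^2 - 1533*k - 606, -k^4 - 10*k^3 - 37*k^2 - 62*k - 40] := by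
    simp only [Lp]; exact l6 (by ring) (by ring) (by ring) (by ring) (by ring) (by ring)
  have h22 : Lp 0 (k + 3) [-k^5 - 14*k^4 - 75*k^3 - 188*k^2 - 212*k - 80, 3*k^7 + 51*k^6 + 366*k^5 + 1436*k^4 + 3322*k^3 + 4537*k^2 + 3416*k + 1116, 3*k^8 + 60*k^7 + 520*k^6 + 2552*k^5 + 7760*k^4 + 14981*k^3 + 17961*k^2 + 12272*k + 3685, 3*k^8 + 57*k^7 + 466*k^6 + 2140*k^5 + 6034*k^4 + 10697*k^3 + 11660*k^2 + 7173*k + 1922, -3*k^6 - 45*k^5 - 277*k^4 - 897*k^3 - 1613*k^2 - 1533*k - 606, -k^4 - 10*k^3 - 37*k^2 - 62*k - 40] =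
      [-3*k^8 - 60*k^7 - 520*k^6 - 2552*k^5 - 7761*k^4 - 14991*k^3 - 17991*k^2 - 12292*k - 3668, -3*k^8 - 57*k^7 - 469*k^6 - 2185*k^5 - 6311*k^4 - 11594*k^3 - 13266*k^2 - 8664*k - 2472, 3*k^8 + 60*k^7 + 520*k^6 + 2552*k^5 + 7760*k^4 + 14981*k^3 + 17961*k^2 + 12272*k + 3685, 3*k^8 + 57*k^7 + 466*k^6 + 2140*k^5 + 6034*k^4 + 10697*k^3 + 11660*k^2 + 7173*k + 1922, -3*k^6 - 45*k^5 - 277*k^4 - 897*k^3 - 1613*k^2 - 1533*k - 606, -k^4 - 10*k^3 - 37*k^2 - 62*k - 40] := by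
    simp only [Lp]; exact l6 (by ring) (by ring) (by ring) (by ring) (by ring) (by ring)
  simp only [wyo, run]
  rw [h0, h1, h2, h3, h4, h5, h6, h7, h8, h9, h10, h11, h12, h13, h14, h15, h16, h17, h18, h19, h20, h21, h22]

theorem wyo_3 (k : ℤ) : run (wyo k) [0, 0, 0, 1, 0, 0] =
    [-3*k^8 - 51*k^7 - 376*k^6 - 1568*k^5 - 4043*k^4 - 6602*k^3 - 6672*k^2 - 3819*k - 950, -3*k^8 - 48*k^7 - 334*k^6 - 1318*k^5 - 3226*k^4 - 5021*k^3 - 4858*k^2 - 2672*k - 640, 3*k^8 + 51*k^7 + 376*k^6 + 1568*k^5 + 4042*k^4 + 6595*k^3 + 6660*k^2 + 3817*k + 954, 3*k^8 + 48*k^7 + 331*k^6 + 1282*k^5 + 3048*k^4 + 4559*k^3 + 4201*k^2 + 2191*k + 498, -3*k^6 - 36*k^5 - 178*k^4 - 462*k^3 - 664*k^2 - 502*k - 157, -k^4 - 7*k^3 - 19*k^2 - 23*k - 10] := by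
  have h0 : Lp 1 (-k - 3) [0, 0, 0, 1, 0, 0] =
      [0, 0, 0, 1, 0, 0] := by
    simp only [Lp]; exact l6 (by ring) (by ring) (by ring) (by ring) (by ring) (by ring)
  have h1 : Lp 3 (-k - 1) [0, 0, 0, 1, 0, 0] =
      [0, 0, 0, -k, -k - 1, 0] := by
    simp only [Lp]; exact l6 (by ring) (by ring) (by ring) (by ring) (by ring) (by ring)
  have h2 : Lp 2 (k + 2) [0, 0, 0, -k, -k - 1, 0] =
      [0, 0, k^2 + 2*k, k^2 + k, -k - 1, 0] := by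
    simp only [Lp]; exact l6 (by ring) (by ring) (by ring) (by ring) (by ring) (by ring)
  have h3 : Lp 3 (-1) [0, 0, k^2 + 2*k, k^2 + k, -k - 1, 0] =
      [0, 0, k^2 + 2*k, -k - 1, -k^2 - 3*k - 2, 0] := by
    simp only [Lp]; exact l6 (by ring) (by ring) (by ring) (by ring) (by ring) (by ring)
  have h4 : Lp 3 (-1) [0, 0, k^2 + 2*k, -k - 1, -k^2 - 3*k - 2, 0] =
      [0, 0, k^2 + 2*k, -k^2 - 3*k - 2, -2*k^2 - 5*k - 3, 0] := by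
    simp only [Lp]; exact l6 (by ring) (by ring) (by ring) (by ring) (by ring) (by ring)
  have h5 : Lp 4 (1) [0, 0, k^2 + 2*k, -k^2 - 3*k - 2, -2*k^2 - 5*k - 3, 0] =
      [0, 0, k^2 + 2*k, -k^2 - 3*k - 2, -4*k^2 - 10*k - 6, -2*k^2 - 5*k - 3] := by
    simp only [Lp]; exact l6 (by ring) (by ring) (by ring) (by ring) (by ring) (by ring)
  have h6 : Lp 2 (-1) [0, 0, k^2 + 2*k, -k^2 - 3*k - 2, -4*k^2 - 10*k - 6, -2*k^2 - 5*k - 3] =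
      [0, 0, -k^2 - 3*k - 2, -3*k^2 - 8*k - 4, -4*k^2 - 10*k - 6, -2*k^2 - 5*k - 3] := by
    simp only [Lp]; exact l6 (by ring) (by ring) (by ring) (by ring) (by ring) (by ring)
  have h7 : Lp 1 (-1) [0, 0, -k^2 - 3*k - 2, -3*k^2 - 8*k - 4, -4*k^2 - 10*k - 6, -2*k^2 - 5*k - 3] =
      [0, -k^2 - 3*k - 2, -2*k^2 - 6*k - 4, -3*k^2 - 8*k - 4, -4*k^2 - 10*k - 6, -2*k^2 - 5*k - 3] := by
    simp only [Lp]; exact l6 (by ring) (by ring) (by ring) (by ring) (by ring) (by ring)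
  have h8 : Lp 3 (-k - 2) [0, -k^2 - 3*k - 2, -2*k^2 - 6*k - 4, -3*k^2 - 8*k - 4, -4*k^2 - 10*k - 6, -2*k^2 - 5*k - 3] =
      [0, -k^2 - 3*k - 2, -2*k^2 - 6*k - 4, -k^3 - 7*k^2 - 14*k - 8, -k^3 - 8*k^2 - 16*k - 10, -2*k^2 - 5*k - 3] := by
    simp only [Lp]; exact l6 (by ring) (by ring) (by ring) (by ring) (by ring) (by ring)
  have h9 : Lp 4 (k + 1) [0, -k^2 - 3*k - 2, -2*k^2 - 6*k - 4, -k^3 - 7*k^2 - 14*k - 8, -k^3 - 8*k^2 - 16*k - 10, -2*k^2 - 5*k - 3] =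
      [0, -k^2 - 3*k - 2, -2*k^2 - 6*k - 4, -k^3 - 7*k^2 - 14*k - 8, -k^4 - 8*k^3 - 25*k^2 - 34*k - 17, -k^4 - 7*k^3 - 19*k^2 - 23*k - 10] := by
    simp only [Lp]; exact l6 (by ring) (by ring) (by ring) (by ring) (by ring) (by ring)
  have h10 : Lp 2 (k + 3) [0, -k^2 - 3*k - 2, -2*k^2 - 6*k - 4, -k^3 - 7*k^2 - 14*k - 8, -k^4 - 8*k^3 - 25*k^2 - 34*k - 17, -k^4 - 7*k^3 - 19*k^2 - 23*k - 10] =
      [0, -k^2 - 3*k - 2, k^4 + 8*k^3 + 21*k^2 + 22*k + 8, k^4 + 7*k^3 + 16*k^2 + 14*k + 4, -k^4 - 8*k^3 - 25*k^2 - 34*k - 17, -k^4 - 7*k^3 - 19*k^2 - 23*k - 10] := by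
    simp only [Lp]; exact l6 (by ring) (by ring) (by ring) (by ring) (by ring) (by ring)
  have h11 : Lp 0 (1) [0, -k^2 - 3*k - 2, k^4 + 8*k^3 + 21*k^2 + 22*k + 8, k^4 + 7*k^3 + 16*k^2 + 14*k + 4, -k^4 - 8*k^3 - 25*k^2 - 34*k - 17, -k^4 - 7*k^3 - 19*k^2 - 23*k - 10] =
      [k^2 + 3*k + 2, 0, k^4 + 8*k^3 + 21*k^2 + 22*k + 8, k^4 + 7*k^3 + 16*k^2 + 14*k + 4, -k^4 - 8*k^3 - 25*k^2 - 34*k - 17, -k^4 - 7*k^3 - 19*k^2 - 23*k - 10] := by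
    simp only [Lp]; exact l6 (by ring) (by ring) (by ring) (by ring) (by ring) (by ring)
  have h12 : Lp 1 (-k - 3) [k^2 + 3*k + 2, 0, k^4 + 8*k^3 + 21*k^2 + 22*k + 8, k^4 + 7*k^3 + 16*k^2 + 14*k + 4, -k^4 - 8*k^3 - 25*k^2 - 34*k - 17, -k^4 - 7*k^3 - 19*k^2 - 23*k - 10] =
      [k^2 + 3*k + 2, k^5 + 11*k^4 + 45*k^3 + 85*k^2 + 74*k + 24, k^5 + 12*k^4 + 53*k^3 + 106*k^2 + 96*k + 32, k^4 + 7*k^3 + 16*k^2 + 14*k + 4, -k^4 - 8*k^3 - 25*k^2 - 34*k - 17, -k^4 - 7*k^3 - 19*k^2 - 23*k - 10] := by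
    simp only [Lp]; exact l6 (by ring) (by ring) (by ring) (by ring) (by ring) (by ring)
  have h13 : Lp 3 (-k - 1) [k^2 + 3*k + 2, k^5 + 11*k^4 + 45*k^3 + 85*k^2 + 74*k + 24, k^5 + 12*k^4 + 53*k^3 + 106*k^2 + 96*k + 32, k^4 + 7*k^3 + 16*k^2 + 14*k + 4, -k^4 - 8*k^3 - 25*k^2 - 34*k - 17, -k^4 - 7*k^3 - 19*k^2 - 23*k - 10] =
      [k^2 + 3*k + 2, k^5 + 11*k^4 + 45*k^3 + 85*k^2 + 74*k + 24, k^5 + 12*k^4 + 53*k^3 + 106*k^2 + 96*k + 32, -2*k^5 - 16*k^4 - 49*k^3 - 73*k^2 - 55*k - 17, -2*k^5 - 18*k^4 - 64*k^3 - 114*k^2 - 103*k - 38, -k^4 - 7*k^3 - 19*k^2 - 23*k - 10] := by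
    simp only [Lp]; exact l6 (by ring) (by ring) (by ring) (by ring) (by ring) (by ring)
  have h14 : Lp 2 (k + 2) [k^2 + 3*k + 2, k^5 + 11*k^4 + 45*k^3 + 85*k^2 + 74*k + 24, k^5 + 12*k^4 + 53*k^3 + 106*k^2 + 96*k + 32, -2*k^5 - 16*k^4 - 49*k^3 - 73*k^2 - 55*k - 17, -2*k^5 - 18*k^4 - 64*k^3 - 114*k^2 - 103*k - 38, -k^4 - 7*k^3 - 19*k^2 - 23*k - 10] =
      [k^2 + 3*k + 2, k^5 + 11*k^4 + 45*k^3 + 85*k^2 + 74*k + 24, 3*k^6 + 35*k^5 + 170*k^4 + 436*k^3 + 615*k^2 + 447*k + 130, 3*k^6 + 32*k^5 + 142*k^4 + 334*k^3 + 436*k^2 + 296*k + 81, -2*k^5 - 18*k^4 - 64*k^3 - 114*k^2 - 103*k - 38, -k^4 - 7*k^3 - 19*k^2 - 23*k - 10] := by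
    simp only [Lp]; exact l6 (by ring) (by ring) (by ring) (by ring) (by ring) (by ring)
  have h15 : Lp 0 (1) [k^2 + 3*k + 2, k^5 + 11*k^4 + 45*k^3 + 85*k^2 + 74*k + 24, 3*k^6 + 35*k^5 + 170*k^4 + 436*k^3 + 615*k^2 + 447*k + 130, 3*k^6 + 32*k^5 + 142*k^4 + 334*k^3 + 436*k^2 + 296*k + 81, -2*k^5 - 18*k^4 - 64*k^3 - 114*k^2 - 103*k - 38, -k^4 - 7*k^3 - 19*k^2 - 23*k - 10] =
      [-k^5 - 11*k^4 - 45*k^3 - 83*k^2 - 68*k - 20, k^2 + 3*k + 2, 3*k^6 + 35*k^5 + 170*k^4 + 436*k^3 + 615*k^2 + 447*k + 130, 3*k^6 + 32*k^5 + 142*k^4 + 334*k^3 + 436*k^2 + 296*k + 81, -2*k^5 - 18*k^4 - 64*k^3 - 114*k^2 - 103*k - 38, -k^4 - 7*k^3 - 19*k^2 - 23*k - 10] := by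
    simp only [Lp]; exact l6 (by ring) (by ring) (by ring) (by ring) (by ring) (by ring)
  have h16 : Lp 1 (1) [-k^5 - 11*k^4 - 45*k^3 - 83*k^2 - 68*k - 20, k^2 + 3*k + 2, 3*k^6 + 35*k^5 + 170*k^4 + 436*k^3 + 615*k^2 + 447*k + 130, 3*k^6 + 32*k^5 + 142*k^4 + 334*k^3 + 436*k^2 + 296*k + 81, -2*k^5 - 18*k^4 - 64*k^3 - 114*k^2 - 103*k - 38, -k^4 - 7*k^3 - 19*k^2 - 23*k - 10] =
      [-k^5 - 11*k^4 - 45*k^3 - 83*k^2 - 68*k - 20, -3*k^6 - 35*k^5 - 170*k^4 - 436*k^3 - 613*k^2 - 441*k - 126, k^2 + 3*k + 2, 3*k^6 + 32*k^5 + 142*k^4 + 334*k^3 + 436*k^2 + 296*k + 81, -2*k^5 - 18*k^4 - 64*k^3 - 114*k^2 - 103*k - 38, -k^4 - 7*k^3 - 19*k^2 - 23*k - 10] := by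
    simp only [Lp]; exact l6 (by ring) (by ring) (by ring) (by ring) (by ring) (by ring)
  have h17 : Lp 3 (-1) [-k^5 - 11*k^4 - 45*k^3 - 83*k^2 - 68*k - 20, -3*k^6 - 35*k^5 - 170*k^4 - 436*k^3 - 613*k^2 - 441*k - 126, k^2 + 3*k + 2, 3*k^6 + 32*k^5 + 142*k^4 + 334*k^3 + 436*k^2 + 296*k + 81, -2*k^5 - 18*k^4 - 64*k^3 - 114*k^2 - 103*k - 38, -k^4 - 7*k^3 - 19*k^2 - 23*k - 10] =
      [-k^5 - 11*k^4 - 45*k^3 - 83*k^2 - 68*k - 20, -3*k^6 - 35*k^5 - 170*k^4 - 436*k^3 - 613*k^2 - 441*k - 126, k^2 + 3*k + 2, -2*k^5 - 18*k^4 - 64*k^3 - 114*k^2 - 103*k - 38, -3*k^6 - 36*k^5 - 178*k^4 - 462*k^3 - 664*k^2 - 502*k - 157, -k^4 - 7*k^3 - 19*k^2 - 23*k - 10] := by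
    simp only [Lp]; exact l6 (by ring) (by ring) (by ring) (by ring) (by ring) (by ring)
  have h18 : Lp 2 (1) [-k^5 - 11*k^4 - 45*k^3 - 83*k^2 - 68*k - 20, -3*k^6 - 35*k^5 - 170*k^4 - 436*k^3 - 613*k^2 - 441*k - 126, k^2 + 3*k + 2, -2*k^5 - 18*k^4 - 64*k^3 - 114*k^2 - 103*k - 38, -3*k^6 - 36*k^5 - 178*k^4 - 462*k^3 - 664*k^2 - 502*k - 157, -k^4 - 7*k^3 - 19*k^2 - 23*k - 10] =
      [-k^5 - 11*k^4 - 45*k^3 - 83*k^2 - 68*k - 20, -3*k^6 - 35*k^5 - 170*k^4 - 436*k^3 - 613*k^2 - 441*k - 126, 2*k^5 + 18*k^4 + 64*k^3 + 116*k^2 + 109*k + 42, k^2 + 3*k + 2, -3*k^6 - 36*k^5 - 178*k^4 - 462*k^3 - 664*k^2 - 502*k - 157, -k^4 - 7*k^3 - 19*k^2 - 23*k - 10] := by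
    simp only [Lp]; exact l6 (by ring) (by ring) (by ring) (by ring) (by ring) (by ring)
  have h19 : Lp 2 (1) [-k^5 - 11*k^4 - 45*k^3 - 83*k^2 - 68*k - 20, -3*k^6 - 35*k^5 - 170*k^4 - 436*k^3 - 613*k^2 - 441*k - 126, 2*k^5 + 18*k^4 + 64*k^3 + 116*k^2 + 109*k + 42, k^2 + 3*k + 2, -3*k^6 - 36*k^5 - 178*k^4 - 462*k^3 - 664*k^2 - 502*k - 157, -k^4 - 7*k^3 - 19*k^2 - 23*k - 10] =
      [-k^5 - 11*k^4 - 45*k^3 - 83*k^2 - 68*k - 20, -3*k^6 - 35*k^5 - 170*k^4 - 436*k^3 - 613*k^2 - 441*k - 126, 4*k^5 + 36*k^4 + 128*k^3 + 231*k^2 + 215*k + 82, 2*k^5 + 18*k^4 + 64*k^3 + 116*k^2 + 109*k + 42, -3*k^6 - 36*k^5 - 178*k^4 - 462*k^3 - 664*k^2 - 502*k - 157, -k^4 - 7*k^3 - 19*k^2 - 23*k - 10] := by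
    simp only [Lp]; exact l6 (by ring) (by ring) (by ring) (by ring) (by ring) (by ring)
  have h20 : Lp 1 (-k - 2) [-k^5 - 11*k^4 - 45*k^3 - 83*k^2 - 68*k - 20, -3*k^6 - 35*k^5 - 170*k^4 - 436*k^3 - 613*k^2 - 441*k - 126, 4*k^5 + 36*k^4 + 128*k^3 + 231*k^2 + 215*k + 82, 2*k^5 + 18*k^4 + 64*k^3 + 116*k^2 + 109*k + 42, -3*k^6 - 36*k^5 - 178*k^4 - 462*k^3 - 664*k^2 - 502*k - 157, -k^4 - 7*k^3 - 19*k^2 - 23*k - 10] =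
      [-k^5 - 11*k^4 - 45*k^3 - 83*k^2 - 68*k - 20, 3*k^7 + 42*k^6 + 249*k^5 + 806*k^4 + 1536*k^3 + 1731*k^2 + 1079*k + 290, 3*k^7 + 45*k^6 + 288*k^5 + 1012*k^4 + 2100*k^3 + 2575*k^2 + 1735*k + 498, 2*k^5 + 18*k^4 + 64*k^3 + 116*k^2 + 109*k + 42, -3*k^6 - 36*k^5 - 178*k^4 - 462*k^3 - 664*k^2 - 502*k - 157, -k^4 - 7*k^3 - 19*k^2 - 23*k - 10] := by
    simp only [Lp]; exact l6 (by ring) (by ring) (by ring) (by ring) (by ring) (by ring)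
  have h21 : Lp 2 (k + 1) [-k^5 - 11*k^4 - 45*k^3 - 83*k^2 - 68*k - 20, 3*k^7 + 42*k^6 + 249*k^5 + 806*k^4 + 1536*k^3 + 1731*k^2 + 1079*k + 290, 3*k^7 + 45*k^6 + 288*k^5 + 1012*k^4 + 2100*k^3 + 2575*k^2 + 1735*k + 498, 2*k^5 + 18*k^4 + 64*k^3 + 116*k^2 + 109*k + 42, -3*k^6 - 36*k^5 - 178*k^4 - 462*k^3 - 664*k^2 - 502*k - 157, -k^4 - 7*k^3 - 19*k^2 - 23*k - 10] =
      [-k^5 - 11*k^4 - 45*k^3 - 83*k^2 - 68*k - 20, 3*k^7 + 42*k^6 + 249*k^5 + 806*k^4 + 1536*k^3 + 1731*k^2 + 1079*k + 290, 3*k^8 + 51*k^7 + 376*k^6 + 1568*k^5 + 4042*k^4 + 6595*k^3 + 6660*k^2 + 3817*k + 954, 3*k^8 + 48*k^7 + 331*k^6 + 1282*k^5 + 3048*k^4 + 4559*k^3 + 4201*k^2 + 2191*k + 498, -3*k^6 - 36*k^5 - 178*k^4 - 462*k^3 - 664*k^2 - 502*k - 157, -k^4 - 7*k^3 - 19*k^2 - 23*k - 10] := by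
    simp only [Lp]; exact l6 (by ring) (by ring) (by ring) (by ring) (by ring) (by ring)
  have h22 : Lp 0 (k + 3) [-k^5 - 11*k^4 - 45*k^3 - 83*k^2 - 68*k - 20, 3*k^7 + 42*k^6 + 249*k^5 + 806*k^4 + 1536*k^3 + 1731*k^2 + 1079*k + 290, 3*k^8 + 51*k^7 + 376*k^6 + 1568*k^5 + 4042*k^4 + 6595*k^3 + 6660*k^2 + 3817*k + 954, 3*k^8 + 48*k^7 + 331*k^6 + 1282*k^5 + 3048*k^4 + 4559*k^3 + 4201*k^2 + 2191*k + 498, -3*k^6 - 36*k^5 - 178*k^4 - 462*k^3 - 664*k^2 - 502*k - 157, -k^4 - 7*k^3 - 19*k^2 - 23*k - 10] =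
      [-3*k^8 - 51*k^7 - 376*k^6 - 1568*k^5 - 4043*k^4 - 6602*k^3 - 6672*k^2 - 3819*k - 950, -3*k^8 - 48*k^7 - 334*k^6 - 1318*k^5 - 3226*k^4 - 5021*k^3 - 4858*k^2 - 2672*k - 640, 3*k^8 + 51*k^7 + 376*k^6 + 1568*k^5 + 4042*k^4 + 6595*k^3 + 6660*k^2 + 3817*k + 954, 3*k^8 + 48*k^7 + 331*k^6 + 1282*k^5 + 3048*k^4 + 4559*k^3 + 4201*k^2 + 2191*k + 498, -3*k^6 - 36*k^5 - 178*k^4 - 462*k^3 - 664*k^2 - 502*k - 157, -k^4 - 7*k^3 - 19*k^2 - 23*k - 10] := by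
    simp only [Lp]; exact l6 (by ring) (by ring) (by ring) (by ring) (by ring) (by ring)
  simp only [wyo, run]
  rw [h0, h1, h2, h3, h4, h5, h6, h7, h8, h9, h10, h11, h12, h13, h14, h15, h16, h17, h18, h19, h20, h21, h22]

theorem wyo_4 (k : ℤ) : run (wyo k) [0, 0, 0, 0, 1, 0] =
    [3*k^8 + 54*k^7 + 427*k^6 + 1938*k^5 + 5526*k^4 + 10147*k^3 + 11730*k^2 + 7815*k + 2300, 3*k^8 + 51*k^7 + 382*k^6 + 1646*k^5 + 4465*k^4 + 7816*k^3 + 8632*k^2 + 5505*k + 1550, -3*k^8 - 54*k^7 - 427*k^6 - 1938*k^5 - 5525*k^4 - 10139*k^3 - 11711*k^2 - 7803*k - 2310, -3*k^8 - 51*k^7 - 379*k^6 - 1607*k^5 - 4251*k^4 - 7182*k^3 - 7568*k^2 - 4554*k - 1205, 3*k^6 + 39*k^5 + 214*k^4 + 634*k^3 + 1071*k^2 + 979*k + 380, k^4 + 8*k^3 + 26*k^2 + 40*k + 24] := by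
  have h0 : Lp 1 (-k - 3) [0, 0, 0, 0, 1, 0] =
      [0, 0, 0, 0, 1, 0] := by
    simp only [Lp]; exact l6 (by ring) (by ring) (by ring) (by ring) (by ring) (by ring)
  have h1 : Lp 3 (-k - 1) [0, 0, 0, 0, 1, 0] =
      [0, 0, 0, k + 1, k + 2, 0] := by
    simp only [Lp]; exact l6 (by ring) (by ring) (by ring) (by ring) (by ring) (by ring)
  have h2 : Lp 2 (k + 2) [0, 0, 0, k + 1, k + 2, 0] =
      [0, 0, -k^2 - 3*k - 2, -k^2 - 2*k - 1, k + 2, 0] := by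
    simp only [Lp]; exact l6 (by ring) (by ring) (by ring) (by ring) (by ring) (by ring)
  have h3 : Lp 3 (-1) [0, 0, -k^2 - 3*k - 2, -k^2 - 2*k - 1, k + 2, 0] =
      [0, 0, -k^2 - 3*k - 2, k + 2, k^2 + 4*k + 5, 0] := by
    simp only [Lp]; exact l6 (by ring) (by ring) (by ring) (by ring) (by ring) (by ring)
  have h4 : Lp 3 (-1) [0, 0, -k^2 - 3*k - 2, k + 2, k^2 + 4*k + 5, 0] =
      [0, 0, -k^2 - 3*k - 2, k^2 + 4*k + 5, 2*k^2 + 7*k + 8, 0] := by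
    simp only [Lp]; exact l6 (by ring) (by ring) (by ring) (by ring) (by ring) (by ring)
  have h5 : Lp 4 (1) [0, 0, -k^2 - 3*k - 2, k^2 + 4*k + 5, 2*k^2 + 7*k + 8, 0] =
      [0, 0, -k^2 - 3*k - 2, k^2 + 4*k + 5, 4*k^2 + 14*k + 16, 2*k^2 + 7*k + 8] := by
    simp only [Lp]; exact l6 (by ring) (by ring) (by ring) (by ring) (by ring) (by ring)
  have h6 : Lp 2 (-1) [0, 0, -k^2 - 3*k - 2, k^2 + 4*k + 5, 4*k^2 + 14*k + 16, 2*k^2 + 7*k + 8] =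
      [0, 0, k^2 + 4*k + 5, 3*k^2 + 11*k + 12, 4*k^2 + 14*k + 16, 2*k^2 + 7*k + 8] := by
    simp only [Lp]; exact l6 (by ring) (by ring) (by ring) (by ring) (by ring) (by ring)
  have h7 : Lp 1 (-1) [0, 0, k^2 + 4*k + 5, 3*k^2 + 11*k + 12, 4*k^2 + 14*k + 16, 2*k^2 + 7*k + 8] =
      [0, k^2 + 4*k + 5, 2*k^2 + 8*k + 10, 3*k^2 + 11*k + 12, 4*k^2 + 14*k + 16, 2*k^2 + 7*k + 8] := by
    simp only [Lp]; exact l6 (by ring) (by ring) (by ring) (by ring) (by ring) (by ring)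
  have h8 : Lp 3 (-k - 2) [0, k^2 + 4*k + 5, 2*k^2 + 8*k + 10, 3*k^2 + 11*k + 12, 4*k^2 + 14*k + 16, 2*k^2 + 7*k + 8] =
      [0, k^2 + 4*k + 5, 2*k^2 + 8*k + 10, k^3 + 8*k^2 + 21*k + 20, k^3 + 9*k^2 + 24*k + 24, 2*k^2 + 7*k + 8] := by
    simp only [Lp]; exact l6 (by ring) (by ring) (by ring) (by ring) (by ring) (by ring)
  have h9 : Lp 4 (k + 1) [0, k^2 + 4*k + 5, 2*k^2 + 8*k + 10, k^3 + 8*k^2 + 21*k + 20, k^3 + 9*k^2 + 24*k + 24, 2*k^2 + 7*k + 8] =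
      [0, k^2 + 4*k + 5, 2*k^2 + 8*k + 10, k^3 + 8*k^2 + 21*k + 20, k^4 + 9*k^3 + 33*k^2 + 57*k + 40, k^4 + 8*k^3 + 26*k^2 + 40*k + 24] := by
    simp only [Lp]; exact l6 (by ring) (by ring) (by ring) (by ring) (by ring) (by ring)
  have h10 : Lp 2 (k + 3) [0, k^2 + 4*k + 5, 2*k^2 + 8*k + 10, k^3 + 8*k^2 + 21*k + 20, k^4 + 9*k^3 + 33*k^2 + 57*k + 40, k^4 + 8*k^3 + 26*k^2 + 40*k + 24] =
      [0, k^2 + 4*k + 5, -k^4 - 9*k^3 - 29*k^2 - 41*k - 20, -k^4 - 8*k^3 - 23*k^2 - 28*k - 10, k^4 + 9*k^3 + 33*k^2 + 57*k + 40, k^4 + 8*k^3 + 26*k^2 + 40*k + 24] := by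
    simp only [Lp]; exact l6 (by ring) (by ring) (by ring) (by ring) (by ring) (by ring)
  have h11 : Lp 0 (1) [0, k^2 + 4*k + 5, -k^4 - 9*k^3 - 29*k^2 - 41*k - 20, -k^4 - 8*k^3 - 23*k^2 - 28*k - 10, k^4 + 9*k^3 + 33*k^2 + 57*k + 40, k^4 + 8*k^3 + 26*k^2 + 40*k + 24] =
      [-k^2 - 4*k - 5, 0, -k^4 - 9*k^3 - 29*k^2 - 41*k - 20, -k^4 - 8*k^3 - 23*k^2 - 28*k - 10, k^4 + 9*k^3 + 33*k^2 + 57*k + 40, k^4 + 8*k^3 + 26*k^2 + 40*k + 24] := by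
    simp only [Lp]; exact l6 (by ring) (by ring) (by ring) (by ring) (by ring) (by ring)
  have h12 : Lp 1 (-k - 3) [-k^2 - 4*k - 5, 0, -k^4 - 9*k^3 - 29*k^2 - 41*k - 20, -k^4 - 8*k^3 - 23*k^2 - 28*k - 10, k^4 + 9*k^3 + 33*k^2 + 57*k + 40, k^4 + 8*k^3 + 26*k^2 + 40*k + 24] =
      [-k^2 - 4*k - 5, -k^5 - 12*k^4 - 56*k^3 - 128*k^2 - 143*k - 60, -k^5 - 13*k^4 - 65*k^3 - 157*k^2 - 184*k - 80, -k^4 - 8*k^3 - 23*k^2 - 28*k - 10, k^4 + 9*k^3 + 33*k^2 + 57*k + 40, k^4 + 8*k^3 + 26*k^2 + 40*k + 24] := by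
    simp only [Lp]; exact l6 (by ring) (by ring) (by ring) (by ring) (by ring) (by ring)
  have h13 : Lp 3 (-k - 1) [-k^2 - 4*k - 5, -k^5 - 12*k^4 - 56*k^3 - 128*k^2 - 143*k - 60, -k^5 - 13*k^4 - 65*k^3 - 157*k^2 - 184*k - 80, -k^4 - 8*k^3 - 23*k^2 - 28*k - 10, k^4 + 9*k^3 + 33*k^2 + 57*k + 40, k^4 + 8*k^3 + 26*k^2 + 40*k + 24] =
      [-k^2 - 4*k - 5, -k^5 - 12*k^4 - 56*k^3 - 128*k^2 - 143*k - 60, -k^5 - 13*k^4 - 65*k^3 - 157*k^2 - 184*k - 80, 2*k^5 + 18*k^4 + 65*k^3 + 118*k^2 + 107*k + 40, 2*k^5 + 20*k^4 + 82*k^3 + 174*k^2 + 192*k + 90, k^4 + 8*k^3 + 26*k^2 + 40*k + 24] := by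
    simp only [Lp]; exact l6 (by ring) (by ring) (by ring) (by ring) (by ring) (by ring)
  have h14 : Lp 2 (k + 2) [-k^2 - 4*k - 5, -k^5 - 12*k^4 - 56*k^3 - 128*k^2 - 143*k - 60, -k^5 - 13*k^4 - 65*k^3 - 157*k^2 - 184*k - 80, 2*k^5 + 18*k^4 + 65*k^3 + 118*k^2 + 107*k + 40, 2*k^5 + 20*k^4 + 82*k^3 + 174*k^2 + 192*k + 90, k^4 + 8*k^3 + 26*k^2 + 40*k + 24] =
      [-k^2 - 4*k - 5, -k^5 - 12*k^4 - 56*k^3 - 128*k^2 - 143*k - 60, -3*k^6 - 38*k^5 - 205*k^4 - 600*k^3 - 998*k^2 - 886*k - 320, -3*k^6 - 35*k^5 - 174*k^4 - 470*k^3 - 723*k^2 - 595*k - 200, 2*k^5 + 20*k^4 + 82*k^3 + 174*k^2 + 192*k + 90, k^4 + 8*k^3 + 26*k^2 + 40*k + 24] := by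
    simp only [Lp]; exact l6 (by ring) (by ring) (by ring) (by ring) (by ring) (by ring)
  have h15 : Lp 0 (1) [-k^2 - 4*k - 5, -k^5 - 12*k^4 - 56*k^3 - 128*k^2 - 143*k - 60, -3*k^6 - 38*k^5 - 205*k^4 - 600*k^3 - 998*k^2 - 886*k - 320, -3*k^6 - 35*k^5 - 174*k^4 - 470*k^3 - 723*k^2 - 595*k - 200, 2*k^5 + 20*k^4 + 82*k^3 + 174*k^2 + 192*k + 90, k^4 + 8*k^3 + 26*k^2 + 40*k + 24] =
      [k^5 + 12*k^4 + 56*k^3 + 126*k^2 + 135*k + 50, -k^2 - 4*k - 5, -3*k^6 - 38*k^5 - 205*k^4 - 600*k^3 - 998*k^2 - 886*k - 320, -3*k^6 - 35*k^5 - 174*k^4 - 470*k^3 - 723*k^2 - 595*k - 200, 2*k^5 + 20*k^4 + 82*k^3 + 174*k^2 + 192*k + 90, k^4 + 8*k^3 + 26*k^2 + 40*k + 24] := by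
    simp only [Lp]; exact l6 (by ring) (by ring) (by ring) (by ring) (by ring) (by ring)
  have h16 : Lp 1 (1) [k^5 + 12*k^4 + 56*k^3 + 126*k^2 + 135*k + 50, -k^2 - 4*k - 5, -3*k^6 - 38*k^5 - 205*k^4 - 600*k^3 - 998*k^2 - 886*k - 320, -3*k^6 - 35*k^5 - 174*k^4 - 470*k^3 - 723*k^2 - 595*k - 200, 2*k^5 + 20*k^4 + 82*k^3 + 174*k^2 + 192*k + 90, k^4 + 8*k^3 + 26*k^2 + 40*k + 24] =
      [k^5 + 12*k^4 + 56*k^3 + 126*k^2 + 135*k + 50, 3*k^6 + 38*k^5 + 205*k^4 + 600*k^3 + 996*k^2 + 878*k + 310, -k^2 - 4*k - 5, -3*k^6 - 35*k^5 - 174*k^4 - 470*k^3 - 723*k^2 - 595*k - 200, 2*k^5 + 20*k^4 + 82*k^3 + 174*k^2 + 192*k + 90, k^4 + 8*k^3 + 26*k^2 + 40*k + 24] := by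
    simp only [Lp]; exact l6 (by ring) (by ring) (by ring) (by ring) (by ring) (by ring)
  have h17 : Lp 3 (-1) [k^5 + 12*k^4 + 56*k^3 + 126*k^2 + 135*k + 50, 3*k^6 + 38*k^5 + 205*k^4 + 600*k^3 + 996*k^2 + 878*k + 310, -k^2 - 4*k - 5, -3*k^6 - 35*k^5 - 174*k^4 - 470*k^3 - 723*k^2 - 595*k - 200, 2*k^5 + 20*k^4 + 82*k^3 + 174*k^2 + 192*k + 90, k^4 + 8*k^3 + 26*k^2 + 40*k + 24] =
      [k^5 + 12*k^4 + 56*k^3 + 126*k^2 + 135*k + 50, 3*k^6 + 38*k^5 + 205*k^4 + 600*k^3 + 996*k^2 + 878*k + 310, -k^2 - 4*k - 5, 2*k^5 + 20*k^4 + 82*k^3 + 174*k^2 + 192*k + 90, 3*k^6 + 39*k^5 + 214*k^4 + 634*k^3 + 1071*k^2 + 979*k + 380, k^4 + 8*k^3 + 26*k^2 + 40*k + 24] := by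
    simp only [Lp]; exact l6 (by ring) (by ring) (by ring) (by ring) (by ring) (by ring)
  have h18 : Lp 2 (1) [k^5 + 12*k^4 + 56*k^3 + 126*k^2 + 135*k + 50, 3*k^6 + 38*k^5 + 205*k^4 + 600*k^3 + 996*k^2 + 878*k + 310, -k^2 - 4*k - 5, 2*k^5 + 20*k^4 + 82*k^3 + 174*k^2 + 192*k + 90, 3*k^6 + 39*k^5 + 214*k^4 + 634*k^3 + 1071*k^2 + 979*k + 380, k^4 + 8*k^3 + 26*k^2 + 40*k + 24] =
      [k^5 + 12*k^4 + 56*k^3 + 126*k^2 + 135*k + 50, 3*k^6 + 38*k^5 + 205*k^4 + 600*k^3 + 996*k^2 + 878*k + 310, -2*k^5 - 20*k^4 - 82*k^3 - 176*k^2 - 200*k - 100, -k^2 - 4*k - 5, 3*k^6 + 39*k^5 + 214*k^4 + 634*k^3 + 1071*k^2 + 979*k + 380, k^4 + 8*k^3 + 26*k^2 + 40*k + 24] := by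
    simp only [Lp]; exact l6 (by ring) (by ring) (by ring) (by ring) (by ring) (by ring)
  have h19 : Lp 2 (1) [k^5 + 12*k^4 + 56*k^3 + 126*k^2 + 135*k + 50, 3*k^6 + 38*k^5 + 205*k^4 + 600*k^3 + 996*k^2 + 878*k + 310, -2*k^5 - 20*k^4 - 82*k^3 - 176*k^2 - 200*k - 100, -k^2 - 4*k - 5, 3*k^6 + 39*k^5 + 214*k^4 + 634*k^3 + 1071*k^2 + 979*k + 380, k^4 + 8*k^3 + 26*k^2 + 40*k + 24] =
      [k^5 + 12*k^4 + 56*k^3 + 126*k^2 + 135*k + 50, 3*k^6 + 38*k^5 + 205*k^4 + 600*k^3 + 996*k^2 + 878*k + 310, -4*k^5 - 40*k^4 - 164*k^3 - 351*k^2 - 396*k - 195, -2*k^5 - 20*k^4 - 82*k^3 - 176*k^2 - 200*k - 100, 3*k^6 + 39*k^5 + 214*k^4 + 634*k^3 + 1071*k^2 + 979*k + 380, k^4 + 8*k^3 + 26*k^2 + 40*k + 24] := by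
    simp only [Lp]; exact l6 (by ring) (by ring) (by ring) (by ring) (by ring) (by ring)
  have h20 : Lp 1 (-k - 2) [k^5 + 12*k^4 + 56*k^3 + 126*k^2 + 135*k + 50, 3*k^6 + 38*k^5 + 205*k^4 + 600*k^3 + 996*k^2 + 878*k + 310, -4*k^5 - 40*k^4 - 164*k^3 - 351*k^2 - 396*k - 195, -2*k^5 - 20*k^4 - 82*k^3 - 176*k^2 - 200*k - 100, 3*k^6 + 39*k^5 + 214*k^4 + 634*k^3 + 1071*k^2 + 979*k + 380, k^4 + 8*k^3 + 26*k^2 + 40*k + 24] =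
      [k^5 + 12*k^4 + 56*k^3 + 126*k^2 + 135*k + 50, -3*k^7 - 45*k^6 - 291*k^5 - 1049*k^4 - 2275*k^3 - 2972*k^2 - 2175*k - 700, -3*k^7 - 48*k^6 - 333*k^5 - 1294*k^4 - 3039*k^3 - 4319*k^2 - 3449*k - 1205, -2*k^5 - 20*k^4 - 82*k^3 - 176*k^2 - 200*k - 100, 3*k^6 + 39*k^5 + 214*k^4 + 634*k^3 + 1071*k^2 + 979*k + 380, k^4 + 8*k^3 + 26*k^2 + 40*k + 24] := by
    simp only [Lp]; exact l6 (by ring) (by ring) (by ring) (by ring) (by ring) (by ring)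
  have h21 : Lp 2 (k + 1) [k^5 + 12*k^4 + 56*k^3 + 126*k^2 + 135*k + 50, -3*k^7 - 45*k^6 - 291*k^5 - 1049*k^4 - 2275*k^3 - 2972*k^2 - 2175*k - 700, -3*k^7 - 48*k^6 - 333*k^5 - 1294*k^4 - 3039*k^3 - 4319*k^2 - 3449*k - 1205, -2*k^5 - 20*k^4 - 82*k^3 - 176*k^2 - 200*k - 100, 3*k^6 + 39*k^5 + 214*k^4 + 634*k^3 + 1071*k^2 + 979*k + 380, k^4 + 8*k^3 + 26*k^2 + 40*k + 24] =
      [k^5 + 12*k^4 + 56*k^3 + 126*k^2 + 135*k + 50, -3*k^7 - 45*k^6 - 291*k^5 - 1049*k^4 - 2275*k^3 - 2972*k^2 - 2175*k - 700, -3*k^8 - 54*k^7 - 427*k^6 - 1938*k^5 - 5525*k^4 - 10139*k^3 - 11711*k^2 - 7803*k - 2310, -3*k^8 - 51*k^7 - 379*k^6 - 1607*k^5 - 4251*k^4 - 7182*k^3 - 7568*k^2 - 4554*k - 1205, 3*k^6 + 39*k^5 + 214*k^4 + 634*k^3 + 1071*k^2 + 979*k + 380, k^4 + 8*k^3 + 26*k^2 + 40*k + 24] := by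
    simp only [Lp]; exact l6 (by ring) (by ring) (by ring) (by ring) (by ring) (by ring)
  have h22 : Lp 0 (k + 3) [k^5 + 12*k^4 + 56*k^3 + 126*k^2 + 135*k + 50, -3*k^7 - 45*k^6 - 291*k^5 - 1049*k^4 - 2275*k^3 - 2972*k^2 - 2175*k - 700, -3*k^8 - 54*k^7 - 427*k^6 - 1938*k^5 - 5525*k^4 - 10139*k^3 - 11711*k^2 - 7803*k - 2310, -3*k^8 - 51*k^7 - 379*k^6 - 1607*k^5 - 4251*k^4 - 7182*k^3 - 7568*k^2 - 4554*k - 1205, 3*k^6 + 39*k^5 + 214*k^4 + 634*k^3 + 1071*k^2 + 979*k + 380, k^4 + 8*k^3 + 26*k^2 + 40*k + 24] =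
      [3*k^8 + 54*k^7 + 427*k^6 + 1938*k^5 + 5526*k^4 + 10147*k^3 + 11730*k^2 + 7815*k + 2300, 3*k^8 + 51*k^7 + 382*k^6 + 1646*k^5 + 4465*k^4 + 7816*k^3 + 8632*k^2 + 5505*k + 1550, -3*k^8 - 54*k^7 - 427*k^6 - 1938*k^5 - 5525*k^4 - 10139*k^3 - 11711*k^2 - 7803*k - 2310, -3*k^8 - 51*k^7 - 379*k^6 - 1607*k^5 - 4251*k^4 - 7182*k^3 - 7568*k^2 - 4554*k - 1205, 3*k^6 + 39*k^5 + 214*k^4 + 634*k^3 + 1071*k^2 + 979*k + 380, k^4 + 8*k^3 + 26*k^2 + 40*k + 24] := by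
    simp only [Lp]; exact l6 (by ring) (by ring) (by ring) (by ring) (by ring) (by ring)
  simp only [wyo, run]
  rw [h0, h1, h2, h3, h4, h5, h6, h7, h8, h9, h10, h11, h12, h13, h14, h15, h16, h17, h18, h19, h20, h21, h22]

theorem wyo_5 (k : ℤ) : run (wyo k) [0, 0, 0, 0, 0, 1] =
    [-3*k^6 - 42*k^5 - 246*k^4 - 772*k^3 - 1369*k^2 - 1300*k - 516, -3*k^6 - 39*k^5 - 213*k^4 - 625*k^3 - 1039*k^2 - 929*k - 350, 3*k^6 + 42*k^5 + 246*k^4 + 772*k^3 + 1368*k^2 + 1296*k + 512, 3*k^6 + 39*k^5 + 210*k^4 + 598*k^3 + 946*k^2 + 784*k + 264, -3*k^4 - 27*k^3 - 93*k^2 - 145*k - 86, -k^2 - 4*k - 3] := by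
  have h0 : Lp 1 (-k - 3) [0, 0, 0, 0, 0, 1] =
      [0, 0, 0, 0, 0, 1] := by
    simp only [Lp]; exact l6 (by ring) (by ring) (by ring) (by ring) (by ring) (by ring)
  have h1 : Lp 3 (-k - 1) [0, 0, 0, 0, 0, 1] =
      [0, 0, 0, 0, 0, 1] := by
    simp only [Lp]; exact l6 (by ring) (by ring) (by ring) (by ring) (by ring) (by ring)
  have h2 : Lp 2 (k + 2) [0, 0, 0, 0, 0, 1] =
      [0, 0, 0, 0, 0, 1] := by
    simp only [Lp]; exact l6 (by ring) (by ring) (by ring) (by ring) (by ring) (by ring)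
  have h3 : Lp 3 (-1) [0, 0, 0, 0, 0, 1] =
      [0, 0, 0, 0, 0, 1] := by
    simp only [Lp]; exact l6 (by ring) (by ring) (by ring) (by ring) (by ring) (by ring)
  have h4 : Lp 3 (-1) [0, 0, 0, 0, 0, 1] =
      [0, 0, 0, 0, 0, 1] := by
    simp only [Lp]; exact l6 (by ring) (by ring) (by ring) (by ring) (by ring) (by ring)
  have h5 : Lp 4 (1) [0, 0, 0, 0, 0, 1] =
      [0, 0, 0, 0, -1, 0] := by
    simp only [Lp]; exact l6 (by ring) (by ring) (by ring) (by ring) (by ring) (by ring)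
  have h6 : Lp 2 (-1) [0, 0, 0, 0, -1, 0] =
      [0, 0, 0, 0, -1, 0] := by
    simp only [Lp]; exact l6 (by ring) (by ring) (by ring) (by ring) (by ring) (by ring)
  have h7 : Lp 1 (-1) [0, 0, 0, 0, -1, 0] =
      [0, 0, 0, 0, -1, 0] := by
    simp only [Lp]; exact l6 (by ring) (by ring) (by ring) (by ring) (by ring) (by ring)
  have h8 : Lp 3 (-k - 2) [0, 0, 0, 0, -1, 0] =
      [0, 0, 0, -k - 2, -k - 3, 0] := by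
    simp only [Lp]; exact l6 (by ring) (by ring) (by ring) (by ring) (by ring) (by ring)
  have h9 : Lp 4 (k + 1) [0, 0, 0, -k - 2, -k - 3, 0] =
      [0, 0, 0, -k - 2, -k^2 - 5*k - 6, -k^2 - 4*k - 3] := by
    simp only [Lp]; exact l6 (by ring) (by ring) (by ring) (by ring) (by ring) (by ring)
  have h10 : Lp 2 (k + 3) [0, 0, 0, -k - 2, -k^2 - 5*k - 6, -k^2 - 4*k - 3] =
      [0, 0, k^2 + 5*k + 6, k^2 + 4*k + 4, -k^2 - 5*k - 6, -k^2 - 4*k - 3] := by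
    simp only [Lp]; exact l6 (by ring) (by ring) (by ring) (by ring) (by ring) (by ring)
  have h11 : Lp 0 (1) [0, 0, k^2 + 5*k + 6, k^2 + 4*k + 4, -k^2 - 5*k - 6, -k^2 - 4*k - 3] =
      [0, 0, k^2 + 5*k + 6, k^2 + 4*k + 4, -k^2 - 5*k - 6, -k^2 - 4*k - 3] := by
    simp only [Lp]; exact l6 (by ring) (by ring) (by ring) (by ring) (by ring) (by ring)
  have h12 : Lp 1 (-k - 3) [0, 0, k^2 + 5*k + 6, k^2 + 4*k + 4, -k^2 - 5*k - 6, -k^2 - 4*k - 3] =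
      [0, k^3 + 8*k^2 + 21*k + 18, k^3 + 9*k^2 + 26*k + 24, k^2 + 4*k + 4, -k^2 - 5*k - 6, -k^2 - 4*k - 3] := by
    simp only [Lp]; exact l6 (by ring) (by ring) (by ring) (by ring) (by ring) (by ring)
  have h13 : Lp 3 (-k - 1) [0, k^3 + 8*k^2 + 21*k + 18, k^3 + 9*k^2 + 26*k + 24, k^2 + 4*k + 4, -k^2 - 5*k - 6, -k^2 - 4*k - 3] =
      [0, k^3 + 8*k^2 + 21*k + 18, k^3 + 9*k^2 + 26*k + 24, -2*k^3 - 10*k^2 - 15*k - 6, -2*k^3 - 12*k^2 - 24*k - 16, -k^2 - 4*k - 3] := by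
    simp only [Lp]; exact l6 (by ring) (by ring) (by ring) (by ring) (by ring) (by ring)
  have h14 : Lp 2 (k + 2) [0, k^3 + 8*k^2 + 21*k + 18, k^3 + 9*k^2 + 26*k + 24, -2*k^3 - 10*k^2 - 15*k - 6, -2*k^3 - 12*k^2 - 24*k - 16, -k^2 - 4*k - 3] =
      [0, k^3 + 8*k^2 + 21*k + 18, 3*k^4 + 26*k^3 + 88*k^2 + 138*k + 84, 3*k^4 + 23*k^3 + 69*k^2 + 97*k + 54, -2*k^3 - 12*k^2 - 24*k - 16, -k^2 - 4*k - 3] := by
    simp only [Lp]; exact l6 (by ring) (by ring) (by ring) (by ring) (by ring) (by ring)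
  have h15 : Lp 0 (1) [0, k^3 + 8*k^2 + 21*k + 18, 3*k^4 + 26*k^3 + 88*k^2 + 138*k + 84, 3*k^4 + 23*k^3 + 69*k^2 + 97*k + 54, -2*k^3 - 12*k^2 - 24*k - 16, -k^2 - 4*k - 3] =
      [-k^3 - 8*k^2 - 21*k - 18, 0, 3*k^4 + 26*k^3 + 88*k^2 + 138*k + 84, 3*k^4 + 23*k^3 + 69*k^2 + 97*k + 54, -2*k^3 - 12*k^2 - 24*k - 16, -k^2 - 4*k - 3] := by
    simp only [Lp]; exact l6 (by ring) (by ring) (by ring) (by ring) (by ring) (by ring)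
  have h16 : Lp 1 (1) [-k^3 - 8*k^2 - 21*k - 18, 0, 3*k^4 + 26*k^3 + 88*k^2 + 138*k + 84, 3*k^4 + 23*k^3 + 69*k^2 + 97*k + 54, -2*k^3 - 12*k^2 - 24*k - 16, -k^2 - 4*k - 3] =
      [-k^3 - 8*k^2 - 21*k - 18, -3*k^4 - 26*k^3 - 88*k^2 - 138*k - 84, 0, 3*k^4 + 23*k^3 + 69*k^2 + 97*k + 54, -2*k^3 - 12*k^2 - 24*k - 16, -k^2 - 4*k - 3] := by
    simp only [Lp]; exact l6 (by ring) (by ring) (by ring) (by ring) (by ring) (by ring)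
  have h17 : Lp 3 (-1) [-k^3 - 8*k^2 - 21*k - 18, -3*k^4 - 26*k^3 - 88*k^2 - 138*k - 84, 0, 3*k^4 + 23*k^3 + 69*k^2 + 97*k + 54, -2*k^3 - 12*k^2 - 24*k - 16, -k^2 - 4*k - 3] =
      [-k^3 - 8*k^2 - 21*k - 18, -3*k^4 - 26*k^3 - 88*k^2 - 138*k - 84, 0, -2*k^3 - 12*k^2 - 24*k - 16, -3*k^4 - 27*k^3 - 93*k^2 - 145*k - 86, -k^2 - 4*k - 3] := by
    simp only [Lp]; exact l6 (by ring) (by ring) (by ring) (by ring) (by ring) (by ring)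
  have h18 : Lp 2 (1) [-k^3 - 8*k^2 - 21*k - 18, -3*k^4 - 26*k^3 - 88*k^2 - 138*k - 84, 0, -2*k^3 - 12*k^2 - 24*k - 16, -3*k^4 - 27*k^3 - 93*k^2 - 145*k - 86, -k^2 - 4*k - 3] =
      [-k^3 - 8*k^2 - 21*k - 18, -3*k^4 - 26*k^3 - 88*k^2 - 138*k - 84, 2*k^3 + 12*k^2 + 24*k + 16, 0, -3*k^4 - 27*k^3 - 93*k^2 - 145*k - 86, -k^2 - 4*k - 3] := by
    simp only [Lp]; exact l6 (by ring) (by ring) (by ring) (by ring) (by ring) (by ring)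
  have h19 : Lp 2 (1) [-k^3 - 8*k^2 - 21*k - 18, -3*k^4 - 26*k^3 - 88*k^2 - 138*k - 84, 2*k^3 + 12*k^2 + 24*k + 16, 0, -3*k^4 - 27*k^3 - 93*k^2 - 145*k - 86, -k^2 - 4*k - 3] =
      [-k^3 - 8*k^2 - 21*k - 18, -3*k^4 - 26*k^3 - 88*k^2 - 138*k - 84, 4*k^3 + 24*k^2 + 48*k + 32, 2*k^3 + 12*k^2 + 24*k + 16, -3*k^4 - 27*k^3 - 93*k^2 - 145*k - 86, -k^2 - 4*k - 3] := by
    simp only [Lp]; exact l6 (by ring) (by ring) (by ring) (by ring) (by ring) (by ring)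
  have h20 : Lp 1 (-k - 2) [-k^3 - 8*k^2 - 21*k - 18, -3*k^4 - 26*k^3 - 88*k^2 - 138*k - 84, 4*k^3 + 24*k^2 + 48*k + 32, 2*k^3 + 12*k^2 + 24*k + 16, -3*k^4 - 27*k^3 - 93*k^2 - 145*k - 86, -k^2 - 4*k - 3] =
      [-k^3 - 8*k^2 - 21*k - 18, 3*k^5 + 33*k^4 + 146*k^3 + 322*k^2 + 350*k + 148, 3*k^5 + 36*k^4 + 176*k^3 + 434*k^2 + 536*k + 264, 2*k^3 + 12*k^2 + 24*k + 16, -3*k^4 - 27*k^3 - 93*k^2 - 145*k - 86, -k^2 - 4*k - 3] := by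
    simp only [Lp]; exact l6 (by ring) (by ring) (by ring) (by ring) (by ring) (by ring)
  have h21 : Lp 2 (k + 1) [-k^3 - 8*k^2 - 21*k - 18, 3*k^5 + 33*k^4 + 146*k^3 + 322*k^2 + 350*k + 148, 3*k^5 + 36*k^4 + 176*k^3 + 434*k^2 + 536*k + 264, 2*k^3 + 12*k^2 + 24*k + 16, -3*k^4 - 27*k^3 - 93*k^2 - 145*k - 86, -k^2 - 4*k - 3] =
      [-k^3 - 8*k^2 - 21*k - 18, 3*k^5 + 33*k^4 + 146*k^3 + 322*k^2 + 350*k + 148, 3*k^6 + 42*k^5 + 246*k^4 + 772*k^3 + 1368*k^2 + 1296*k + 512, 3*k^6 + 39*k^5 + 210*k^4 + 598*k^3 + 946*k^2 + 784*k + 264, -3*k^4 - 27*k^3 - 93*k^2 - 145*k - 86, -k^2 - 4*k - 3] := by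
    simp only [Lp]; exact l6 (by ring) (by ring) (by ring) (by ring) (by ring) (by ring)
  have h22 : Lp 0 (k + 3) [-k^3 - 8*k^2 - 21*k - 18, 3*k^5 + 33*k^4 + 146*k^3 + 322*k^2 + 350*k + 148, 3*k^6 + 42*k^5 + 246*k^4 + 772*k^3 + 1368*k^2 + 1296*k + 512, 3*k^6 + 39*k^5 + 210*k^4 + 598*k^3 + 946*k^2 + 784*k + 264, -3*k^4 - 27*k^3 - 93*k^2 - 145*k - 86, -k^2 - 4*k - 3] =
      [-3*k^6 - 42*k^5 - 246*k^4 - 772*k^3 - 1369*k^2 - 1300*k - 516, -3*k^6 - 39*k^5 - 213*k^4 - 625*k^3 - 1039*k^2 - 929*k - 350, 3*k^6 + 42*k^5 + 246*k^4 + 772*k^3 + 1368*k^2 + 1296*k + 512, 3*k^6 + 39*k^5 + 210*k^4 + 598*k^3 + 946*k^2 + 784*k + 264, -3*k^4 - 27*k^3 - 93*k^2 - 145*k - 86, -k^2 - 4*k - 3] := by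
    simp only [Lp]; exact l6 (by ring) (by ring) (by ring) (by ring) (by ring) (by ring)
  simp only [wyo, run]
  rw [h0, h1, h2, h3, h4, h5, h6, h7, h8, h9, h10, h11, h12, h13, h14, h15, h16, h17, h18, h19, h20, h21, h22]


end Pool.Agent.H22.SBE
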